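import Pool.Agent.H98.Fib.Saddle

/-!
# Convergence to the saddle point and the edge constants (problem MP_9069b3_mp)
-/

namespace Pool.Agent.H98.Fib

/-- `∂(-V)/∂X` on the invariant surface. -/
noncomputable def gX (X Y Z : ℝ) : ℝ := 2 * Z + (1 - 4 * (Z * Z)) * ((Y * Z - X) / (Y - X * Z))

/-- `∂(-V)/∂Z` on the invariant surface. -/
noncomputable def gZ (X Y Z : ℝ) : ℝ :=
  2 * X - 8 * (Z * Y) + (1 - 4 * (Z * Z)) * ((X * Y - Z) / (Y - X * Z))

/-- All local estimates together. -/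
theorem saddle {x y k1 X Y Z : ℝ} (hfix : y * (1 + 2 * x) = x)
    (hinv : 2 * x ^ 2 + y ^ 2 - 2 * x ^ 2 * y = k1)
    (hx : -(77627 / 100000) ≤ x ∧ x ≤ -(77626 / 100000))
    (hy : 140492 / 100000 ≤ y ∧ y ≤ 140493 / 100000)
    (hI : X ^ 2 + Y ^ 2 + Z ^ 2 - 2 * X * Y * Z = k1) (hD : 0 < Y - X * Z)
    (hX : |X - x| ≤ 1 / 100) (hZ : |Z - x| ≤ 1 / 100) :
    (∃ FU FV : ℝ, |FU| ≤ 109 / 100 ∧ 761 / 100 ≤ FV ∧
      Y - 2 * (2 * Z * Y - X) * Z - x = FU * (X - x) + FV * (Z - x)) ∧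
    |gZ X Y Z - (-1 - 8 * (x * y))| ≤ 422 / 100 * |X - x| + 1543 / 100 * |Z - x| ∧
    |gX X Y Z + 1| ≤ 106 / 100 * |X - x| + 401 / 100 * |Z - x| := by
  obtain ⟨u, rfl⟩ : ∃ u, X = x + u := ⟨X - x, by ring⟩
  obtain ⟨v, rfl⟩ : ∃ v, Z = x + v := ⟨Z - x, by ring⟩
  obtain ⟨t, rfl⟩ : ∃ t, Y = y + t := ⟨Y - y, by ring⟩
  have eu : x + u - x = u := by ring
  have ev : x + v - x = v := by ring
  rw [eu] at hX
  rw [ev] at hZ
  rw [eu, ev]
  have hu := abs_le.1 hX
  have hv := abs_le.1 hZ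
  have hR : t * (t + 2 * (y - (x + u) * (x + v))) =
      (2 * (y * (x + v)) - (x + u) - x) * u + (2 * (x * y) - (x + v) - x) * v := by
    linear_combination hI - hinv
  obtain ⟨ht, c1, c2, hc1, hc2, htt⟩ := saddleA hx hy hu hv hR (by linarith)
  have h1 := saddleF hx hy hu hv ht hc1 hc2
  have h2 := saddleG hx hy hu hv ht hc1 hc2
  have hne : (1 - 2 * x) ≠ 0 := by
    have := hx.2
    intro h0
    linarith
  have hDne : y + t - (x + u) * (x + v) ≠ 0 := hD.ne'
  obtain ⟨nu, hnu⟩ : ∃ z : ℝ, z = (1 - 2 * x)⁻¹ := ⟨_, rfl⟩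
  have hnu1 : nu * (1 - 2 * x) = 1 := by rw [hnu]; exact inv_mul_cancel₀ hne
  rw [← hnu] at h2
  obtain ⟨iP, hiP⟩ : ∃ z : ℝ, z = (y + t - (x + u) * (x + v))⁻¹ := ⟨_, rfl⟩
  have hiP1 : iP * (y + t - (x + u) * (x + v)) = 1 := by rw [hiP]; exact inv_mul_cancel₀ hDne
  rw [← hiP] at h2
  -- the relation between `x`, `y`, `nu`
  have hstar : x * y - x + nu * (y - x * x) = 0 := by
    have h3 : (x * y - x + nu * (y - x * x)) * (1 - 2 * x) = 0 := by
      linear_combination (y - x * x) * hnu1 + (1 - x) * hfix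
    exact (mul_eq_zero.1 h3).resolve_right hne
  have hm : (1 - 4 * (x * x)) * nu = 1 + 2 * x := by
    linear_combination (1 + 2 * x) * hnu1
  refine ⟨⟨2 * (x + v) + (4 * ((x + v) * (x + v)) - 1) * c1, _, abs_le.2 h1.1, h1.2, ?_⟩, ?_, ?_⟩
  · linear_combination (1 - 4 * (x + v) ^ 2) * htt + (1 - 2 * x) * hfix
  · have key : gZ (x + u) (y + t) (x + v) - (-1 - 8 * (x * y)) =
        (2 + 8 * (x * c1) + (1 - 4 * ((x + v) * (x + v))) * iP *
          (y + t - nu * x - (x + nu) * c1)) * u +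
        (8 * (x * c2) - 8 * (y + t) + (1 - 4 * ((x + v) * (x + v))) * iP *
          ((-1) * (nu * (x + u) + 1) - (x + nu) * c2) + 4 * (nu * (x + v + x))) * v := by
      unfold gZ
      rw [div_eq_mul_inv, ← hiP]
      linear_combination (-8 * x + (1 - 4 * ((x + v) * (x + v))) * iP * (x + nu)) * htt
        + (1 - 4 * ((x + v) * (x + v))) * iP * hstar
        - (1 - 4 * ((x + v) * (x + v))) * nu * hiP1 - hm
    rw [key]
    refine (abs_add_le _ _).trans (add_le_add ?_ ?_)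
    · rw [abs_mul]
      exact mul_le_mul_of_nonneg_right h2.1 (abs_nonneg _)
    · rw [abs_mul]
      exact mul_le_mul_of_nonneg_right h2.2.1 (abs_nonneg _)
  · have key : gX (x + u) (y + t) (x + v) + 1 =
        ((1 - 4 * ((x + v) * (x + v))) * iP *
          ((-1) * (1 + nu * x) - (x + nu) * c1)) * u +
        (2 + 4 * (nu * (x + v + x)) + (1 - 4 * ((x + v) * (x + v))) * iP *
          (y + t - nu * (x + u) - (x + nu) * c2)) * v := by
      unfold gX
      rw [div_eq_mul_inv, ← hiP]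
      linear_combination ((1 - 4 * ((x + v) * (x + v))) * iP * (x + nu)) * htt
        + (1 - 4 * ((x + v) * (x + v))) * iP * hstar
        - (1 - 4 * ((x + v) * (x + v))) * nu * hiP1 - hm
    rw [key]
    refine (abs_add_le _ _).trans (add_le_add ?_ ?_)
    · rw [abs_mul]
      exact mul_le_mul_of_nonneg_right h2.2.2.1 (abs_nonneg _)
    · rw [abs_mul]
      exact mul_le_mul_of_nonneg_right h2.2.2.2 (abs_nonneg _)

theorem abs_log_div_le {a b m : ℝ} (hm : 0 < m) (ha : m ≤ a) (hb : m ≤ b) :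
    |Real.log (a / b)| ≤ |a - b| / m := by
  have ha0 : 0 < a := hm.trans_le ha
  have hb0 : 0 < b := hm.trans_le hb
  have key : ∀ {p q : ℝ}, m ≤ p → m ≤ q → Real.log (p / q) ≤ |p - q| / m := by
    intro p q hp hq
    have hp0 : 0 < p := hm.trans_le hp
    have hq0 : 0 < q := hm.trans_le hq
    refine (Real.log_le_sub_one_of_pos (div_pos hp0 hq0)).trans ?_
    have e : p / q - 1 = (p - q) / q := by field_simp
    rw [e]
    refine (div_le_div_of_nonneg_right (le_abs_self (p - q)) hq0.le).trans ?_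
    exact div_le_div_of_nonneg_left (abs_nonneg _) hm hq
  rw [abs_le]
  constructor
  · have h := key hb ha
    rw [← inv_div, Real.log_inv, abs_sub_comm] at h
    linarith
  · exact key ha hb

/-- The edge constant of an orbit of `(X, Y, Z) ↦ (Z, -W, -V)` near the saddle point; `X (n+1)` is
the third coordinate, `D n` the derivative of the third coordinate with respect to the energy,
`sg n` the quotient of the derivatives of the first and the third coordinate. -/
theorem orbit_edge {x y k1 μ : ℝ} (hfix : y * (1 + 2 * x) = x)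
    (hinv : 2 * x ^ 2 + y ^ 2 - 2 * x ^ 2 * y = k1)
    (hμ : μ + μ⁻¹ = -1 - 8 * (x * y)) (hμ1 : 759 / 100 ≤ μ) (hμ2 : μ ≤ 760 / 100)
    (hx : -(77627 / 100000) ≤ x ∧ x ≤ -(77626 / 100000))
    (hy : 140492 / 100000 ≤ y ∧ y ≤ 140493 / 100000)
    {X Y sg D : ℕ → ℝ}
    (hI : ∀ n, X n ^ 2 + Y n ^ 2 + X (n + 1) ^ 2 - 2 * X n * Y n * X (n + 1) = k1)
    (hD : ∀ n, 0 < Y n - X n * X (n + 1))
    (hrec : ∀ n, X (n + 2) = Y n - 2 * (2 * X (n + 1) * Y n - X n) * X (n + 1))
    (hX : ∀ n, |X n - x| ≤ 1 / 100)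
    (hg : ∀ n, D (n + 1) = D n * (gZ (X n) (Y n) (X (n + 1)) + gX (X n) (Y n) (X (n + 1)) * sg n))
    (hsg : ∀ n, sg (n + 1) * D (n + 1) = D n)
    (hDpos : ∀ n, 0 < D n) (hsg0 : |sg 0 - μ⁻¹| ≤ 1 / 100) :
    (∀ n, |X n - x| ≤ |X 0 - x| * (147 / 1000) ^ n) ∧
    ∃ A : ℝ, 0 < A ∧ Filter.Tendsto (fun n => μ ^ n / D n) Filter.atTop (nhds A) ∧
      |Real.log (A * D 0)| ≤ 122 / 100 * |X 0 - x| + 16 / 100 * |sg 0 - μ⁻¹| := by
  have hμ0 : 0 < μ := by linarith
  have hmi := IvR.inv (131 / 1000) (132 / 1000) ⟨hμ1, hμ2⟩ (by norm_num) (by norm_num)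
    (by norm_num) (by norm_num)
  have hs := fun n => saddle hfix hinv hx hy (hI n) (hD n) (hX n) (hX (n + 1))
  -- decay
  have hdec : ∀ n, |X n - x| ≤ |X 0 - x| * (147 / 1000) ^ n := by
    refine decay (d := fun n => |X n - x|) (α := 1315 / 10000) (β := 1433 / 10000)
      (θ := 147 / 1000) (M := 1 / 100) (by norm_num) (by norm_num) (by norm_num) (by norm_num)
      (by norm_num) (by norm_num) hX (fun n => abs_nonneg _) ?_
    intro n
    obtain ⟨FU, FV, h1, h2, h3⟩ := (hs n).1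
    rw [← hrec n] at h3
    have h4 : FV * (X (n + 1) - x) = (X (n + 2) - x) - FU * (X n - x) := by linarith
    have h5 : FV * |X (n + 1) - x| ≤ |X (n + 2) - x| + 109 / 100 * |X n - x| := by
      have h6 := congrArg abs h4
      rw [abs_mul, abs_of_pos (by linarith : (0:ℝ) < FV)] at h6
      rw [h6]
      refine (abs_sub _ _).trans (add_le_add (le_refl _) ?_)
      rw [abs_mul]
      exact mul_le_mul_of_nonneg_right h1 (abs_nonneg _)
    have h7 : 761 / 100 * |X (n + 1) - x| ≤ FV * |X (n + 1) - x| :=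
      mul_le_mul_of_nonneg_right h2 (abs_nonneg _)
    have h8 := abs_nonneg (X (n + 2) - x)
    have h9 := abs_nonneg (X n - x)
    show |X (n + 1) - x| ≤ 1315 / 10000 * |X (n + 2) - x| + 1433 / 10000 * |X n - x|
    linarith
  refine ⟨hdec, ?_⟩
  -- the growth factors
  obtain ⟨g, hgdef⟩ : ∃ g : ℕ → ℝ, ∀ n, g n = gZ (X n) (Y n) (X (n + 1)) +
      gX (X n) (Y n) (X (n + 1)) * sg n := ⟨_, fun n => rfl⟩
  have hgD : ∀ n, D (n + 1) = D n * g n := fun n => by rw [hgdef]; exact hg n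
  have hsgg : ∀ n, sg (n + 1) * g n = 1 := by
    intro n
    have h1 := hsg n
    rw [hgD n] at h1
    have h2 := (hDpos n).ne'
    have h3 : D n * (sg (n + 1) * g n) = D n * 1 := by linarith
    exact mul_left_cancel₀ h2 h3
  have hgm : ∀ n, |sg n - μ⁻¹| ≤ 1 / 100 →
      |g n - μ| ≤ 4371 / 1000 * |X n - x| + 16 * |X (n + 1) - x| + |sg n - μ⁻¹| := by
    intro n hn
    obtain ⟨_, h1, h2⟩ := hs n
    have h3 := abs_le.1 hn
    have h4 : |sg n| ≤ 142 / 1000 := by
      rw [abs_le]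
      constructor <;> linarith [h3.1, h3.2, hmi.1, hmi.2]
    have e : g n - μ = (gZ (X n) (Y n) (X (n + 1)) - (-1 - 8 * (x * y))) +
        (gX (X n) (Y n) (X (n + 1)) + 1) * sg n - (sg n - μ⁻¹) := by
      rw [hgdef]
      linear_combination -hμ
    rw [e]
    have h5 : |(gX (X n) (Y n) (X (n + 1)) + 1) * sg n| ≤
        (106 / 100 * |X n - x| + 401 / 100 * |X (n + 1) - x|) * (142 / 1000) := by
      rw [abs_mul]
      exact mul_le_mul h2 h4 (abs_nonneg _) (by positivity)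
    have h6 := abs_sub (gZ (X n) (Y n) (X (n + 1)) - (-1 - 8 * (x * y)) +
        (gX (X n) (Y n) (X (n + 1)) + 1) * sg n) (sg n - μ⁻¹)
    have h7 := abs_add_le (gZ (X n) (Y n) (X (n + 1)) - (-1 - 8 * (x * y)))
      ((gX (X n) (Y n) (X (n + 1)) + 1) * sg n)
    have h8 := abs_nonneg (X n - x)
    have h9 := abs_nonneg (X (n + 1) - x)
    linarith
  have hgr : ∀ n, |sg n - μ⁻¹| ≤ 1 / 100 → 737 / 100 ≤ g n ∧ g n ≤ 782 / 100 := by
    intro n hn
    have h1 := hgm n hn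
    have h2 := hX n
    have h3 := hX (n + 1)
    have h4 : |g n - μ| ≤ 22 / 100 := by linarith
    have h5 := abs_le.1 h4
    constructor <;> linarith [h5.1, h5.2]
  have hsgn : ∀ n, |sg n - μ⁻¹| ≤ 1 / 100 := by
    intro n
    cases n with
    | zero => exact hsg0
    | succ n =>
      induction n with
      | zero =>
        have h1 := hgr 0 hsg0
        have h2 : sg (0 + 1) = (g 0)⁻¹ := eq_inv_of_mul_eq_one_left (hsgg 0)
        have h3 := IvR.inv (127 / 1000) (136 / 1000) h1 (by norm_num) (by norm_num)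
          (by norm_num) (by norm_num)
        rw [h2, abs_le]
        constructor <;> linarith [h3.1, h3.2, hmi.1, hmi.2]
      | succ n ih =>
        have h1 := hgr (n + 1) ih
        have h2 : sg (n + 1 + 1) = (g (n + 1))⁻¹ := eq_inv_of_mul_eq_one_left (hsgg (n + 1))
        have h3 := IvR.inv (127 / 1000) (136 / 1000) h1 (by norm_num) (by norm_num)
          (by norm_num) (by norm_num)
        rw [h2, abs_le]
        constructor <;> linarith [h3.1, h3.2, hmi.1, hmi.2]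
  -- decay of `sg n - 1/μ`
  have hstep : ∀ n, |sg (n + 1) - μ⁻¹| * (559 / 10) ≤ |g n - μ| := by
    intro n
    have h1 := hgr n (hsgn n)
    have hg0 : 0 < g n := by linarith [h1.1]
    have h2 : sg (n + 1) = (g n)⁻¹ := eq_inv_of_mul_eq_one_left (hsgg n)
    have h3 : (sg (n + 1) - μ⁻¹) * (g n * μ) = -(g n - μ) := by
      rw [h2]
      field_simp
      ring
    have h4 : |sg (n + 1) - μ⁻¹| * (g n * μ) = |g n - μ| := by
      have := congrArg abs h3
      rwa [abs_mul, abs_of_pos (mul_pos hg0 hμ0), abs_neg] at this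
    rw [← h4]
    refine mul_le_mul_of_nonneg_left ?_ (abs_nonneg _)
    have h5 : (737 / 100 : ℝ) * (759 / 100) ≤ g n * μ :=
      mul_le_mul h1.1 hμ1 (by norm_num) hg0.le
    linarith
  have hd0 := abs_nonneg (X 0 - x)
  have hgb : ∀ n, |g n - μ| ≤ 6723 / 1000 * |X 0 - x| * (147 / 1000) ^ n + |sg n - μ⁻¹| := by
    intro n
    have h1 := hgm n (hsgn n)
    have h2 := hdec n
    have h3 := hdec (n + 1)
    rw [pow_succ] at h3
    have h4 : 0 ≤ |X 0 - x| * (147 / 1000 : ℝ) ^ n := by positivity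
    linarith
  have hsdec : ∀ n, |sg n - μ⁻¹| ≤
      max (|sg 0 - μ⁻¹|) (1203 / 10000 * |X 0 - x| / (147 / 1000 - 179 / 10000)) *
        (147 / 1000) ^ n := by
    refine contr (d := fun n => |sg n - μ⁻¹|) (by norm_num) (by norm_num) ?_
    intro n
    have h1 := hstep n
    have h2 := hgb n
    have h3 := abs_nonneg (sg n - μ⁻¹)
    have h4 : 0 ≤ |X 0 - x| * (147 / 1000 : ℝ) ^ n := by positivity
    show |sg (n + 1) - μ⁻¹| ≤ _
    linarith
  have hmax : max (|sg 0 - μ⁻¹|) (1203 / 10000 * |X 0 - x| / (147 / 1000 - 179 / 10000)) ≤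
      |sg 0 - μ⁻¹| + 932 / 1000 * |X 0 - x| := by
    refine max_le (by linarith) ?_
    have : 0 ≤ |sg 0 - μ⁻¹| := abs_nonneg _
    rw [div_le_iff₀ (by norm_num)]
    linarith
  have hlog : ∀ n, |Real.log (μ * D n / D (n + 1))| ≤
      (10387 / 10000 * |X 0 - x| + 1358 / 10000 * |sg 0 - μ⁻¹|) * (147 / 1000) ^ n := by
    intro n
    have h1 := hgr n (hsgn n)
    have hg0 : 0 < g n := by linarith [h1.1]
    have e : μ * D n / D (n + 1) = μ / g n := by
      rw [hgD n]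
      have := (hDpos n).ne'
      field_simp
    rw [e]
    refine (abs_log_div_le (m := 737 / 100) (by norm_num) (by linarith) h1.1).trans ?_
    rw [abs_sub_comm]
    have h2 := hgb n
    have h3 := (hsdec n).trans (mul_le_mul_of_nonneg_right hmax (by positivity))
    have hp : (0:ℝ) ≤ (147 / 1000) ^ n := by positivity
    have h4 : 0 ≤ |X 0 - x| * (147 / 1000 : ℝ) ^ n := by positivity
    have h5 : 0 ≤ |sg 0 - μ⁻¹| * (147 / 1000 : ℝ) ^ n := by positivity
    rw [div_le_iff₀ (by norm_num)]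
    linarith
  obtain ⟨A, hA0, hA1, hA2⟩ := exists_edge_const hμ0 hDpos (by norm_num) hlog
  refine ⟨A, hA0, hA1, ?_⟩
  have h := hA2 0
  rw [pow_zero, pow_zero, div_one, mul_one] at h
  refine h.trans ?_
  rw [div_le_iff₀ (by norm_num)]
  have h5 := abs_nonneg (sg 0 - μ⁻¹)
  linarith

end Pool.Agent.H98.Fib
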