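import Mathlib

/-!
# The saddle point `(x, y, x)` for couplings near `1.394` (problem MP_9069b3_mp)
-/

namespace Pool.Agent.H98.Fib

/-- The data of the saddle point at the coupling `lam`. -/
structure FixPt (lam x y μ : ℝ) : Prop where
  hfix : y * (1 + 2 * x) = x
  hinv : 2 * x ^ 2 + y ^ 2 - 2 * x ^ 2 * y = 1 + lam ^ 2 / 4
  hμ : μ + μ⁻¹ = -1 - 8 * (x * y)
  hx1 : -(7762657813 / 10000000000) ≤ x
  hx2 : x ≤ -(776265781 / 1000000000)
  hy1 : 14049256799 / 10000000000 ≤ y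
  hy2 : y ≤ 1404925681 / 1000000000
  hμ1 : 7593066744 / 1000000000 ≤ μ
  hμ2 : μ ≤ 7593066765 / 1000000000

theorem exists_fixPt {lam : ℝ} (hl : |lam - 1394 / 1000| ≤ 1 / 1000000000) :
    ∃ x y μ : ℝ, FixPt lam x y μ := by
  have hl' := abs_le.1 hl
  have hl1 : 1393999999 / 1000000000 ≤ lam := by linarith [hl'.1]
  have hl2 : lam ≤ 1394000001 / 1000000000 := by linarith [hl'.2]
  have hsq1 : (1393999999 / 1000000000 : ℝ) ^ 2 ≤ lam ^ 2 := by
    apply pow_le_pow_left₀ (by norm_num) hl1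
  have hsq2 : lam ^ 2 ≤ (1394000001 / 1000000000 : ℝ) ^ 2 := by
    apply pow_le_pow_left₀ (by linarith) hl2
  let h : ℝ → ℝ := fun x => 2 * x ^ 2 * (1 + 2 * x) ^ 2 + x ^ 2 - 2 * x ^ 3 * (1 + 2 * x) -
    (1 + lam ^ 2 / 4) * (1 + 2 * x) ^ 2
  have hcont : Continuous h := by
    show Continuous fun x : ℝ => 2 * x ^ 2 * (1 + 2 * x) ^ 2 + x ^ 2 - 2 * x ^ 3 * (1 + 2 * x) -
      (1 + lam ^ 2 / 4) * (1 + 2 * x) ^ 2
    fun_prop
  have ha : h (-(7762657813 / 10000000000)) ≤ 0 := by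
    show 2 * (-(7762657813 / 10000000000 : ℝ)) ^ 2 * (1 + 2 * (-(7762657813 / 10000000000))) ^ 2 +
      (-(7762657813 / 10000000000)) ^ 2 -
      2 * (-(7762657813 / 10000000000)) ^ 3 * (1 + 2 * (-(7762657813 / 10000000000))) -
      (1 + lam ^ 2 / 4) * (1 + 2 * (-(7762657813 / 10000000000))) ^ 2 ≤ 0
    norm_num
    norm_num at hsq1
    linarith
  have hb : 0 ≤ h (-(776265781 / 1000000000)) := by
    show 0 ≤ 2 * (-(776265781 / 1000000000 : ℝ)) ^ 2 * (1 + 2 * (-(776265781 / 1000000000))) ^ 2 +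
      (-(776265781 / 1000000000)) ^ 2 -
      2 * (-(776265781 / 1000000000)) ^ 3 * (1 + 2 * (-(776265781 / 1000000000))) -
      (1 + lam ^ 2 / 4) * (1 + 2 * (-(776265781 / 1000000000))) ^ 2
    norm_num
    norm_num at hsq2
    linarith
  obtain ⟨x, hx, hx0⟩ := intermediate_value_Icc (by norm_num) hcont.continuousOn
    (show (0:ℝ) ∈ Set.Icc (h (-(7762657813 / 10000000000))) (h (-(776265781 / 1000000000))) from
      ⟨ha, hb⟩)
  have hx1 := hx.1
  have hx2 := hx.2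
  have hneg : 1 + 2 * x < 0 := by linarith
  obtain ⟨y, hy⟩ : ∃ y : ℝ, y * (1 + 2 * x) = x := ⟨x / (1 + 2 * x), div_mul_cancel₀ _ hneg.ne⟩
  have hinv : 2 * x ^ 2 + y ^ 2 - 2 * x ^ 2 * y = 1 + lam ^ 2 / 4 := by
    have e : (2 * x ^ 2 + y ^ 2 - 2 * x ^ 2 * y - (1 + lam ^ 2 / 4)) * (1 + 2 * x) ^ 2 = 0 := by
      have h0 : 2 * x ^ 2 * (1 + 2 * x) ^ 2 + x ^ 2 - 2 * x ^ 3 * (1 + 2 * x) -
        (1 + lam ^ 2 / 4) * (1 + 2 * x) ^ 2 = 0 := hx0
      linear_combination h0 + (y * (1 + 2 * x) + x) * hy - 2 * x ^ 2 * (1 + 2 * x) * hy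
    have := (mul_eq_zero.1 e).resolve_right (pow_ne_zero 2 hneg.ne)
    linarith
  have hy1 : 14049256799 / 10000000000 ≤ y := by
    by_contra hc
    push Not at hc
    have h1 := mul_lt_mul_of_neg_right hc hneg
    rw [hy] at h1
    linarith
  have hy2 : y ≤ 1404925681 / 1000000000 := by
    by_contra hc
    push Not at hc
    have h1 := mul_lt_mul_of_neg_right hc hneg
    rw [hy] at h1
    linarith
  have hxy1 : x * y ≤ -(776265781 / 1000000000) * (14049256799 / 10000000000) := by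
    have h1 : x * y ≤ -(776265781 / 1000000000) * y :=
      mul_le_mul_of_nonneg_right hx2 (by linarith)
    linarith
  have hxy2 : -(7762657813 / 10000000000) * (1404925681 / 1000000000) ≤ x * y := by
    have h1 : -(7762657813 / 10000000000) * y ≤ x * y :=
      mul_le_mul_of_nonneg_right hx1 (by linarith)
    linarith
  let k : ℝ → ℝ := fun m => m + m⁻¹
  have hk : ContinuousOn k (Set.Icc (7593066744 / 1000000000) (7593066765 / 1000000000)) := by
    refine ContinuousOn.add continuousOn_id (ContinuousOn.inv₀ continuousOn_id ?_)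
    intro z hz
    have := hz.1
    show z ≠ 0
    intro h0
    rw [h0] at this
    norm_num at this
  obtain ⟨μ, hμ, hμ0⟩ := intermediate_value_Icc (by norm_num) hk
    (show (-1 - 8 * (x * y)) ∈ Set.Icc (k (7593066744 / 1000000000)) (k (7593066765 / 1000000000))
      from by
        constructor
        · show (7593066744 / 1000000000 : ℝ) + (7593066744 / 1000000000)⁻¹ ≤ -1 - 8 * (x * y)
          norm_num at hxy1 ⊢
          linarith
        · show -1 - 8 * (x * y) ≤ (7593066765 / 1000000000 : ℝ) + (7593066765 / 1000000000)⁻¹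
          norm_num at hxy2 ⊢
          linarith)
  exact ⟨x, y, μ, ⟨hy, hinv, hμ0, hx1, hx2, hy1, hy2, hμ.1, hμ.2⟩⟩

end Pool.Agent.H98.Fib
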