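import Pool.Agent.H98.Fib.Edges
import Pool.Agent.H98.Fib.EdgeDyn
import Pool.Agent.H98.Fib.FixPt

/-!
# The edge constants of the words (problem MP_9069b3_mp)

`TubeJ S`: the functions `X w, Y w, sg w` belonging to the tube system `S` and their behaviour under
the letters `0` and `2`.  If along `0^K w` the values of `X` and `sg` at the left end of the hull are
near the saddle point, then there are constants `A w > 0` with `A (0 :: w) = A w / μ` and
`A w * dZ w (hl w)` is known up to the deviation from the saddle point.  Same for the right ends.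
-/

namespace Pool.Agent.H98.Fib

open Tube

/-- The functions of the words. -/
structure TubeJ {lam : ℝ} (S : Tube lam) where
  X : List (Fin 3) → ℝ → ℝ
  Y : List (Fin 3) → ℝ → ℝ
  sg : List (Fin 3) → ℝ → ℝ
  inv : ∀ w E, X w E ^ 2 + Y w E ^ 2 + S.Z w E ^ 2 - 2 * X w E * Y w E * S.Z w E = 1 + lam ^ 2 / 4
  pos : ∀ w E, S.P w E → 0 < Y w E - X w E * S.Z w E
  X0 : ∀ w E, X (0 :: w) E = S.Z w E
  Z0 : ∀ w E, S.Z (0 :: w) E = Y w E - 2 * (2 * S.Z w E * Y w E - X w E) * S.Z w E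
  X2 : ∀ w E, X (2 :: w) E = S.Z w E
  Z2 : ∀ w E, S.Z (2 :: w) E = 2 * (2 * S.Z w E * Y w E - X w E) * S.Z w E - Y w E
  d0 : ∀ w E, S.P w E → S.dZ (0 :: w) E = S.dZ w E *
    (gZ (X w E) (Y w E) (S.Z w E) + gX (X w E) (Y w E) (S.Z w E) * sg w E)
  d2 : ∀ w E, S.P w E → S.dZ (2 :: w) E = S.dZ w E *
    (gZ (-X w E) (Y w E) (-S.Z w E) + gX (-X w E) (Y w E) (-S.Z w E) * sg w E)
  s0 : ∀ w E, S.dZ (0 :: w) E ≠ 0 → sg (0 :: w) E * S.dZ (0 :: w) E = S.dZ w E
  s2 : ∀ w E, S.dZ (2 :: w) E ≠ 0 → sg (2 :: w) E * S.dZ (2 :: w) E = S.dZ w E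

namespace TubeJ

variable {lam : ℝ} {S : Tube lam} (J : TubeJ S)

theorem rep_add' (i : Fin 3) (n k : ℕ) (w : List (Fin 3)) :
    rep i n (rep i k w) = rep i (n + k) w := by
  induction n with
  | zero => simp [rep]
  | succ n ih =>
    have e : n + 1 + k = (n + k) + 1 := by ring
    rw [e]
    show i :: rep i n (rep i k w) = i :: rep i (n + k) w
    rw [ih]

/-- Left edges: the constant of one word. -/
theorem exists_left {x y μ : ℝ} (F : FixPt lam x y μ) (w : List (Fin 3)) {e : ℝ}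
    (he : ∀ n, S.l (rep 0 n w) ≤ e ∧ e ≤ S.r (rep 0 n w))
    (hX : ∀ n, |J.X (rep 0 n w) e - x| ≤ 1 / 100) (hs : |J.sg w e - μ⁻¹| ≤ 1 / 100) :
    (∀ n, |J.X (rep 0 n w) e - x| ≤ |J.X w e - x| * (147 / 1000) ^ n) ∧
    ∃ A : ℝ, 0 < A ∧ Filter.Tendsto (fun n => μ ^ n / S.dZ (rep 0 n w) e) Filter.atTop (nhds A) ∧
      |Real.log (A * S.dZ w e)| ≤ 122 / 100 * |J.X w e - x| + 16 / 100 * |J.sg w e - μ⁻¹| := by
  have hP : ∀ n, S.P (rep 0 n w) e := fun n => S.P_of_mem _ (he n).1 (he n).2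
  have hXZ : ∀ n, J.X (rep 0 (n + 1) w) e = S.Z (rep 0 n w) e := fun n => J.X0 _ _
  exact orbit_edge (X := fun n => J.X (rep 0 n w) e) (Y := fun n => J.Y (rep 0 n w) e)
    (sg := fun n => J.sg (rep 0 n w) e) (D := fun n => S.dZ (rep 0 n w) e) F.hfix F.hinv F.hμ
    (by linarith [F.hμ1]) (by linarith [F.hμ2]) ⟨by linarith [F.hx1], by linarith [F.hx2]⟩
    ⟨by linarith [F.hy1], by linarith [F.hy2]⟩
    (fun n => by rw [hXZ]; exact J.inv _ _)
    (fun n => by rw [hXZ]; exact J.pos _ _ (hP n))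
    (fun n => by
      have e1 : J.X (rep 0 (n + 2) w) e = S.Z (rep 0 (n + 1) w) e := J.X0 _ _
      have e2 : S.Z (rep 0 (n + 1) w) e = _ := J.Z0 (rep 0 n w) e
      rw [e1, e2, hXZ])
    hX
    (fun n => by rw [hXZ]; exact J.d0 _ _ (hP n))
    (fun n => J.s0 _ _ (S.hpos _ _ (hP (n + 1))).ne')
    (fun n => S.hpos _ _ (hP n)) hs

/-- Right edges: the constant of one word. -/
theorem exists_right {x y μ : ℝ} (F : FixPt lam x y μ) (w : List (Fin 3)) {e : ℝ}
    (he : ∀ n, S.l (rep 2 n w) ≤ e ∧ e ≤ S.r (rep 2 n w))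
    (hX : ∀ n, |-J.X (rep 2 n w) e - x| ≤ 1 / 100) (hs : |J.sg w e - μ⁻¹| ≤ 1 / 100) :
    (∀ n, |-J.X (rep 2 n w) e - x| ≤ |-J.X w e - x| * (147 / 1000) ^ n) ∧
    ∃ A : ℝ, 0 < A ∧ Filter.Tendsto (fun n => μ ^ n / S.dZ (rep 2 n w) e) Filter.atTop (nhds A) ∧
      |Real.log (A * S.dZ w e)| ≤ 122 / 100 * |-J.X w e - x| + 16 / 100 * |J.sg w e - μ⁻¹| := by
  have hP : ∀ n, S.P (rep 2 n w) e := fun n => S.P_of_mem _ (he n).1 (he n).2
  have hXZ : ∀ n, J.X (rep 2 (n + 1) w) e = S.Z (rep 2 n w) e := fun n => J.X2 _ _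
  exact orbit_edge (X := fun n => -J.X (rep 2 n w) e) (Y := fun n => J.Y (rep 2 n w) e)
    (sg := fun n => J.sg (rep 2 n w) e) (D := fun n => S.dZ (rep 2 n w) e) F.hfix F.hinv F.hμ
    (by linarith [F.hμ1]) (by linarith [F.hμ2]) ⟨by linarith [F.hx1], by linarith [F.hx2]⟩
    ⟨by linarith [F.hy1], by linarith [F.hy2]⟩
    (fun n => by
      rw [hXZ]
      have := J.inv (rep 2 n w) e
      linarith [this])
    (fun n => by
      rw [hXZ]
      have := J.pos _ _ (hP n)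
      linarith)
    (fun n => by
      have e1 : J.X (rep 2 (n + 2) w) e = S.Z (rep 2 (n + 1) w) e := J.X2 _ _
      have e2 : S.Z (rep 2 (n + 1) w) e = _ := J.Z2 (rep 2 n w) e
      rw [e1, e2, hXZ]
      ring)
    hX
    (fun n => by rw [hXZ]; exact J.d2 _ _ (hP n))
    (fun n => J.s2 _ _ (S.hpos _ _ (hP (n + 1))).ne')
    (fun n => S.hpos _ _ (hP n)) hs

/-- A limit along `i^n (i^K w)` is a limit along `i^n w`. -/
theorem tendsto_shift {μ a : ℝ} (hμ : 0 < μ) (i : Fin 3) (K : ℕ) (w : List (Fin 3)) (e : ℝ)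
    (h : Filter.Tendsto (fun n => μ ^ n / S.dZ (rep i n (rep i K w)) e) Filter.atTop (nhds a)) :
    Filter.Tendsto (fun n => μ ^ n / S.dZ (rep i n w) e) Filter.atTop (nhds (μ ^ K * a)) := by
  rw [← Filter.tendsto_add_atTop_iff_nat K]
  have h2 := h.const_mul (μ ^ K)
  refine h2.congr fun n => ?_
  rw [rep_add', pow_add]
  ring

/-- The left edge constants. -/
theorem exists_A {x y μ : ℝ} (F : FixPt lam x y μ) (K : ℕ)
    (hX : ∀ w, |J.X (rep 0 K w) (S.hl w) - x| ≤ 1 / 100)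
    (hs : ∀ w, |J.sg (rep 0 K w) (S.hl w) - μ⁻¹| ≤ 1 / 100) :
    ∃ A : List (Fin 3) → ℝ, (∀ w, 0 < A w) ∧ (∀ w, A (0 :: w) = A w / μ) ∧
      ∀ w n, K ≤ n → |Real.log (A (rep 0 n w) * S.dZ (rep 0 n w) (S.hl w))| ≤
        122 / 100 * |J.X (rep 0 n w) (S.hl w) - x| +
          16 / 100 * |J.sg (rep 0 n w) (S.hl w) - μ⁻¹| := by
  have hμ : 0 < μ := by linarith [F.hμ1]
  have hX' : ∀ w n, K ≤ n → |J.X (rep 0 n w) (S.hl w) - x| ≤ 1 / 100 := by
    intro w n hn
    obtain ⟨k, rfl⟩ := Nat.exists_eq_add_of_le hn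
    have := hX (rep 0 k w)
    rw [rep_add'] at this
    have e : S.hl (rep 0 k w) = S.hl w := by
      clear this hn
      induction k with
      | zero => rfl
      | succ k ih => exact (S.hl_cons (rep 0 k w)).trans ih
    rwa [e] at this
  have hs' : ∀ w n, K ≤ n → |J.sg (rep 0 n w) (S.hl w) - μ⁻¹| ≤ 1 / 100 := by
    intro w n hn
    obtain ⟨k, rfl⟩ := Nat.exists_eq_add_of_le hn
    have := hs (rep 0 k w)
    rw [rep_add'] at this
    have e : S.hl (rep 0 k w) = S.hl w := by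
      clear this hn
      induction k with
      | zero => rfl
      | succ k ih => exact (S.hl_cons (rep 0 k w)).trans ih
    rwa [e] at this
  have key : ∀ w n, K ≤ n → ∃ a : ℝ, 0 < a ∧
      Filter.Tendsto (fun k => μ ^ k / S.dZ (rep 0 k (rep 0 n w)) (S.hl w)) Filter.atTop
        (nhds a) ∧
      |Real.log (a * S.dZ (rep 0 n w) (S.hl w))| ≤ 122 / 100 * |J.X (rep 0 n w) (S.hl w) - x| +
          16 / 100 * |J.sg (rep 0 n w) (S.hl w) - μ⁻¹| := by
    intro w n hn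
    have he : ∀ k, S.l (rep 0 k (rep 0 n w)) ≤ S.hl w ∧ S.hl w ≤ S.r (rep 0 k (rep 0 n w)) := by
      intro k
      rw [rep_add']
      exact S.hl_mem w _
    exact (J.exists_left F (rep 0 n w) he (fun k => by rw [rep_add']; exact hX' w _ (by omega))
      (hs' w n hn)).2
  choose! a ha0 ha1 ha2 using key
  refine ⟨fun w => μ ^ K * a w K, fun w => mul_pos (pow_pos hμ K) (ha0 w K le_rfl), ?_, ?_⟩
  · intro w
    have h1 := tendsto_shift hμ 0 K w (S.hl w) (ha1 w K le_rfl)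
    have h2 := tendsto_shift hμ 0 K (0 :: w) (S.hl (0 :: w)) (ha1 (0 :: w) K le_rfl)
    rw [S.hl_cons] at h2
    have h3 : Filter.Tendsto (fun n => μ ^ n / S.dZ (rep 0 n (0 :: w)) (S.hl w)) Filter.atTop
        (nhds (μ ^ K * a w K / μ)) := by
      have h4 := ((Filter.tendsto_add_atTop_iff_nat 1).2 h1).div_const μ
      refine h4.congr fun n => ?_
      rw [rep_cons, pow_succ]
      field_simp
    exact tendsto_nhds_unique h2 h3
  · intro w n hn
    have h1 := tendsto_shift hμ 0 K (rep 0 n w) (S.hl (rep 0 n w)) (ha1 (rep 0 n w) K le_rfl)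
    have e : S.hl (rep 0 n w) = S.hl w := by
      clear hn h1
      induction n with
      | zero => rfl
      | succ k ih => exact (S.hl_cons (rep 0 k w)).trans ih
    rw [e] at h1
    have := tendsto_nhds_unique h1 (ha1 w n hn)
    show |Real.log (μ ^ K * a (rep 0 n w) K * _)| ≤ _
    rw [this]
    exact ha2 w n hn

/-- The right edge constants. -/
theorem exists_B {x y μ : ℝ} (F : FixPt lam x y μ) (K : ℕ)
    (hX : ∀ w, |-J.X (rep 2 K w) (S.hr w) - x| ≤ 1 / 100)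
    (hs : ∀ w, |J.sg (rep 2 K w) (S.hr w) - μ⁻¹| ≤ 1 / 100) :
    ∃ B : List (Fin 3) → ℝ, (∀ w, 0 < B w) ∧ (∀ w, B (2 :: w) = B w / μ) ∧
      ∀ w n, K ≤ n → |Real.log (B (rep 2 n w) * S.dZ (rep 2 n w) (S.hr w))| ≤
        122 / 100 * |-J.X (rep 2 n w) (S.hr w) - x| +
          16 / 100 * |J.sg (rep 2 n w) (S.hr w) - μ⁻¹| := by
  have hμ : 0 < μ := by linarith [F.hμ1]
  have hX' : ∀ w n, K ≤ n → |-J.X (rep 2 n w) (S.hr w) - x| ≤ 1 / 100 := by
    intro w n hn
    obtain ⟨k, rfl⟩ := Nat.exists_eq_add_of_le hn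
    have := hX (rep 2 k w)
    rw [rep_add'] at this
    have e : S.hr (rep 2 k w) = S.hr w := by
      clear this hn
      induction k with
      | zero => rfl
      | succ k ih => exact (S.hr_cons (rep 2 k w)).trans ih
    rwa [e] at this
  have hs' : ∀ w n, K ≤ n → |J.sg (rep 2 n w) (S.hr w) - μ⁻¹| ≤ 1 / 100 := by
    intro w n hn
    obtain ⟨k, rfl⟩ := Nat.exists_eq_add_of_le hn
    have := hs (rep 2 k w)
    rw [rep_add'] at this
    have e : S.hr (rep 2 k w) = S.hr w := by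
      clear this hn
      induction k with
      | zero => rfl
      | succ k ih => exact (S.hr_cons (rep 2 k w)).trans ih
    rwa [e] at this
  have key : ∀ w n, K ≤ n → ∃ a : ℝ, 0 < a ∧
      Filter.Tendsto (fun k => μ ^ k / S.dZ (rep 2 k (rep 2 n w)) (S.hr w)) Filter.atTop
        (nhds a) ∧
      |Real.log (a * S.dZ (rep 2 n w) (S.hr w))| ≤ 122 / 100 * |-J.X (rep 2 n w) (S.hr w) - x| +
          16 / 100 * |J.sg (rep 2 n w) (S.hr w) - μ⁻¹| := by
    intro w n hn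
    have he : ∀ k, S.l (rep 2 k (rep 2 n w)) ≤ S.hr w ∧ S.hr w ≤ S.r (rep 2 k (rep 2 n w)) := by
      intro k
      rw [rep_add']
      exact S.hr_mem w _
    exact (J.exists_right F (rep 2 n w) he (fun k => by rw [rep_add']; exact hX' w _ (by omega))
      (hs' w n hn)).2
  choose! a ha0 ha1 ha2 using key
  refine ⟨fun w => μ ^ K * a w K, fun w => mul_pos (pow_pos hμ K) (ha0 w K le_rfl), ?_, ?_⟩
  · intro w
    have h1 := tendsto_shift hμ 2 K w (S.hr w) (ha1 w K le_rfl)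
    have h2 := tendsto_shift hμ 2 K (2 :: w) (S.hr (2 :: w)) (ha1 (2 :: w) K le_rfl)
    rw [S.hr_cons] at h2
    have h3 : Filter.Tendsto (fun n => μ ^ n / S.dZ (rep 2 n (2 :: w)) (S.hr w)) Filter.atTop
        (nhds (μ ^ K * a w K / μ)) := by
      have h4 := ((Filter.tendsto_add_atTop_iff_nat 1).2 h1).div_const μ
      refine h4.congr fun n => ?_
      rw [rep_cons, pow_succ]
      field_simp
    exact tendsto_nhds_unique h2 h3
  · intro w n hn
    have h1 := tendsto_shift hμ 2 K (rep 2 n w) (S.hr (rep 2 n w)) (ha1 (rep 2 n w) K le_rfl)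
    have e : S.hr (rep 2 n w) = S.hr w := by
      clear hn h1
      induction n with
      | zero => rfl
      | succ k ih => exact (S.hr_cons (rep 2 k w)).trans ih
    rw [e] at h1
    have := tendsto_nhds_unique h1 (ha1 w n hn)
    show |Real.log (μ ^ K * a (rep 2 n w) K * _)| ≤ _
    rw [this]
    exact ha2 w n hn

end TubeJ

end Pool.Agent.H98.Fib
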