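import Pool.Agent.H20.Fib.Sys
import Pool.Agent.H98.Fib.EdgeA

/-!
# The letters `0` and `2` in the oriented coordinates of the states (problem MP_9069b3_mp)

`s.Xo, s.Yo, s.Zo, s.Do` are `X, Y, Z, Z'` of the frame of the state `s` with the orientation sign:
`Zo` is increasing in the energy.  The energy letters `0`, `2` act by `(X, Y, Z) ↦ (Z, .., ∓V)`
(these are the fields of `TubeJ`).
-/

namespace Pool.Agent.H98.Fib

open Pool.Agent.H20.Fib

theorem fr_recs {f : Fr} (hf : f.ok) (lam E : ℝ) :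
    f.e1 * xs lam E (f.m + 3) = 2 * f.Z lam E * f.Y lam E - f.X lam E ∧
    f.e2 * xs lam E (f.m + 4) =
      2 * (2 * f.Z lam E * f.Y lam E - f.X lam E) * f.Z lam E - f.Y lam E := by
  obtain ⟨h1, h2, h3, h23, h13, h12⟩ := Fr.Step_ok hf
  have r1 : xs lam E (f.m + 3) = 2 * xs lam E (f.m + 2) * xs lam E (f.m + 1) - xs lam E f.m :=
    xs_rec lam E f.m
  have r2 : xs lam E (f.m + 4) = 2 * xs lam E (f.m + 3) * xs lam E (f.m + 2) -
      xs lam E (f.m + 1) := xs_rec lam E (f.m + 1)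
  have e1 : f.e1 * xs lam E (f.m + 3) = 2 * f.Z lam E * f.Y lam E - f.X lam E := by
    unfold Fr.X Fr.Y Fr.Z
    rw [r1]
    linear_combination (-(2 * xs lam E (f.m + 1) * xs lam E (f.m + 2))) * h23
  refine ⟨e1, ?_⟩
  have e2 : f.e2 * xs lam E (f.m + 4) = 2 * (f.e1 * xs lam E (f.m + 3)) * f.Z lam E -
      f.Y lam E := by
    unfold Fr.Y Fr.Z
    rw [r2]
    linear_combination (-(2 * xs lam E (f.m + 3) * xs lam E (f.m + 2))) * h13
  rw [e2, e1]

/-- Derivative of the third coordinate of the image under `L`. -/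
theorem fr_deriv {f : Fr} (hf : f.ok) {lam E : ℝ} (hD : 0 < f.Y lam E - f.X lam E * f.Z lam E)
    (hs : f.Z1 lam E ≠ 0) :
    -f.e2 * xs1 lam E (f.m + 4) = f.Z1 lam E *
      (gZ (f.X lam E) (f.Y lam E) (f.Z lam E) + gX (f.X lam E) (f.Y lam E) (f.Z lam E) *
        f.sig lam E) := by
  obtain ⟨h1, h2, h3, h23, h13, h12⟩ := Fr.Step_ok hf
  have i1 := Fr.inv1 (lam := lam) (E := E) hf
  have r1 : xs1 lam E (f.m + 3) = 2 * (xs1 lam E (f.m + 2) * xs lam E (f.m + 1)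
      + xs lam E (f.m + 2) * xs1 lam E (f.m + 1)) - xs1 lam E f.m := rfl
  have r2 : xs1 lam E (f.m + 4) = 2 * (xs1 lam E (f.m + 3) * xs lam E (f.m + 2)
      + xs lam E (f.m + 3) * xs1 lam E (f.m + 2)) - xs1 lam E (f.m + 1) := rfl
  obtain ⟨w0, -⟩ := fr_recs hf lam E
  have w1 : f.e1 * xs1 lam E (f.m + 3) = 2 * (f.Z1 lam E * f.Y lam E
      + f.Z lam E * (f.e2 * xs1 lam E (f.m + 1))) - f.X1 lam E := by
    unfold Fr.X1 Fr.Y Fr.Z Fr.Z1
    rw [r1]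
    linear_combination (-(2 * (xs1 lam E (f.m + 2) * xs lam E (f.m + 1)
      + xs lam E (f.m + 2) * xs1 lam E (f.m + 1)))) * h23
  have v1 : f.e2 * xs1 lam E (f.m + 4) = 2 * ((f.e1 * xs1 lam E (f.m + 3)) * f.Z lam E
      + (f.e1 * xs lam E (f.m + 3)) * f.Z1 lam E) - f.e2 * xs1 lam E (f.m + 1) := by
    unfold Fr.Z Fr.Z1
    rw [r2]
    linear_combination (-(2 * (xs1 lam E (f.m + 3) * xs lam E (f.m + 2)
      + xs lam E (f.m + 3) * xs1 lam E (f.m + 2)))) * h13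
  rw [w1, w0] at v1
  have e : -f.e2 * xs1 lam E (f.m + 4) = -(f.e2 * xs1 lam E (f.m + 4)) := by ring
  rw [e, v1]
  unfold gZ gX Fr.sig
  generalize f.e2 * xs1 lam E (f.m + 1) = y1 at *
  generalize f.X lam E = X at *
  generalize f.Y lam E = Y at *
  generalize f.Z lam E = Z at *
  generalize f.X1 lam E = X1 at *
  generalize f.Z1 lam E = s at *
  obtain ⟨N1, hN1⟩ : ∃ z : ℝ, z = (X * Y - Z) / (Y - X * Z) := ⟨_, rfl⟩
  obtain ⟨N2, hN2⟩ : ∃ z : ℝ, z = (Y * Z - X) / (Y - X * Z) := ⟨_, rfl⟩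
  have hN1' : N1 * (Y - X * Z) = X * Y - Z := by rw [hN1]; exact div_mul_cancel₀ _ hD.ne'
  have hN2' : N2 * (Y - X * Z) = Y * Z - X := by rw [hN2]; exact div_mul_cancel₀ _ hD.ne'
  have hy : y1 = N2 * X1 + N1 * s := by
    have h0 : (y1 - (N2 * X1 + N1 * s)) * (Y - X * Z) = 0 := by
      linear_combination i1 - X1 * hN2' - s * hN1'
    have := (mul_eq_zero.1 h0).resolve_right hD.ne'
    linarith
  have hX : s * (X1 / s) = X1 := mul_div_cancel₀ X1 hs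
  rw [← hN1, ← hN2]
  linear_combination (1 - 4 * Z ^ 2) * hy - (2 * Z + (1 - 4 * (Z * Z)) * N2) * hX

theorem gZ_neg (X Y Z : ℝ) : gZ (-X) Y (-Z) = -gZ X Y Z := by
  unfold gZ
  have e : Y - -X * -Z = Y - X * Z := by ring
  have e2 : -X * Y - -Z = -(X * Y - Z) := by ring
  rw [e, e2, neg_div]
  ring

theorem gX_neg (X Y Z : ℝ) : gX (-X) Y (-Z) = -gX X Y Z := by
  unfold gX
  have e : Y - -X * -Z = Y - X * Z := by ring
  have e2 : Y * -Z - -X = -(Y * Z - X) := by ring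
  rw [e, e2, neg_div]
  ring

/-- `X` with the orientation sign. -/
noncomputable def oX (lam : ℝ) (s : WSt) (E : ℝ) : ℝ := sgF s.o * s.f.X lam E

/-- `Z` with the orientation sign. -/
noncomputable def oZ (lam : ℝ) (s : WSt) (E : ℝ) : ℝ := sgF s.o * s.f.Z lam E

/-- `Z'` with the orientation sign. -/
noncomputable def oZ1 (lam : ℝ) (s : WSt) (E : ℝ) : ℝ := sgF s.o * s.f.Z1 lam E

theorem oXYZ_inv {s : WSt} (hf : s.f.ok) (lam E : ℝ) :
    oX lam s E ^ 2 + s.f.Y lam E ^ 2 + oZ lam s E ^ 2 - 2 * oX lam s E * s.f.Y lam E * oZ lam s E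
      = 1 + lam ^ 2 / 4 := by
  have h := Fr.inv (lam := lam) (E := E) hf
  have g := sgF_mul_self s.o
  unfold oX oZ
  linear_combination h + (s.f.X lam E ^ 2 + s.f.Z lam E ^ 2
    - 2 * s.f.X lam E * s.f.Y lam E * s.f.Z lam E) * g

theorem oXZ (lam E : ℝ) (s : WSt) : oX lam s E * oZ lam s E = s.f.X lam E * s.f.Z lam E := by
  have g := sgF_mul_self s.o
  unfold oX oZ
  linear_combination (s.f.X lam E * s.f.Z lam E) * g

section child

variable {dat : ℕ → ClsD} {s : WSt}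

/-- The frame and the orientation of the energy letter `0`. -/
theorem ch_zero (h0 : (dat s.ci).a0.fl = false) (h2 : (dat s.ci).a2.fl = true) :
    ((s.ch dat 0).f = (match s.o with
      | false => s.f.ch 0
      | true => (s.f.ch 2).mir)) ∧ (s.ch dat 0).o = false := by
  unfold WSt.ch
  rcases ho : s.o with _ | _
  · have e : (dat s.ci).arc (WSt.cl false 0) = (dat s.ci).a0 := rfl
    simp only [e, h0]
    exact ⟨rfl, rfl⟩
  · have e : (dat s.ci).arc (WSt.cl true 0) = (dat s.ci).a2 := rfl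
    simp only [e, h2]
    exact ⟨rfl, rfl⟩

/-- The frame and the orientation of the energy letter `2`. -/
theorem ch_two (h0 : (dat s.ci).a0.fl = false) (h2 : (dat s.ci).a2.fl = true) :
    ((s.ch dat 2).f = (match s.o with
      | false => (s.f.ch 2).mir
      | true => s.f.ch 0)) ∧ (s.ch dat 2).o = true := by
  unfold WSt.ch
  rcases ho : s.o with _ | _
  · have e : (dat s.ci).arc (WSt.cl false 2) = (dat s.ci).a2 := rfl
    simp only [e, h2]
    exact ⟨rfl, rfl⟩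
  · have e : (dat s.ci).arc (WSt.cl true 2) = (dat s.ci).a0 := rfl
    simp only [e, h0]
    exact ⟨rfl, rfl⟩

theorem oX_zero (h0 : (dat s.ci).a0.fl = false) (h2 : (dat s.ci).a2.fl = true) (lam E : ℝ) :
    oX lam (s.ch dat 0) E = oZ lam s E := by
  obtain ⟨e1, e2⟩ := ch_zero h0 h2
  unfold oX oZ
  rw [e1, e2]
  rcases ho : s.o with _ | _
  · show 1 * (s.f.e3 * xs lam E (s.f.m + 2)) = 1 * (s.f.e3 * xs lam E (s.f.m + 2))
    rfl
  · show 1 * (-s.f.e3 * xs lam E (s.f.m + 2)) = -1 * (s.f.e3 * xs lam E (s.f.m + 2))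
    ring

theorem oX_two (h0 : (dat s.ci).a0.fl = false) (h2 : (dat s.ci).a2.fl = true) (lam E : ℝ) :
    oX lam (s.ch dat 2) E = oZ lam s E := by
  obtain ⟨e1, e2⟩ := ch_two h0 h2
  unfold oX oZ
  rw [e1, e2]
  rcases ho : s.o with _ | _
  · show -1 * (-s.f.e3 * xs lam E (s.f.m + 2)) = 1 * (s.f.e3 * xs lam E (s.f.m + 2))
    ring
  · show -1 * (s.f.e3 * xs lam E (s.f.m + 2)) = -1 * (s.f.e3 * xs lam E (s.f.m + 2))
    rfl

theorem oZ_zero (hf : s.f.ok) (h0 : (dat s.ci).a0.fl = false) (h2 : (dat s.ci).a2.fl = true)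
    (lam E : ℝ) :
    oZ lam (s.ch dat 0) E = s.f.Y lam E -
      2 * (2 * oZ lam s E * s.f.Y lam E - oX lam s E) * oZ lam s E := by
  obtain ⟨e1, e2⟩ := ch_zero h0 h2
  obtain ⟨-, r⟩ := fr_recs hf lam E
  unfold oX oZ
  rw [e1, e2]
  rcases ho : s.o with _ | _
  · show 1 * (-s.f.e2 * xs lam E (s.f.m + 4)) = s.f.Y lam E -
      2 * (2 * (1 * s.f.Z lam E) * s.f.Y lam E - 1 * s.f.X lam E) * (1 * s.f.Z lam E)
    linear_combination -r
  · show 1 * (-s.f.e2 * xs lam E (s.f.m + 4)) = s.f.Y lam E -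
      2 * (2 * (-1 * s.f.Z lam E) * s.f.Y lam E - -1 * s.f.X lam E) * (-1 * s.f.Z lam E)
    linear_combination -r

theorem oZ_two (hf : s.f.ok) (h0 : (dat s.ci).a0.fl = false) (h2 : (dat s.ci).a2.fl = true)
    (lam E : ℝ) :
    oZ lam (s.ch dat 2) E =
      2 * (2 * oZ lam s E * s.f.Y lam E - oX lam s E) * oZ lam s E - s.f.Y lam E := by
  obtain ⟨e1, e2⟩ := ch_two h0 h2
  obtain ⟨-, r⟩ := fr_recs hf lam E
  unfold oX oZ
  rw [e1, e2]
  rcases ho : s.o with _ | _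
  · show -1 * (-s.f.e2 * xs lam E (s.f.m + 4)) =
      2 * (2 * (1 * s.f.Z lam E) * s.f.Y lam E - 1 * s.f.X lam E) * (1 * s.f.Z lam E) - s.f.Y lam E
    linear_combination r
  · show -1 * (-s.f.e2 * xs lam E (s.f.m + 4)) =
      2 * (2 * (-1 * s.f.Z lam E) * s.f.Y lam E - -1 * s.f.X lam E) * (-1 * s.f.Z lam E)
        - s.f.Y lam E
    linear_combination r

theorem oZ1_zero (hf : s.f.ok) (h0 : (dat s.ci).a0.fl = false) (h2 : (dat s.ci).a2.fl = true)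
    {lam E : ℝ} (hD : 0 < s.f.Y lam E - s.f.X lam E * s.f.Z lam E) (hs : s.f.Z1 lam E ≠ 0) :
    oZ1 lam (s.ch dat 0) E = oZ1 lam s E *
      (gZ (oX lam s E) (s.f.Y lam E) (oZ lam s E) +
        gX (oX lam s E) (s.f.Y lam E) (oZ lam s E) * s.f.sig lam E) := by
  obtain ⟨e1, e2⟩ := ch_zero h0 h2
  have r := fr_deriv hf hD hs
  unfold oX oZ oZ1
  rw [e1, e2]
  rcases ho : s.o with _ | _
  · show 1 * (-s.f.e2 * xs1 lam E (s.f.m + 4)) = 1 * s.f.Z1 lam E *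
      (gZ (1 * s.f.X lam E) (s.f.Y lam E) (1 * s.f.Z lam E) +
        gX (1 * s.f.X lam E) (s.f.Y lam E) (1 * s.f.Z lam E) * s.f.sig lam E)
    rw [one_mul, one_mul, one_mul, one_mul]
    exact r
  · show 1 * (-s.f.e2 * xs1 lam E (s.f.m + 4)) = -1 * s.f.Z1 lam E *
      (gZ (-1 * s.f.X lam E) (s.f.Y lam E) (-1 * s.f.Z lam E) +
        gX (-1 * s.f.X lam E) (s.f.Y lam E) (-1 * s.f.Z lam E) * s.f.sig lam E)
    rw [neg_one_mul (s.f.X lam E), neg_one_mul (s.f.Z lam E), gZ_neg, gX_neg]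
    linear_combination r

theorem oZ1_two (hf : s.f.ok) (h0 : (dat s.ci).a0.fl = false) (h2 : (dat s.ci).a2.fl = true)
    {lam E : ℝ} (hD : 0 < s.f.Y lam E - s.f.X lam E * s.f.Z lam E) (hs : s.f.Z1 lam E ≠ 0) :
    oZ1 lam (s.ch dat 2) E = oZ1 lam s E *
      (gZ (-oX lam s E) (s.f.Y lam E) (-oZ lam s E) +
        gX (-oX lam s E) (s.f.Y lam E) (-oZ lam s E) * s.f.sig lam E) := by
  obtain ⟨e1, e2⟩ := ch_two h0 h2
  have r := fr_deriv hf hD hs
  rw [gZ_neg, gX_neg]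
  unfold oX oZ oZ1
  rw [e1, e2]
  rcases ho : s.o with _ | _
  · show -1 * (-s.f.e2 * xs1 lam E (s.f.m + 4)) = 1 * s.f.Z1 lam E *
      (-gZ (1 * s.f.X lam E) (s.f.Y lam E) (1 * s.f.Z lam E) +
        -gX (1 * s.f.X lam E) (s.f.Y lam E) (1 * s.f.Z lam E) * s.f.sig lam E)
    rw [one_mul (s.f.X lam E), one_mul (s.f.Z lam E)]
    linear_combination -r
  · show -1 * (-s.f.e2 * xs1 lam E (s.f.m + 4)) = -1 * s.f.Z1 lam E *
      (-gZ (-1 * s.f.X lam E) (s.f.Y lam E) (-1 * s.f.Z lam E) +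
        -gX (-1 * s.f.X lam E) (s.f.Y lam E) (-1 * s.f.Z lam E) * s.f.sig lam E)
    rw [neg_one_mul (s.f.X lam E), neg_one_mul (s.f.Z lam E), gZ_neg, gX_neg]
    linear_combination -r

theorem sig_zero (h0 : (dat s.ci).a0.fl = false) (h2 : (dat s.ci).a2.fl = true)
    {lam E : ℝ} (hs : (s.ch dat 0).f.Z1 lam E ≠ 0) :
    (s.ch dat 0).f.sig lam E * oZ1 lam (s.ch dat 0) E = oZ1 lam s E := by
  obtain ⟨e1, e2⟩ := ch_zero h0 h2
  unfold Fr.sig oZ1
  rw [e2]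
  have h : (s.ch dat 0).f.X1 lam E = sgF s.o * s.f.Z1 lam E := by
    rw [e1]
    rcases ho : s.o with _ | _
    · show s.f.e3 * xs1 lam E (s.f.m + 2) = 1 * (s.f.e3 * xs1 lam E (s.f.m + 2))
      ring
    · show -s.f.e3 * xs1 lam E (s.f.m + 2) = -1 * (s.f.e3 * xs1 lam E (s.f.m + 2))
      ring
  rw [h]
  show sgF s.o * s.f.Z1 lam E / (s.ch dat 0).f.Z1 lam E * (1 * (s.ch dat 0).f.Z1 lam E) = _
  rw [one_mul, div_mul_cancel₀ _ hs]

theorem sig_two (h0 : (dat s.ci).a0.fl = false) (h2 : (dat s.ci).a2.fl = true)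
    {lam E : ℝ} (hs : (s.ch dat 2).f.Z1 lam E ≠ 0) :
    (s.ch dat 2).f.sig lam E * oZ1 lam (s.ch dat 2) E = oZ1 lam s E := by
  obtain ⟨e1, e2⟩ := ch_two h0 h2
  unfold Fr.sig oZ1
  rw [e2]
  have h : (s.ch dat 2).f.X1 lam E = -(sgF s.o * s.f.Z1 lam E) := by
    rw [e1]
    rcases ho : s.o with _ | _
    · show -s.f.e3 * xs1 lam E (s.f.m + 2) = -(1 * (s.f.e3 * xs1 lam E (s.f.m + 2)))
      ring
    · show s.f.e3 * xs1 lam E (s.f.m + 2) = -(-1 * (s.f.e3 * xs1 lam E (s.f.m + 2)))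
      ring
  rw [h]
  show -(sgF s.o * s.f.Z1 lam E) / (s.ch dat 2).f.Z1 lam E * (-1 * (s.ch dat 2).f.Z1 lam E) = _
  rw [neg_one_mul, mul_neg, neg_div, neg_mul, neg_neg, div_mul_cancel₀ _ hs]

end child

end Pool.Agent.H98.Fib
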