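import Pool.Agent.H20.Fib.SysT
import Pool.Agent.H98.Fib.FrJ

/-!
# The functions `X, Y, sg` of the words of a class table (problem MP_9069b3_mp)
-/

namespace Pool.Agent.H98.Fib

open Pool.Agent.H20.Fib

theorem sgF_cases (o : Bool) : sgF o = 1 ∨ sgF o = -1 := by
  cases o
  · exact Or.inl rfl
  · exact Or.inr rfl

/-- The functions of the words of a class table. -/
noncomputable def mkTubeJ {lam : ℝ} {kap : TM} (hk : KapOK lam kap) {N : ℕ} {cls : ℕ → Cls}
    {dat : ℕ → ClsD} (hT : TabOK kap N cls dat) {s0 : WSt} {l r : ℝ}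
    (hR : RootOK lam N cls s0 l r) : TubeJ (mkTube hk hT hR) where
  X w E := oX lam (wst dat s0 w) E
  Y w E := (wst dat s0 w).f.Y lam E
  sg w E := (wst dat s0 w).f.sig lam E
  inv w E := oXYZ_inv (wst_good hT hR.good w).f lam E
  pos w E hP := by
    have h : (wst dat s0 w).Pt lam cls E := hP
    have := h.pos
    show 0 < (wst dat s0 w).f.Y lam E - oX lam (wst dat s0 w) E * oZ lam (wst dat s0 w) E
    rw [oXZ]
    exact this
  X0 w E := by
    have hs := wst_good hT hR.good w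
    exact oX_zero (hT.fl0 _ hs.ci) (hT.fl2 _ hs.ci) lam E
  Z0 w E := by
    have hs := wst_good hT hR.good w
    exact oZ_zero hs.f (hT.fl0 _ hs.ci) (hT.fl2 _ hs.ci) lam E
  X2 w E := by
    have hs := wst_good hT hR.good w
    exact oX_two (hT.fl0 _ hs.ci) (hT.fl2 _ hs.ci) lam E
  Z2 w E := by
    have hs := wst_good hT hR.good w
    exact oZ_two hs.f (hT.fl0 _ hs.ci) (hT.fl2 _ hs.ci) lam E
  d0 w E hP := by
    have h : (wst dat s0 w).Pt lam cls E := hP
    have hs := wst_good hT hR.good w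
    exact oZ1_zero hs.f (hT.fl0 _ hs.ci) (hT.fl2 _ hs.ci) h.pos (mono_ne h)
  d2 w E hP := by
    have h : (wst dat s0 w).Pt lam cls E := hP
    have hs := wst_good hT hR.good w
    exact oZ1_two hs.f (hT.fl0 _ hs.ci) (hT.fl2 _ hs.ci) h.pos (mono_ne h)
  s0 w E hne := by
    have hs := wst_good hT hR.good w
    refine sig_zero (hT.fl0 _ hs.ci) (hT.fl2 _ hs.ci) ?_
    intro h0
    apply hne
    show sgF ((wst dat s0 w).ch dat 0).o * ((wst dat s0 w).ch dat 0).f.Z1 lam E = 0
    rw [h0, mul_zero]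
  s2 w E hne := by
    have hs := wst_good hT hR.good w
    refine sig_two (hT.fl0 _ hs.ci) (hT.fl2 _ hs.ci) ?_
    intro h0
    apply hne
    show sgF ((wst dat s0 w).ch dat 2).o * ((wst dat s0 w).ch dat 2).f.Z1 lam E = 0
    rw [h0, mul_zero]

end Pool.Agent.H98.Fib
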