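import Pool.Agent.H98.Fib.CovTree

/-!
# Interface between the tube part (B) and the coverage part (C) (problem MP_9069b3_mp)

* Lengths of a word `w` are measured in units `A w` (left edge constant) or, in the mirror image,
  `B w` (right edge constant): `A (0 :: w) = A w / mu`, `B (2 :: w) = B w / mu` exactly.
* Every word has a context `ctx w` (a row of the table `tab`) and two parameters
  `x w, n w ∈ [-1, 1]`; every quantity of the row is an affine form `c + s x + t n` of the
  parameters up to the error `e`.  Units of the integers: `2^-20`.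
* The row of the context `mir (ctx w)` describes the mirror image of `w` (parameters `-x`, `-n`).
-/

namespace Pool.Agent.H98.Fib

/-- An affine form `c + s x + t n` with error `e`; units `2^-20`. -/
structure Aff where
  c : ℤ
  s : ℤ
  t : ℤ
  e : ℤ

/-- `q = (c + s x + t n) / 2^20` up to `e / 2^20`. -/
def Aff.Holds (f : Aff) (x n q : ℝ) : Prop :=
  |1048576 * q - ((f.c : ℝ) + f.s * x + f.t * n)| ≤ f.e

/-- One context: the quantities of a word in units of its left edge constant. -/
structure CtxRow where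
  /-- length of the hull -/
  len : Aff
  /-- right end of the child `0` -/
  e1 : Aff
  /-- left end of the child `1` -/
  e2 : Aff
  /-- right end of the child `1` -/
  e3 : Aff
  /-- left end of the child `2` -/
  e4 : Aff
  /-- left edge constants of the children -/
  a0 : Aff
  a1 : Aff
  a2 : Aff
  /-- right edge constants of the children and of the word -/
  b0 : Aff
  b1 : Aff
  b2 : Aff
  bb : Aff
  /-- contexts of the children -/
  nx0 : ℕ
  nx1 : ℕ
  nx2 : ℕ
  /-- context of the mirror image -/
  mir : ℕ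

/-- context of a child -/
def CtxRow.nx (r : CtxRow) : Fin 3 → ℕ
  | 0 => r.nx0
  | 1 => r.nx1
  | 2 => r.nx2

/-- The row describes the word `w` of the tree `T` with edge constants `A`, `B` and parameters
`x`, `n`. -/
structure CtxRow.Holds (r : CtxRow) (T : HTree) (A B : List (Fin 3) → ℝ) (w : List (Fin 3))
    (x n : ℝ) : Prop where
  len : r.len.Holds x n (T.len w / A w)
  e1 : r.e1.Holds x n ((T.hr (0 :: w) - T.hl w) / A w)
  e2 : r.e2.Holds x n ((T.hl (1 :: w) - T.hl w) / A w)
  e3 : r.e3.Holds x n ((T.hr (1 :: w) - T.hl w) / A w)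
  e4 : r.e4.Holds x n ((T.hl (2 :: w) - T.hl w) / A w)
  a0 : r.a0.Holds x n (A (0 :: w) / A w)
  a1 : r.a1.Holds x n (A (1 :: w) / A w)
  a2 : r.a2.Holds x n (A (2 :: w) / A w)
  b0 : r.b0.Holds x n (B (0 :: w) / A w)
  b1 : r.b1.Holds x n (B (1 :: w) / A w)
  b2 : r.b2.Holds x n (B (2 :: w) / A w)
  bb : r.bb.Holds x n (B w / A w)

/-- A hull tree whose words are all described by the table `tab`; `c0` is the context of the
root. -/
structure Fam (tab : ℕ → CtxRow) (c0 : ℕ) (T : HTree) (A B : List (Fin 3) → ℝ) (mu : ℝ)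
    (ctx : List (Fin 3) → ℕ) (x n : List (Fin 3) → ℝ) : Prop where
  mu_gt : 1 < mu
  A_pos : ∀ w, 0 < A w
  B_pos : ∀ w, 0 < B w
  A_zero : ∀ w, mu * A (0 :: w) = A w
  B_two : ∀ w, mu * B (2 :: w) = B w
  abs_x : ∀ w, |x w| ≤ 1
  abs_n : ∀ w, |n w| ≤ 1
  root : ctx [] = c0
  step : ∀ w i, ctx (i :: w) = (tab (ctx w)).nx i
  half : ∀ w i, 2 * T.len (i :: w) ≤ T.len w
  left : ∀ w, (tab (ctx w)).Holds T A B w (x w) (n w)
  right : ∀ w, (tab (tab (ctx w)).mir).Holds T.mirror (fun v => B (v.map HTree.mirL))
    (fun v => A (v.map HTree.mirL)) (w.map HTree.mirL) (-(x w)) (-(n w))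

end Pool.Agent.H98.Fib
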