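import Pool.Agent.H98.Fib.Blocks

/-!
# Location of the ends of the hulls in the coordinates `Z w` (problem MP_9069b3_mp)

All statements reduce a bound of `Z w e` (`e` an end of a hull) to checks of the following kind:
at the points with `Z w E = a w` the value `Z (i :: w) E` of the child is at most `a (i :: w)`.
-/

namespace Pool.Agent.H98.Fib.Tube

variable {lam : ℝ} (S : Tube lam)

/-- One step, lower bound. -/
theorem lower_step {w : List (Fin 3)} {i : Fin 3} {E a a' : ℝ} (h1 : S.l (i :: w) ≤ E)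
    (h2 : E ≤ S.r (i :: w)) (ha : a ≤ S.q w i) (ha' : a' ≤ S.Z (i :: w) E)
    (H : ∀ E', S.P w E' → S.Z w E' = a → S.Z (i :: w) E' ≤ a') : a ≤ S.Z w E := by
  by_contra hc
  push Not at hc
  have e1 : S.l w ≤ E := (S.l_lt w i).le.trans h1
  have e2 : E ≤ S.r w := h2.trans (S.r_lt w i).le
  have hE := S.Z_mem e1 e2
  obtain ⟨E', f1, f2, f3⟩ := S.exists_Z_eq w (z := a) (hE.1.trans hc.le) (ha.trans (S.hq w i))
  have hlt : E < E' := S.lt_of_Z_lt e2 f1 (by rw [f3]; exact hc)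
  have hp := ((S.arc_spec w i).2.2.1 E h1 h2).1
  have := S.strip_mono (S.block w) i e1 f2 hlt hp.le (by rw [f3]; exact ha)
  have := H E' (S.P_of_mem w f1 f2) f3
  linarith

/-- One step, upper bound. -/
theorem upper_step {w : List (Fin 3)} {i : Fin 3} {E b b' : ℝ} (h1 : S.l (i :: w) ≤ E)
    (h2 : E ≤ S.r (i :: w)) (hb : S.p w i ≤ b) (hb' : S.Z (i :: w) E ≤ b')
    (H : ∀ E', S.P w E' → S.Z w E' = b → b' ≤ S.Z (i :: w) E') : S.Z w E ≤ b := by
  by_contra hc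
  push Not at hc
  have e1 : S.l w ≤ E := (S.l_lt w i).le.trans h1
  have e2 : E ≤ S.r w := h2.trans (S.r_lt w i).le
  have hE := S.Z_mem e1 e2
  obtain ⟨E', f1, f2, f3⟩ := S.exists_Z_eq w (z := b) ((S.hp w i).trans hb) (hc.le.trans hE.2)
  have hlt : E' < E := S.lt_of_Z_lt f2 e1 (by rw [f3]; exact hc)
  have hq := ((S.arc_spec w i).2.2.1 E h1 h2).2
  have := S.strip_mono (S.block w) i f1 e2 hlt (by rw [f3]; exact hb) hq.le
  have := H E' (S.P_of_mem w f1 f2) f3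
  linarith

/-- Lower bound of the coordinate of the point with the address `i i i ...` below `w`. -/
theorem le_Z_fix {w : List (Fin 3)} {i : Fin 3} {e : ℝ}
    (he : ∀ n, S.l (rep i n w) ≤ e ∧ e ≤ S.r (rep i n w)) {a : List (Fin 3) → ℝ}
    (ha : ∀ n, a (rep i n w) ≤ S.q (rep i n w) i)
    (H : ∀ n E', S.P (rep i n w) E' → S.Z (rep i n w) E' = a (rep i n w) →
      S.Z (i :: rep i n w) E' ≤ a (i :: rep i n w)) : a w ≤ S.Z w e := by
  by_contra hc
  push Not at hc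
  have e1 := (he 0).1
  have e2 := (he 0).2
  change S.l w ≤ e at e1
  change e ≤ S.r w at e2
  have hE := S.Z_mem e1 e2
  obtain ⟨E0, f1, f2, f3⟩ := S.exists_Z_eq w (z := a w) (hE.1.trans hc.le)
    ((ha 0).trans (S.hq w i))
  have hlt : e < E0 := S.lt_of_Z_lt e2 f1 (by rw [f3]; exact hc)
  have key : ∀ n, ∃ E, E0 ≤ E ∧ S.l (rep i n w) ≤ E ∧ E ≤ S.r (rep i n w) ∧
      S.Z (rep i n w) E = a (rep i n w) := by
    intro n
    induction n with
    | zero => exact ⟨E0, le_refl _, f1, f2, f3⟩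
    | succ n ih =>
      obtain ⟨E, g0, g1, g2, g3⟩ := ih
      have hZ := H n E (S.P_of_mem _ g1 g2) g3
      have hle : S.l (i :: rep i n w) ≤ E := (he (n + 1)).1.trans (hlt.le.trans g0)
      have hup : E ≤ S.r (i :: rep i n w) := by
        by_contra hc2
        push Not at hc2
        have hs := (S.arc_spec (rep i n w) i).2.2.1 (S.r (i :: rep i n w)) (S.l_lt_r _).le
          (le_refl _)
        have := S.strip_mono (S.block (rep i n w)) i
          ((S.l_lt _ i).le.trans (S.l_lt_r _).le) g2 hc2 hs.1.le (by rw [g3]; exact ha n)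
        rw [S.Z_r] at this
        have h4 := (ha (n + 1)).trans (S.hq _ i)
        change a (i :: rep i n w) ≤ S.zr (i :: rep i n w) at h4
        linarith
      have hE' := S.Z_mem hle hup
      obtain ⟨E', k1, k2, k3⟩ := S.exists_Z_eq (i :: rep i n w) (z := a (i :: rep i n w))
        (hE'.1.trans hZ) ((ha (n + 1)).trans (S.hq _ i))
      refine ⟨E', ?_, k1, k2, k3⟩
      refine g0.trans (S.le_of_Z_le hup k1 ?_)
      rw [k3]
      exact hZ
  obtain ⟨n, hn⟩ := S.exists_len_lt w i (sub_pos.2 hlt)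
  obtain ⟨E, g0, g1, g2, _⟩ := key n
  linarith [(he n).1]

/-- Upper bound of the coordinate of the point with the address `i i i ...` below `w`. -/
theorem Z_fix_le {w : List (Fin 3)} {i : Fin 3} {e : ℝ}
    (he : ∀ n, S.l (rep i n w) ≤ e ∧ e ≤ S.r (rep i n w)) {b : List (Fin 3) → ℝ}
    (hb : ∀ n, S.p (rep i n w) i ≤ b (rep i n w))
    (H : ∀ n E', S.P (rep i n w) E' → S.Z (rep i n w) E' = b (rep i n w) →
      b (i :: rep i n w) ≤ S.Z (i :: rep i n w) E') : S.Z w e ≤ b w := by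
  by_contra hc
  push Not at hc
  have e1 := (he 0).1
  have e2 := (he 0).2
  change S.l w ≤ e at e1
  change e ≤ S.r w at e2
  have hE := S.Z_mem e1 e2
  obtain ⟨E0, f1, f2, f3⟩ := S.exists_Z_eq w (z := b w) ((S.hp w i).trans (hb 0))
    (hc.le.trans hE.2)
  have hlt : E0 < e := S.lt_of_Z_lt f2 e1 (by rw [f3]; exact hc)
  have key : ∀ n, ∃ E, E ≤ E0 ∧ S.l (rep i n w) ≤ E ∧ E ≤ S.r (rep i n w) ∧
      S.Z (rep i n w) E = b (rep i n w) := by
    intro n
    induction n with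
    | zero => exact ⟨E0, le_refl _, f1, f2, f3⟩
    | succ n ih =>
      obtain ⟨E, g0, g1, g2, g3⟩ := ih
      have hZ := H n E (S.P_of_mem _ g1 g2) g3
      have hup : E ≤ S.r (i :: rep i n w) := g0.trans (hlt.le.trans (he (n + 1)).2)
      have hle : S.l (i :: rep i n w) ≤ E := by
        by_contra hc2
        push Not at hc2
        have hs := (S.arc_spec (rep i n w) i).2.2.1 (S.l (i :: rep i n w)) (le_refl _)
          (S.l_lt_r _).le
        have := S.strip_mono (S.block (rep i n w)) i g1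
          ((S.l_lt_r _).le.trans (S.r_lt _ i).le) hc2 (by rw [g3]; exact hb n) hs.2.le
        rw [S.Z_l] at this
        have h4 := (S.hp _ i).trans (hb (n + 1))
        change S.zl (i :: rep i n w) ≤ b (i :: rep i n w) at h4
        linarith
      have hE' := S.Z_mem hle hup
      obtain ⟨E', k1, k2, k3⟩ := S.exists_Z_eq (i :: rep i n w) (z := b (i :: rep i n w))
        ((S.hp _ i).trans (hb (n + 1))) (hZ.trans hE'.2)
      refine ⟨E', ?_, k1, k2, k3⟩
      refine le_trans (S.le_of_Z_le k2 hle ?_) g0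
      rw [k3]
      exact hZ
  obtain ⟨n, hn⟩ := S.exists_len_lt w i (sub_pos.2 hlt)
  obtain ⟨E, g0, g1, g2, _⟩ := key n
  linarith [(he n).2]

theorem hl_mem (w : List (Fin 3)) (n : ℕ) :
    S.l (rep 0 n w) ≤ S.hl w ∧ S.hl w ≤ S.r (rep 0 n w) :=
  ⟨S.l_rep_le_hl w n, S.hl_le_r_rep w n⟩

theorem hr_mem (w : List (Fin 3)) (n : ℕ) :
    S.l (rep 2 n w) ≤ S.hr w ∧ S.hr w ≤ S.r (rep 2 n w) :=
  ⟨S.l_rep_le_hr w n, S.hr_le_r_rep w n⟩

/-- Bounds of the left ends of the hulls, for all words at once. -/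
theorem le_Z_hl {a : List (Fin 3) → ℝ} (ha : ∀ w, a w ≤ S.q w 0)
    (H : ∀ w E', S.P w E' → S.Z w E' = a w → S.Z (0 :: w) E' ≤ a (0 :: w))
    (w : List (Fin 3)) : a w ≤ S.Z w (S.hl w) :=
  S.le_Z_fix (S.hl_mem w) (fun _ => ha _) fun _ => H _

theorem Z_hl_le {b : List (Fin 3) → ℝ} (hb : ∀ w, S.p w 0 ≤ b w)
    (H : ∀ w E', S.P w E' → S.Z w E' = b w → b (0 :: w) ≤ S.Z (0 :: w) E')
    (w : List (Fin 3)) : S.Z w (S.hl w) ≤ b w :=
  S.Z_fix_le (S.hl_mem w) (fun _ => hb _) fun _ => H _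

theorem le_Z_hr {a : List (Fin 3) → ℝ} (ha : ∀ w, a w ≤ S.q w 2)
    (H : ∀ w E', S.P w E' → S.Z w E' = a w → S.Z (2 :: w) E' ≤ a (2 :: w))
    (w : List (Fin 3)) : a w ≤ S.Z w (S.hr w) :=
  S.le_Z_fix (S.hr_mem w) (fun _ => ha _) fun _ => H _

theorem Z_hr_le {b : List (Fin 3) → ℝ} (hb : ∀ w, S.p w 2 ≤ b w)
    (H : ∀ w E', S.P w E' → S.Z w E' = b w → b (2 :: w) ≤ S.Z (2 :: w) E')
    (w : List (Fin 3)) : S.Z w (S.hr w) ≤ b w :=
  S.Z_fix_le (S.hr_mem w) (fun _ => hb _) fun _ => H _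

/-- Bounds of the inner edges from bounds of the ends of the hulls of the children. -/
theorem le_Z_hl_child {w : List (Fin 3)} {i : Fin 3} {a a' : ℝ} (ha : a ≤ S.q w i)
    (ha' : a' ≤ S.Z (i :: w) (S.hl (i :: w)))
    (H : ∀ E', S.P w E' → S.Z w E' = a → S.Z (i :: w) E' ≤ a') : a ≤ S.Z w (S.hl (i :: w)) :=
  S.lower_step (S.l_le_hl _) (S.hl_le_r _) ha ha' H

theorem Z_hl_child_le {w : List (Fin 3)} {i : Fin 3} {b b' : ℝ} (hb : S.p w i ≤ b)
    (hb' : S.Z (i :: w) (S.hl (i :: w)) ≤ b')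
    (H : ∀ E', S.P w E' → S.Z w E' = b → b' ≤ S.Z (i :: w) E') : S.Z w (S.hl (i :: w)) ≤ b :=
  S.upper_step (S.l_le_hl _) (S.hl_le_r _) hb hb' H

theorem le_Z_hr_child {w : List (Fin 3)} {i : Fin 3} {a a' : ℝ} (ha : a ≤ S.q w i)
    (ha' : a' ≤ S.Z (i :: w) (S.hr (i :: w)))
    (H : ∀ E', S.P w E' → S.Z w E' = a → S.Z (i :: w) E' ≤ a') : a ≤ S.Z w (S.hr (i :: w)) :=
  S.lower_step (S.l_le_hr _) (S.hr_le_r _) ha ha' H

theorem Z_hr_child_le {w : List (Fin 3)} {i : Fin 3} {b b' : ℝ} (hb : S.p w i ≤ b)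
    (hb' : S.Z (i :: w) (S.hr (i :: w)) ≤ b')
    (H : ∀ E', S.P w E' → S.Z w E' = b → b' ≤ S.Z (i :: w) E') : S.Z w (S.hr (i :: w)) ≤ b :=
  S.upper_step (S.l_le_hr _) (S.hr_le_r _) hb hb' H

end Pool.Agent.H98.Fib.Tube
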