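import Pool.Agent.H20.Fib.SysT
import Pool.Agent.H20.Fib.D.Tab
import Pool.Agent.H20.Fib.D.Root

/-!
# The root of the tube system (problem MP_9069b3_mp)
-/

namespace Pool.Agent.H98.Fib

open Pool.Agent.H20.Fib
open Pool.Agent.H98.Fib.RootJet (fb fb_ok root_sound)

/-- The state of the root block `b = aL`: class 24, no parameters, frame `(3; -1, -1, 1)`. -/
noncomputable def st0 : WSt := ⟨24, 0, 0, fb, false⟩

theorem st0_good : st0.Good 37 := by
  refine ⟨?_, ?_, ?_, fb_ok⟩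
  · show 24 < 37
    norm_num
  · show |(0 : ℝ)| ≤ 1
    norm_num
  · show |(0 : ℝ)| ≤ 1
    norm_num

theorem exists_root {lam : ℝ} (hl : |lam - 1394 / 1000| ≤ 1 / 1000000000) :
    ∃ l r : ℝ, RootOK lam 37 D.cls st0 l r ∧ -(13074 / 10000) ≤ l ∧ l ≤ -(13068 / 10000) ∧
      -(11615 / 10000) ≤ r ∧ r ≤ -(11599 / 10000) := by
  obtain ⟨l, r, hlt, h1, h2, h3, h4, h5, h6, h7⟩ := root_sound D.root24 hl
  have e : D.cls st0.ci = D.c24 := rfl
  push_cast at h1 h2 h3 h4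
  refine ⟨l, r, ⟨st0_good, hlt, ?_, ?_, ?_, ?_⟩, by linarith, by linarith, by linarith,
    by linarith⟩
  · rw [e]
    show 1 * fb.Z lam l = (D.c24.p : ℝ) / 2 ^ 40
    rw [← h5, one_mul]
    field_simp
  · rw [e]
    show 1 * fb.Z lam r = (D.c24.hi : ℝ) / 2 ^ 40
    rw [← h6, one_mul]
    field_simp
  · intro E a b
    obtain ⟨p1, p2, p3⟩ := h7 E a b
    refine ⟨by rw [e]; exact p1, p3, ?_⟩
    show 0 < 1 * fb.Z1 lam E
    linarith
  · intro E a b
    obtain ⟨p1, p2, p3⟩ := h7 E a b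
    show 1 ≤ 1 * fb.Z1 lam E
    linarith

end Pool.Agent.H98.Fib
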