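import Pool.Agent.H98.Fib.Defs

/-!
# FA-7. The escape lemma for the trace sequence

PROOF.  Write `x n = xs lam E n` (`x 0 = 1`).  Suppose `|x n| > 1` and `|x (n+1)| > 1`.
Let `m ≤ n` be the least index with `|x j| > 1` for all `m ≤ j ≤ n + 1`.  Then `m ≥ 1` (as
`x 0 = 1`) and `|x (m-1)| ≤ 1`.  Claim: for all `j ≥ m`: `|x j| > 1` and
`|x (j+2)| > |x (j+1)| |x j|`, and `|x (j + 2)| > |x j|`.
Start: `|x (m+2)| ≥ 2 |x (m+1)| |x m| - |x (m-1)| > |x (m+1)| |x m|` because
`|x (m+1)| |x m| > 1 ≥ |x (m-1)|`.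
Step: `|x (j+3)| ≥ 2 |x (j+2)| |x (j+1)| - |x j|` and
`|x (j+2)| |x (j+1)| > |x (j+1)|^2 |x j| > |x j|`, so `|x (j+3)| > |x (j+2)| |x (j+1)| > 1`.
(Suitable induction invariant: `1 < |x j|`, `1 < |x (j+1)|`, `|x (j-1)| < |x j| |x (j+1)|`.)
`Sig_iff_frequently`: if `E ∈ Sig` then for every `K` one of `|x K|`, `|x (K+1)|` is `≤ 1`.
Conversely if `E ∉ Sig` then some `|x n|, |x (n+1)| > 1` so `|x j| > 1` for all `j ≥ n`.
-/

namespace Pool.Agent.H98.Fib

/-- the last index before `n` where the half trace is at most one -/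
theorem esc_last (lam E : ℝ) (n : ℕ) : 1 < |xs lam E n| →
    ∃ m < n, |xs lam E m| ≤ 1 ∧ ∀ j, m < j → j ≤ n → 1 < |xs lam E j| := by
  induction n with
  | zero =>
    intro h
    exfalso
    have h0 : xs lam E 0 = 1 := by simp [xs]
    rw [h0, abs_one] at h
    exact lt_irrefl _ h
  | succ n ih =>
    intro h
    by_cases hn : |xs lam E n| ≤ 1
    · refine ⟨n, Nat.lt_succ_self n, hn, fun j h1 h2 => ?_⟩
      have : j = n + 1 := by omega
      rw [this]
      exact h
    · obtain ⟨m, hm, hm1, hm2⟩ := ih (not_le.1 hn)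
      refine ⟨m, by omega, hm1, fun j h1 h2 => ?_⟩
      rcases Nat.lt_or_ge n j with h3 | h3
      · have : j = n + 1 := by omega
        rw [this]
        exact h
      · exact hm2 j h1 h3

theorem xs_rec (lam E : ℝ) (n : ℕ) :
    xs lam E (n + 3) = 2 * xs lam E (n + 2) * xs lam E (n + 1) - xs lam E n := by
  simp [xs]

/-- one step of the escape -/
theorem esc_step (lam E : ℝ) (j : ℕ)
    (h : 1 < |xs lam E (j + 1)| ∧ 1 < |xs lam E (j + 2)| ∧
      |xs lam E j| < |xs lam E (j + 1)| * |xs lam E (j + 2)|) :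
    1 < |xs lam E (j + 2)| ∧ 1 < |xs lam E (j + 3)| ∧
      |xs lam E (j + 1)| < |xs lam E (j + 2)| * |xs lam E (j + 3)| := by
  obtain ⟨h1, h2, h3⟩ := h
  have e : |2 * xs lam E (j + 2) * xs lam E (j + 1)|
      = 2 * (|xs lam E (j + 1)| * |xs lam E (j + 2)|) := by
    rw [abs_mul, abs_mul, abs_of_pos (by norm_num : (0:ℝ) < 2)]
    ring
  have h4 : |xs lam E (j + 1)| * |xs lam E (j + 2)| < |xs lam E (j + 3)| := by
    rw [xs_rec]
    have := abs_sub_abs_le_abs_sub (2 * xs lam E (j + 2) * xs lam E (j + 1)) (xs lam E j)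
    rw [e] at this
    linarith
  have h5 : |xs lam E (j + 1)| < |xs lam E (j + 3)| := by nlinarith
  refine ⟨h2, by linarith, ?_⟩
  nlinarith

theorem esc (lam E : ℝ) (n : ℕ) (h1 : 1 < |xs lam E n|) (h2 : 1 < |xs lam E (n + 1)|) :
    ∀ j ≥ n, 1 < |xs lam E j| := by
  obtain ⟨m, hm, hm1, hm2⟩ := esc_last lam E (n + 1) h2
  have hmn : m < n := by
    rcases Nat.lt_or_ge m n with h | h
    · exact h
    · exfalso
      have : m = n := by omega
      rw [this] at hm1
      exact absurd h1 (not_lt.2 hm1)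
  have key : ∀ i : ℕ, 1 < |xs lam E (m + i + 1)| ∧ 1 < |xs lam E (m + i + 2)| ∧
      |xs lam E (m + i)| < |xs lam E (m + i + 1)| * |xs lam E (m + i + 2)| := by
    intro i
    induction i with
    | zero =>
      have a1 := hm2 (m + 1) (by omega) (by omega)
      have a2 := hm2 (m + 2) (by omega) (by omega)
      refine ⟨a1, a2, ?_⟩
      have : |xs lam E (m + 0)| ≤ 1 := hm1
      have b : 1 < |xs lam E (m + 1)| * |xs lam E (m + 2)| := by nlinarith
      exact lt_of_le_of_lt this b
    | succ i ih => exact esc_step lam E (m + i) ih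
  intro j hj
  have := (key (j - m - 1)).1
  have hj' : m + (j - m - 1) + 1 = j := by omega
  rwa [hj'] at this

theorem Sig_iff_frequently (lam E : ℝ) :
    E ∈ Sig lam ↔ ∀ K : ℕ, ∃ k ≥ K, |xs lam E k| ≤ 1 := by
  constructor
  · intro h K
    rcases h K with h | h
    · exact ⟨K, le_refl _, h⟩
    · exact ⟨K + 1, by omega, h⟩
  · intro h n
    by_contra hc
    push Not at hc
    obtain ⟨k, hk, hk'⟩ := h n
    exact absurd (esc lam E n hc.1 hc.2 k hk) (not_lt.2 hk')

/-- joint continuity in the coupling and the energy -/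
theorem continuous_xs' (n : ℕ) : Continuous (fun p : ℝ × ℝ => xs p.1 p.2 n) := by
  have : ∀ n : ℕ, Continuous (fun p : ℝ × ℝ => xs p.1 p.2 n) ∧
      Continuous (fun p : ℝ × ℝ => xs p.1 p.2 (n + 1)) ∧
      Continuous (fun p : ℝ × ℝ => xs p.1 p.2 (n + 2)) := by
    intro n
    induction n with
    | zero =>
      refine ⟨?_, ?_, ?_⟩
      · have : (fun p : ℝ × ℝ => xs p.1 p.2 0) = fun _ => 1 := by
          funext p
          simp [xs]
        rw [this]
        exact continuous_const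
      · have : (fun p : ℝ × ℝ => xs p.1 p.2 (0 + 1)) = fun p => p.2 / 2 := by
          funext p
          simp [xs]
        rw [this]
        fun_prop
      · have : (fun p : ℝ × ℝ => xs p.1 p.2 (0 + 2)) = fun p => (p.2 - p.1) / 2 := by
          funext p
          simp [xs]
        rw [this]
        fun_prop
    | succ n ih =>
      obtain ⟨a, b, c⟩ := ih
      refine ⟨b, c, ?_⟩
      have : (fun p : ℝ × ℝ => xs p.1 p.2 (n + 1 + 2)) =
          fun p => 2 * xs p.1 p.2 (n + 2) * xs p.1 p.2 (n + 1) - xs p.1 p.2 n := by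
        funext p
        exact xs_rec p.1 p.2 n
      rw [this]
      exact ((continuous_const.mul c).mul b).sub a
  exact (this n).1

theorem continuous_xs (lam : ℝ) (n : ℕ) : Continuous (fun E => xs lam E n) :=
  (continuous_xs' n).comp (Continuous.prodMk_right lam)

theorem isClosed_Sig (lam : ℝ) : IsClosed (Sig lam) := by
  have : Sig lam = ⋂ n : ℕ, ({E : ℝ | |xs lam E n| ≤ 1} ∪ {E : ℝ | |xs lam E (n + 1)| ≤ 1}) := by
    ext E
    simp [Sig]
  rw [this]
  refine isClosed_iInter fun n => IsClosed.union ?_ ?_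
  · exact isClosed_le (continuous_abs.comp (continuous_xs lam n)) continuous_const
  · exact isClosed_le (continuous_abs.comp (continuous_xs lam (n + 1))) continuous_const

end Pool.Agent.H98.Fib
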