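import Pool.Agent.H20.Fib.TMf
import Pool.Agent.H20.Fib.Jet
import Pool.Agent.H98.Fib.Esc

/-!
# Lengths and densities on a piece of a block, by Taylor models (problem MP_9069b3_mp)

`seg_rep`: let `f` be a frame, `f.Z` injective on the energies between `Ea` and `Eb`,
`f.Z Ea = m - h`, `f.Z Eb = m + h`.  If `NU` models `f.nu` at the energy with `f.Z = m + h T`, and
`HT` models `h`, then `mul HT (integ (exp (mul HT (ai NU))))` models `|Eb - Ea| |f.Z1 Ea|` and
`exp (mul HT (integ NU))` models `|f.Z1 Ea| / |f.Z1 Eb|`.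
-/

namespace Pool.Agent.H98.Fib

open Pool.Agent.H20.Fib
open Pool.Agent.H20.Fib.TM

theorem seg_analysis {Z Z1 Z2 : ℝ → ℝ} {a b m h : ℝ} (hab : a < b) (hh : 0 < h)
    (hZ : ∀ E, HasDerivAt Z (Z1 E) E) (hZ1 : ∀ E, HasDerivAt Z1 (Z2 E) E)
    (hc2 : Continuous Z2) (pos : ∀ E, a ≤ E → E ≤ b → 0 < Z1 E)
    (ha : Z a = m - h) (hb : Z b = m + h) :
    ∃ I : ℝ → ℝ, (∀ t, |t| ≤ 1 → a ≤ I t ∧ I t ≤ b ∧ Z (I t) = m + h * t) ∧ I (-1) = a ∧
      I 1 = b ∧ ContinuousOn I (Set.Icc (-1) 1) ∧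
      (∀ t, |t| ≤ 1 → Real.exp (h * ∫ s in (-1 : ℝ)..t, (-Z2 (I s) / Z1 (I s) ^ 2)) =
        Z1 a / Z1 (I t)) ∧
      h * ∫ t in (-1 : ℝ)..1, (Z1 a / Z1 (I t)) = (b - a) * Z1 a := by
  have hcZ : Continuous Z := continuous_iff_continuousAt.2 fun E => (hZ E).continuousAt
  have hcZ1 : Continuous Z1 := continuous_iff_continuousAt.2 fun E => (hZ1 E).continuousAt
  -- the inverse function
  have hex : ∀ t : ℝ, |t| ≤ 1 → ∃ E, a ≤ E ∧ E ≤ b ∧ Z E = m + h * t := by
    intro t ht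
    have ht' := abs_le.1 ht
    obtain ⟨E, hE, hE2⟩ := intermediate_value_Icc hab.le hcZ.continuousOn
      (show m + h * t ∈ Set.Icc (Z a) (Z b) by
        rw [ha, hb]
        constructor <;> nlinarith [ht'.1, ht'.2])
    exact ⟨E, hE.1, hE.2, hE2⟩
  -- minimum of the derivative
  obtain ⟨E0, hE0, hmin⟩ := isCompact_Icc.exists_isMinOn (Set.nonempty_Icc.2 hab.le)
    hcZ1.continuousOn (s := Set.Icc a b)
  have hc0 : 0 < Z1 E0 := pos E0 hE0.1 hE0.2
  have hmin' : ∀ E, a ≤ E → E ≤ b → Z1 E0 ≤ Z1 E := fun E h1 h2 => hmin ⟨h1, h2⟩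
  have hlip : ∀ E E', a ≤ E → E ≤ E' → E' ≤ b → Z1 E0 * (E' - E) ≤ Z E' - Z E := by
    intro E E' h1 h2 h3
    rcases h2.eq_or_lt with h4 | h4
    · rw [h4]; simp
    · obtain ⟨c, hc, hc2⟩ := exists_hasDerivAt_eq_slope Z Z1 h4 hcZ.continuousOn
        (fun x _ => hZ x)
      have h5 := hmin' c (h1.trans hc.1.le) (hc.2.le.trans h3)
      rw [hc2, le_div_iff₀ (sub_pos.2 h4)] at h5
      exact h5
  have hlip' : ∀ E E', a ≤ E → E ≤ b → a ≤ E' → E' ≤ b →
      Z1 E0 * |E' - E| ≤ |Z E' - Z E| := by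
    intro E E' h1 h2 h3 h4
    rcases le_total E E' with h | h
    · have := hlip E E' h1 h h4
      rw [abs_of_nonneg (sub_nonneg.2 h)]
      exact this.trans (le_abs_self _)
    · have := hlip E' E h3 h h2
      rw [abs_sub_comm, abs_of_nonneg (sub_nonneg.2 h), abs_sub_comm (Z E')]
      exact this.trans (le_abs_self _)
  classical
  let I : ℝ → ℝ := fun t => if ht : |t| ≤ 1 then Classical.choose (hex t ht) else a
  have hI : ∀ t, |t| ≤ 1 → a ≤ I t ∧ I t ≤ b ∧ Z (I t) = m + h * t := by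
    intro t ht
    have : I t = Classical.choose (hex t ht) := dif_pos ht
    rw [this]
    exact Classical.choose_spec (hex t ht)
  have hinj : ∀ E t, a ≤ E → E ≤ b → |t| ≤ 1 → Z E = m + h * t → I t = E := by
    intro E t h1 h2 ht h3
    obtain ⟨i1, i2, i3⟩ := hI t ht
    have := hlip' E (I t) h1 h2 i1 i2
    rw [i3, h3, sub_self, abs_zero] at this
    have h5 : |I t - E| = 0 := by
      have := abs_nonneg (I t - E)
      nlinarith
    linarith [abs_eq_zero.1 h5]
  have hIm : I (-1) = a := hinj a (-1) (le_refl _) hab.le (by norm_num) (by rw [ha]; ring)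
  have hI1 : I 1 = b := hinj b 1 hab.le (le_refl _) (by norm_num) (by rw [hb]; ring)
  have hIlip : ∀ t t', |t| ≤ 1 → |t'| ≤ 1 → |I t' - I t| ≤ h / Z1 E0 * |t' - t| := by
    intro t t' ht ht'
    obtain ⟨i1, i2, i3⟩ := hI t ht
    obtain ⟨j1, j2, j3⟩ := hI t' ht'
    have h5 := hlip' (I t) (I t') i1 i2 j1 j2
    have e : Z (I t') - Z (I t) = h * (t' - t) := by rw [i3, j3]; ring
    rw [e, abs_mul, abs_of_pos hh] at h5
    rw [div_mul_eq_mul_div, le_div_iff₀ hc0]
    linarith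
  have hIc : ContinuousOn I (Set.Icc (-1) 1) := by
    have hL : LipschitzOnWith (Real.toNNReal (h / Z1 E0)) I (Set.Icc (-1) 1) := by
      refine LipschitzOnWith.of_dist_le_mul fun t ht t' ht' => ?_
      rw [Real.coe_toNNReal _ (div_pos hh hc0).le, Real.dist_eq, Real.dist_eq]
      exact hIlip t' t (abs_le.2 ht') (abs_le.2 ht)
    exact hL.continuousOn
  have hId : ∀ t ∈ Set.Ioo (-1 : ℝ) 1, HasDerivAt I (h / Z1 (I t)) t := by
    intro t ht
    obtain ⟨i1, i2, i3⟩ := hI t (abs_le.2 ⟨ht.1.le, ht.2.le⟩)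
    have hf : HasDerivAt (fun E => (Z E - m) / h) (Z1 (I t) / h) (I t) :=
      ((hZ (I t)).sub_const m).div_const h
    have hne : Z1 (I t) / h ≠ 0 := (div_pos (pos _ i1 i2) hh).ne'
    have hca : ContinuousAt I t := hIc.continuousAt (Icc_mem_nhds ht.1 ht.2)
    have hev : ∀ᶠ y in nhds t, (fun E => (Z E - m) / h) (I y) = y := by
      filter_upwards [Ioo_mem_nhds ht.1 ht.2] with y hy
      obtain ⟨_, _, j3⟩ := hI y (abs_le.2 ⟨hy.1.le, hy.2.le⟩)
      show (Z (I y) - m) / h = y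
      rw [j3]
      field_simp
      ring
    have := HasDerivAt.of_local_left_inverse hca hf hne hev
    rwa [inv_div] at this
  have hZ1I : ContinuousOn (fun t => Z1 (I t)) (Set.Icc (-1) 1) := hcZ1.comp_continuousOn hIc
  have hZ2I : ContinuousOn (fun t => Z2 (I t)) (Set.Icc (-1) 1) := hc2.comp_continuousOn hIc
  have hposI : ∀ t ∈ Set.Icc (-1 : ℝ) 1, 0 < Z1 (I t) := fun t ht => by
    obtain ⟨i1, i2, _⟩ := hI t (abs_le.2 ht)
    exact pos _ i1 i2
  refine ⟨I, hI, hIm, hI1, hIc, ?_, ?_⟩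
  · intro t ht
    have ht' := abs_le.1 ht
    have hsub : Set.Icc (-1 : ℝ) t ⊆ Set.Icc (-1) 1 := Set.Icc_subset_Icc_right ht'.2
    have hcont : ContinuousOn (fun s => Real.log (Z1 (I s))) (Set.Icc (-1) t) :=
      ContinuousOn.log (hZ1I.mono hsub) fun s hs => (hposI s (hsub hs)).ne'
    have hder : ∀ s ∈ Set.Ioo (-1 : ℝ) t, HasDerivAt (fun s => Real.log (Z1 (I s)))
        (-(h * (-Z2 (I s) / Z1 (I s) ^ 2))) s := by
      intro s hs
      have hs' : s ∈ Set.Ioo (-1 : ℝ) 1 := ⟨hs.1, hs.2.trans_le ht'.2⟩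
      have hp := hposI s ⟨hs'.1.le, hs'.2.le⟩
      have d1 : HasDerivAt (fun s => Z1 (I s)) (Z2 (I s) * (h / Z1 (I s))) s :=
        (hZ1 (I s)).comp s (hId s hs')
      refine (d1.log hp.ne').congr_deriv ?_
      field_simp
    have hint : IntervalIntegrable (fun s => -(h * (-Z2 (I s) / Z1 (I s) ^ 2)))
        MeasureTheory.volume (-1) t := by
      refine ContinuousOn.intervalIntegrable ?_
      rw [Set.uIcc_of_le ht'.1]
      refine (ContinuousOn.mul continuousOn_const (ContinuousOn.div (hZ2I.mono hsub).neg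
        ((hZ1I.mono hsub).pow 2) fun s hs => ?_)).neg
      exact pow_ne_zero 2 (hposI s (hsub hs)).ne'
    have key := intervalIntegral.integral_eq_sub_of_hasDerivAt_of_le ht'.1 hcont hder hint
    rw [intervalIntegral.integral_neg, intervalIntegral.integral_const_mul, hIm] at key
    have e : h * ∫ s in (-1 : ℝ)..t, (-Z2 (I s) / Z1 (I s) ^ 2) =
        Real.log (Z1 a) - Real.log (Z1 (I t)) := by linarith
    have p1 : 0 < Z1 a := pos a (le_refl _) hab.le
    have p2 : 0 < Z1 (I t) := hposI t (abs_le.1 ht)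
    rw [e, ← Real.log_div p1.ne' p2.ne', Real.exp_log (div_pos p1 p2)]
  · have hint : IntervalIntegrable (fun s => h / Z1 (I s)) MeasureTheory.volume (-1) 1 := by
      refine ContinuousOn.intervalIntegrable ?_
      rw [Set.uIcc_of_le (by norm_num)]
      exact ContinuousOn.div continuousOn_const hZ1I fun s hs => (hposI s hs).ne'
    have key := intervalIntegral.integral_eq_sub_of_hasDerivAt_of_le (by norm_num) hIc hId hint
    rw [hIm, hI1] at key
    have e : (fun t => Z1 a / Z1 (I t)) = fun t => (Z1 a / h) * (h / Z1 (I t)) := by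
      funext t
      field_simp
    rw [e, intervalIntegral.integral_const_mul, key]
    field_simp

theorem continuous_xs1 (lam : ℝ) (n : ℕ) : Continuous fun E => xs1 lam E n :=
  continuous_iff_continuousAt.2 fun E => (hasDerivAt_xs1 lam E n).continuousAt

theorem continuous_xs2 (lam : ℝ) (n : ℕ) : Continuous fun E => xs2 lam E n := by
  have key : ∀ n, Continuous (fun E => xs2 lam E n) ∧ Continuous (fun E => xs2 lam E (n + 1)) ∧
      Continuous fun E => xs2 lam E (n + 2) := by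
    intro n
    induction n with
    | zero =>
      refine ⟨?_, ?_, ?_⟩
      · show Continuous fun _ : ℝ => (0 : ℝ)
        exact continuous_const
      · show Continuous fun _ : ℝ => (0 : ℝ)
        exact continuous_const
      · show Continuous fun _ : ℝ => (0 : ℝ)
        exact continuous_const
    | succ n ih =>
      obtain ⟨h0, h1, h2⟩ := ih
      refine ⟨h1, h2, ?_⟩
      have a1 := continuous_xs lam (n + 1)
      have a2 := continuous_xs lam (n + 2)
      have b1 := continuous_xs1 lam (n + 1)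
      have b2 := continuous_xs1 lam (n + 2)
      have e : (fun E => xs2 lam E (n + 1 + 2)) = fun E => 2 * (xs2 lam E (n + 2) * xs lam E (n + 1)
        + 2 * (xs1 lam E (n + 2) * xs1 lam E (n + 1)) + xs lam E (n + 2) * xs2 lam E (n + 1))
        - xs2 lam E n := rfl
      rw [e]
      exact (continuous_const.mul (((h2.mul a1).add (continuous_const.mul (b2.mul b1))).add
        (a2.mul h1))).sub h0
  exact (key n).1

theorem continuous_frZ1 (f : Fr) (lam : ℝ) : Continuous fun E => f.Z1 lam E :=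
  continuous_iff_continuousAt.2 fun E => (Fr.hasDerivAt_Z1 f lam E).continuousAt

theorem continuous_frZ2 (f : Fr) (lam : ℝ) : Continuous fun E => f.Z2 lam E :=
  (continuous_xs2 lam (f.m + 2)).const_mul f.e3

/-- The piece of a block between two energies, parametrised by `T`. -/
theorem seg_frame {f : Fr} {lam Ea Eb m h : ℝ} (hh : 0 < h)
    (hne : ∀ E ∈ Set.uIcc Ea Eb, f.Z1 lam E ≠ 0) (ha : f.Z lam Ea = m - h)
    (hb : f.Z lam Eb = m + h) :
    ∃ I : ℝ → ℝ, (∀ t, |t| ≤ 1 → I t ∈ Set.uIcc Ea Eb ∧ f.Z lam (I t) = m + h * t) ∧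
      I (-1) = Ea ∧ I 1 = Eb ∧ ContinuousOn I (Set.Icc (-1) 1) ∧
      (∀ t, |t| ≤ 1 → Real.exp (h * ∫ s in (-1 : ℝ)..t, f.nu lam (I s)) =
        |f.Z1 lam Ea| / |f.Z1 lam (I t)|) ∧
      h * ∫ t in (-1 : ℝ)..1, (|f.Z1 lam Ea| / |f.Z1 lam (I t)|) =
        |Eb - Ea| * |f.Z1 lam Ea| := by
  have hEne : Ea ≠ Eb := by
    intro h0
    rw [h0, hb] at ha
    linarith
  rcases lt_or_gt_of_ne hEne with hlt | hlt
  · -- increasing
    rw [Set.uIcc_of_le hlt.le] at hne ⊢
    have hpos : ∀ E, Ea ≤ E → E ≤ Eb → 0 < f.Z1 lam E := by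
      by_contra hc
      push Not at hc
      obtain ⟨E, h1, h2, h3⟩ := hc
      have hneg : f.Z1 lam E < 0 := lt_of_le_of_ne h3 (hne E ⟨h1, h2⟩)
      -- all derivatives are negative
      have hall : ∀ x ∈ Set.Icc Ea Eb, f.Z1 lam x < 0 := by
        intro x hx
        by_contra hx2
        push Not at hx2
        have hcon : (0 : ℝ) ∈ f.Z1 lam '' Set.uIcc E x :=
          intermediate_value_uIcc (continuous_frZ1 f lam).continuousOn
            (Set.mem_uIcc.2 (Or.inl ⟨h3, hx2⟩))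
        obtain ⟨y, hy, hy0⟩ := hcon
        exact hne y (Set.uIcc_subset_Icc ⟨h1, h2⟩ hx hy) hy0
      have hanti : StrictAntiOn (fun x => f.Z lam x) (Set.Icc Ea Eb) := by
        refine strictAntiOn_of_deriv_neg (convex_Icc _ _) ?_ ?_
        · exact fun x _ => (Fr.hasDerivAt_Z f lam x).continuousAt.continuousWithinAt
        · intro x hx
          rw [(Fr.hasDerivAt_Z f lam x).deriv]
          exact hall x (interior_subset hx)
      have := hanti ⟨le_refl _, hlt.le⟩ ⟨hlt.le, le_refl _⟩ hlt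
      simp only [ha, hb] at this
      linarith
    obtain ⟨I, i1, i2, i3, i4, i5, i6⟩ := seg_analysis hlt hh (Fr.hasDerivAt_Z f lam)
      (Fr.hasDerivAt_Z1 f lam) (continuous_frZ2 f lam) hpos ha hb
    have pa : |f.Z1 lam Ea| = f.Z1 lam Ea := abs_of_pos (hpos _ (le_refl _) hlt.le)
    have pt : ∀ t, |t| ≤ 1 → |f.Z1 lam (I t)| = f.Z1 lam (I t) := fun t ht =>
      abs_of_pos (hpos _ (i1 t ht).1 (i1 t ht).2.1)
    refine ⟨I, fun t ht => ⟨⟨(i1 t ht).1, (i1 t ht).2.1⟩, (i1 t ht).2.2⟩, i2, i3, i4, ?_, ?_⟩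
    · intro t ht
      rw [pa, pt t ht]
      exact i5 t ht
    · rw [abs_of_pos (sub_pos.2 hlt), pa, ← i6]
      congr 1
      refine intervalIntegral.integral_congr fun t ht => ?_
      rw [Set.uIcc_of_le (by norm_num)] at ht
      show f.Z1 lam Ea / |f.Z1 lam (I t)| = _
      rw [pt t (abs_le.2 ht)]
  · -- decreasing: reflect the energy
    rw [Set.uIcc_of_ge hlt.le] at hne ⊢
    have hneg : ∀ E, Eb ≤ E → E ≤ Ea → f.Z1 lam E < 0 := by
      by_contra hc
      push Not at hc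
      obtain ⟨E, h1, h2, h3⟩ := hc
      have hpos : 0 < f.Z1 lam E := lt_of_le_of_ne h3 (hne E ⟨h1, h2⟩).symm
      have hall : ∀ x ∈ Set.Icc Eb Ea, 0 < f.Z1 lam x := by
        intro x hx
        by_contra hx2
        push Not at hx2
        have hcon : (0 : ℝ) ∈ f.Z1 lam '' Set.uIcc E x :=
          intermediate_value_uIcc (continuous_frZ1 f lam).continuousOn
            (Set.mem_uIcc.2 (Or.inr ⟨hx2, h3⟩))
        obtain ⟨y, hy, hy0⟩ := hcon
        exact hne y (Set.uIcc_subset_Icc ⟨h1, h2⟩ hx hy) hy0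
      have hmono : StrictMonoOn (fun x => f.Z lam x) (Set.Icc Eb Ea) := by
        refine strictMonoOn_of_deriv_pos (convex_Icc _ _) ?_ ?_
        · exact fun x _ => (Fr.hasDerivAt_Z f lam x).continuousAt.continuousWithinAt
        · intro x hx
          rw [(Fr.hasDerivAt_Z f lam x).deriv]
          exact hall x (interior_subset hx)
      have := hmono ⟨le_refl _, hlt.le⟩ ⟨hlt.le, le_refl _⟩ hlt
      simp only [ha, hb] at this
      linarith
    have dZ : ∀ E, HasDerivAt (fun x => f.Z lam (-x)) (-f.Z1 lam (-E)) E := fun E => by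
      have := (Fr.hasDerivAt_Z f lam (-E)).comp E (hasDerivAt_neg E)
      refine this.congr_deriv (by ring)
    have dZ1 : ∀ E, HasDerivAt (fun x => -f.Z1 lam (-x)) (f.Z2 lam (-E)) E := fun E => by
      have := ((Fr.hasDerivAt_Z1 f lam (-E)).comp E (hasDerivAt_neg E)).neg
      refine this.congr_deriv (by ring)
    obtain ⟨I, i1, i2, i3, i4, i5, i6⟩ := seg_analysis (Z := fun x => f.Z lam (-x))
      (Z1 := fun x => -f.Z1 lam (-x)) (Z2 := fun x => f.Z2 lam (-x)) (a := -Ea) (b := -Eb)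
      (by linarith) hh dZ dZ1 ((continuous_frZ2 f lam).comp continuous_neg)
      (fun E h1 h2 => by
        have := hneg (-E) (by linarith) (by linarith)
        linarith)
      (by simp only [neg_neg]; exact ha) (by simp only [neg_neg]; exact hb)
    have pa : |f.Z1 lam Ea| = -f.Z1 lam Ea := abs_of_neg (hneg _ hlt.le (le_refl _))
    have pt : ∀ t, |t| ≤ 1 → |f.Z1 lam (-I t)| = -f.Z1 lam (-I t) := fun t ht => by
      obtain ⟨j1, j2, _⟩ := i1 t ht
      exact abs_of_neg (hneg _ (by linarith) (by linarith))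
    refine ⟨fun t => -I t, fun t ht => ⟨⟨?_, ?_⟩, (i1 t ht).2.2⟩, ?_, ?_, i4.neg, ?_, ?_⟩
    · linarith [(i1 t ht).2.1]
    · linarith [(i1 t ht).1]
    · simp only [i2, neg_neg]
    · simp only [i3, neg_neg]
    · intro t ht
      have h5 := i5 t ht
      rw [neg_neg] at h5
      rw [pa, pt t ht, ← h5]
      congr 2
      refine intervalIntegral.integral_congr fun s _ => ?_
      show -f.Z2 lam (-I s) / f.Z1 lam (-I s) ^ 2 = -f.Z2 lam (-I s) / (-f.Z1 lam (-I s)) ^ 2
      rw [neg_sq]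
    · have h6 := i6
      rw [neg_neg] at h6
      have e1 : |Eb - Ea| = -Eb - -Ea := by
        rw [abs_sub_comm, abs_of_pos (sub_pos.2 hlt)]
        ring
      rw [e1, pa, ← h6]
      congr 1
      refine intervalIntegral.integral_congr fun t ht => ?_
      rw [Set.uIcc_of_le (by norm_num)] at ht
      show -f.Z1 lam Ea / |f.Z1 lam (-I t)| = _
      rw [pt t (abs_le.2 ht)]

/-- The models of the length and of the density quotient of a piece. -/
theorem seg_rep {ρ : Env} {f : Fr} {lam Ea Eb m h : ℝ} {NU HT : TM} (hh : 0 < h)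
    (hne : ∀ E ∈ Set.uIcc Ea Eb, f.Z1 lam E ≠ 0) (ha : f.Z lam Ea = m - h)
    (hb : f.Z lam Eb = m + h)
    (hNU : ∀ t (ht : |t| ≤ 1) E, E ∈ Set.uIcc Ea Eb → f.Z lam E = m + h * t →
      Rep (ρ.setT t ht) NU (f.nu lam E))
    (hHT : ∀ t (ht : |t| ≤ 1), Rep (ρ.setT t ht) HT h) :
    Rep ρ (mul HT (integ (exp (mul HT (ai NU))))) (|Eb - Ea| * |f.Z1 lam Ea|) ∧
      Rep ρ (exp (mul HT (integ NU))) (|f.Z1 lam Ea| / |f.Z1 lam Eb|) := by
  obtain ⟨I, i1, i2, i3, i4, i5, i6⟩ := seg_frame hh hne ha hb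
  have cZ1 : ContinuousOn (fun t => f.Z1 lam (I t)) (Set.Icc (-1) 1) :=
    (continuous_frZ1 f lam).comp_continuousOn i4
  have cZ2 : ContinuousOn (fun t => f.Z2 lam (I t)) (Set.Icc (-1) 1) :=
    (continuous_frZ2 f lam).comp_continuousOn i4
  have hne' : ∀ t ∈ Set.Icc (-1 : ℝ) 1, f.Z1 lam (I t) ≠ 0 := fun t ht =>
    hne _ (i1 t (abs_le.2 ht)).1
  have cnu : ContinuousOn (fun t => f.nu lam (I t)) (Set.Icc (-1) 1) := by
    have : ContinuousOn (fun t => -f.Z2 lam (I t) / f.Z1 lam (I t) ^ 2) (Set.Icc (-1) 1) :=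
      cZ2.neg.div (cZ1.pow 2) fun t ht => pow_ne_zero 2 (hne' t ht)
    exact this
  have hnui : IntervalIntegrable (fun t => f.nu lam (I t)) MeasureTheory.volume (-1) 1 := by
    refine ContinuousOn.intervalIntegrable ?_
    rw [Set.uIcc_of_le (by norm_num)]
    exact cnu
  have hrep : ∀ t (ht : |t| ≤ 1), Rep (ρ.setT t ht) (exp (mul HT (ai NU)))
      (|f.Z1 lam Ea| / |f.Z1 lam (I t)|) := by
    intro t ht
    rw [← i5 t ht]
    refine rep_exp (rep_mul (hHT t ht) ?_)
    exact rep_ai hnui (fun s hs => hNU s hs (I s) (i1 s hs).1 (i1 s hs).2) ht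
  have hqi : IntervalIntegrable (fun t => |f.Z1 lam Ea| / |f.Z1 lam (I t)|)
      MeasureTheory.volume (-1) 1 := by
    refine ContinuousOn.intervalIntegrable ?_
    rw [Set.uIcc_of_le (by norm_num)]
    exact ContinuousOn.div continuousOn_const cZ1.abs fun t ht => abs_ne_zero.2 (hne' t ht)
  constructor
  · rw [← i6]
    refine rep_mul ?_ (rep_integ hqi hrep)
    exact hHT ρ.t ρ.ht
  · have h1 := i5 1 (by norm_num)
    rw [i3] at h1
    rw [← h1]
    refine rep_exp (rep_mul ?_ (rep_integ hnui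
      (fun s hs => hNU s hs (I s) (i1 s hs).1 (i1 s hs).2)))
    exact hHT ρ.t ρ.ht

end Pool.Agent.H98.Fib
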