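import Pool.Agent.H20.Fib.Blk
import Pool.Agent.H98.Fib.Seg

/-!
# Length integration over a chain of pieces of a block, parameters as models (MP_9069b3_mp)

All models are free of the symbol `T` (`RepT`), which is the integration variable.  `Ut`, `Et` are
models of the parameters `u`, `eta` of the state, `A`, `B` models of the `Z` values of the ends of a
piece in the cell `k`.
-/

namespace Pool.Agent.H98.Fib

open Pool.Agent.H20.Fib
open Pool.Agent.H20.Fib.TM

/-- The model `x` represents `v` for all values of the symbol `T`. -/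
def RepT (ρ : Env) (x : TM) (v : ℝ) : Prop := ∀ t (ht : |t| ≤ 1), Rep (ρ.setT t ht) x v

namespace RepT

variable {ρ : Env} {x y : TM} {v w : ℝ}

theorem rep (h : RepT ρ x v) : Rep ρ x v := h ρ.t ρ.ht

theorem setT (h : RepT ρ x v) (t : ℝ) (ht : |t| ≤ 1) : RepT (ρ.setT t ht) x v :=
  fun s hs => h s hs

theorem add (hx : RepT ρ x v) (hy : RepT ρ y w) : RepT ρ (TM.add x y) (v + w) :=
  fun t ht => rep_add (hx t ht) (hy t ht)

theorem sub (hx : RepT ρ x v) (hy : RepT ρ y w) : RepT ρ (TM.sub x y) (v - w) :=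
  fun t ht => rep_sub (hx t ht) (hy t ht)

theorem mul (hx : RepT ρ x v) (hy : RepT ρ y w) : RepT ρ (TM.mul x y) (v * w) :=
  fun t ht => rep_mul (hx t ht) (hy t ht)

theorem const (a : ℤ) : RepT ρ (TM.const a) ((a : ℝ) / 2 ^ 40) := fun _ _ => rep_const

theorem one : RepT ρ TM.one 1 := fun _ _ => rep_one

end RepT

/-- half of a model -/
def half (x : TM) : TM := scE 549755813888 549755813888 x

theorem rep_half {ρ : Env} {x : TM} {v : ℝ} (hx : Rep ρ x v) : Rep ρ (half x) (v / 2) := by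
  have k : dec 549755813888 = 549755813888 := dec_natCast (by norm_num)
  have h := rep_scE (k := 549755813888) (m := 549755813888) (by norm_num)
    (by rw [k]; norm_num) hx
  rw [k] at h
  have e : v / 2 = ((549755813888 : ℤ) : ℝ) / 2 ^ 40 * v := by
    push_cast
    ring
  rw [e]
  exact h

/-- the symbol `T` -/
def symT : TM := ⟨0, 1099511627776, 0, 0, 0, 0, 0, 0, 0, 1099511627776, 0⟩

theorem rep_symT {ρ : Env} : Rep ρ symT ρ.t := by
  have h := rep_lin (ρ := ρ) (a := 0) (b := 1099511627776) (g := 0)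
  have e : ((0 : ℤ) + (1099511627776 : ℤ) * ρ.t + (0 : ℤ) * ρ.u : ℝ) / 2 ^ 40 = ρ.t := by
    push_cast
    ring
  rw [e] at h
  exact h

/-- the model of `nu` in the cell `k` at `Z` -/
def nuM (c : Cls) (k : ℕ) (Z Ut Et : TM) : TM :=
  let x1 := tauOf Z (c.mid k)
  let x3 := mul x1 x1
  let x4 := mul x1 Ut
  let x5 := mul Ut Ut
  blow (add (ev6 (c.cell k).fN x1 Ut x3 x4 x5) (mul Et (ev6 (c.cell k).fR x1 Ut x3 x4 x5)))
    (c.cell k).rN

theorem rep_nuM {ρ : Env} {lam : ℝ} {c : Cls} {u eta : ℝ} {f : Fr} {E : ℝ} {k : ℕ}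
    {Z Ut Et : TM} (hk : k < c.len) (hT : PT lam c u eta f E)
    (hZ : Rep ρ Z (f.Z lam E)) (hU : Rep ρ Ut u) (hE : Rep ρ Et eta)
    (hm : magLe (tauOf Z (c.mid k)) 1786706395136 = true) :
    Rep ρ (nuM c k Z Ut Et) (f.nu lam E) := by
  have h1 := rep_tauOf (mid := c.mid k) hZ
  have h2 := rep_magLe h1 hm
  have h3 : |(f.Z lam E * 2 ^ 40 - c.mid k) / 2 ^ 34| ≤ 13 / 8 := by
    have h2' := h2.trans (le_of_eq (by norm_num :
      ((1786706395136 : ℕ) : ℝ) = 13 / 8 * 2 ^ 40))
    exact le_of_mul_le_mul_right h2' (by positivity)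
  have h4 := hT k hk _ h3 (by field_simp; ring)
  have g3 : Rep ρ (mul (tauOf Z (c.mid k)) (tauOf Z (c.mid k)))
      (((f.Z lam E * 2 ^ 40 - c.mid k) / 2 ^ 34) ^ 2) := by
    rw [sq]; exact rep_mul h1 h1
  have g5 : Rep ρ (mul Ut Ut) (u ^ 2) := by
    rw [sq]; exact rep_mul hU hU
  have g4 := rep_mul h1 hU
  have n1 := rep_ev6 (q := (c.cell k).fN) h1 hU g3 g4 g5
  have n2 := rep_ev6 (q := (c.cell k).fR) h1 hU g3 g4 g5
  have n3 := rep_add n1 (rep_mul hE n2)
  have n4 := rep_blow (w := f.nu lam E) n3 h4.N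
  unfold nuM
  exact n4

/-- half length of a piece -/
def pieceH (A B : TM) : TM := half (sub B A)

/-- `Z` on a piece -/
def pieceZ (A B : TM) : TM := add (half (add A B)) (mul (pieceH A B) symT)

/-- density quotient along a piece -/
def pieceX (c : Cls) (k : ℕ) (A B Ut Et : TM) : TM :=
  exp (mul (pieceH A B) (ai (nuM c k (pieceZ A B) Ut Et)))

/-- density quotient at the end of a piece -/
def pieceR (c : Cls) (k : ℕ) (A B Ut Et : TM) : TM :=
  exp (mul (pieceH A B) (integ (nuM c k (pieceZ A B) Ut Et)))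

/-- the check of a piece -/
def pieceOK (c : Cls) (k : ℕ) (A B : TM) : Bool :=
  Nat.blt k c.len && ge (pieceH A B) 1 && magLe (tauOf (pieceZ A B) (c.mid k)) 1786706395136

/-- Length and density quotient of a piece. -/
theorem piece_sound {ρ : Env} {lam : ℝ} {c : Cls} {u eta : ℝ} {f : Fr} {Ea Eb : ℝ} {k : ℕ}
    {A B Ut Et : TM} (hok : pieceOK c k A B = true)
    (hT : ∀ E ∈ Set.uIcc Ea Eb, PT lam c u eta f E)
    (hne : ∀ E ∈ Set.uIcc Ea Eb, f.Z1 lam E ≠ 0)
    (hA : RepT ρ A (f.Z lam Ea)) (hB : RepT ρ B (f.Z lam Eb)) (hU : RepT ρ Ut u)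
    (hE : RepT ρ Et eta) :
    f.Z lam Ea < f.Z lam Eb ∧
    RepT ρ (mul (pieceH A B) (integ (pieceX c k A B Ut Et))) (|Eb - Ea| * |f.Z1 lam Ea|) ∧
    RepT ρ (pieceR c k A B Ut Et) (|f.Z1 lam Ea| / |f.Z1 lam Eb|) := by
  unfold pieceOK at hok
  rw [Bool.and_eq_true, Bool.and_eq_true] at hok
  obtain ⟨⟨o1, o2⟩, o3⟩ := hok
  have hk : k < c.len := by
    have : Nat.ble (k + 1) c.len = true := o1
    exact Nat.le_of_ble_eq_true this
  have hH : RepT ρ (pieceH A B) ((f.Z lam Eb - f.Z lam Ea) / 2) :=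
    fun t ht => rep_half ((hB.sub hA) t ht)
  have hh : 0 < (f.Z lam Eb - f.Z lam Ea) / 2 := by
    have h1 := rep_ge hH.rep o2
    push_cast at h1
    by_contra hc
    push Not at hc
    have : (f.Z lam Eb - f.Z lam Ea) / 2 * 2 ^ 40 ≤ 0 :=
      mul_nonpos_of_nonpos_of_nonneg hc (by positivity)
    linarith
  have hZt : ∀ t (ht : |t| ≤ 1), Rep (ρ.setT t ht) (pieceZ A B)
      ((f.Z lam Ea + f.Z lam Eb) / 2 + (f.Z lam Eb - f.Z lam Ea) / 2 * t) := fun t ht =>
    rep_add (rep_half ((hA.add hB) t ht)) (rep_mul (hH t ht) (rep_symT (ρ := ρ.setT t ht)))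
  refine ⟨by linarith, ?_⟩
  have key : ∀ (ρ' : Env), (∀ t (ht : |t| ≤ 1), ρ'.setT t ht = ρ.setT t ht) →
      Rep ρ' (mul (pieceH A B) (integ (pieceX c k A B Ut Et))) (|Eb - Ea| * |f.Z1 lam Ea|) ∧
      Rep ρ' (pieceR c k A B Ut Et) (|f.Z1 lam Ea| / |f.Z1 lam Eb|) := by
    intro ρ' hρ'
    refine seg_rep (m := (f.Z lam Ea + f.Z lam Eb) / 2) (h := (f.Z lam Eb - f.Z lam Ea) / 2) hh
      hne (by ring) (by ring) ?_ ?_
    · intro t ht E hEm hEz
      rw [hρ' t ht]
      have h1 := hZt t ht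
      rw [← hEz] at h1
      exact rep_nuM hk (hT E hEm) h1 (hU t ht) (hE t ht) o3
    · intro t ht
      rw [hρ' t ht]
      exact hH t ht
  exact ⟨fun t ht => (key (ρ.setT t ht) (fun _ _ => rfl)).1,
    fun t ht => (key (ρ.setT t ht) (fun _ _ => rfl)).2⟩

/-- State of the integration: `Z` of the current end, length from the start in units of the
reciprocal derivative at the start, density relative to the start, all checks passed. -/
structure LSt where
  A : TM
  L : TM
  R : TM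
  ok : Bool

/-- The start at the point with the model `A`. -/
def LSt.start (A : TM) : LSt := ⟨A, TM.const 0, TM.one, true⟩

/-- One piece. -/
def stepL (c : Cls) (Ut Et : TM) (s : LSt) (p : ℕ × TM) : LSt :=
  let X := pieceX c p.1 s.A p.2 Ut Et
  ⟨p.2, add s.L (mul s.R (mul (pieceH s.A p.2) (integ X))),
    mul s.R (pieceR c p.1 s.A p.2 Ut Et), s.ok && pieceOK c p.1 s.A p.2⟩

/-- The meaning of the state: `E0` start, `E` current end, `sg` the sign of the derivative. -/
structure LSt.Ok (ρ : Env) (lam : ℝ) (f : Fr) (sg E0 : ℝ) (s : LSt) (E : ℝ) : Prop where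
  A : RepT ρ s.A (f.Z lam E)
  L : RepT ρ s.L (sg * (E - E0) * |f.Z1 lam E0|)
  R : RepT ρ s.R (|f.Z1 lam E0| / |f.Z1 lam E|)
  ord : sg * E0 ≤ sg * E

theorem start_ok {ρ : Env} {lam : ℝ} {f : Fr} {sg E0 : ℝ} {A : TM}
    (h1 : f.Z1 lam E0 ≠ 0) (hA : RepT ρ A (f.Z lam E0)) :
    (LSt.start A).Ok ρ lam f sg E0 E0 where
  A := hA
  L := by
    have e : sg * (E0 - E0) * |f.Z1 lam E0| = ((0 : ℤ) : ℝ) / 2 ^ 40 := by simp
    rw [e]
    exact RepT.const 0
  R := by
    rw [div_self (abs_ne_zero.2 h1)]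
    exact RepT.one
  ord := le_refl _

/-- One step. -/
theorem stepL_ok {ρ : Env} {lam : ℝ} {c : Cls} {u eta : ℝ} {f : Fr} {sg E0 E E' : ℝ}
    {Ut Et : TM} {s : LSt} {k : ℕ} {B : TM} {a b : ℝ} (hsg : sg = 1 ∨ sg = -1)
    (hT : ∀ x, a ≤ x → x ≤ b → PT lam c u eta f x)
    (hmono : ∀ x, a ≤ x → x ≤ b → 0 < sg * f.Z1 lam x)
    (hs : s.Ok ρ lam f sg E0 E) (hE1 : a ≤ E) (hE2 : E ≤ b) (hE1' : a ≤ E') (hE2' : E' ≤ b)
    (hB : RepT ρ B (f.Z lam E')) (hU : RepT ρ Ut u) (hEt : RepT ρ Et eta)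
    (hok : (stepL c Ut Et s (k, B)).ok = true) :
    s.ok = true ∧ (stepL c Ut Et s (k, B)).Ok ρ lam f sg E0 E' := by
  have hok' : (s.ok && pieceOK c k s.A B) = true := hok
  rw [Bool.and_eq_true] at hok'
  refine ⟨hok'.1, ?_⟩
  have hin : ∀ x ∈ Set.uIcc E E', a ≤ x ∧ x ≤ b := by
    intro x hx
    have := Set.uIcc_subset_Icc (⟨hE1, hE2⟩ : E ∈ Set.Icc a b) (⟨hE1', hE2'⟩ : E' ∈ Set.Icc a b) hx
    exact ⟨this.1, this.2⟩
  have hne : ∀ x, a ≤ x → x ≤ b → f.Z1 lam x ≠ 0 := by
    intro x h1 h2 h0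
    have := hmono x h1 h2
    rw [h0, mul_zero] at this
    exact lt_irrefl _ this
  obtain ⟨hlt, hL, hR⟩ := piece_sound hok'.2 (fun x hx => hT x (hin x hx).1 (hin x hx).2)
    (fun x hx => hne x (hin x hx).1 (hin x hx).2) hs.A hB hU hEt
  -- the order of the energies
  have hord : sg * E < sg * E' := by
    by_contra hc
    push Not at hc
    have hle : f.Z lam E' ≤ f.Z lam E := by
      rcases hsg with h | h
      · rw [h, one_mul, one_mul] at hc
        have hm : MonotoneOn (fun x => f.Z lam x) (Set.Icc a b) := by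
          refine monotoneOn_of_deriv_nonneg (convex_Icc a b) ?_ ?_ ?_
          · exact fun x _ => (Fr.hasDerivAt_Z f lam x).continuousAt.continuousWithinAt
          · exact fun x _ => (Fr.hasDerivAt_Z f lam x).differentiableAt.differentiableWithinAt
          · intro x hx
            rw [(Fr.hasDerivAt_Z f lam x).deriv]
            have hx' := interior_subset hx
            have := hmono x hx'.1 hx'.2
            rw [h, one_mul] at this
            exact this.le
        exact hm ⟨hE1', hE2'⟩ ⟨hE1, hE2⟩ hc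
      · rw [h] at hc
        have hc' : E ≤ E' := by linarith
        have hm : AntitoneOn (fun x => f.Z lam x) (Set.Icc a b) := by
          refine antitoneOn_of_deriv_nonpos (convex_Icc a b) ?_ ?_ ?_
          · exact fun x _ => (Fr.hasDerivAt_Z f lam x).continuousAt.continuousWithinAt
          · exact fun x _ => (Fr.hasDerivAt_Z f lam x).differentiableAt.differentiableWithinAt
          · intro x hx
            rw [(Fr.hasDerivAt_Z f lam x).deriv]
            have hx' := interior_subset hx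
            have := hmono x hx'.1 hx'.2
            rw [h] at this
            linarith
        exact hm ⟨hE1, hE2⟩ ⟨hE1', hE2'⟩ hc'
    linarith
  have habs : |E' - E| = sg * (E' - E) := by
    rcases hsg with h | h
    · rw [h, one_mul, one_mul] at hord
      rw [h, one_mul, abs_of_pos (by linarith)]
    · rw [h] at hord
      rw [h, abs_of_neg (by linarith)]
      ring
  have p0 : |f.Z1 lam E| ≠ 0 := abs_ne_zero.2 (hne E hE1 hE2)
  refine ⟨hB, ?_, ?_, hs.ord.trans hord.le⟩
  · have h := hs.L.add (hs.R.mul hL)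
    have e : sg * (E' - E0) * |f.Z1 lam E0| = sg * (E - E0) * |f.Z1 lam E0| +
        |f.Z1 lam E0| / |f.Z1 lam E| * (|E' - E| * |f.Z1 lam E|) := by
      rw [habs]
      field_simp
      ring
    rw [e]
    exact h
  · have h := hs.R.mul hR
    have e : |f.Z1 lam E0| / |f.Z1 lam E'| = |f.Z1 lam E0| / |f.Z1 lam E| *
        (|f.Z1 lam E| / |f.Z1 lam E'|) := by
      field_simp
    rw [e]
    exact h

/-- A chain of pieces. -/
theorem chain_ok {ρ : Env} {lam : ℝ} {c : Cls} {u eta : ℝ} {f : Fr} {sg E0 : ℝ}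
    {Ut Et : TM} {a b : ℝ} (hsg : sg = 1 ∨ sg = -1)
    (hT : ∀ x, a ≤ x → x ≤ b → PT lam c u eta f x)
    (hmono : ∀ x, a ≤ x → x ≤ b → 0 < sg * f.Z1 lam x)
    (hU : RepT ρ Ut u) (hEt : RepT ρ Et eta) :
    ∀ (l : List (ℕ × TM)) (es : List ℝ) (s : LSt) (E : ℝ), s.Ok ρ lam f sg E0 E → a ≤ E →
      E ≤ b → List.Forall₂ (fun (p : ℕ × TM) (x : ℝ) => a ≤ x ∧ x ≤ b ∧
        RepT ρ p.2 (f.Z lam x)) l es →
      (l.foldl (stepL c Ut Et) s).ok = true →
      s.ok = true ∧ (l.foldl (stepL c Ut Et) s).Ok ρ lam f sg E0 (es.getLast?.getD E) := by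
  intro l
  induction l with
  | nil =>
    intro es s E hs h1 h2 hF hok
    cases hF
    exact ⟨hok, hs⟩
  | cons p l ih =>
    intro es s E hs h1 h2 hF hok
    cases hF with
    | cons hp hF =>
      rename_i x es
      obtain ⟨p1, p2, p3⟩ := hp
      have hok2 : (l.foldl (stepL c Ut Et) (stepL c Ut Et s p)).ok = true := hok
      have key : (stepL c Ut Et s p).ok = true := by
        by_contra hc
        have hfalse : ∀ (l : List (ℕ × TM)) (s : LSt), s.ok = false →
            (l.foldl (stepL c Ut Et) s).ok = false := by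
          intro l
          induction l with
          | nil => intro s h; exact h
          | cons q l ih2 =>
            intro s h
            refine ih2 _ ?_
            show (s.ok && _) = false
            rw [h, Bool.false_and]
        rw [hfalse l _ (Bool.eq_false_iff.2 hc)] at hok2
        exact absurd hok2 (by decide)
      obtain ⟨k1, k2⟩ := stepL_ok (k := p.1) (B := p.2) hsg hT hmono hs h1 h2 p1 p2 p3 hU hEt key
      obtain ⟨-, k4⟩ := ih es _ x k2 p1 p2 hF hok2
      refine ⟨k1, ?_⟩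
      have e : ((x :: es).getLast?).getD E = (es.getLast?).getD x := by
        cases es with
        | nil => rfl
        | cons y es => simp [List.getLast?_cons]
      rw [e]
      exact k4

end Pool.Agent.H98.Fib
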