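import Mathlib

/-!
# Hull trees: the interface between the tube part (B), the coverage part (C) and part (D)

Words are lists of letters in `Fin 3` (`0 = L`, `1 = M`, `2 = R`); the children of `w` are
`0 :: w`, `1 :: w`, `2 :: w` (last letter first).  `hl w`, `hr w` are the ends of the hull of the
piece `w` of the spectrum.
-/

namespace Pool.Agent.H98.Fib

/-- A ternary tree of nested intervals: the hulls of the pieces. -/
structure HTree where
  hl : List (Fin 3) → ℝ
  hr : List (Fin 3) → ℝ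
  hlt : ∀ w, hl w < hr w
  hl0 : ∀ w, hl (0 :: w) = hl w
  hr2 : ∀ w, hr (2 :: w) = hr w
  gap1 : ∀ w, hr (0 :: w) < hl (1 :: w)
  gap2 : ∀ w, hr (1 :: w) < hl (2 :: w)

namespace HTree

variable (T : HTree)

/-- The length of the hull. -/
def len (w : List (Fin 3)) : ℝ := T.hr w - T.hl w

/-- The five lengths `|L|, g1, |M|, g2, |R|` of the word `w`. -/
def part (w : List (Fin 3)) : Fin 5 → ℝ
  | 0 => T.hr (0 :: w) - T.hl (0 :: w)
  | 1 => T.hl (1 :: w) - T.hr (0 :: w)
  | 2 => T.hr (1 :: w) - T.hl (1 :: w)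
  | 3 => T.hl (2 :: w) - T.hr (1 :: w)
  | 4 => T.hr (2 :: w) - T.hl (2 :: w)

end HTree

/-- The descendants of `w` along the letters `s 0, s 1, ...`. -/
def wordAt (s : ℕ → Fin 3) (w : List (Fin 3)) : ℕ → List (Fin 3)
  | 0 => w
  | n + 1 => s n :: wordAt s w n

/-- The limit set of the word `w`. -/
def HTree.K (T : HTree) (w : List (Fin 3)) : Set ℝ :=
  {x | ∃ s : ℕ → Fin 3, ∀ n, T.hl (wordAt s w n) ≤ x ∧ x ≤ T.hr (wordAt s w n)}

/-- A class of shapes: bounds of the five lengths in units `10^-6` of the hull length, and the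
classes of the three children. -/
structure Shape where
  lo : Fin 5 → ℕ
  hi : Fin 5 → ℕ
  nx : Fin 3 → ℕ

/-- The tree follows the table `tab` from the class `c0` of the root. -/
structure HTree.Follows (T : HTree) (tab : ℕ → Shape) (c0 : ℕ) (cl : List (Fin 3) → ℕ) : Prop where
  root : cl [] = c0
  step : ∀ w i, cl (i :: w) = (tab (cl w)).nx i
  lo : ∀ w j, ((tab (cl w)).lo j : ℝ) * T.len w ≤ 1000000 * T.part w j
  hi : ∀ w j, 1000000 * T.part w j ≤ ((tab (cl w)).hi j : ℝ) * T.len w

/-- The sum of the two pieces is an interval. -/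
def HTree.Full (T : HTree) (u w : List (Fin 3)) : Prop :=
  ∀ t, T.hl u + T.hl w ≤ t → t ≤ T.hr u + T.hr w → ∃ x ∈ T.K u, ∃ y ∈ T.K w, t = x + y

end Pool.Agent.H98.Fib
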