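import Pool.Agent.H98.Fib.Esc
import Pool.Agent.H98.Fib.Tree

/-!
# Blocks and the hull tree (problem MP_9069b3_mp), class-independent layer

`Tube lam` collects what the enclosures have to deliver (for one coupling `lam`): functions `Z w`,
a predicate `P w E` (the point `E` of the block `w` lies in the tube of `w`), the strips
`[p w i, q w i]` of the children.  The conclusion: blocks `[l w, r w]`, the hull tree `tree`, its
limit set is the part of the dynamical spectrum in the root block, and lemmas which locate the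
ends of the hulls.
-/

namespace Pool.Agent.H98.Fib

/-- What the enclosures have to deliver. -/
structure Tube (lam : ℝ) where
  Z : List (Fin 3) → ℝ → ℝ
  dZ : List (Fin 3) → ℝ → ℝ
  P : List (Fin 3) → ℝ → Prop
  p : List (Fin 3) → Fin 3 → ℝ
  q : List (Fin 3) → Fin 3 → ℝ
  A : List (Fin 3) → Fin 3 → ℝ
  B : List (Fin 3) → Fin 3 → ℝ
  m : List (Fin 3) → ℕ
  zl : List (Fin 3) → ℝ
  zr : List (Fin 3) → ℝ
  γ : ℝ
  l0 : ℝ
  r0 : ℝ
  d0 : ℝ
  hzl : ∀ w, -1 ≤ zl w
  hzr : ∀ w, zr w ≤ 1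
  hγ : 1 < γ
  h0 : l0 < r0
  hd0 : 0 < d0
  hd : ∀ w E, HasDerivAt (Z w) (dZ w E) E
  hpos : ∀ w E, P w E → 0 < dZ w E
  hp : ∀ w i, zl w ≤ p w i
  hq : ∀ w i, q w i ≤ zr w
  hpq : ∀ w i, p w i < q w i
  hord1 : ∀ w, q w 0 ≤ p w 1
  hord2 : ∀ w, q w 1 ≤ p w 2
  root : ∀ E, l0 ≤ E → E ≤ r0 → P [] E
  rootl : Z [] l0 = zl []
  rootr : Z [] r0 = zr []
  rootd : ∀ E, l0 ≤ E → E ≤ r0 → d0 ≤ dZ [] E
  grow : ∀ w i E, P w E → p w i ≤ Z w E → Z w E ≤ q w i → γ * dZ w E ≤ dZ (i :: w) E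
  step : ∀ w i E, P w E → p w i ≤ Z w E → Z w E ≤ q w i → zl (i :: w) ≤ Z (i :: w) E →
    Z (i :: w) E ≤ zr (i :: w) → P (i :: w) E
  atp : ∀ w i E, P w E → Z w E = p w i → Z (i :: w) E < zl (i :: w)
  atq : ∀ w i E, P w E → Z w E = q w i → zr (i :: w) < Z (i :: w) E
  hpA : ∀ w i, p w i ≤ A w i
  hBq : ∀ w i, B w i ≤ q w i
  atA : ∀ w i E, P w E → Z w E = A w i → zl (i :: w) ≤ Z (i :: w) E
  atB : ∀ w i E, P w E → Z w E = B w i → Z (i :: w) E ≤ zr (i :: w)
  exh : ∀ w E, P w E → zl w ≤ Z w E → Z w E ≤ zr w → E ∈ Sig lam →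
    ∃ i, A w i ≤ Z w E ∧ Z w E ≤ B w i
  hm : ∀ w, w.length ≤ m w
  hZ : ∀ w E, |Z w E| = |xs lam E (m w)|

namespace Tube

variable {lam : ℝ} (S : Tube lam)

theorem zl_lt_zr (w : List (Fin 3)) : S.zl w < S.zr w :=
  (S.hp w 0).trans_lt ((S.hpq w 0).trans_le (S.hq w 0))

/-- A block of the word `w`. -/
def Block (w : List (Fin 3)) (l r : ℝ) : Prop :=
  l < r ∧ S.Z w l = S.zl w ∧ S.Z w r = S.zr w ∧ ∀ E, l ≤ E → E ≤ r → S.P w E

theorem continuous_Z (w : List (Fin 3)) : Continuous (S.Z w) :=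
  continuous_iff_continuousAt.2 fun E => (S.hd w E).continuousAt

/-- A function with positive derivative on an interval is strictly increasing. -/
theorem strictMonoOn_Z (w : List (Fin 3)) {a b : ℝ} (h : ∀ E, a ≤ E → E ≤ b → 0 < S.dZ w E) :
    StrictMonoOn (S.Z w) (Set.Icc a b) := by
  refine strictMonoOn_of_deriv_pos (convex_Icc a b) (S.continuous_Z w).continuousOn ?_
  intro x hx
  rw [(S.hd w x).deriv]
  have := interior_subset hx
  exact h x this.1 this.2

variable {S}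

theorem Block.strictMonoOn {w : List (Fin 3)} {l r : ℝ} (h : S.Block w l r) :
    StrictMonoOn (S.Z w) (Set.Icc l r) :=
  S.strictMonoOn_Z w fun E h1 h2 => S.hpos w E (h.2.2.2 E h1 h2)

theorem Block.mem {w : List (Fin 3)} {l r : ℝ} (h : S.Block w l r) {E : ℝ} (h1 : l ≤ E)
    (h2 : E ≤ r) : S.zl w ≤ S.Z w E ∧ S.Z w E ≤ S.zr w := by
  have hm := h.strictMonoOn.monotoneOn
  have a1 := hm ⟨le_refl _, h.1.le⟩ ⟨h1, h2⟩ h1
  have a2 := hm ⟨h1, h2⟩ ⟨h.1.le, le_refl _⟩ h2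
  rw [h.2.1] at a1
  rw [h.2.2.1] at a2
  exact ⟨a1, a2⟩

/-- Every value of `[zl w, zr w]` is taken on a block. -/
theorem Block.exists_eq {w : List (Fin 3)} {l r : ℝ} (h : S.Block w l r) {z : ℝ}
    (h1 : S.zl w ≤ z) (h2 : z ≤ S.zr w) : ∃ E, l ≤ E ∧ E ≤ r ∧ S.Z w E = z := by
  have := intermediate_value_Icc h.1.le (S.continuous_Z w).continuousOn
  rw [h.2.1, h.2.2.1] at this
  obtain ⟨E, hE, h3⟩ := this ⟨h1, h2⟩
  exact ⟨E, hE.1, hE.2, h3⟩

variable (S)

/-- On the part of a block in the strip of the letter `i` the function of the child is strictly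
increasing. -/
theorem strip_mono {w : List (Fin 3)} {l r : ℝ} (h : S.Block w l r) (i : Fin 3) {E E' : ℝ}
    (hl : l ≤ E) (hr : E' ≤ r) (hlt : E < E') (h1 : S.p w i ≤ S.Z w E)
    (h2 : S.Z w E' ≤ S.q w i) : S.Z (i :: w) E < S.Z (i :: w) E' := by
  have hm := h.strictMonoOn.monotoneOn
  have : StrictMonoOn (S.Z (i :: w)) (Set.Icc E E') := by
    refine S.strictMonoOn_Z (i :: w) fun x hx1 hx2 => ?_
    have b1 : l ≤ x := hl.trans hx1
    have b2 : x ≤ r := hx2.trans hr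
    have hP := h.2.2.2 x b1 b2
    have c1 : S.p w i ≤ S.Z w x :=
      h1.trans (hm ⟨hl, (hlt.le.trans hr)⟩ ⟨b1, b2⟩ hx1)
    have c2 : S.Z w x ≤ S.q w i :=
      (hm ⟨b1, b2⟩ ⟨hl.trans hlt.le, hr⟩ hx2).trans h2
    have := S.grow w i x hP c1 c2
    have hpos := S.hpos w x hP
    have : 0 < S.γ * S.dZ w x := mul_pos (by linarith [S.hγ]) hpos
    linarith
  exact this ⟨le_refl _, hlt.le⟩ ⟨hlt.le, le_refl _⟩ hlt

/-- The arc lemma. -/
theorem arc (w : List (Fin 3)) (i : Fin 3) (l r : ℝ) (h : S.Block w l r) :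
    ∃ x : ℝ × ℝ, S.Block (i :: w) x.1 x.2 ∧ l < x.1 ∧ x.2 < r ∧
      (∀ E, x.1 ≤ E → E ≤ x.2 → S.p w i < S.Z w E ∧ S.Z w E < S.q w i) ∧
      ∀ E, l ≤ E → E ≤ r → S.p w i ≤ S.Z w E → S.Z w E ≤ S.q w i →
        S.zl (i :: w) ≤ S.Z (i :: w) E → S.Z (i :: w) E ≤ S.zr (i :: w) →
        x.1 ≤ E ∧ E ≤ x.2 := by
  have hζ := S.zl_lt_zr (i :: w)
  have hpq := S.hpq w i
  obtain ⟨ep, ep1, ep2, ep3⟩ := h.exists_eq (S.hp w i) (hpq.le.trans (S.hq w i))
  obtain ⟨eq, eq1, eq2, eq3⟩ := h.exists_eq ((S.hp w i).trans hpq.le) (S.hq w i)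
  have hmono := h.strictMonoOn
  have hlt : ep < eq := by
    by_contra hc
    have := hmono.monotoneOn ⟨eq1, eq2⟩ ⟨ep1, ep2⟩ (not_lt.1 hc)
    rw [ep3, eq3] at this
    linarith
  have zp := S.atp w i ep (h.2.2.2 ep ep1 ep2) ep3
  have zq := S.atq w i eq (h.2.2.2 eq eq1 eq2) eq3
  have hc := intermediate_value_Icc hlt.le (S.continuous_Z (i :: w)).continuousOn
  obtain ⟨l', hl', el'⟩ := hc (show S.zl (i :: w) ∈ Set.Icc _ _ from ⟨zp.le, by linarith⟩)
  obtain ⟨r', hr', er'⟩ := hc (show S.zr (i :: w) ∈ Set.Icc _ _ from ⟨by linarith, zq.le⟩)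
  have hm2 : StrictMonoOn (S.Z (i :: w)) (Set.Icc ep eq) := by
    refine S.strictMonoOn_Z (i :: w) fun x hx1 hx2 => ?_
    have hP := h.2.2.2 x (ep1.trans hx1) (hx2.trans eq2)
    have c1 : S.p w i ≤ S.Z w x := by
      rw [← ep3]
      exact hmono.monotoneOn ⟨ep1, ep2⟩ ⟨ep1.trans hx1, hx2.trans eq2⟩ hx1
    have c2 : S.Z w x ≤ S.q w i := by
      rw [← eq3]
      exact hmono.monotoneOn ⟨ep1.trans hx1, hx2.trans eq2⟩ ⟨eq1, eq2⟩ hx2
    have := S.grow w i x hP c1 c2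
    have hpos := S.hpos w x hP
    have : 0 < S.γ * S.dZ w x := mul_pos (by linarith [S.hγ]) hpos
    linarith
  have hl'r' : l' < r' := by
    by_contra hc2
    have := hm2.monotoneOn hr' hl' (not_lt.1 hc2)
    rw [el', er'] at this
    linarith
  have hepl : ep < l' := by
    rcases lt_or_eq_of_le hl'.1 with h1 | h1
    · exact h1
    · exfalso
      rw [← h1] at el'
      linarith
  have hreq : r' < eq := by
    rcases lt_or_eq_of_le hr'.2 with h1 | h1
    · exact h1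
    · exfalso
      rw [h1] at er'
      linarith
  have hin : ∀ E, l' ≤ E → E ≤ r' → S.p w i < S.Z w E ∧ S.Z w E < S.q w i := by
    intro E h1 h2
    have a1 : ep < E := hepl.trans_le h1
    have a2 : E < eq := h2.trans_lt hreq
    constructor
    · rw [← ep3]
      exact hmono ⟨ep1, ep2⟩ ⟨ep1.trans a1.le, a2.le.trans eq2⟩ a1
    · rw [← eq3]
      exact hmono ⟨ep1.trans a1.le, a2.le.trans eq2⟩ ⟨eq1, eq2⟩ a2
  refine ⟨(l', r'), ⟨hl'r', el', er', ?_⟩, ?_, ?_, hin, ?_⟩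
  · intro E h1 h2
    have a := hin E h1 h2
    have hP := h.2.2.2 E (ep1.trans (hepl.le.trans h1)) (h2.trans (hreq.le.trans eq2))
    have hE : E ∈ Set.Icc ep eq := ⟨hepl.le.trans h1, h2.trans hreq.le⟩
    have b1 := hm2.monotoneOn hl' hE h1
    have b2 := hm2.monotoneOn hE hr' h2
    rw [el'] at b1
    rw [er'] at b2
    exact S.step w i E hP a.1.le a.2.le b1 b2
  · exact ep1.trans_lt hepl
  · exact hreq.trans_le eq2
  · intro E h1 h2 h3 h4 h5 h6
    have hE : E ∈ Set.Icc ep eq := by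
      constructor
      · by_contra hc2
        have := hmono ⟨h1, h2⟩ ⟨ep1, ep2⟩ (not_le.1 hc2)
        rw [ep3] at this
        linarith
      · by_contra hc2
        have := hmono ⟨eq1, eq2⟩ ⟨h1, h2⟩ (not_le.1 hc2)
        rw [eq3] at this
        linarith
    constructor
    · show l' ≤ E
      by_contra hc2
      have := hm2 hE hl' (not_le.1 hc2)
      rw [el'] at this
      linarith
    · show E ≤ r'
      by_contra hc2
      have := hm2 hr' hE (not_le.1 hc2)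
      rw [er'] at this
      linarith

/-- The blocks. -/
noncomputable def blk : (w : List (Fin 3)) → {x : ℝ × ℝ // S.Block w x.1 x.2}
  | [] => ⟨(S.l0, S.r0), S.h0, S.rootl, S.rootr, S.root⟩
  | i :: w => ⟨Classical.choose (S.arc w i (blk w).1.1 (blk w).1.2 (blk w).2),
      (Classical.choose_spec (S.arc w i (blk w).1.1 (blk w).1.2 (blk w).2)).1⟩

/-- Left end of the block of `w`. -/
noncomputable def l (w : List (Fin 3)) : ℝ := (S.blk w).1.1

/-- Right end of the block of `w`. -/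
noncomputable def r (w : List (Fin 3)) : ℝ := (S.blk w).1.2

theorem block (w : List (Fin 3)) : S.Block w (S.l w) (S.r w) := (S.blk w).2

theorem l_nil : S.l [] = S.l0 := rfl

theorem r_nil : S.r [] = S.r0 := rfl

theorem arc_spec (w : List (Fin 3)) (i : Fin 3) :
    S.l w < S.l (i :: w) ∧ S.r (i :: w) < S.r w ∧
      (∀ E, S.l (i :: w) ≤ E → E ≤ S.r (i :: w) → S.p w i < S.Z w E ∧ S.Z w E < S.q w i) ∧
      ∀ E, S.l w ≤ E → E ≤ S.r w → S.p w i ≤ S.Z w E → S.Z w E ≤ S.q w i →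
        S.zl (i :: w) ≤ S.Z (i :: w) E → S.Z (i :: w) E ≤ S.zr (i :: w) →
        S.l (i :: w) ≤ E ∧ E ≤ S.r (i :: w) :=
  (Classical.choose_spec (S.arc w i (S.blk w).1.1 (S.blk w).1.2 (S.blk w).2)).2

theorem l_lt_r (w : List (Fin 3)) : S.l w < S.r w := (S.block w).1

theorem Z_l (w : List (Fin 3)) : S.Z w (S.l w) = S.zl w := (S.block w).2.1

theorem Z_r (w : List (Fin 3)) : S.Z w (S.r w) = S.zr w := (S.block w).2.2.1

theorem P_of_mem (w : List (Fin 3)) {E : ℝ} (h1 : S.l w ≤ E) (h2 : E ≤ S.r w) : S.P w E :=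
  (S.block w).2.2.2 E h1 h2

/-- Monotonicity of `Z w` on the block. -/
theorem Z_lt {w : List (Fin 3)} {E E' : ℝ} (h1 : S.l w ≤ E) (h2 : E' ≤ S.r w) (h : E < E') :
    S.Z w E < S.Z w E' :=
  (S.block w).strictMonoOn ⟨h1, h.le.trans h2⟩ ⟨h1.trans h.le, h2⟩ h

theorem Z_le {w : List (Fin 3)} {E E' : ℝ} (h1 : S.l w ≤ E) (h2 : E' ≤ S.r w) (h : E ≤ E') :
    S.Z w E ≤ S.Z w E' :=
  (S.block w).strictMonoOn.monotoneOn ⟨h1, h.trans h2⟩ ⟨h1.trans h, h2⟩ h

theorem lt_of_Z_lt {w : List (Fin 3)} {E E' : ℝ} (h1 : E ≤ S.r w) (h2 : S.l w ≤ E')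
    (h : S.Z w E < S.Z w E') : E < E' := by
  by_contra hc
  exact absurd (S.Z_le h2 h1 (not_lt.1 hc)) (not_le.2 h)

theorem le_of_Z_le {w : List (Fin 3)} {E E' : ℝ} (h1 : E ≤ S.r w) (h2 : S.l w ≤ E')
    (h : S.Z w E ≤ S.Z w E') : E ≤ E' := by
  by_contra hc
  exact absurd (S.Z_lt h2 h1 (not_le.1 hc)) (not_lt.2 h)

theorem exists_Z_eq (w : List (Fin 3)) {z : ℝ} (h1 : S.zl w ≤ z) (h2 : z ≤ S.zr w) :
    ∃ E, S.l w ≤ E ∧ E ≤ S.r w ∧ S.Z w E = z := (S.block w).exists_eq h1 h2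

theorem Z_mem {w : List (Fin 3)} {E : ℝ} (h1 : S.l w ≤ E) (h2 : E ≤ S.r w) :
    S.zl w ≤ S.Z w E ∧ S.Z w E ≤ S.zr w := (S.block w).mem h1 h2

theorem l_lt (w : List (Fin 3)) (i : Fin 3) : S.l w < S.l (i :: w) := (S.arc_spec w i).1

theorem r_lt (w : List (Fin 3)) (i : Fin 3) : S.r (i :: w) < S.r w := (S.arc_spec w i).2.1

/-- The blocks of the children are ordered. -/
theorem ord (w : List (Fin 3)) {i j : Fin 3} (h : S.q w i ≤ S.p w j) :
    S.r (i :: w) < S.l (j :: w) := by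
  have h1 := ((S.arc_spec w i).2.2.1 (S.r (i :: w)) (S.l_lt_r _).le (le_refl _)).2
  have h2 := ((S.arc_spec w j).2.2.1 (S.l (j :: w)) (le_refl _) (S.l_lt_r _).le).1
  refine S.lt_of_Z_lt (S.r_lt w i).le (S.l_lt w j).le ?_
  linarith

theorem ord01 (w : List (Fin 3)) : S.r (0 :: w) < S.l (1 :: w) := S.ord w (S.hord1 w)

theorem ord12 (w : List (Fin 3)) : S.r (1 :: w) < S.l (2 :: w) := S.ord w (S.hord2 w)

/-- Growth of the derivative. -/
theorem le_dZ (w : List (Fin 3)) : ∀ E, S.l w ≤ E → E ≤ S.r w →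
    S.d0 * S.γ ^ w.length ≤ S.dZ w E := by
  induction w with
  | nil =>
    intro E h1 h2
    simpa using S.rootd E h1 h2
  | cons i w ih =>
    intro E h1 h2
    have a1 : S.l w ≤ E := (S.l_lt w i).le.trans h1
    have a2 : E ≤ S.r w := h2.trans (S.r_lt w i).le
    have b := (S.arc_spec w i).2.2.1 E h1 h2
    have c := S.grow w i E (S.P_of_mem w a1 a2) b.1.le b.2.le
    have d := mul_le_mul_of_nonneg_left (ih E a1 a2) (by linarith [S.hγ] : (0:ℝ) ≤ S.γ)
    rw [List.length_cons, pow_succ]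
    calc S.d0 * (S.γ ^ w.length * S.γ) = S.γ * (S.d0 * S.γ ^ w.length) := by ring
      _ ≤ S.γ * S.dZ w E := d
      _ ≤ _ := c

theorem le_dZ' (w v : List (Fin 3)) : ∀ E, S.l (v ++ w) ≤ E → E ≤ S.r (v ++ w) →
    S.γ ^ v.length * S.dZ w E ≤ S.dZ (v ++ w) E := by
  induction v with
  | nil =>
    intro E h1 h2
    simp
  | cons i v ih =>
    intro E h1 h2
    have a1 : S.l (v ++ w) ≤ E := (S.l_lt (v ++ w) i).le.trans h1
    have a2 : E ≤ S.r (v ++ w) := h2.trans (S.r_lt (v ++ w) i).le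
    have b := (S.arc_spec (v ++ w) i).2.2.1 E h1 h2
    have c := S.grow (v ++ w) i E (S.P_of_mem _ a1 a2) b.1.le b.2.le
    have d := mul_le_mul_of_nonneg_left (ih E a1 a2) (by linarith [S.hγ] : (0:ℝ) ≤ S.γ)
    rw [List.length_cons, pow_succ]
    calc S.γ ^ v.length * S.γ * S.dZ w E = S.γ * (S.γ ^ v.length * S.dZ w E) := by ring
      _ ≤ S.γ * S.dZ (v ++ w) E := d
      _ ≤ _ := c

/-- The blocks shrink. -/
theorem len_le (w : List (Fin 3)) : S.r w - S.l w ≤ 2 / S.d0 * (S.γ⁻¹) ^ w.length := by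
  obtain ⟨c, hc, hc2⟩ := exists_hasDerivAt_eq_slope (S.Z w) (S.dZ w) (S.l_lt_r w)
    (S.continuous_Z w).continuousOn (fun x _ => S.hd w x)
  have h1 := S.le_dZ w c hc.1.le hc.2.le
  have hlen : 0 < S.r w - S.l w := sub_pos.2 (S.l_lt_r w)
  rw [hc2, S.Z_l, S.Z_r, le_div_iff₀ hlen] at h1
  have hg : 0 < S.γ ^ w.length := pow_pos (by linarith [S.hγ]) _
  rw [inv_pow]
  have hd0 := S.hd0
  have e : 2 / S.d0 * (S.γ ^ w.length)⁻¹ = 2 / (S.d0 * S.γ ^ w.length) := by
    field_simp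
  rw [e, le_div_iff₀ (mul_pos hd0 hg)]
  linarith [S.hzl w, S.hzr w]

/-! ### The hull tree -/

/-- `i^n w`. -/
def rep (i : Fin 3) : ℕ → List (Fin 3) → List (Fin 3)
  | 0, w => w
  | n + 1, w => i :: rep i n w

theorem rep_cons (i : Fin 3) (n : ℕ) (w : List (Fin 3)) : rep i n (i :: w) = rep i (n + 1) w := by
  induction n with
  | zero => rfl
  | succ n ih =>
    show i :: rep i n (i :: w) = i :: rep i (n + 1) w
    rw [ih]

theorem length_rep (i : Fin 3) (n : ℕ) (w : List (Fin 3)) : (rep i n w).length = n + w.length := by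
  induction n with
  | zero => simp [rep]
  | succ n ih =>
    show (rep i n w).length + 1 = _
    rw [ih]
    ring

theorem l_rep_mono (w : List (Fin 3)) (i : Fin 3) : Monotone fun n => S.l (rep i n w) :=
  monotone_nat_of_le_succ fun n => (S.l_lt (rep i n w) i).le

theorem r_rep_anti (w : List (Fin 3)) (i : Fin 3) : Antitone fun n => S.r (rep i n w) :=
  antitone_nat_of_succ_le fun n => (S.r_lt (rep i n w) i).le

theorem l_rep_le_r (w : List (Fin 3)) (i : Fin 3) (n k : ℕ) :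
    S.l (rep i n w) ≤ S.r (rep i k w) := by
  have h1 := S.l_rep_mono w i (le_max_left n k)
  have h2 := S.r_rep_anti w i (le_max_right n k)
  exact h1.trans ((S.l_lt_r _).le.trans h2)

theorem bddAbove_l (w : List (Fin 3)) (i : Fin 3) :
    BddAbove (Set.range fun n => S.l (rep i n w)) :=
  ⟨S.r w, by rintro _ ⟨n, rfl⟩; exact S.l_rep_le_r w i n 0⟩

theorem bddBelow_r (w : List (Fin 3)) (i : Fin 3) :
    BddBelow (Set.range fun n => S.r (rep i n w)) :=
  ⟨S.l w, by rintro _ ⟨n, rfl⟩; exact S.l_rep_le_r w i 0 n⟩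

/-- Left end of the hull. -/
noncomputable def hl (w : List (Fin 3)) : ℝ := ⨆ n, S.l (rep 0 n w)

/-- Right end of the hull. -/
noncomputable def hr (w : List (Fin 3)) : ℝ := ⨅ n, S.r (rep 2 n w)

theorem l_rep_le_hl (w : List (Fin 3)) (n : ℕ) : S.l (rep 0 n w) ≤ S.hl w :=
  le_ciSup (S.bddAbove_l w 0) n

theorem hl_le_r_rep (w : List (Fin 3)) (n : ℕ) : S.hl w ≤ S.r (rep 0 n w) :=
  ciSup_le fun k => S.l_rep_le_r w 0 k n

theorem hr_le_r_rep (w : List (Fin 3)) (n : ℕ) : S.hr w ≤ S.r (rep 2 n w) :=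
  ciInf_le (S.bddBelow_r w 2) n

theorem l_rep_le_hr (w : List (Fin 3)) (n : ℕ) : S.l (rep 2 n w) ≤ S.hr w :=
  le_ciInf fun k => S.l_rep_le_r w 2 n k

theorem hl_cons (w : List (Fin 3)) : S.hl (0 :: w) = S.hl w := by
  apply le_antisymm
  · refine ciSup_le fun n => ?_
    rw [rep_cons]
    exact S.l_rep_le_hl w (n + 1)
  · refine ciSup_le fun n => ?_
    refine ((S.l_rep_mono w 0) (Nat.le_succ n)).trans ?_
    have := S.l_rep_le_hl (0 :: w) n
    rwa [rep_cons] at this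

theorem hr_cons (w : List (Fin 3)) : S.hr (2 :: w) = S.hr w := by
  apply le_antisymm
  · refine le_ciInf fun n => ?_
    refine le_trans ?_ ((S.r_rep_anti w 2) (Nat.le_succ n))
    have := S.hr_le_r_rep (2 :: w) n
    rwa [rep_cons] at this
  · refine le_ciInf fun n => ?_
    rw [rep_cons]
    exact S.hr_le_r_rep w (n + 1)

theorem l_le_hl (w : List (Fin 3)) : S.l w ≤ S.hl w := S.l_rep_le_hl w 0

theorem hl_le_r (w : List (Fin 3)) : S.hl w ≤ S.r w := S.hl_le_r_rep w 0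

theorem hr_le_r (w : List (Fin 3)) : S.hr w ≤ S.r w := S.hr_le_r_rep w 0

theorem l_le_hr (w : List (Fin 3)) : S.l w ≤ S.hr w := S.l_rep_le_hr w 0

/-- The hull tree. -/
noncomputable def tree : HTree where
  hl := S.hl
  hr := S.hr
  hlt := fun w => by
    have h1 : S.hl w ≤ S.r (0 :: w) := S.hl_le_r_rep w 1
    have h2 := S.ord01 w
    have h3 := S.l_lt_r (1 :: w)
    have h4 := S.ord12 w
    have h5 : S.l (2 :: w) ≤ S.hr w := S.l_rep_le_hr w 1
    linarith
  hl0 := S.hl_cons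
  hr2 := S.hr_cons
  gap1 := fun w => (S.hr_le_r _).trans_lt ((S.ord01 w).trans_le (S.l_le_hl _))
  gap2 := fun w => (S.hr_le_r _).trans_lt ((S.ord12 w).trans_le (S.l_le_hl _))

/-- The ends of the blocks along `i^n` come together. -/
theorem exists_len_lt (w : List (Fin 3)) (i : Fin 3) {ε : ℝ} (hε : 0 < ε) :
    ∃ n, S.r (rep i n w) - S.l (rep i n w) < ε := by
  have hg : S.γ⁻¹ < 1 := inv_lt_one_of_one_lt₀ S.hγ
  have hg0 : 0 ≤ S.γ⁻¹ := inv_nonneg.2 (by linarith [S.hγ])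
  have hC : 0 < 2 / S.d0 := div_pos two_pos S.hd0
  obtain ⟨n, hn⟩ := exists_pow_lt_of_lt_one (div_pos hε hC) hg
  refine ⟨n, (S.len_le _).trans_lt ?_⟩
  rw [length_rep]
  have h1 : (S.γ⁻¹) ^ (n + w.length) ≤ (S.γ⁻¹) ^ n :=
    pow_le_pow_of_le_one hg0 hg.le (Nat.le_add_right _ _)
  rw [lt_div_iff₀ hC] at hn
  calc 2 / S.d0 * S.γ⁻¹ ^ (n + w.length) ≤ 2 / S.d0 * S.γ⁻¹ ^ n :=
        mul_le_mul_of_nonneg_left h1 hC.le
    _ < ε := by linarith

/-- A point of the limit set lies in all blocks. -/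
theorem mem_blocks {w : List (Fin 3)} {s : ℕ → Fin 3} {x : ℝ}
    (h : ∀ n, S.hl (wordAt s w n) ≤ x ∧ x ≤ S.hr (wordAt s w n)) (n : ℕ) :
    S.l (wordAt s w n) ≤ x ∧ x ≤ S.r (wordAt s w n) :=
  ⟨(S.l_le_hl _).trans (h n).1, (h n).2.trans (S.hr_le_r _)⟩

theorem length_wordAt (s : ℕ → Fin 3) (w : List (Fin 3)) (n : ℕ) :
    (wordAt s w n).length = n + w.length := by
  induction n with
  | zero => simp [wordAt]
  | succ n ih =>
    show (wordAt s w n).length + 1 = _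
    rw [ih]
    ring

theorem K_subset_Sig (w : List (Fin 3)) : S.tree.K w ⊆ Sig lam := by
  rintro x ⟨s, hs⟩
  rw [Sig_iff_frequently]
  intro K
  refine ⟨S.m (wordAt s w K), ?_, ?_⟩
  · have := S.hm (wordAt s w K)
    rw [length_wordAt] at this
    omega
  · rw [← S.hZ]
    have h := S.mem_blocks hs K
    have h1 := S.Z_mem h.1 h.2
    exact _root_.abs_le.2 ⟨(S.hzl _).trans h1.1, h1.2.trans (S.hzr _)⟩

/-- Exhaustion: a point of the spectrum in a block lies in the block of a child. -/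
theorem exists_child {w : List (Fin 3)} {E : ℝ} (h1 : S.l w ≤ E) (h2 : E ≤ S.r w)
    (hE : E ∈ Sig lam) : ∃ i, S.l (i :: w) ≤ E ∧ E ≤ S.r (i :: w) := by
  have hm := S.Z_mem h1 h2
  obtain ⟨i, a, b⟩ := S.exh w E (S.P_of_mem w h1 h2) hm.1 hm.2 hE
  have pA := S.hpA w i
  have Bq := S.hBq w i
  have hzl := S.hp w i
  have hzr := S.hq w i
  have c : S.zl (i :: w) ≤ S.Z (i :: w) E := by
    obtain ⟨E', f1, f2, f3⟩ := S.exists_Z_eq w (z := S.A w i) (hzl.trans pA) (a.trans hm.2)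
    have g := S.atA w i E' (S.P_of_mem w f1 f2) f3
    have hle : E' ≤ E := S.le_of_Z_le f2 h1 (by rw [f3]; exact a)
    rcases hle.eq_or_lt with e | e
    · rw [← e]; exact g
    · exact g.trans (S.strip_mono (S.block w) i f1 h2 e (by rw [f3]; exact pA)
        (b.trans Bq)).le
  have d : S.Z (i :: w) E ≤ S.zr (i :: w) := by
    obtain ⟨E', f1, f2, f3⟩ := S.exists_Z_eq w (z := S.B w i) (hm.1.trans b) (Bq.trans hzr)
    have g := S.atB w i E' (S.P_of_mem w f1 f2) f3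
    have hle : E ≤ E' := S.le_of_Z_le h2 f1 (by rw [f3]; exact b)
    rcases hle.eq_or_lt with e | e
    · rw [e]; exact g
    · exact (S.strip_mono (S.block w) i h1 f2 e (pA.trans a) (by rw [f3]; exact Bq)).le.trans g
  exact ⟨i, (S.arc_spec w i).2.2.2 E h1 h2 (pA.trans a) (b.trans Bq) c d⟩

/-- The path of a point of the spectrum in the block of `w`. -/
noncomputable def path (w : List (Fin 3)) (E : ℝ) (h : S.l w ≤ E ∧ E ≤ S.r w)
    (hE : E ∈ Sig lam) : ℕ → {v : List (Fin 3) // S.l v ≤ E ∧ E ≤ S.r v}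
  | 0 => ⟨w, h⟩
  | n + 1 => ⟨Classical.choose (S.exists_child (path w E h hE n).2.1 (path w E h hE n).2.2 hE) ::
        (path w E h hE n).1,
      Classical.choose_spec (S.exists_child (path w E h hE n).2.1 (path w E h hE n).2.2 hE)⟩

theorem exists_path {w : List (Fin 3)} {E : ℝ} (h : S.l w ≤ E ∧ E ≤ S.r w)
    (hE : E ∈ Sig lam) : ∃ s : ℕ → Fin 3, ∀ n, S.l (wordAt s w n) ≤ E ∧ E ≤ S.r (wordAt s w n) := by
  let s : ℕ → Fin 3 := fun n => Classical.choose
    (S.exists_child (S.path w E h hE n).2.1 (S.path w E h hE n).2.2 hE)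
  have key : ∀ n, wordAt s w n = (S.path w E h hE n).1 := by
    intro n
    induction n with
    | zero => rfl
    | succ n ih =>
      show s n :: wordAt s w n = _ :: (S.path w E h hE n).1
      rw [ih]
  refine ⟨s, fun n => ?_⟩
  rw [key n]
  exact (S.path w E h hE n).2

/-- If all blocks along a path contain `E`, so do all hulls. -/
theorem hl_le_of_path {w : List (Fin 3)} {s : ℕ → Fin 3} {E : ℝ}
    (h : ∀ n, S.l (wordAt s w n) ≤ E ∧ E ≤ S.r (wordAt s w n)) (n : ℕ) :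
    S.hl (wordAt s w n) ≤ E := by
  refine ciSup_le fun k => ?_
  -- the block of `0^k v` is to the left of or contains the block containing `E`
  by_contra hc
  push Not at hc
  have key : ∀ j, (S.l (rep 0 j (wordAt s w n)) ≤ E ∧ wordAt s w (n + j) = rep 0 j (wordAt s w n)) ∨
      S.r (rep 0 j (wordAt s w n)) < E := by
    intro j
    induction j with
    | zero => exact Or.inl ⟨(h n).1, rfl⟩
    | succ j ih =>
      rcases ih with ⟨h1, h2⟩ | h1
      · rcases hs : s (n + j) with ⟨i, hi⟩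
        have hw : wordAt s w (n + (j + 1)) = s (n + j) :: rep 0 j (wordAt s w n) := by
          show s (n + j) :: wordAt s w (n + j) = _
          rw [h2]
        have hE := h (n + (j + 1))
        rw [hw] at hE
        match i, hi, hs with
        | 0, _, hs =>
          have hs0 : s (n + j) = 0 := hs
          rw [hs0] at hE hw
          exact Or.inl ⟨hE.1, hw⟩
        | 1, _, hs =>
          have hs1 : s (n + j) = 1 := hs
          rw [hs1] at hE
          exact Or.inr ((S.ord01 _).trans_le hE.1)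
        | 2, _, hs =>
          have hs2 : s (n + j) = 2 := hs
          rw [hs2] at hE
          exact Or.inr ((S.ord01 _).trans ((S.l_lt_r _).trans ((S.ord12 _).trans_le hE.1)))
      · exact Or.inr ((S.r_lt _ 0).trans h1)
  rcases key k with ⟨h1, _⟩ | h1
  · linarith
  · linarith [S.l_lt_r (rep 0 k (wordAt s w n))]

theorem le_hr_of_path {w : List (Fin 3)} {s : ℕ → Fin 3} {E : ℝ}
    (h : ∀ n, S.l (wordAt s w n) ≤ E ∧ E ≤ S.r (wordAt s w n)) (n : ℕ) :
    E ≤ S.hr (wordAt s w n) := by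
  refine le_ciInf fun k => ?_
  by_contra hc
  push Not at hc
  have key : ∀ j, (E ≤ S.r (rep 2 j (wordAt s w n)) ∧ wordAt s w (n + j) = rep 2 j (wordAt s w n)) ∨
      E < S.l (rep 2 j (wordAt s w n)) := by
    intro j
    induction j with
    | zero => exact Or.inl ⟨(h n).2, rfl⟩
    | succ j ih =>
      rcases ih with ⟨h1, h2⟩ | h1
      · rcases hs : s (n + j) with ⟨i, hi⟩
        have hw : wordAt s w (n + (j + 1)) = s (n + j) :: rep 2 j (wordAt s w n) := by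
          show s (n + j) :: wordAt s w (n + j) = _
          rw [h2]
        have hE := h (n + (j + 1))
        rw [hw] at hE
        match i, hi, hs with
        | 0, _, hs =>
          have hs0 : s (n + j) = 0 := hs
          rw [hs0] at hE
          exact Or.inr (hE.2.trans_lt ((S.ord01 _).trans ((S.l_lt_r _).trans (S.ord12 _))))
        | 1, _, hs =>
          have hs1 : s (n + j) = 1 := hs
          rw [hs1] at hE
          exact Or.inr (hE.2.trans_lt (S.ord12 _))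
        | 2, _, hs =>
          have hs2 : s (n + j) = 2 := hs
          rw [hs2] at hE hw
          exact Or.inl ⟨hE.2, hw⟩
      · exact Or.inr (h1.trans (S.l_lt _ 2))
  rcases key k with ⟨h1, _⟩ | h1
  · linarith
  · linarith [S.l_lt_r (rep 2 k (wordAt s w n))]

/-- The part of the spectrum in the block of `w` is the limit set of `w`. -/
theorem mem_K_of_mem_Sig {w : List (Fin 3)} {E : ℝ} (h1 : S.l w ≤ E) (h2 : E ≤ S.r w)
    (hE : E ∈ Sig lam) : E ∈ S.tree.K w := by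
  obtain ⟨s, hs⟩ := S.exists_path ⟨h1, h2⟩ hE
  exact ⟨s, fun n => ⟨S.hl_le_of_path hs n, S.le_hr_of_path hs n⟩⟩

/-- The limit set of the root is the spectrum in the root block. -/
theorem K_nil : S.tree.K [] = Sig lam ∩ Set.Icc S.l0 S.r0 := by
  ext E
  constructor
  · intro h
    refine ⟨S.K_subset_Sig [] h, ?_⟩
    obtain ⟨s, hs⟩ := h
    have := S.mem_blocks hs 0
    exact ⟨this.1, this.2⟩
  · rintro ⟨h1, h2⟩
    exact S.mem_K_of_mem_Sig h2.1 h2.2 h1

end Tube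

end Pool.Agent.H98.Fib
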