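import Pool.Agent.H98.Fib.Defs

/-!
# FA-4. Self-adjointness and the Weyl criterion with finitely supported vectors

PROOF.
(1) `H1` and `H2` are symmetric: `⟪shiftOp e a, b⟫ = ⟪a, shiftOp e.symm b⟫` (reindexing of the sum,
    `lp.inner_eq_tsum`), `mulOp` of a real function is symmetric.
(2) Weyl criterion for a self-adjoint bounded operator `T` on a complex Hilbert space and real `E`:
    if `(T - E)` is a unit with inverse `R` then `‖ψ‖ ≤ ‖R‖ ‖(T - E) ψ‖`, so approximate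
    eigenvectors for all `ε` are impossible.  Conversely if there is `ε > 0` with
    `ε ‖ψ‖ < ‖(T - E) ψ‖` for all `ψ ≠ 0` then `T - E` is injective with closed range
    (antilipschitz), and the range is dense because its orthogonal complement is the kernel of the
    adjoint `T - E`; so it is bijective, hence a unit
    (`ContinuousLinearEquiv.ofBijective` or `ContinuousLinearMap.isUnit_iff_bijective`).
(3) Finitely supported vectors are dense (`lp.hasSum_single`): given `ψ ≠ 0` with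
    `‖(T - E) ψ‖ ≤ (ε/2) ‖ψ‖`, a finite truncation `ψ_s` with `ψ_s → ψ` has
    `‖(T - E) ψ_s‖ ≤ ε ‖ψ_s‖` and `ψ_s ≠ 0` eventually, by continuity of both sides
    (the inequality `‖(T-E)ψ‖ ≤ (ε/2)‖ψ‖ < ε ‖ψ‖` is strict).
-/

namespace Pool.Agent.H98.Fib

open scoped InnerProductSpace

private theorem weyl_shift_adj {ι : Type} (e : ι ≃ ι) :
    ContinuousLinearMap.adjoint (shiftOp e) = shiftOp e.symm := by
  symm
  rw [ContinuousLinearMap.eq_adjoint_iff]
  intro a b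
  rw [lp.inner_eq_tsum, lp.inner_eq_tsum]
  rw [← e.tsum_eq (fun i => ⟪(shiftOp e.symm a : ι → ℂ) i, (b : ι → ℂ) i⟫_ℂ)]
  refine tsum_congr fun i => ?_
  rw [shiftOp_apply, shiftOp_apply, Equiv.symm_apply_apply]

private theorem weyl_mul_adj {ι : Type} (w : ι → ℝ) (C : ℝ) (hw : ∀ i, |w i| ≤ C) :
    ContinuousLinearMap.adjoint (mulOp w C hw) = mulOp w C hw := by
  symm
  rw [ContinuousLinearMap.eq_adjoint_iff]
  intro a b
  rw [lp.inner_eq_tsum, lp.inner_eq_tsum]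
  refine tsum_congr fun i => ?_
  rw [mulOp_apply, mulOp_apply]
  simp only [RCLike.inner_apply, map_mul, Complex.conj_ofReal]
  ring

theorem isSelfAdjoint_H1 (lam : ℝ) : IsSelfAdjoint (H1 lam) := by
  have h : ContinuousLinearMap.adjoint (H1 lam) = H1 lam := by
    unfold H1
    rw [map_add, map_add, weyl_shift_adj, weyl_shift_adj, weyl_mul_adj]
    have e1 : (Equiv.addRight (1 : ℤ)).symm = Equiv.subRight 1 := by
      ext i
      simp [sub_eq_add_neg]
    have e2 : (Equiv.subRight (1 : ℤ)).symm = Equiv.addRight 1 := by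
      ext i
      simp
    rw [e1, e2, add_comm (shiftOp (Equiv.subRight (1 : ℤ)))]
  exact h

theorem isSelfAdjoint_H2 (lam : ℝ) : IsSelfAdjoint (H2 lam) := by
  have h : ContinuousLinearMap.adjoint (H2 lam) = H2 lam := by
    unfold H2
    rw [map_add, map_add, map_add, map_add, weyl_shift_adj, weyl_shift_adj, weyl_shift_adj,
      weyl_shift_adj, weyl_mul_adj]
    have e1 : ((Equiv.addRight (1 : ℤ)).prodCongr (Equiv.refl ℤ)).symm =
        (Equiv.subRight (1 : ℤ)).prodCongr (Equiv.refl ℤ) := by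
      ext i <;> simp [sub_eq_add_neg]
    have e2 : ((Equiv.subRight (1 : ℤ)).prodCongr (Equiv.refl ℤ)).symm =
        (Equiv.addRight (1 : ℤ)).prodCongr (Equiv.refl ℤ) := by
      ext i <;> simp
    have e3 : ((Equiv.refl ℤ).prodCongr (Equiv.addRight (1 : ℤ))).symm =
        (Equiv.refl ℤ).prodCongr (Equiv.subRight (1 : ℤ)) := by
      ext i <;> simp [sub_eq_add_neg]
    have e4 : ((Equiv.refl ℤ).prodCongr (Equiv.subRight (1 : ℤ))).symm =
        (Equiv.refl ℤ).prodCongr (Equiv.addRight (1 : ℤ)) := by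
      ext i <;> simp
    rw [e1, e2, e3, e4]
    abel
  exact h

/-- the two alternatives for a bounded self-adjoint operator -/
private theorem weyl_unit {ι : Type} (A : L2 ι →L[ℂ] L2 ι) (hA : IsSelfAdjoint A) (ε : ℝ)
    (hε : 0 < ε) (h : ∀ ψ : L2 ι, ψ ≠ 0 → ε * ‖ψ‖ < ‖A ψ‖) : IsUnit A := by
  rw [ContinuousLinearMap.isUnit_iff_bijective]
  have hle : ∀ ψ : L2 ι, ε * ‖ψ‖ ≤ ‖A ψ‖ := by
    intro ψ
    by_cases h0 : ψ = 0
    · rw [h0]; simp
    · exact (h ψ h0).le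
  have hanti : AntilipschitzWith (Real.toNNReal ε⁻¹) A := by
    refine A.antilipschitz_of_bound ?_
    intro ψ
    rw [Real.coe_toNNReal _ (inv_nonneg.2 hε.le)]
    have h1 := hle ψ
    have h2 : ‖ψ‖ = ε⁻¹ * (ε * ‖ψ‖) := by
      rw [← mul_assoc, inv_mul_cancel₀ hε.ne', one_mul]
    rw [h2]
    exact mul_le_mul_of_nonneg_left h1 (inv_nonneg.2 hε.le)
  have hinj : Function.Injective A := hanti.injective
  refine ⟨hinj, ?_⟩
  have hclosed : IsClosed (Set.range A) := hanti.isClosed_range A.uniformContinuous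
  have hker : A.ker = ⊥ := LinearMap.ker_eq_bot.2 hinj
  have horth : A.rangeᗮ = ⊥ := by
    rw [ContinuousLinearMap.orthogonal_range]
    have : ContinuousLinearMap.adjoint A = A := hA
    rw [this]
    exact hker
  have htop : A.range.topologicalClosure = ⊤ :=
    Submodule.topologicalClosure_eq_top_iff.2 horth
  have hcl : A.range.topologicalClosure = A.range :=
    IsClosed.submodule_topologicalClosure_eq (by
      have : (A.range : Set (L2 ι)) = Set.range A := by ext x; simp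
      rw [this]
      exact hclosed)
  rw [hcl] at htop
  exact LinearMap.range_eq_top.1 htop

theorem mem_spectrum_iff_weyl {ι : Type} (T : L2 ι →L[ℂ] L2 ι) (hT : IsSelfAdjoint T) (E : ℝ) :
    (E : ℂ) ∈ spectrum ℂ T ↔
      ∀ ε > 0, ∃ ψ : L2 ι, ψ ≠ 0 ∧ ‖T ψ - (E : ℂ) • ψ‖ ≤ ε * ‖ψ‖ := by
  set A : L2 ι →L[ℂ] L2 ι := algebraMap ℂ (L2 ι →L[ℂ] L2 ι) (E : ℂ) - T with hAdef
  have hAapp : ∀ ψ, ‖T ψ - (E : ℂ) • ψ‖ = ‖A ψ‖ := by
    intro ψ
    rw [hAdef]
    rw [← norm_neg]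
    congr 1
    rw [Algebra.algebraMap_eq_smul_one]
    simp only [ContinuousLinearMap.sub_apply, ContinuousLinearMap.smul_apply,
      ContinuousLinearMap.one_apply, neg_sub]
  have hAsa : IsSelfAdjoint A := by
    refine IsSelfAdjoint.sub ?_ hT
    rw [Algebra.algebraMap_eq_smul_one]
    refine IsSelfAdjoint.smul ?_ (IsSelfAdjoint.one _)
    exact Complex.conj_ofReal E
  rw [spectrum.mem_iff]
  constructor
  · intro hu ε hε
    by_contra hne
    push Not at hne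
    apply hu
    refine weyl_unit A hAsa ε hε ?_
    intro ψ h0
    rw [← hAapp]
    exact hne ψ h0
  · intro h hu
    obtain ⟨u, hu⟩ := hu
    have hu' : (u : L2 ι →L[ℂ] L2 ι) = A := hu
    set R : L2 ι →L[ℂ] L2 ι := ((u⁻¹ : (L2 ι →L[ℂ] L2 ι)ˣ) : L2 ι →L[ℂ] L2 ι) with hR
    have hRA : ∀ ψ, R (A ψ) = ψ := by
      intro ψ
      have h1 : R * (u : L2 ι →L[ℂ] L2 ι) = 1 := Units.inv_mul u
      rw [hu'] at h1
      have h2 := congrArg (fun S : L2 ι →L[ℂ] L2 ι => S ψ) h1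
      exact h2
    obtain ⟨ψ, h0, h1⟩ := h (1 / (2 * (‖R‖ + 1))) (by positivity)
    rw [hAapp] at h1
    have h2 : ‖ψ‖ ≤ ‖R‖ * ‖A ψ‖ := by
      calc ‖ψ‖ = ‖R (A ψ)‖ := by rw [hRA]
        _ ≤ ‖R‖ * ‖A ψ‖ := R.le_opNorm _
    have h3 : 0 < ‖ψ‖ := norm_pos_iff.2 h0
    have h4 : ‖R‖ * ‖A ψ‖ ≤ ‖R‖ * (1 / (2 * (‖R‖ + 1)) * ‖ψ‖) :=
      mul_le_mul_of_nonneg_left h1 (norm_nonneg _)
    have h5 : ‖R‖ * (1 / (2 * (‖R‖ + 1)) * ‖ψ‖) ≤ 1 / 2 * ‖ψ‖ := by
      have h6 : ‖R‖ * (1 / (2 * (‖R‖ + 1))) ≤ 1 / 2 := by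
        rw [mul_one_div, div_le_div_iff₀ (by positivity) (by norm_num)]
        linarith [norm_nonneg R]
      calc ‖R‖ * (1 / (2 * (‖R‖ + 1)) * ‖ψ‖) = (‖R‖ * (1 / (2 * (‖R‖ + 1)))) * ‖ψ‖ := by ring
        _ ≤ 1 / 2 * ‖ψ‖ := mul_le_mul_of_nonneg_right h6 h3.le
    linarith

theorem mem_spectrum_iff_weyl_finite {ι : Type} (T : L2 ι →L[ℂ] L2 ι) (hT : IsSelfAdjoint T)
    (E : ℝ) :
    (E : ℂ) ∈ spectrum ℂ T ↔
      ∀ ε > 0, ∃ ψ : L2 ι, (Function.support (ψ : ι → ℂ)).Finite ∧ ψ ≠ 0 ∧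
        ‖T ψ - (E : ℂ) • ψ‖ ≤ ε * ‖ψ‖ := by
  classical
  rw [mem_spectrum_iff_weyl T hT E]
  constructor
  · intro h ε hε
    obtain ⟨ψ, h0, h1⟩ := h (ε / 2) (by positivity)
    have h3 : 0 < ‖ψ‖ := norm_pos_iff.2 h0
    have h2 : ‖T ψ - (E : ℂ) • ψ‖ < ε * ‖ψ‖ := by nlinarith
    have hopen : IsOpen {φ : L2 ι | ‖T φ - (E : ℂ) • φ‖ < ε * ‖φ‖} :=
      isOpen_lt (by fun_prop) (by fun_prop)
    have hsum := lp.hasSum_single (p := 2) (by norm_num) ψ
    have hev := hsum.eventually (hopen.mem_nhds h2)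
    obtain ⟨s, hs⟩ := hev.exists
    have hs' : ‖T (∑ i ∈ s, lp.single 2 i (ψ i)) - (E : ℂ) • (∑ i ∈ s, lp.single 2 i (ψ i))‖ <
        ε * ‖(∑ i ∈ s, lp.single 2 i (ψ i) : L2 ι)‖ := hs
    refine ⟨∑ i ∈ s, lp.single 2 i (ψ i), ?_, ?_, hs'.le⟩
    · refine s.finite_toSet.subset ?_
      intro j hj
      by_contra hjs
      apply hj
      rw [lp.coeFn_sum, Finset.sum_apply]
      refine Finset.sum_eq_zero fun i hi => ?_
      have hne : j ≠ i := by
        rintro rfl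
        exact hjs hi
      rw [lp.single_apply_ne _ _ _ hne]
    · intro hz
      rw [hz] at hs'
      simp at hs'
  · intro h ε hε
    obtain ⟨ψ, -, h0, h1⟩ := h ε hε
    exact ⟨ψ, h0, h1⟩

end Pool.Agent.H98.Fib
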