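import Pool.Agent.H98.Fib.Transfer
import Pool.Agent.H98.Fib.Weyl

/-!
# FA-6. Energies with infinitely many bounded half traces lie in the spectrum

PROOF.  By the Weyl criterion it is enough to find for every `ε > 0` a vector `φ ≠ 0` with
`‖(H1 - E) φ‖ ≤ ε ‖φ‖`.  Take `k ≥ 3` with `|xs (k+1)| ≤ 1` and `F := F k` large
(`16 ≤ ε^2 F^2` is enough).
By `exists_unimodular` there are `z`, `‖z‖ = 1`, and `y ≠ 0` with `M k y = z y`.  Let
`u : ℤ → ℂ` be the solution of `u (n+1) + u (n-1) + lam v n u n = E u n` for `n ≥ 1` with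
`(u 1, u 0) = y` (define it on the naturals by recursion and extend by `0` to negative integers).
By `M_transfer`, `(u (F+1), u F) = z (u 1, u 0)`, and since `v (n + F k) = v n` for
`1 ≤ n`, `n + 2 ≤ F (k+1)` (in particular for `1 ≤ n ≤ F k`, because
`F (k+1) = F k + F (k-1) ≥ F k + 2` for `k ≥ 3`), induction gives `u (n + F) = z u n`
for `0 ≤ n ≤ F + 1`.  Let `S = ∑_{n=1}^{F} ‖u n‖^2 > 0` (if `S = 0` then `u 1 = 0`, and
`u F = z u 0 = 0` gives `u 0 = 0`: contradiction to `y ≠ 0`).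
Let `c n = n / F` for `0 ≤ n ≤ F`, `c n = (2 F - n) / F` for `F ≤ n ≤ 2 F`, `c n = 0` otherwise, and
`φ n = c n * u n`.
For `1 ≤ n ≤ 2F - 1`: `((H1 - E) φ) n = (c (n+1) - c n) u (n+1) + (c (n-1) - c n) u (n-1)`;
the norm is `≤ (‖u (n+1)‖ + ‖u (n-1)‖) / F`.  At `n = 0` it is `c 1 u 1 = u 1 / F`, at `n = 2F` it
is `c (2F-1) u (2F-1) = u (2F-1)/F`, and `0` for all other `n`.
So `‖(H1 - E) φ‖^2 ≤ (2/F^2) ∑_{n=0}^{2F} (‖u (n+1)‖^2 + ‖u (n-1)‖^2)` (drop the second term for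
`n = 0`) `≤ (2/F^2) (∑_{n=0}^{2F+1} + ...)`; each `‖u n‖^2` with `0 ≤ n ≤ 2F+1` appears at most
twice, and `∑_{n=0}^{2F+1} ‖u n‖^2 = ‖u 0‖^2 + 2 S + ‖u (2F+1)‖^2 ≤ 4 S`
(`‖u 0‖ = ‖u F‖`, `‖u (2F+1)‖ = ‖u 1‖`).  Total `≤ 16 S / F^2`.
On the other hand `‖φ‖^2 = ∑_{n=1}^{F} ((n/F)^2 + (1 - n/F)^2) ‖u n‖^2 ≥ S / 2`
(`c (n+F) = 1 - n/F`, `‖u (n+F)‖ = ‖u n‖`).  So `‖(H1 - E) φ‖^2 ≤ (32 / F^2) ‖φ‖^2`
and any `F` with `32 ≤ ε^2 F^2` works.
-/

namespace Pool.Agent.H98.Fib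

open Matrix

theorem sd_two_mul (P : ℕ) (b : ℕ → ℝ) (hper : ∀ n, n ≤ P + 1 → b (P + n) = b n) :
    ∑ n ∈ Finset.range (2 * P), b n = 2 * ∑ n ∈ Finset.range P, b n := by
  rw [two_mul, Finset.sum_range_add, two_mul]
  congr 1
  refine Finset.sum_congr rfl (fun n hn => ?_)
  rw [Finset.mem_range] at hn
  exact hper n (by omega)

theorem sd_sum_le (P : ℕ) (hP : 2 ≤ P) (b : ℕ → ℝ) (hb : ∀ n, 0 ≤ b n)
    (hper : ∀ n, n ≤ P + 1 → b (P + n) = b n) :
    b 1 + ∑ n ∈ Finset.range (2 * P), b (n + 2) + ∑ n ∈ Finset.range (2 * P), b n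
      ≤ 5 * ∑ n ∈ Finset.range P, b n := by
  have h1 := sd_two_mul P b hper
  have h2 : ∑ n ∈ Finset.range (2 * P), b (n + 2) + b 1 + b 0
      = ∑ n ∈ Finset.range (2 * P), b n + b (2 * P) + b (2 * P + 1) := by
    have e1 := Finset.sum_range_succ' b (2 * P + 1)
    have e2 := Finset.sum_range_succ' (fun n => b (n + 1)) (2 * P)
    have e3 := Finset.sum_range_succ b (2 * P + 1)
    have e4 := Finset.sum_range_succ b (2 * P)
    simp only [zero_add] at e2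
    rw [e2] at e1
    rw [e4] at e3
    linarith
  have h3 : b (2 * P) = b 0 := by
    have e1 := hper P (by omega)
    have e2 := hper 0 (by omega)
    rw [two_mul, e1]
    simpa using e2
  have h4 : b (2 * P + 1) = b 1 := by
    have e1 := hper (P + 1) le_rfl
    have e2 := hper 1 (by omega)
    rw [two_mul, add_assoc, e1, e2]
  have h5 : b 1 ≤ ∑ n ∈ Finset.range P, b n :=
    Finset.single_le_sum (f := b) (fun n _ => hb n) (Finset.mem_range.2 (by omega))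
  linarith

/-- the tent -/
noncomputable def sdc (P n : ℕ) : ℝ :=
  if n ≤ P then (n : ℝ) / P else if n ≤ 2 * P then (2 * P - n : ℝ) / P else 0

theorem sdc_zero (P : ℕ) : sdc P 0 = 0 := by simp [sdc]

theorem sdc_top (P : ℕ) (hP : 0 < P) (n : ℕ) (hn : 2 * P ≤ n) : sdc P n = 0 := by
  unfold sdc
  rw [if_neg (by omega)]
  split_ifs with h
  · have : n = 2 * P := by omega
    subst this
    push_cast
    simp
  · rfl

theorem sdc_step (P : ℕ) (hP : 0 < P) (n : ℕ) : (sdc P (n + 1) - sdc P n) ^ 2 ≤ 1 / (P : ℝ) ^ 2 := by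
  have hP' : (0 : ℝ) < P := by exact_mod_cast hP
  have h1 : |sdc P (n + 1) - sdc P n| ≤ 1 / P := by
    rcases lt_or_ge n P with h | h
    · have e : sdc P (n + 1) - sdc P n = 1 / P := by
        unfold sdc
        rw [if_pos (by omega), if_pos (by omega)]
        push_cast
        ring
      rw [e, abs_of_pos (by positivity)]
    · rcases lt_or_ge n (2 * P) with h2 | h2
      · have e : sdc P (n + 1) - sdc P n = - (1 / P) := by
          rcases h.eq_or_lt with h3 | h3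
          · subst h3
            unfold sdc
            rw [if_neg (by omega), if_pos (by omega), if_pos le_rfl]
            push_cast
            field_simp
            ring
          · unfold sdc
            rw [if_neg (by omega), if_pos (by omega), if_neg (by omega), if_pos (by omega)]
            push_cast
            ring
        rw [e, abs_neg, abs_of_pos (by positivity)]
      · rw [sdc_top P hP n h2, sdc_top P hP (n + 1) (by omega)]
        simp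
  rw [← sq_abs]
  calc |sdc P (n + 1) - sdc P n| ^ 2 ≤ (1 / (P : ℝ)) ^ 2 :=
        pow_le_pow_left₀ (abs_nonneg _) h1 2
    _ = 1 / (P : ℝ) ^ 2 := by rw [div_pow, one_pow]

theorem sd_sum_ge (P : ℕ) (hP : 0 < P) (b : ℕ → ℝ) (hb : ∀ n, 0 ≤ b n)
    (hper : ∀ n, n ≤ P + 1 → b (P + n) = b n) :
    (∑ n ∈ Finset.range P, b n) / 2 ≤ ∑ n ∈ Finset.range (2 * P + 1), sdc P n ^ 2 * b n := by
  have hP' : (0 : ℝ) < P := by exact_mod_cast hP
  rw [Finset.sum_range_succ]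
  have h0 : 0 ≤ sdc P (2 * P) ^ 2 * b (2 * P) := mul_nonneg (sq_nonneg _) (hb _)
  have h1 : (∑ n ∈ Finset.range P, b n) / 2 ≤ ∑ n ∈ Finset.range (2 * P), sdc P n ^ 2 * b n := by
    rw [two_mul, Finset.sum_range_add, ← Finset.sum_add_distrib, Finset.sum_div]
    refine Finset.sum_le_sum (fun n hn => ?_)
    rw [Finset.mem_range] at hn
    rw [hper n (by omega), ← add_mul]
    have e1 : sdc P n = (n : ℝ) / P := by
      unfold sdc
      rw [if_pos (by omega)]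
    have e2 : sdc P (P + n) = 1 - (n : ℝ) / P := by
      unfold sdc
      split_ifs with h h2
      · have : n = 0 := by omega
        subst this
        simp [hP'.ne']
      · push_cast
        field_simp
        ring
      · omega
    rw [e1, e2]
    have h3 : (1 : ℝ) / 2 ≤ ((n : ℝ) / P) ^ 2 + (1 - (n : ℝ) / P) ^ 2 := by
      nlinarith [sq_nonneg ((n : ℝ) / P - 1 / 2)]
    have h4 := mul_le_mul_of_nonneg_right h3 (hb n)
    linarith
  linarith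

/-- the solution on the naturals -/
noncomputable def sdSol (lam E : ℝ) (y0 y1 : ℂ) : ℕ → ℂ
  | 0 => y0
  | 1 => y1
  | (n + 2) => ((E : ℂ) - ((lam * v ((n : ℤ) + 1) : ℝ) : ℂ)) * sdSol lam E y0 y1 (n + 1)
      - sdSol lam E y0 y1 n

theorem sdSol_period (lam E : ℝ) (y0 y1 z : ℂ) (P : ℕ)
    (hv : ∀ n : ℕ, 1 ≤ n → n ≤ P → v ((n : ℤ) + P) = v n)
    (h0 : sdSol lam E y0 y1 P = z * sdSol lam E y0 y1 0)
    (h1 : sdSol lam E y0 y1 (P + 1) = z * sdSol lam E y0 y1 1) :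
    ∀ n, n ≤ P → sdSol lam E y0 y1 (P + n) = z * sdSol lam E y0 y1 n ∧
      sdSol lam E y0 y1 (P + (n + 1)) = z * sdSol lam E y0 y1 (n + 1) := by
  intro n
  induction n with
  | zero => intro _; exact ⟨by simpa using h0, by simpa using h1⟩
  | succ n ih =>
    intro hn
    obtain ⟨ih1, ih2⟩ := ih (by omega)
    refine ⟨ih2, ?_⟩
    have e1 : sdSol lam E y0 y1 (P + (n + 1 + 1)) =
        ((E : ℂ) - ((lam * v (((P + n : ℕ) : ℤ) + 1) : ℝ) : ℂ)) * sdSol lam E y0 y1 (P + (n + 1))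
        - sdSol lam E y0 y1 (P + n) := rfl
    have e2 : sdSol lam E y0 y1 (n + 1 + 1) =
        ((E : ℂ) - ((lam * v ((n : ℤ) + 1) : ℝ) : ℂ)) * sdSol lam E y0 y1 (n + 1)
        - sdSol lam E y0 y1 n := rfl
    have e3 : v (((P + n : ℕ) : ℤ) + 1) = v ((n : ℤ) + 1) := by
      have := hv (n + 1) (by omega) hn
      push_cast at this
      rw [← this]
      congr 1
      push_cast
      ring
    rw [e1, e2, e3, ih1, ih2]
    ring

/-- extension by zero of a sequence on the naturals -/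
noncomputable def sdExt (a : ℕ → ℂ) (n : ℤ) : ℂ := if 0 ≤ n then a n.toNat else 0

theorem sdExt_natCast (a : ℕ → ℂ) (n : ℕ) : sdExt a (n : ℤ) = a n := by
  simp [sdExt]

theorem sdExt_neg (a : ℕ → ℂ) (n : ℤ) (hn : n < 0) : sdExt a n = 0 := by
  unfold sdExt
  rw [if_neg (by omega)]

theorem sd_norm_sq (ψ : L2 ℤ) (N : ℕ) (h : ∀ n : ℤ, n < 0 ∨ (N : ℤ) ≤ n → ψ n = 0) :
    ‖ψ‖ ^ 2 = ∑ n ∈ Finset.range N, ‖ψ (n : ℤ)‖ ^ 2 := by
  have h2 := lp.norm_rpow_eq_tsum (p := 2) (by simp) ψ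
  rw [two_toReal] at h2
  simp only [Real.rpow_two] at h2
  rw [h2, tsum_eq_sum (s := (Finset.range N).map Nat.castEmbedding), Finset.sum_map]
  · rfl
  · intro n hn
    have : ψ n = 0 := by
      refine h n ?_
      by_contra hc
      push Not at hc
      obtain ⟨hc1, hc2⟩ := hc
      refine hn (Finset.mem_map.2 ⟨n.toNat, Finset.mem_range.2 (by omega), ?_⟩)
      simp only [Nat.castEmbedding_apply]
      omega
    rw [this]
    simp

theorem sd_add_sq (x y : ℂ) (r s q : ℝ) (hr : r ^ 2 ≤ q) (hs : s ^ 2 ≤ q) :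
    ‖(r : ℂ) * x + (s : ℂ) * y‖ ^ 2 ≤ 2 * q * (‖x‖ ^ 2 + ‖y‖ ^ 2) := by
  have h1 : ‖(r : ℂ) * x + (s : ℂ) * y‖ ≤ |r| * ‖x‖ + |s| * ‖y‖ := by
    refine (norm_add_le _ _).trans (le_of_eq ?_)
    rw [norm_mul, norm_mul, Complex.norm_real, Complex.norm_real, Real.norm_eq_abs,
      Real.norm_eq_abs]
  have h2 : ‖(r : ℂ) * x + (s : ℂ) * y‖ ^ 2 ≤ (|r| * ‖x‖ + |s| * ‖y‖) ^ 2 :=
    pow_le_pow_left₀ (norm_nonneg _) h1 2
  have h3 : (|r| * ‖x‖ + |s| * ‖y‖) ^ 2 ≤ 2 * (r ^ 2 * ‖x‖ ^ 2 + s ^ 2 * ‖y‖ ^ 2) := by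
    rw [← sq_abs r, ← sq_abs s]
    nlinarith [sq_nonneg (|r| * ‖x‖ - |s| * ‖y‖)]
  have h4 := mul_le_mul_of_nonneg_right hr (sq_nonneg ‖x‖)
  have h5 := mul_le_mul_of_nonneg_right hs (sq_nonneg ‖y‖)
  linarith

/-- The test function estimate. -/
theorem sd_weyl (lam E : ℝ) (P : ℕ) (hP : 2 ≤ P) (a : ℕ → ℂ)
    (hrec : ∀ n : ℕ, a (n + 2) = ((E : ℂ) - ((lam * v ((n : ℤ) + 1) : ℝ) : ℂ)) * a (n + 1) - a n)
    (hper : ∀ n, n ≤ P + 1 → ‖a (P + n)‖ = ‖a n‖) (ha : a 0 ≠ 0 ∨ a 1 ≠ 0) :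
    ∃ ψ : L2 ℤ, ψ ≠ 0 ∧ ‖H1 lam ψ - (E : ℂ) • ψ‖ ^ 2 ≤ 32 / (P : ℝ) ^ 2 * ‖ψ‖ ^ 2 := by
  have hP0 : 0 < P := by omega
  have hP' : (0 : ℝ) < P := by exact_mod_cast hP0
  set b : ℕ → ℝ := fun n => ‖a n‖ ^ 2 with hbdef
  have hb : ∀ n, 0 ≤ b n := fun n => sq_nonneg _
  have hbper : ∀ n, n ≤ P + 1 → b (P + n) = b n := fun n hn => by
    simp only [hbdef, hper n hn]
  set S : ℝ := ∑ n ∈ Finset.range P, b n with hS
  have hSpos : 0 < S := by
    rcases ha with h | h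
    · refine lt_of_lt_of_le (pow_pos (norm_pos_iff.2 h) 2) ?_
      exact Finset.single_le_sum (f := b) (fun n _ => hb n) (Finset.mem_range.2 (by omega))
    · refine lt_of_lt_of_le (pow_pos (norm_pos_iff.2 h) 2) ?_
      exact Finset.single_le_sum (f := b) (fun n _ => hb n) (Finset.mem_range.2 (by omega))
  -- the test vector
  let g : ℕ → ℂ := fun n => (sdc P n : ℂ) * a n
  have hg0 : ∀ n : ℤ, n ≤ 0 ∨ (2 * P : ℤ) ≤ n → sdExt g n = 0 := by
    intro n hn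
    rcases lt_or_ge n 0 with h | h
    · exact sdExt_neg g n h
    · lift n to ℕ using h
      rw [sdExt_natCast]
      rcases hn with h1 | h1
      · have : n = 0 := by omega
        subst this
        simp [g, sdc_zero]
      · simp [g, sdc_top P hP0 n (by omega)]
  have hmem : Memℓp (sdExt g) 2 := by
    refine (memℓp_zero ?_).of_exponent_ge (by simp)
    refine (Set.finite_Icc (0 : ℤ) (2 * P)).subset (fun n hn => ?_)
    by_contra hc
    refine hn (hg0 n ?_)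
    rw [Set.mem_Icc, not_and_or] at hc
    omega
  let φ : L2 ℤ := ⟨sdExt g, hmem⟩
  have hφ : ∀ n : ℤ, φ n = sdExt g n := fun n => rfl
  have hφn : ∀ n : ℕ, φ (n : ℤ) = (sdc P n : ℂ) * a n := fun n => by
    rw [hφ, sdExt_natCast]
  -- the norm of the test vector
  have hnφ : ‖φ‖ ^ 2 = ∑ n ∈ Finset.range (2 * P + 1), sdc P n ^ 2 * b n := by
    rw [sd_norm_sq φ (2 * P + 1)]
    · refine Finset.sum_congr rfl (fun n _ => ?_)
      rw [hφn, norm_mul, mul_pow, Complex.norm_real, Real.norm_eq_abs, sq_abs]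
    · intro n hn
      rw [hφ]
      refine hg0 n ?_
      push_cast at hn
      omega
  have hge : S / 2 ≤ ‖φ‖ ^ 2 := by
    rw [hnφ]
    exact sd_sum_ge P hP0 b hb hbper
  -- the defect
  set D : L2 ℤ := H1 lam φ - (E : ℂ) • φ with hD
  have hDn : ∀ n : ℤ, D n = φ (n + 1) + φ (n - 1) + ((lam * v n : ℝ) : ℂ) * φ n - (E : ℂ) * φ n := by
    intro n
    rfl
  have hD0 : ∀ n : ℤ, n < 0 ∨ ((2 * P + 1 : ℕ) : ℤ) ≤ n → D n = 0 := by
    intro n hn
    push_cast at hn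
    rw [hDn, hφ, hφ, hφ, hg0 (n + 1) (by omega), hg0 (n - 1) (by omega), hg0 n (by omega)]
    simp
  have hDz : ‖D ((0 : ℕ) : ℤ)‖ ^ 2 ≤ 2 * (1 / (P : ℝ) ^ 2) * b 1 := by
    have e1 : D ((0 : ℕ) : ℤ) = ((sdc P 1 - sdc P 0 : ℝ) : ℂ) * a 1 + ((0 : ℝ) : ℂ) * 0 := by
      rw [hDn, hφ (((0 : ℕ) : ℤ) - 1), hg0 _ (by simp), hφ ((0 : ℕ) : ℤ), hg0 _ (by simp)]
      have : (((0 : ℕ) : ℤ) + 1) = ((1 : ℕ) : ℤ) := by simp
      rw [this, hφn, sdc_zero]
      simp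
    rw [e1]
    refine (sd_add_sq _ _ _ _ (1 / (P : ℝ) ^ 2) (sdc_step P hP0 0)
      (by rw [zero_pow two_ne_zero]; positivity)).trans ?_
    simp [hbdef]
  have hDs : ∀ n : ℕ, ‖D ((n + 1 : ℕ) : ℤ)‖ ^ 2 ≤ 2 * (1 / (P : ℝ) ^ 2) * (b (n + 2) + b n) := by
    intro n
    have e1 : D ((n + 1 : ℕ) : ℤ) = ((sdc P (n + 1 + 1) - sdc P (n + 1) : ℝ) : ℂ) * a (n + 2)
        + ((sdc P n - sdc P (n + 1) : ℝ) : ℂ) * a n := by
      rw [hDn]
      have e2 : (((n + 1 : ℕ) : ℤ) + 1) = ((n + 2 : ℕ) : ℤ) := by push_cast; ring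
      have e3 : (((n + 1 : ℕ) : ℤ) - 1) = ((n : ℕ) : ℤ) := by push_cast; ring
      rw [e2, e3, hφn, hφn, hφn, hrec n]
      push_cast
      ring
    rw [e1]
    refine sd_add_sq _ _ _ _ (1 / (P : ℝ) ^ 2) (sdc_step P hP0 (n + 1)) ?_
    have := sdc_step P hP0 n
    rw [← neg_sub, neg_sq]
    exact this
  have hDle : ‖D‖ ^ 2 ≤ 2 * (1 / (P : ℝ) ^ 2) * (5 * S) := by
    rw [sd_norm_sq D (2 * P + 1) hD0, Finset.sum_range_succ']
    have h1 : ∑ n ∈ Finset.range (2 * P), ‖D ((n + 1 : ℕ) : ℤ)‖ ^ 2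
        ≤ ∑ n ∈ Finset.range (2 * P), 2 * (1 / (P : ℝ) ^ 2) * (b (n + 2) + b n) :=
      Finset.sum_le_sum (fun n _ => hDs n)
    rw [← Finset.mul_sum, Finset.sum_add_distrib] at h1
    have h2 := sd_sum_le P hP b hb hbper
    have h3 : 0 ≤ 2 * (1 / (P : ℝ) ^ 2) := by positivity
    have h4 := mul_le_mul_of_nonneg_left h2 h3
    nlinarith [h1, h4, hDz]
  refine ⟨φ, ?_, ?_⟩
  · intro h
    rw [h] at hge
    simp at hge
    linarith
  · refine hDle.trans ?_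
    have h1 : 0 ≤ 1 / (P : ℝ) ^ 2 := by positivity
    have h2 : 32 / (P : ℝ) ^ 2 * ‖φ‖ ^ 2 = 1 / (P : ℝ) ^ 2 * (32 * ‖φ‖ ^ 2) := by ring
    rw [h2]
    have h3 : 2 * (1 / (P : ℝ) ^ 2) * (5 * S) = 1 / (P : ℝ) ^ 2 * (10 * S) := by ring
    rw [h3]
    refine mul_le_mul_of_nonneg_left ?_ h1
    linarith

theorem spec1_of_frequently (lam E : ℝ) (h : ∀ K : ℕ, ∃ k ≥ K, |xs lam E k| ≤ 1) :
    E ∈ spec1 lam := by
  show (E : ℂ) ∈ spectrum ℂ (H1 lam)
  rw [mem_spectrum_iff_weyl (H1 lam) (isSelfAdjoint_H1 lam) E]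
  intro ε hε
  obtain ⟨N, hN⟩ := exists_nat_gt (8 / ε)
  obtain ⟨k', hk', hxk⟩ := h (N + 6)
  obtain ⟨k, rfl⟩ : ∃ k, k' = k + 1 := ⟨k' - 1, by omega⟩
  have hk : N + 5 ≤ k := by omega
  set P : ℕ := F k with hPdef
  have hPN : k + 1 ≤ P := Nat.le_fib_self (by omega)
  have hP : 2 ≤ P := by omega
  have hPN' : N ≤ P := by omega
  obtain ⟨z, y, hz, hy, hMy⟩ := exists_unimodular lam E k hxk
  set a : ℕ → ℂ := sdSol lam E (y 1) (y 0) with hadef
  have hrec : ∀ n : ℕ, a (n + 2) =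
      ((E : ℂ) - ((lam * v ((n : ℤ) + 1) : ℝ) : ℂ)) * a (n + 1) - a n := fun n => rfl
  have ha0 : a 0 = y 1 := rfl
  have ha1 : a 1 = y 0 := rfl
  have hT := M_transfer lam E k (by omega) v (fun n _ _ => rfl) (sdExt a) (by
    intro n hn _
    have hn0 : 0 ≤ n - 1 := by omega
    obtain ⟨m, hm⟩ := Int.eq_ofNat_of_zero_le hn0
    have e0 : n = ((m + 1 : ℕ) : ℤ) := by push_cast; omega
    subst e0
    have e2 : (((m + 1 : ℕ) : ℤ) + 1) = ((m + 2 : ℕ) : ℤ) := by push_cast; ring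
    have e3 : (((m + 1 : ℕ) : ℤ) - 1) = ((m : ℕ) : ℤ) := by push_cast; ring
    rw [e2, e3, sdExt_natCast, sdExt_natCast, sdExt_natCast, hrec m]
    push_cast
    ring)
  have hy' : (![sdExt a 1, sdExt a 0] : Fin 2 → ℂ) = y := by
    have e1 : sdExt a 1 = y 0 := by
      have := sdExt_natCast a 1
      simpa [ha1] using this
    have e0 : sdExt a 0 = y 1 := by
      have := sdExt_natCast a 0
      simpa [ha0] using this
    rw [e0, e1]
    ext i
    fin_cases i <;> rfl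
  rw [hy', hMy] at hT
  have hT0 := congrFun hT 0
  have hT1 := congrFun hT 1
  simp only [Pi.smul_apply, smul_eq_mul, Matrix.cons_val_zero, Matrix.cons_val_one] at hT0 hT1
  have hT1' : a P = z * a 0 := by
    rw [ha0, hT1, ← sdExt_natCast a P]
  have hT0' : a (P + 1) = z * a 1 := by
    rw [ha1, hT0, ← sdExt_natCast a (P + 1)]
    push_cast
    rfl
  have hFk : F (k + 1) = F k + F (k - 1) := by
    obtain ⟨j, rfl⟩ : ∃ j, k = j + 1 := ⟨k - 1, by omega⟩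
    show Nat.fib (j + 1 + 1 + 1) = Nat.fib (j + 1 + 1) + Nat.fib (j + 1)
    rw [Nat.fib_add_two (n := j + 1), add_comm]
  have hF2 : 2 ≤ F (k - 1) := by
    have h1 : Nat.fib 3 ≤ Nat.fib (k - 1 + 1) := Nat.fib_mono (by omega)
    have h2 : Nat.fib 3 = 2 := rfl
    rw [h2] at h1
    exact h1
  have hv : ∀ n : ℕ, 1 ≤ n → n ≤ P → v ((n : ℤ) + P) = v n := by
    intro n hn hnP
    refine v_add_F k n (by omega) ?_
    rw [hFk]
    push_cast
    omega
  have hper0 : ∀ n, n ≤ P → a (P + n) = z * a n ∧ a (P + (n + 1)) = z * a (n + 1) :=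
    sdSol_period lam E (y 1) (y 0) z P hv hT1' hT0'
  have hper : ∀ n, n ≤ P + 1 → ‖a (P + n)‖ = ‖a n‖ := by
    intro n hn
    rcases Nat.lt_or_ge n (P + 1) with h1 | h1
    · rw [(hper0 n (by omega)).1, norm_mul, hz, one_mul]
    · have : n = P + 1 := by omega
      subst this
      rw [(hper0 P le_rfl).2, norm_mul, hz, one_mul]
  have hay : a 0 ≠ 0 ∨ a 1 ≠ 0 := by
    by_contra hc
    push Not at hc
    refine hy ?_
    ext i
    fin_cases i
    · exact hc.2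
    · exact hc.1
  obtain ⟨ψ, hψ, hle⟩ := sd_weyl lam E P hP a hrec hper hay
  refine ⟨ψ, hψ, ?_⟩
  have hP' : (0 : ℝ) < P := by
    have : 0 < P := by omega
    exact_mod_cast this
  have h8 : 8 / ε < P := lt_of_lt_of_le hN (by exact_mod_cast hPN')
  have h9 : 8 < P * ε := by rwa [div_lt_iff₀ hε] at h8
  have h10 : 32 / (P : ℝ) ^ 2 ≤ ε ^ 2 := by
    rw [div_le_iff₀ (by positivity)]
    nlinarith
  have h11 : ‖H1 lam ψ - (E : ℂ) • ψ‖ ^ 2 ≤ (ε * ‖ψ‖) ^ 2 := by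
    rw [mul_pow]
    exact hle.trans (mul_le_mul_of_nonneg_right h10 (sq_nonneg _))
  exact le_of_sq_le_sq h11 (by positivity)

end Pool.Agent.H98.Fib
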