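import Pool.Agent.H98.Fib.SpecUp
import Pool.Agent.H98.Fib.SpecDown
import Pool.Agent.H98.Fib.Esc

/-!
# FA-8. The spectrum of the Fibonacci Hamiltonian is the dynamical spectrum

PROOF.  `⊇`: `Sig_iff_frequently` and `spec1_of_frequently`.
`⊆`: let `E ∈ spec1 lam` and suppose `E ∉ Sig lam`: `|xs E n| > 1` and `|xs E (n+1)| > 1` for some
`n`.  Both inequalities hold on a ball of radius `2 δ` around `E` (`continuous_xs`).  By `esc`,
`|xs E' j| > 1` for all `j ≥ n` and all `E'` in the ball; but `spec1_approx` with this `δ`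
gives `k ≥ n` and `E'` in the ball with `xs E' (k+1) = 1`.
-/

namespace Pool.Agent.H98.Fib

theorem spec1_eq_Sig (lam : ℝ) : spec1 lam = Sig lam := by
  ext E
  constructor
  · intro hE
    by_contra hn
    have h1 : ∃ n, ¬ (|xs lam E n| ≤ 1 ∨ |xs lam E (n + 1)| ≤ 1) := by
      by_contra hc
      push Not at hc
      apply hn
      rw [Sig_iff_frequently]
      intro K
      rcases hc K with hK | hK
      · exact ⟨K, le_refl K, hK⟩
      · exact ⟨K + 1, Nat.le_succ K, hK⟩
    obtain ⟨n, hn'⟩ := h1
    push Not at hn'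
    obtain ⟨ha, hb⟩ := hn'
    have hca : Continuous (fun E' => |xs lam E' n|) := (continuous_xs lam n).abs
    have hcb : Continuous (fun E' => |xs lam E' (n + 1)|) := (continuous_xs lam (n + 1)).abs
    have hea : ∀ᶠ E' in nhds E, 1 < |xs lam E' n| :=
      hca.continuousAt.eventually (lt_mem_nhds ha)
    have heb : ∀ᶠ E' in nhds E, 1 < |xs lam E' (n + 1)| :=
      hcb.continuousAt.eventually (lt_mem_nhds hb)
    obtain ⟨r, hr, hball⟩ := Metric.eventually_nhds_iff.mp (hea.and heb)
    obtain ⟨K, hK⟩ := spec1_approx lam E hE (r / 2) (by positivity)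
    obtain ⟨E', hE', hx⟩ := hK (max K n) (le_max_left _ _)
    have hd : dist E' E < r := by
      rw [Real.dist_eq]
      linarith
    obtain ⟨h2, h3⟩ := hball hd
    have h4 := esc lam E' n h2 h3 (max K n + 1) ((le_max_right K n).trans (Nat.le_succ _))
    rw [hx, abs_one] at h4
    exact lt_irrefl _ h4
  · intro hE
    exact spec1_of_frequently lam E ((Sig_iff_frequently lam E).mp hE)

end Pool.Agent.H98.Fib
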