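import Pool.Agent.H98.Fib.Weyl

/-!
# FA-9. The spectrum of the square Hamiltonian is the sum set

PROOF.
`⊇`: let `E1, E2 ∈ spec1 lam`, `ε > 0`; take `φ1, φ2` nonzero of norm one with
`‖(H1 - E_i) φ_i‖ ≤ ε/2` (`mem_spectrum_iff_weyl`), `Φ (m,n) = φ1 m * φ2 n`
(square summable, `‖Φ‖ = ‖φ1‖ ‖φ2‖`).  Then
`(H2 Φ - (E1+E2) Φ)(m,n) = ((H1 - E1) φ1) m * φ2 n + φ1 m * ((H1 - E2) φ2) n`, norm `≤ ε`.

`⊆` (route 1, commutative C*-algebra): let `A = H ⊗ 1`, `B = 1 ⊗ H` be the two parts of `H2`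
(`A = shift_m + shift_m⁻¹ + mulOp (lam v m)`, same for `B`), self-adjoint, commuting, `H2 = A + B`.
Let `S` be the closed star-subalgebra generated by `A, B` (commutative; `StarAlgebra.adjoin` of a
commuting self-adjoint set, `topologicalClosure`).  If `E ∈ σ(A + B)` then, as spectra in `S` and
in the big algebra coincide (`StarSubalgebra.spectrum_eq`), there is a character `χ` of `S` with
`χ (A + B) = E` (`WeakDual.CharacterSpace.mem_spectrum_iff_exists`).  `χ A ∈ σ(A)`,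
`χ B ∈ σ(B)`, both real.  Finally `σ(A) ⊆ σ(H1)`: for real `x ∉ σ(H1)` there is `c > 0` with
`c ‖ψ‖ ≤ ‖(H1 - x) ψ‖` for all `ψ`; applied to each column `Ψ (·, n)` and summed over `n`:
`c ‖Ψ‖ ≤ ‖(A - x) Ψ‖`, so `x ∉ σ(A)` by the Weyl criterion.  Same for `B`.

(route 2, elementary: finite support, cyclic matrices, joint eigenvectors; also possible.)
-/

namespace Pool.Agent.H98.Fib

open scoped InnerProductSpace

/-! ### the sum of two commuting self-adjoint elements of a C*-algebra -/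

private theorem s2_add {A : Type} [CStarAlgebra A] (a b : A) (ha : IsSelfAdjoint a)
    (hb : IsSelfAdjoint b) (hab : a * b = b * a) (E : ℝ) (h : (E : ℂ) ∈ spectrum ℂ (a + b)) :
    ∃ x y : ℝ, (x : ℂ) ∈ spectrum ℂ a ∧ (y : ℂ) ∈ spectrum ℂ b ∧ E = x + y := by
  set N : A := a + Complex.I • b with hN
  have hre : ((realPart N : selfAdjoint A) : A) = a := by
    rw [hN, map_add, realPart_I_smul, hb.imaginaryPart, neg_zero, add_zero]
    exact ha.coe_realPart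
  have him : ((imaginaryPart N : selfAdjoint A) : A) = b := by
    rw [hN, map_add, imaginaryPart_I_smul, ha.imaginaryPart, zero_add]
    exact hb.coe_realPart
  have hnor : IsStarNormal N := by
    rw [isStarNormal_iff_commute_realPart_imaginaryPart, hre, him]
    exact hab
  have h1 : a + b = cfc (fun z : ℂ => ((z.re : ℂ) + (z.im : ℂ))) N := by
    rw [cfc_add .., cfc_re_id N, cfc_im_id N, hre, him]
  rw [h1, cfc_map_spectrum ..] at h
  obtain ⟨z, hz, hzE⟩ := h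
  have h2 := spectrum_realPart N
  have h3 := spectrum_imaginaryPart N
  rw [hre] at h2
  rw [him] at h3
  refine ⟨z.re, z.im, ?_, ?_, ?_⟩
  · rw [h2]
    exact ⟨z, hz, rfl⟩
  · rw [h3]
    exact ⟨z, hz, rfl⟩
  · have h4 : ((z.re + z.im : ℝ) : ℂ) = (E : ℂ) := by
      push_cast
      exact hzE
    exact (Complex.ofReal_injective h4).symm

/-! ### adjoints of the two kinds of operators -/

private theorem s2_shift_adj {ι : Type} (e : ι ≃ ι) :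
    ContinuousLinearMap.adjoint (shiftOp e) = shiftOp e.symm := by
  symm
  rw [ContinuousLinearMap.eq_adjoint_iff]
  intro a b
  rw [lp.inner_eq_tsum, lp.inner_eq_tsum]
  rw [← e.tsum_eq (fun i => ⟪(shiftOp e.symm a : ι → ℂ) i, (b : ι → ℂ) i⟫_ℂ)]
  refine tsum_congr fun i => ?_
  rw [shiftOp_apply, shiftOp_apply, Equiv.symm_apply_apply]

private theorem s2_mul_adj {ι : Type} (w : ι → ℝ) (C : ℝ) (hw : ∀ i, |w i| ≤ C) :
    ContinuousLinearMap.adjoint (mulOp w C hw) = mulOp w C hw := by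
  symm
  rw [ContinuousLinearMap.eq_adjoint_iff]
  intro a b
  rw [lp.inner_eq_tsum, lp.inner_eq_tsum]
  refine tsum_congr fun i => ?_
  rw [mulOp_apply, mulOp_apply]
  simp only [RCLike.inner_apply, map_mul, Complex.conj_ofReal]
  ring

private theorem s2_b1 (lam : ℝ) (p : ℤ × ℤ) : |lam * v p.1| ≤ |lam| := pot1_bound lam p.1

private theorem s2_b2 (lam : ℝ) (p : ℤ × ℤ) : |lam * v p.2| ≤ |lam| := pot1_bound lam p.2

/-- the part of `H2` acting on the first coordinate -/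
private noncomputable def s2A (lam : ℝ) : L2 (ℤ × ℤ) →L[ℂ] L2 (ℤ × ℤ) :=
  shiftOp ((Equiv.addRight (1 : ℤ)).prodCongr (Equiv.refl ℤ))
    + shiftOp ((Equiv.subRight (1 : ℤ)).prodCongr (Equiv.refl ℤ))
    + mulOp (fun p => lam * v p.1) |lam| (s2_b1 lam)

/-- the part of `H2` acting on the second coordinate -/
private noncomputable def s2B (lam : ℝ) : L2 (ℤ × ℤ) →L[ℂ] L2 (ℤ × ℤ) :=
  shiftOp ((Equiv.refl ℤ).prodCongr (Equiv.addRight (1 : ℤ)))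
    + shiftOp ((Equiv.refl ℤ).prodCongr (Equiv.subRight (1 : ℤ)))
    + mulOp (fun p => lam * v p.2) |lam| (s2_b2 lam)

private theorem s2A_apply (lam : ℝ) (ψ : L2 (ℤ × ℤ)) (m n : ℤ) :
    (s2A lam ψ : ℤ × ℤ → ℂ) (m, n) = ψ (m + 1, n) + ψ (m - 1, n)
      + ((lam * v m : ℝ) : ℂ) * ψ (m, n) := rfl

private theorem s2B_apply (lam : ℝ) (ψ : L2 (ℤ × ℤ)) (m n : ℤ) :
    (s2B lam ψ : ℤ × ℤ → ℂ) (m, n) = ψ (m, n + 1) + ψ (m, n - 1)
      + ((lam * v n : ℝ) : ℂ) * ψ (m, n) := rfl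

private theorem s2_ext {f g : L2 (ℤ × ℤ)}
    (h : ∀ m n : ℤ, (f : ℤ × ℤ → ℂ) (m, n) = (g : ℤ × ℤ → ℂ) (m, n)) : f = g := by
  ext p
  exact h p.1 p.2

private theorem s2_H2 (lam : ℝ) : H2 lam = s2A lam + s2B lam := by
  refine ContinuousLinearMap.ext fun ψ => s2_ext fun m n => ?_
  have h : ((s2A lam + s2B lam) ψ : ℤ × ℤ → ℂ) (m, n) =
    (s2A lam ψ : ℤ × ℤ → ℂ) (m, n) + (s2B lam ψ : ℤ × ℤ → ℂ) (m, n) := rfl
  rw [h, H2_apply, s2A_apply, s2B_apply]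
  push_cast
  ring

private theorem s2_comm (lam : ℝ) : s2A lam * s2B lam = s2B lam * s2A lam := by
  refine ContinuousLinearMap.ext fun ψ => s2_ext fun m n => ?_
  show (s2A lam (s2B lam ψ) : ℤ × ℤ → ℂ) (m, n) = (s2B lam (s2A lam ψ) : ℤ × ℤ → ℂ) (m, n)
  simp only [s2A_apply, s2B_apply]
  ring

private theorem s2A_sa (lam : ℝ) : IsSelfAdjoint (s2A lam) := by
  have h : ContinuousLinearMap.adjoint (s2A lam) = s2A lam := by
    unfold s2A
    rw [map_add, map_add, s2_shift_adj, s2_shift_adj, s2_mul_adj]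
    have e1 : ((Equiv.addRight (1 : ℤ)).prodCongr (Equiv.refl ℤ)).symm =
        (Equiv.subRight (1 : ℤ)).prodCongr (Equiv.refl ℤ) := by
      ext i <;> simp [sub_eq_add_neg]
    have e2 : ((Equiv.subRight (1 : ℤ)).prodCongr (Equiv.refl ℤ)).symm =
        (Equiv.addRight (1 : ℤ)).prodCongr (Equiv.refl ℤ) := by
      ext i <;> simp
    rw [e1, e2]
    abel
  exact h

private theorem s2B_sa (lam : ℝ) : IsSelfAdjoint (s2B lam) := by
  have h : ContinuousLinearMap.adjoint (s2B lam) = s2B lam := by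
    unfold s2B
    rw [map_add, map_add, s2_shift_adj, s2_shift_adj, s2_mul_adj]
    have e3 : ((Equiv.refl ℤ).prodCongr (Equiv.addRight (1 : ℤ))).symm =
        (Equiv.refl ℤ).prodCongr (Equiv.subRight (1 : ℤ)) := by
      ext i <;> simp [sub_eq_add_neg]
    have e4 : ((Equiv.refl ℤ).prodCongr (Equiv.subRight (1 : ℤ))).symm =
        (Equiv.refl ℤ).prodCongr (Equiv.addRight (1 : ℤ)) := by
      ext i <;> simp
    rw [e3, e4]
    abel
  exact h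

/-! ### rows and columns -/

private theorem s2_norm_sq {ι : Type} (f : L2 ι) : ‖f‖ ^ 2 = ∑' i, ‖f i‖ ^ 2 := by
  have h := lp.norm_rpow_eq_tsum (p := 2) (by simp) f
  simpa using h

private theorem s2_summable {ι : Type} (f : L2 ι) : Summable fun i => ‖f i‖ ^ 2 := by
  have h := (lp.memℓp f).summable (by simp)
  simpa using h

/-- the rows with respect to a bijection of the plane -/
private noncomputable def s2row (e : ℤ × ℤ ≃ ℤ × ℤ) (n : ℤ) (Ψ : L2 (ℤ × ℤ)) : L2 ℤ :=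
  ⟨fun m => Ψ (e (n, m)), by
    refine memℓp_gen ?_
    have h : Summable fun p => ‖Ψ (e p)‖ ^ 2 :=
      (e.summable_iff (f := fun p => ‖Ψ p‖ ^ 2)).2 (s2_summable Ψ)
    have h2 : Summable fun m => ‖Ψ (e (n, m))‖ ^ 2 :=
      h.comp_injective (Prod.mk_right_injective n)
    simpa using h2⟩

private theorem s2row_apply (e : ℤ × ℤ ≃ ℤ × ℤ) (n : ℤ) (Ψ : L2 (ℤ × ℤ)) (m : ℤ) :
    (s2row e n Ψ : ℤ → ℂ) m = Ψ (e (n, m)) := rfl

private theorem s2row_sum (e : ℤ × ℤ ≃ ℤ × ℤ) (Ψ : L2 (ℤ × ℤ)) :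
    HasSum (fun n => ‖s2row e n Ψ‖ ^ 2) (‖Ψ‖ ^ 2) := by
  have h : Summable fun p => ‖Ψ (e p)‖ ^ 2 :=
    (e.summable_iff (f := fun p => ‖Ψ p‖ ^ 2)).2 (s2_summable Ψ)
  have h1 : ‖Ψ‖ ^ 2 = ∑' p, ‖Ψ (e p)‖ ^ 2 := by
    rw [s2_norm_sq, ← e.tsum_eq (fun p => ‖Ψ p‖ ^ 2)]
  have h2 : (fun n => ‖s2row e n Ψ‖ ^ 2) = fun n => ∑' m, ‖Ψ (e (n, m))‖ ^ 2 := by
    funext n
    rw [s2_norm_sq]
    rfl
  have h3 : ∑' p, ‖Ψ (e p)‖ ^ 2 = ∑' n, ∑' m, ‖Ψ (e (n, m))‖ ^ 2 := h.tsum_prod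
  rw [h1, h2, h3]
  exact h.prod.hasSum

/-- the spectrum of one part is contained in the spectrum of `H1` -/
private theorem s2_part (lam : ℝ) (T : L2 (ℤ × ℤ) →L[ℂ] L2 (ℤ × ℤ)) (hT : IsSelfAdjoint T)
    (e : ℤ × ℤ ≃ ℤ × ℤ)
    (hrow : ∀ (Ψ : L2 (ℤ × ℤ)) (n m : ℤ), (T Ψ : ℤ × ℤ → ℂ) (e (n, m)) =
      Ψ (e (n, m + 1)) + Ψ (e (n, m - 1)) + ((lam * v m : ℝ) : ℂ) * Ψ (e (n, m)))
    (x : ℝ) (hx : (x : ℂ) ∈ spectrum ℂ T) : x ∈ spec1 lam := by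
  show (x : ℂ) ∈ spectrum ℂ (H1 lam)
  rw [mem_spectrum_iff_weyl (H1 lam) (isSelfAdjoint_H1 lam)]
  rw [mem_spectrum_iff_weyl T hT] at hx
  intro ε hε
  by_contra hne
  push Not at hne
  have hle : ∀ ψ : L2 ℤ, ε ^ 2 * ‖ψ‖ ^ 2 ≤ ‖H1 lam ψ - (x : ℂ) • ψ‖ ^ 2 := by
    intro ψ
    rw [← mul_pow]
    refine pow_le_pow_left₀ (by positivity) ?_ 2
    by_cases h0 : ψ = 0
    · rw [h0]; simp
    · exact (hne ψ h0).le
  obtain ⟨Ψ, h0, h1⟩ := hx (ε / 2) (by positivity)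
  have hr : ∀ n, s2row e n (T Ψ - (x : ℂ) • Ψ) =
      H1 lam (s2row e n Ψ) - (x : ℂ) • s2row e n Ψ := by
    intro n
    ext m
    have e1 : (s2row e n (T Ψ - (x : ℂ) • Ψ) : ℤ → ℂ) m =
      (T Ψ : ℤ × ℤ → ℂ) (e (n, m)) - (x : ℂ) * Ψ (e (n, m)) := rfl
    have e2 : ((H1 lam (s2row e n Ψ) - (x : ℂ) • s2row e n Ψ : L2 ℤ) : ℤ → ℂ) m =
      (H1 lam (s2row e n Ψ) : ℤ → ℂ) m - (x : ℂ) * (s2row e n Ψ : ℤ → ℂ) m := rfl
    rw [e1, e2, hrow, H1_apply, s2row_apply, s2row_apply, s2row_apply]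
  have h2 := s2row_sum e (T Ψ - (x : ℂ) • Ψ)
  have h3 := (s2row_sum e Ψ).mul_left (ε ^ 2)
  have h4 : ε ^ 2 * ‖Ψ‖ ^ 2 ≤ ‖T Ψ - (x : ℂ) • Ψ‖ ^ 2 := by
    refine hasSum_le (fun n => ?_) h3 h2
    rw [hr n]
    exact hle _
  have h5 : ‖T Ψ - (x : ℂ) • Ψ‖ ^ 2 ≤ (ε / 2 * ‖Ψ‖) ^ 2 :=
    pow_le_pow_left₀ (norm_nonneg _) h1 2
  have h6 : 0 < ‖Ψ‖ := norm_pos_iff.2 h0
  have h7 : 0 < ε ^ 2 * ‖Ψ‖ ^ 2 := by positivity
  nlinarith

/-! ### tensor products -/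

private noncomputable def s2tens (a b : L2 ℤ) : L2 (ℤ × ℤ) :=
  ⟨fun p => a p.1 * b p.2, by
    refine memℓp_gen ?_
    have h := (s2_summable a).mul_of_nonneg (s2_summable b) (fun i => sq_nonneg _)
      (fun i => sq_nonneg _)
    have h2 : (fun p : ℤ × ℤ => ‖a p.1 * b p.2‖ ^ (2 : ENNReal).toReal) =
        fun p : ℤ × ℤ => ‖a p.1‖ ^ 2 * ‖b p.2‖ ^ 2 := by
      funext p
      rw [norm_mul]
      simp [mul_pow]
    rw [h2]
    exact h⟩

private theorem s2tens_apply (a b : L2 ℤ) (m n : ℤ) :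
    (s2tens a b : ℤ × ℤ → ℂ) (m, n) = a m * b n := rfl

private theorem s2tens_norm (a b : L2 ℤ) : ‖s2tens a b‖ = ‖a‖ * ‖b‖ := by
  have h : ‖s2tens a b‖ ^ 2 = (‖a‖ * ‖b‖) ^ 2 := by
    rw [mul_pow, s2_norm_sq, s2_norm_sq a, s2_norm_sq b]
    have h1 : (fun p : ℤ × ℤ => ‖s2tens a b p‖ ^ 2) =
        fun p : ℤ × ℤ => ‖a p.1‖ ^ 2 * ‖b p.2‖ ^ 2 := by
      funext p
      show ‖a p.1 * b p.2‖ ^ 2 = _
      rw [norm_mul, mul_pow]
    rw [h1]
    symm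
    refine (s2_summable a).tsum_mul_tsum (s2_summable b) ?_
    exact (s2_summable a).mul_of_nonneg (s2_summable b) (fun i => sq_nonneg _)
      (fun i => sq_nonneg _)
  exact (pow_left_inj₀ (norm_nonneg _) (by positivity) two_ne_zero).1 h

theorem spec2_eq (lam : ℝ) :
    spec2 lam = {z : ℝ | ∃ x ∈ spec1 lam, ∃ y ∈ spec1 lam, z = x + y} := by
  ext E
  constructor
  · intro hE
    have hE' : (E : ℂ) ∈ spectrum ℂ (s2A lam + s2B lam) := by
      rw [← s2_H2]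
      exact hE
    obtain ⟨x, y, hx, hy, hxy⟩ := s2_add (s2A lam) (s2B lam) (s2A_sa lam) (s2B_sa lam)
      (s2_comm lam) E hE'
    refine ⟨x, ?_, y, ?_, hxy⟩
    · exact s2_part lam (s2A lam) (s2A_sa lam) (Equiv.prodComm ℤ ℤ) (fun Ψ n m => rfl) x hx
    · exact s2_part lam (s2B lam) (s2B_sa lam) (Equiv.refl _) (fun Ψ n m => rfl) y hy
  · rintro ⟨x, hx, y, hy, rfl⟩
    have hx' : (x : ℂ) ∈ spectrum ℂ (H1 lam) := hx
    have hy' : (y : ℂ) ∈ spectrum ℂ (H1 lam) := hy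
    rw [mem_spectrum_iff_weyl (H1 lam) (isSelfAdjoint_H1 lam)] at hx' hy'
    show ((x + y : ℝ) : ℂ) ∈ spectrum ℂ (H2 lam)
    rw [mem_spectrum_iff_weyl (H2 lam) (isSelfAdjoint_H2 lam)]
    intro ε hε
    obtain ⟨a, ha0, ha⟩ := hx' (ε / 2) (by positivity)
    obtain ⟨b, hb0, hb⟩ := hy' (ε / 2) (by positivity)
    have ha1 : 0 < ‖a‖ := norm_pos_iff.2 ha0
    have hb1 : 0 < ‖b‖ := norm_pos_iff.2 hb0
    refine ⟨s2tens a b, ?_, ?_⟩
    · rw [← norm_pos_iff, s2tens_norm]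
      positivity
    · have h1 : H2 lam (s2tens a b) - ((x + y : ℝ) : ℂ) • s2tens a b =
          s2tens (H1 lam a - (x : ℂ) • a) b + s2tens a (H1 lam b - (y : ℂ) • b) := by
        refine s2_ext fun m n => ?_
        have e1 : ((H2 lam (s2tens a b) - ((x + y : ℝ) : ℂ) • s2tens a b : L2 (ℤ × ℤ)) :
            ℤ × ℤ → ℂ) (m, n) = (H2 lam (s2tens a b) : ℤ × ℤ → ℂ) (m, n) -
            ((x + y : ℝ) : ℂ) * (s2tens a b : ℤ × ℤ → ℂ) (m, n) := rfl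
        have e2 : ((s2tens (H1 lam a - (x : ℂ) • a) b + s2tens a (H1 lam b - (y : ℂ) • b) :
            L2 (ℤ × ℤ)) : ℤ × ℤ → ℂ) (m, n) =
            ((H1 lam a : ℤ → ℂ) m - (x : ℂ) * a m) * b n +
              a m * ((H1 lam b : ℤ → ℂ) n - (y : ℂ) * b n) := rfl
        rw [e1, e2, H2_apply, H1_apply, H1_apply]
        simp only [s2tens_apply]
        push_cast
        ring
      rw [h1]
      refine (norm_add_le _ _).trans ?_
      rw [s2tens_norm, s2tens_norm, s2tens_norm]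
      have h2 := mul_le_mul_of_nonneg_right ha hb1.le
      have h3 := mul_le_mul_of_nonneg_left hb ha1.le
      nlinarith

end Pool.Agent.H98.Fib
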