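import Pool.Agent.H98.Fib.Bridge
import Pool.Agent.H98.Fib.Spec1
import Pool.Agent.H98.Fib.Spec2

/-!
# Assembly (problem MP_9069b3_mp): what remains is a statement about the trace map only
-/

namespace Pool.Agent.H98.Fib

theorem spec2_eq_sumSet (lam : ℝ) : spec2 lam = SumSet (Sig lam) := by
  rw [spec2_eq, spec1_eq_Sig]
  rfl

/-- `BadCoupling lam`: the hull tree of the lowest block of `Sig lam` has all the properties needed:
the gap inequalities at all scales `n ≥ n0`, the inequalities of the isolated component at the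
scale `n1` and the two full sums. -/
def BadCoupling (lam : ℝ) : Prop :=
  ∃ (T : HTree) (c0 : ℝ) (n0 n1 : ℕ), T.hr [] < c0 ∧
    T.K [] ⊆ Sig lam ∧ (∀ x ∈ Sig lam, x ∈ T.K [] ∨ c0 ≤ x) ∧
    (∀ n, n0 ≤ n → T.GapIneq (HTree.zr n) (T.nextc c0 n)) ∧
    T.GapIneq (HTree.zr n1) (T.nextc c0 n1) ∧ T.IsoIneq (HTree.zr n1) ∧
    T.Full (1 :: 2 :: HTree.zr n1) (2 :: 2 :: HTree.zr n1) ∧
    T.Full (0 :: 0 :: 2 :: 2 :: HTree.zr n1) (1 :: 0 :: 2 :: 2 :: HTree.zr n1)

/-- The negation of Q1 follows if all couplings of a small interval are bad. -/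
theorem not_trichotomy_of_badCoupling {a b : ℝ} (ha : 0 < a) (hab : a < b)
    (h : ∀ lam, a < lam → lam < b → BadCoupling lam) : ¬ Trichotomy :=
  not_trichotomy_of_trees ha hab spec2_eq_sumSet h

/-- The qualitative statement at a bad coupling: infinitely many gaps and an isolated component. -/
theorem BadCoupling.spec {lam : ℝ} (h : BadCoupling lam) :
    InfGaps (spec2 lam) ∧ OneIso (spec2 lam) := by
  obtain ⟨T, c0, n0, n1, hc, hK0, hK, hG, hG1, hI, f1, f2⟩ := h
  rw [spec2_eq_sumSet]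
  exact ⟨T.infGaps hc hK0 hK n0 hG, T.oneIso hc hK0 hK n1 hG1 hI f1 f2⟩

end Pool.Agent.H98.Fib
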