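import Pool.Agent.H98.Fib.Esc

/-!
# The region outside the root block (problem MP_9069b3_mp)

Interval arithmetic with integers (scale `10^12`) for the trace sequence `xs`.  For couplings `lam`
with `|lam - 1.394| ≤ 10^-9` there is no spectrum below `-1.3068` and none between `-1.1615` and
`-1.058`.
-/

namespace Pool.Agent.H98.Fib.Root

/-- scale -/
def S : ℤ := 1000000000000

/-- integer intervals -/
structure Iv where
  lo : ℤ
  hi : ℤ

/-- `x * 10^12` lies in the interval -/
def Mem (x : ℝ) (I : Iv) : Prop := (I.lo : ℝ) ≤ x * 1000000000000 ∧ x * 1000000000000 ≤ (I.hi : ℝ)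

def mul (I J : Iv) : Iv :=
  ⟨(min (min (I.lo * J.lo) (I.lo * J.hi)) (min (I.hi * J.lo) (I.hi * J.hi))) / S,
   (max (max (I.lo * J.lo) (I.lo * J.hi)) (max (I.hi * J.lo) (I.hi * J.hi))) / S + 1⟩

theorem mem_mul {x y : ℝ} {I J : Iv} (hx : Mem x I) (hy : Mem y J) : Mem (x * y) (mul I J) := by
  obtain ⟨hx1, hx2⟩ := hx
  obtain ⟨hy1, hy2⟩ := hy
  set X := x * 1000000000000 with hX
  set Y := y * 1000000000000 with hY
  have key : x * y * 1000000000000 = X * Y / 1000000000000 := by rw [hX, hY]; ring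
  have h1 : ((min (min (I.lo * J.lo) (I.lo * J.hi)) (min (I.hi * J.lo) (I.hi * J.hi)) : ℤ) : ℝ)
      ≤ X * Y := by
    push_cast
    rcases le_total 0 X with h | h
    · rcases le_total 0 (J.lo : ℝ) with g | g
      · have : (I.lo : ℝ) * J.lo ≤ X * Y := by
          rcases le_total 0 (I.lo : ℝ) with k | k
          · exact mul_le_mul hx1 hy1 g h
          · have a1 : (I.lo : ℝ) * J.lo ≤ 0 := mul_nonpos_of_nonpos_of_nonneg k g
            have a2 : 0 ≤ X * Y := mul_nonneg h (g.trans hy1)
            linarith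
        exact (min_le_left _ _).trans ((min_le_left _ _).trans this)
      · have : (I.hi : ℝ) * J.lo ≤ X * Y := by
          have a1 : X * (J.lo : ℝ) ≤ X * Y := mul_le_mul_of_nonneg_left hy1 h
          have a2 : (I.hi : ℝ) * J.lo ≤ X * J.lo := mul_le_mul_of_nonpos_right hx2 g
          linarith
        exact (min_le_right _ _).trans ((min_le_left _ _).trans this)
    · rcases le_total 0 (J.hi : ℝ) with g | g
      · have : (I.lo : ℝ) * J.hi ≤ X * Y := by
          have a1 : X * (J.hi : ℝ) ≤ X * Y := mul_le_mul_of_nonpos_left hy2 h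
          have a2 : (I.lo : ℝ) * J.hi ≤ X * J.hi := mul_le_mul_of_nonneg_right hx1 g
          linarith
        exact (min_le_left _ _).trans ((min_le_right _ _).trans this)
      · have : (I.hi : ℝ) * J.hi ≤ X * Y := by
          have a1 : X * (J.hi : ℝ) ≤ X * Y := mul_le_mul_of_nonpos_left hy2 h
          have a2 : (I.hi : ℝ) * J.hi ≤ X * J.hi := mul_le_mul_of_nonpos_right hx2 g
          linarith
        exact (min_le_right _ _).trans ((min_le_right _ _).trans this)
  have h2 : X * Y ≤ ((max (max (I.lo * J.lo) (I.lo * J.hi)) (max (I.hi * J.lo) (I.hi * J.hi)) : ℤ) : ℝ)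
      := by
    push_cast
    rcases le_total 0 X with h | h
    · rcases le_total 0 (J.hi : ℝ) with g | g
      · have : X * Y ≤ (I.hi : ℝ) * J.hi := by
          have a1 : X * Y ≤ X * (J.hi : ℝ) := mul_le_mul_of_nonneg_left hy2 h
          have a2 : X * J.hi ≤ (I.hi : ℝ) * J.hi := mul_le_mul_of_nonneg_right hx2 g
          linarith
        exact this.trans ((le_max_right _ _).trans (le_max_right _ _))
      · have : X * Y ≤ (I.lo : ℝ) * J.hi := by
          have a1 : X * Y ≤ X * (J.hi : ℝ) := mul_le_mul_of_nonneg_left hy2 h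
          have a2 : X * J.hi ≤ (I.lo : ℝ) * J.hi := mul_le_mul_of_nonpos_right hx1 g
          linarith
        exact this.trans ((le_max_right _ _).trans (le_max_left _ _))
    · rcases le_total 0 (J.lo : ℝ) with g | g
      · have : X * Y ≤ (I.hi : ℝ) * J.lo := by
          have a1 : X * Y ≤ X * (J.lo : ℝ) := mul_le_mul_of_nonpos_left hy1 h
          have a2 : X * J.lo ≤ (I.hi : ℝ) * J.lo := mul_le_mul_of_nonneg_right hx2 g
          linarith
        exact this.trans ((le_max_left _ _).trans (le_max_right _ _))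
      · have : X * Y ≤ (I.lo : ℝ) * J.lo := by
          have a1 : X * Y ≤ X * (J.lo : ℝ) := mul_le_mul_of_nonpos_left hy1 h
          have a2 : X * J.lo ≤ (I.lo : ℝ) * J.lo := mul_le_mul_of_nonpos_right hx1 g
          linarith
        exact this.trans ((le_max_left _ _).trans (le_max_left _ _))
  have hS : (0 : ℝ) < 1000000000000 := by norm_num
  constructor
  · show (((min (min (I.lo * J.lo) (I.lo * J.hi)) (min (I.hi * J.lo) (I.hi * J.hi))) / S : ℤ) : ℝ) ≤ _
    rw [key, le_div_iff₀ hS]
    refine le_trans ?_ h1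
    have := Int.ediv_mul_le (min (min (I.lo * J.lo) (I.lo * J.hi)) (min (I.hi * J.lo) (I.hi * J.hi)))
      (show S ≠ 0 by decide)
    have h3 : (((min (min (I.lo * J.lo) (I.lo * J.hi)) (min (I.hi * J.lo) (I.hi * J.hi))) / S * S : ℤ)
      : ℝ) ≤ ((min (min (I.lo * J.lo) (I.lo * J.hi)) (min (I.hi * J.lo) (I.hi * J.hi)) : ℤ) : ℝ) := by
      exact_mod_cast this
    rw [Int.cast_mul] at h3
    have e : ((S : ℤ) : ℝ) = 1000000000000 := by norm_num [S]
    rwa [e] at h3
  · show _ ≤ (((max (max (I.lo * J.lo) (I.lo * J.hi)) (max (I.hi * J.lo) (I.hi * J.hi))) / S + 1 : ℤ) : ℝ)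
    rw [key, div_le_iff₀ hS]
    refine le_trans h2 ?_
    have := Int.lt_ediv_add_one_mul_self
      (max (max (I.lo * J.lo) (I.lo * J.hi)) (max (I.hi * J.lo) (I.hi * J.hi)))
      (show (0 : ℤ) < S by decide)
    have h3 : ((max (max (I.lo * J.lo) (I.lo * J.hi)) (max (I.hi * J.lo) (I.hi * J.hi)) : ℤ) : ℝ) ≤
      (((max (max (I.lo * J.lo) (I.lo * J.hi)) (max (I.hi * J.lo) (I.hi * J.hi)) / S + 1) * S : ℤ)
      : ℝ) := by
      exact_mod_cast this.le
    rw [Int.cast_mul] at h3
    have e : ((S : ℤ) : ℝ) = 1000000000000 := by norm_num [S]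
    rwa [e] at h3

/-- `2 x y - z` -/
def stp (A B C : Iv) : Iv := ⟨2 * (mul B A).lo - C.hi, 2 * (mul B A).hi - C.lo⟩

theorem mem_stp {x y z : ℝ} {A B C : Iv} (hx : Mem x A) (hy : Mem y B) (hz : Mem z C) :
    Mem (2 * y * x - z) (stp A B C) := by
  have h := mem_mul hy hx
  obtain ⟨h1, h2⟩ := h
  obtain ⟨z1, z2⟩ := hz
  constructor
  · show ((2 * (mul B A).lo - C.hi : ℤ) : ℝ) ≤ _
    push_cast
    linarith
  · show _ ≤ ((2 * (mul B A).hi - C.lo : ℤ) : ℝ)
    push_cast
    linarith

/-- the intervals of `xs n, xs (n+1), xs (n+2)` -/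
def run (l E : Iv) : ℕ → Iv × Iv × Iv
  | 0 => (⟨1000000000000, 1000000000000⟩, ⟨E.lo / 2, E.hi / 2 + 1⟩,
      ⟨(E.lo - l.hi) / 2, (E.hi - l.lo) / 2 + 1⟩)
  | n + 1 => let r := run l E n; (r.2.1, r.2.2, stp r.2.1 r.2.2 r.1)

theorem half_mem (a b : ℤ) (x : ℝ) (h1 : (a : ℝ) ≤ x) (h2 : x ≤ (b : ℝ)) :
    ((a / 2 : ℤ) : ℝ) ≤ x / 2 ∧ x / 2 ≤ ((b / 2 + 1 : ℤ) : ℝ) := by
  have e1 : a / 2 * 2 ≤ a := Int.ediv_mul_le a (by norm_num)
  have e2 : b < (b / 2 + 1) * 2 := Int.lt_ediv_add_one_mul_self b (by norm_num)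
  have f1 : ((a / 2 : ℤ) : ℝ) * 2 ≤ a := by exact_mod_cast e1
  have f2 : (b : ℝ) < ((b / 2 + 1 : ℤ) : ℝ) * 2 := by exact_mod_cast e2
  constructor <;> linarith

theorem mem_run {lam E : ℝ} {l e : Iv} (hl : Mem lam l) (hE : Mem E e) (n : ℕ) :
    Mem (xs lam E n) (run l e n).1 ∧ Mem (xs lam E (n + 1)) (run l e n).2.1 ∧
      Mem (xs lam E (n + 2)) (run l e n).2.2 := by
  induction n with
  | zero =>
    obtain ⟨hl1, hl2⟩ := hl
    obtain ⟨hE1, hE2⟩ := hE
    refine ⟨?_, ?_, ?_⟩
    · have : xs lam E 0 = 1 := by simp [xs]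
      rw [this]
      constructor <;> simp [run]
    · have : xs lam E (0 + 1) = E / 2 := by simp [xs]
      rw [this]
      have := half_mem e.lo e.hi (E * 1000000000000) hE1 hE2
      constructor
      · show ((e.lo / 2 : ℤ) : ℝ) ≤ _
        linarith [this.1]
      · show _ ≤ ((e.hi / 2 + 1 : ℤ) : ℝ)
        linarith [this.2]
    · have : xs lam E (0 + 2) = (E - lam) / 2 := by simp [xs]
      rw [this]
      have := half_mem (e.lo - l.hi) (e.hi - l.lo) ((E - lam) * 1000000000000)
        (by push_cast; linarith) (by push_cast; linarith)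
      constructor
      · show (((e.lo - l.hi) / 2 : ℤ) : ℝ) ≤ _
        linarith [this.1]
      · show _ ≤ (((e.hi - l.lo) / 2 + 1 : ℤ) : ℝ)
        linarith [this.2]
  | succ n ih =>
    obtain ⟨h1, h2, h3⟩ := ih
    refine ⟨h2, h3, ?_⟩
    have := mem_stp h2 h3 h1
    have e : xs lam E (n + 1 + 2) = 2 * xs lam E (n + 2) * xs lam E (n + 1) - xs lam E n :=
      xs_rec lam E n
    rw [e]
    exact this

/-- all reals of the interval have absolute value `> 1` -/
def big (I : Iv) : Bool := decide (1000000000000 < I.lo) || decide (I.hi < -1000000000000)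

theorem big_spec {x : ℝ} {I : Iv} (hx : Mem x I) (h : big I = true) : 1 < |x| := by
  obtain ⟨h1, h2⟩ := hx
  simp only [big, Bool.or_eq_true, decide_eq_true_eq] at h
  rcases h with h | h
  · have : (1000000000000 : ℝ) < (I.lo : ℝ) := by exact_mod_cast h
    have : 1 < x := by nlinarith
    exact this.trans_le (le_abs_self x)
  · have : (I.hi : ℝ) < (-1000000000000 : ℝ) := by exact_mod_cast h
    have : 1 < -x := by nlinarith
    exact this.trans_le (neg_le_abs x)

/-- the coupling interval `|lam - 1.394| ≤ 10^-9` -/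
def lamI : Iv := ⟨1393999999000, 1394000001000⟩

def cell (n : ℕ) (a b : ℤ) : Bool :=
  big (run lamI ⟨a, b⟩ n).1 && big (run lamI ⟨a, b⟩ n).2.1

theorem cell_spec {lam E : ℝ} {n : ℕ} {a b : ℤ} (hl : Mem lam lamI) (hE : Mem E ⟨a, b⟩)
    (h : cell n a b = true) : E ∉ Sig lam := by
  simp only [cell, Bool.and_eq_true] at h
  have hr := mem_run hl hE n
  have h1 := big_spec hr.1 h.1
  have h2 := big_spec hr.2.1 h.2
  intro hS
  rcases hS n with h3 | h3 <;> linarith

def chk (n : ℕ) : ℤ → List ℤ → Bool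
  | _, [] => true
  | a, b :: t => cell n a b && chk n b t

theorem chk_spec {lam E : ℝ} {n : ℕ} (hl : Mem lam lamI) : ∀ (t : List ℤ) (a b : ℤ),
    chk n a (b :: t) = true → (a : ℝ) ≤ E * 1000000000000 →
    E * 1000000000000 ≤ (((b :: t).getLast (by simp) : ℤ) : ℝ) → E ∉ Sig lam := by
  intro t
  induction t with
  | nil =>
    intro a b h h1 h2
    simp only [chk, Bool.and_true] at h
    exact cell_spec hl ⟨h1, by simpa using h2⟩ h
  | cons c t ih =>
    intro a b h h1 h2
    have h' : cell n a b = true ∧ chk n b (c :: t) = true := by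
      simpa [chk] using h
    rcases le_total (E * 1000000000000) (b : ℝ) with h3 | h3
    · exact cell_spec hl ⟨h1, h3⟩ h'.1
    · exact ih b c h'.2 h3 (by simpa using h2)

theorem mem_lamI {lam : ℝ} (h : |lam - 1394 / 1000| ≤ 1 / 1000000000) : Mem lam lamI := by
  rw [abs_le] at h
  constructor
  · show ((1393999999000 : ℤ) : ℝ) ≤ _
    push_cast
    linarith [h.1]
  · show _ ≤ ((1394000001000 : ℤ) : ℝ)
    push_cast
    linarith [h.2]

theorem chkA : chk 4 (-2100000000000) [-1580334000000, -1407112000000, -1349371000000,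
    -1330124000000, -1323708000000, -1321570000000, -1320500000000] = true := by decide +kernel

theorem chkB : chk 6 (-1320500000000) [-1311367000000, -1308323000000, -1306800000000] = true := by
  decide +kernel

theorem chkC : chk 7 (-1161500000000) [-1158808000000, -1152909000000, -1140412000000,
    -1115994000000, -1090220000000, -1075900000000, -1067945000000, -1063525000000, -1061070000000,
    -1059024000000, -1058342000000, -1058000000000] = true := by decide +kernel

/-- no spectrum below `-1.3068` -/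
theorem no_Sig_left {lam E : ℝ} (hl : |lam - 1394 / 1000| ≤ 1 / 1000000000)
    (hE : E ≤ -13068 / 10000) : E ∉ Sig lam := by
  rcases le_total E (-21 / 10) with h | h
  · intro hS
    have hl' := abs_le.1 hl
    have e1 : xs lam E 1 = E / 2 := by simp [xs]
    have e2 : xs lam E 2 = (E - lam) / 2 := by simp [xs]
    rcases hS 1 with h3 | h3
    · rw [e1, abs_le] at h3
      linarith [h3.1]
    · rw [show (1 + 1 : ℕ) = 2 by norm_num, e2, abs_le] at h3
      linarith [h3.1, hl'.1]
  · rcases le_total E (-13205 / 10000) with h2 | h2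
    · exact chk_spec (mem_lamI hl) _ _ _ chkA (by push_cast; linarith)
        (by simp only [List.getLast_cons_cons, List.getLast_singleton]; push_cast; linarith)
    · exact chk_spec (mem_lamI hl) _ _ _ chkB (by push_cast; linarith)
        (by simp only [List.getLast_cons_cons, List.getLast_singleton]; push_cast; linarith)

/-- no spectrum between `-1.1615` and `-1.058` -/
theorem no_Sig_gap {lam E : ℝ} (hl : |lam - 1394 / 1000| ≤ 1 / 1000000000)
    (h1 : -11615 / 10000 ≤ E) (h2 : E ≤ -1058 / 1000) : E ∉ Sig lam :=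
  chk_spec (mem_lamI hl) _ _ _ chkC (by push_cast; linarith)
    (by simp only [List.getLast_cons_cons, List.getLast_singleton]; push_cast; linarith)

end Pool.Agent.H98.Fib.Root
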