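import Pool.Agent.H98.Fib.DFin
import Pool.Agent.H98.Fib.Root

/-!
# Assembly: what remains is the coverage (part (C)) (problem MP_9069b3_mp)
-/

namespace Pool.Agent.H98.Fib

open Pool.Agent.H20.Fib

section

variable {lam : ℝ} (hl : |lam - 1394 / 1000| ≤ 1 / 1000000000) (hk : KapOK lam D.kap)
  (hT : TabOK D.kap 37 D.cls D.dat) {l r : ℝ} (hR : RootOK lam 37 D.cls st0 l r)

include hl in
theorem cover_K (hl0 : l ≤ -(13068 / 10000)) (hr0 : -(11615 / 10000) ≤ r) :
    ∀ x ∈ Sig lam, x ∈ (mkTube hk hT hR).tree.K [] ∨ -1058 / 1000 ≤ x := by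
  intro x hx
  rcases le_or_gt x (-13068 / 10000) with h1 | h1
  · exact absurd hx (Root.no_Sig_left hl h1)
  rcases le_or_gt x r with h2 | h2
  · left
    rw [(mkTube hk hT hR).K_nil]
    refine ⟨hx, ?_, h2⟩
    show l ≤ x
    linarith
  · right
    by_contra hc
    push Not at hc
    exact Root.no_Sig_gap hl (by linarith) hc.le hx

theorem K_sub : (mkTube hk hT hR).tree.K [] ⊆ Sig lam := by
  rw [(mkTube hk hT hR).K_nil]
  exact fun _ h => h.1

theorem hr_lt (hr1 : r ≤ -(11599 / 10000)) : (mkTube hk hT hR).tree.hr [] < -1058 / 1000 := by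
  have h : (mkTube hk hT hR).hr [] ≤ r := (mkTube hk hT hR).hr_le_r []
  show (mkTube hk hT hR).hr [] < _
  linarith

end

/-- The two full sums. -/
def FullSums (T : HTree) : Prop := T.Full [1, 2] [2, 2] ∧ T.Full [0, 0, 2, 2] [1, 0, 2, 2]

/-- **Everything except the coverage.** -/
theorem badCoupling_of {lam : ℝ} (hl : |lam - 1394 / 1000| ≤ 1 / 1000000000)
    (hk : KapOK lam D.kap) (hT : TabOK D.kap 37 D.cls D.dat)
    (hF : ∀ (l r : ℝ) (hR : RootOK lam 37 D.cls st0 l r), FullSums (mkTube hk hT hR).tree) :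
    BadCoupling lam := by
  obtain ⟨l, r, hR, h1, h2, h3, h4⟩ := exists_root hl
  have h1' := h1
  have hlr : (mkTube hk hT hR).l [] = l := rfl
  obtain ⟨f1, f2⟩ := hF l r hR
  have hl0 : l ≤ -(13068 / 10000) := by linarith
  exact ⟨(mkTube hk hT hR).tree, -1058 / 1000, 9, 0, hr_lt hk hT hR (by linarith), K_sub hk hT hR,
    cover_K hl hk hT hR hl0 h3, fun n hn => DD.gap_ineq hk hT hR _ n hn,
    DD.gap_ineq_zero hl hk hT hR hl0 h3, DD.iso_ineq_zero hk hT hR, f1, f2⟩

end Pool.Agent.H98.Fib
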