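import Pool.Agent.H98.Fib.Assembly
import Pool.Agent.H98.Fib.Assembly2
import Pool.Agent.H20.Fib.Kap
import Pool.Agent.H20.Fib.D.TabC
import Pool.Agent.H68.FibC.Fin

/-!
# Assembly: the certificate of the coverage and the family of the words give bad couplings
(problem MP_9069b3_mp)
-/

namespace Pool.Agent.H98.Fib

open Pool.Agent.H20.Fib

/-- The context of the word `[2]`. -/
noncomputable def sctx1 : ℕ := (D.tab 0).nx 2

/-- The context of the word `[0, 2, 2]`. -/
noncomputable def sctx2 : ℕ := (D.tab ((D.tab ((D.tab 0).nx 2)).nx 2)).nx 0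

/-- The words of the tube data form a family over the table of the contexts. -/
def HasFam (lam : ℝ) : Prop :=
  ∀ (hk : KapOK lam D.kap) (hT : TabOK D.kap 37 D.cls D.dat) (l r : ℝ)
    (hR : RootOK lam 37 D.cls st0 l r), ∃ (μ : ℝ) (A B : List (Fin 3) → ℝ)
      (ctx : List (Fin 3) → ℕ) (x n : List (Fin 3) → ℝ),
      Fam D.tab 0 (mkTube hk hT hR).tree A B μ ctx x n

/-- **Bad coupling from the certificate and the family.** -/
theorem badCoupling_of_cert {ct : ℕ → Pool.Agent.H68.FibC.CtxD} {DD : ℕ → ℕ → ℕ} {pl ph : ℕ}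
    (C : Pool.Agent.H68.FibC.Cert D.tab 126 ct DD pl ph) {K1 K2 : ℕ} {l1 l2 : List ℕ}
    (h1 : l1 ≠ []) (h2 : l2 ≠ [])
    (s1 : Pool.Agent.H68.FibC.chkStart ct DD pl ph sctx1 K1 1 2 l1 = true)
    (s2 : Pool.Agent.H68.FibC.chkStart ct DD pl ph sctx2 K2 0 1 l2 = true)
    {lam : ℝ} (hl : |lam - 1394 / 1000| ≤ 1 / 1000000000) (hT : TabOK D.kap 37 D.cls D.dat)
    (hF : HasFam lam) : BadCoupling lam := by
  have hk : KapOK lam D.kap := D.kapOK (by norm_num at hl ⊢; exact hl)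
  refine badCoupling_of hl hk hT fun l r hR => ?_
  obtain ⟨μ, A, B, ctx, x, n, F⟩ := hF hk hT l r hR
  have e0 := F.root
  have e1 : ctx [2] = sctx1 := by rw [F.step, e0]; rfl
  have e2 : ctx [0, 2, 2] = sctx2 := by
    rw [F.step, F.step, e1]; rfl
  constructor
  · exact Pool.Agent.H68.FibC.full_of_fam C (by norm_num) F h1 (i := 1) (j := 2) (by norm_num)
      (by norm_num) [2] (by rw [e1]; exact s1)
  · exact Pool.Agent.H68.FibC.full_of_fam C (by norm_num) F h2 (i := 0) (j := 1) (by norm_num)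
      (by norm_num) [0, 2, 2] (by rw [e2]; exact s2)

/-- **The negation of Q1 from the certificate and the family.** -/
theorem not_trichotomy_of_cert {ct : ℕ → Pool.Agent.H68.FibC.CtxD} {DD : ℕ → ℕ → ℕ} {pl ph : ℕ}
    (C : Pool.Agent.H68.FibC.Cert D.tab 126 ct DD pl ph) {K1 K2 : ℕ} {l1 l2 : List ℕ}
    (h1 : l1 ≠ []) (h2 : l2 ≠ [])
    (s1 : Pool.Agent.H68.FibC.chkStart ct DD pl ph sctx1 K1 1 2 l1 = true)
    (s2 : Pool.Agent.H68.FibC.chkStart ct DD pl ph sctx2 K2 0 1 l2 = true)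
    (hT : TabOK D.kap 37 D.cls D.dat)
    (hF : ∀ lam : ℝ, |lam - 1394 / 1000| ≤ 1 / 1000000000 → HasFam lam) : ¬ Trichotomy :=
  not_trichotomy_of_badCoupling (a := 1394 / 1000 - 1 / 1000000000)
    (b := 1394 / 1000 + 1 / 1000000000) (by norm_num) (by norm_num) fun lam ha hb =>
      have hl : |lam - 1394 / 1000| ≤ 1 / 1000000000 := by rw [abs_le]; constructor <;> linarith
      badCoupling_of_cert C h1 h2 s1 s2 hl hT (hF lam hl)

end Pool.Agent.H98.Fib
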