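import Pool.Agent.H98.Fib.FinalS
import Pool.Agent.H20.Fib.D.All
import Pool.Agent.H20.Fib.D.EdAll
import Pool.Agent.H20.Fib.D.FamD

/-!
# Assembly: everything except the certificate of the coverage (problem MP_9069b3_mp)
-/

namespace Pool.Agent.H98.Fib

open Pool.Agent.H20.Fib

theorem hasFam {lam : ℝ} (hl : |lam - 1394 / 1000| ≤ 1 / 1000000000) : HasFam lam :=
  fun hk hT _ _ hR => by
    obtain ⟨μ, A, B, x, n, F⟩ := D.fam_data hl hk hT hR D.edgesOK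
    exact ⟨μ, A, B, _, x, n, F⟩

/-- **Everything except the certificate.** -/
theorem final_of_cert {ct : ℕ → Pool.Agent.H68.FibC.CtxD} {DD : ℕ → ℕ → ℕ} {pl ph : ℕ}
    (C : Pool.Agent.H68.FibC.Cert D.tab 126 ct DD pl ph) {K1 K2 : ℕ} {l1 l2 : List ℕ}
    (h1 : l1 ≠ []) (h2 : l2 ≠ [])
    (s1 : Pool.Agent.H68.FibC.chkStart ct DD pl ph sctx1 K1 1 2 l1 = true)
    (s2 : Pool.Agent.H68.FibC.chkStart ct DD pl ph sctx2 K2 0 1 l2 = true) :
    ¬ Trichotomy ∧ ∀ lam : ℝ, |lam - 1394 / 1000| ≤ 1 / 1000000000 →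
      ¬ IsFiniteUnionOfIntervals (spec2 lam) ∧ ¬ IsCantorval (spec2 lam) ∧
      ¬ IsCantorSet (spec2 lam) ∧ ∃ x ∈ spec2 lam, IsIsolatedComponent (spec2 lam) x ∧
        (interior (connectedComponentIn (spec2 lam) x)).Nonempty :=
  final_of_bad fun _ hl => badCoupling_of_cert C h1 h2 s1 s2 hl D.tabOK (hasFam hl)

end Pool.Agent.H98.Fib
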