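import Pool.Agent.H98.Fib.Final2
import Pool.Agent.H98.Fib.Tree

/-!
# From a hull tree to `IsoData` and `GapData` (problem MP_9069b3_mp)

`T : HTree` describes the lowest block of the set `K`: `T.K [] ⊆ K`, and every point of `K`
outside `T.K []` is at least `c0 > T.hr []`.  The chain blocks are `b n = 0^n`.
-/

namespace Pool.Agent.H98.Fib

namespace HTree

variable (T : HTree)

theorem wordAt_shift (s : ℕ → Fin 3) (w : List (Fin 3)) (n : ℕ) :
    wordAt (fun k => s (k + 1)) (s 0 :: w) n = wordAt s w (n + 1) := by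
  induction n with
  | zero => rfl
  | succ n ih =>
    show s (n + 1) :: wordAt (fun k => s (k + 1)) (s 0 :: w) n = s (n + 1) :: wordAt s w (n + 1)
    rw [ih]

theorem hl_le_cons (w : List (Fin 3)) (i : Fin 3) : T.hl w ≤ T.hl (i :: w) := by
  have h0 := T.hl0 w
  have g1 := T.gap1 w
  have g2 := T.gap2 w
  have l0 := T.hlt (0 :: w)
  have l1 := T.hlt (1 :: w)
  fin_cases i
  · exact h0.ge
  · show T.hl w ≤ T.hl (1 :: w)
    linarith
  · show T.hl w ≤ T.hl (2 :: w)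
    linarith

theorem hr_cons_le (w : List (Fin 3)) (i : Fin 3) : T.hr (i :: w) ≤ T.hr w := by
  have h0 := T.hr2 w
  have g1 := T.gap1 w
  have g2 := T.gap2 w
  have l2 := T.hlt (2 :: w)
  have l1 := T.hlt (1 :: w)
  fin_cases i
  · show T.hr (0 :: w) ≤ T.hr w
    linarith
  · show T.hr (1 :: w) ≤ T.hr w
    linarith
  · exact h0.le

theorem mem_hull {w : List (Fin 3)} {x : ℝ} (hx : x ∈ T.K w) : T.hl w ≤ x ∧ x ≤ T.hr w := by
  obtain ⟨s, hs⟩ := hx
  exact hs 0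

theorem K_cases {w : List (Fin 3)} {x : ℝ} (hx : x ∈ T.K w) :
    x ∈ T.K (0 :: w) ∨ x ∈ T.K (1 :: w) ∨ x ∈ T.K (2 :: w) := by
  obtain ⟨s, hs⟩ := hx
  have h : x ∈ T.K (s 0 :: w) := by
    refine ⟨fun k => s (k + 1), fun n => ?_⟩
    rw [wordAt_shift]
    exact hs (n + 1)
  have h3 : s 0 = 0 ∨ s 0 = 1 ∨ s 0 = 2 := by omega
  rcases h3 with e | e | e
  · left; rw [← e]; exact h
  · right; left; rw [← e]; exact h
  · right; right; rw [← e]; exact h

theorem K_cons_subset (w : List (Fin 3)) (i : Fin 3) : T.K (i :: w) ⊆ T.K w := by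
  rintro x ⟨s, hs⟩
  refine ⟨fun k => if k = 0 then i else s (k - 1), fun n => ?_⟩
  cases n with
  | zero =>
    have h := hs 0
    exact ⟨(T.hl_le_cons w i).trans h.1, h.2.trans (T.hr_cons_le w i)⟩
  | succ n =>
    have e := wordAt_shift (fun k => if k = 0 then i else s (k - 1)) w n
    have e2 : (fun k => (fun k => if k = 0 then i else s (k - 1)) (k + 1)) = s := by
      funext k; simp
    rw [e2] at e
    rw [← e]
    simpa using hs n

theorem hl_mem_K (w : List (Fin 3)) : T.hl w ∈ T.K w := by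
  refine ⟨fun _ => 0, fun n => ?_⟩
  have h : T.hl (wordAt (fun _ => 0) w n) = T.hl w := by
    induction n with
    | zero => rfl
    | succ n ih =>
      show T.hl (0 :: wordAt (fun _ => 0) w n) = T.hl w
      rw [T.hl0, ih]
  exact ⟨h.le, h.symm.le.trans (T.hlt _).le⟩

theorem hr_mem_K (w : List (Fin 3)) : T.hr w ∈ T.K w := by
  refine ⟨fun _ => 2, fun n => ?_⟩
  have h : T.hr (wordAt (fun _ => 2) w n) = T.hr w := by
    induction n with
    | zero => rfl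
    | succ n ih =>
      show T.hr (2 :: wordAt (fun _ => 2) w n) = T.hr w
      rw [T.hr2, ih]
  exact ⟨(T.hlt _).le.trans h.le, h.symm.le⟩

theorem K_append_subset (v w : List (Fin 3)) : T.K (v ++ w) ⊆ T.K w := by
  induction v with
  | nil => exact fun _ h => h
  | cons i v ih => exact (T.K_cons_subset (v ++ w) i).trans ih

/-- The chain block `0^n`. -/
def zr (n : ℕ) : List (Fin 3) := List.replicate n 0

theorem zr_succ (n : ℕ) : zr (n + 1) = 0 :: zr n := rfl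

theorem zr_zero : zr 0 = [] := rfl

theorem hl_zr (n : ℕ) : T.hl (zr n) = T.hl [] := by
  induction n with
  | zero => rfl
  | succ n ih => rw [zr_succ, T.hl0, ih]

theorem K_zr_subset (n : ℕ) : T.K (zr n) ⊆ T.K [] := by
  have h := T.K_append_subset (zr n) []
  rwa [List.append_nil] at h

/-- The left end of what follows the chain block `0^n`. -/
def nextc (c0 : ℝ) : ℕ → ℝ
  | 0 => c0
  | n + 1 => T.hl (1 :: zr n)

theorem hr_lt_nextc {c0 : ℝ} (hc : T.hr [] < c0) (n : ℕ) : T.hr (zr n) < T.nextc c0 n := by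
  cases n with
  | zero => exact hc
  | succ n => exact T.gap1 (zr n)

theorem nextc_succ_le {c0 : ℝ} (hc : T.hr [] < c0) (n : ℕ) :
    T.nextc c0 (n + 1) ≤ T.nextc c0 n := by
  have h := T.hr_lt_nextc hc n
  have h1 := T.hr_cons_le (zr n) 1
  have h2 := T.hlt (1 :: zr n)
  show T.hl (1 :: zr n) ≤ T.nextc c0 n
  linarith

theorem cover_chain {K : Set ℝ} {c0 : ℝ} (hc : T.hr [] < c0)
    (hK : ∀ x ∈ K, x ∈ T.K [] ∨ c0 ≤ x) (n : ℕ) {x : ℝ} (hx : x ∈ K) :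
    x ∈ T.K (zr n) ∨ T.nextc c0 n ≤ x := by
  induction n with
  | zero => exact hK x hx
  | succ n ih =>
    rcases ih with h | h
    · rcases T.K_cases h with h | h | h
      · left; exact h
      · right; exact (T.mem_hull h).1
      · right
        have h1 := (T.mem_hull h).1
        have h2 := T.gap2 (zr n)
        have h3 := T.hlt (1 :: zr n)
        show T.hl (1 :: zr n) ≤ x
        linarith
    · right; exact (T.nextc_succ_le hc n).trans h

/-- Position of a point of a block `b`. -/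
theorem cover_block (b : List (Fin 3)) {x : ℝ} (hx : x ∈ T.K b) :
    x ≤ T.hr (0 :: 2 :: b) ∨ (T.hl (1 :: 2 :: b) ≤ x ∧ x ≤ T.hr (1 :: 2 :: b)) ∨
      (T.hl (0 :: 0 :: 2 :: 2 :: b) ≤ x ∧ x ≤ T.hr (0 :: 0 :: 2 :: 2 :: b)) ∨
      (T.hl (1 :: 0 :: 2 :: 2 :: b) ≤ x ∧ x ≤ T.hr (1 :: 0 :: 2 :: 2 :: b)) ∨
      (T.hl (2 :: 0 :: 2 :: 2 :: b) ≤ x ∧ x ≤ T.hr b) := by
  have e1 := T.hl0 (2 :: b)
  have l1 := T.hlt (0 :: 2 :: b)
  have g1 := T.gap1 b
  have g2 := T.gap2 b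
  rcases T.K_cases hx with h | h | h
  · left
    have := T.mem_hull h
    have := T.hlt (1 :: b)
    linarith
  · left
    have := T.mem_hull h
    linarith
  · rcases T.K_cases h with h | h | h
    · left; exact (T.mem_hull h).2
    · right; left; exact T.mem_hull h
    · have hb := T.hr_cons_le b 2
      have hb2 := T.hr_cons_le (2 :: b) 2
      rcases T.K_cases h with h | h | h
      · rcases T.K_cases h with h | h | h
        · right; right; left; exact T.mem_hull h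
        · right; right; right; left; exact T.mem_hull h
        · right; right; right; right
          have h1 := T.mem_hull h
          have h2 := T.hr_cons_le (0 :: 2 :: 2 :: b) 2
          have h3 := T.hr_cons_le (2 :: 2 :: b) 0
          exact ⟨h1.1, by linarith⟩
      · right; right; right; right
        have h1 := T.mem_hull h
        have h2 := T.hlt (2 :: 0 :: 2 :: 2 :: b)
        have h3 := T.hr2 (0 :: 2 :: 2 :: b)
        have h4 := T.gap1 (2 :: 2 :: b)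
        have h5 := T.hr_cons_le (2 :: 2 :: b) 1
        exact ⟨by linarith, by linarith⟩
      · right; right; right; right
        have h1 := T.mem_hull h
        have h2 := T.hlt (2 :: 0 :: 2 :: 2 :: b)
        have h3 := T.hr2 (0 :: 2 :: 2 :: b)
        have h4 := T.gap1 (2 :: 2 :: b)
        have h5 := T.hlt (1 :: 2 :: 2 :: b)
        have h6 := T.gap2 (2 :: 2 :: b)
        have h7 := T.hr_cons_le (2 :: 2 :: b) 2
        exact ⟨by linarith, by linarith⟩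

/-- The inequalities (G) of the gap at the block `b`; `c` is the left end of what follows. -/
structure GapIneq (b : List (Fin 3)) (c : ℝ) : Prop where
  h3 : T.hr (1 :: 2 :: b) + T.hr b ≤ T.hr (0 :: 0 :: 2 :: 2 :: b) + T.hr (1 :: 0 :: 2 :: 2 :: b)
  h4 : T.hr (0 :: 0 :: 2 :: 2 :: b) + T.hr (1 :: 0 :: 2 :: 2 :: b) <
    T.hl (1 :: 0 :: 2 :: 2 :: b) + T.hl (1 :: 0 :: 2 :: 2 :: b)
  h5 : T.hr (0 :: 0 :: 2 :: 2 :: b) + T.hr (1 :: 0 :: 2 :: 2 :: b) <
    T.hl (0 :: 0 :: 2 :: 2 :: b) + T.hl (2 :: 0 :: 2 :: 2 :: b)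
  h6 : T.hr (0 :: 0 :: 2 :: 2 :: b) + T.hr (1 :: 0 :: 2 :: 2 :: b) < T.hl b + c

/-- The additional inequalities (I) of the isolated component at the block `b`. -/
structure IsoIneq (b : List (Fin 3)) : Prop where
  h1 : T.hr (0 :: 2 :: b) + T.hr b < T.hl (1 :: 2 :: b) + T.hl (0 :: 0 :: 2 :: 2 :: b)
  h2 : T.hr (1 :: 2 :: b) + T.hr (1 :: 2 :: b) <
    T.hl (1 :: 2 :: b) + T.hl (0 :: 0 :: 2 :: 2 :: b)
  h7 : T.hl (0 :: 0 :: 2 :: 2 :: b) + T.hl (1 :: 0 :: 2 :: 2 :: b) ≤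
    T.hr (1 :: 2 :: b) + T.hr b

theorem order_chain (b : List (Fin 3)) :
    T.hr (0 :: 2 :: b) < T.hl (1 :: 2 :: b) ∧ T.hl (1 :: 2 :: b) < T.hr (1 :: 2 :: b) ∧
    T.hr (1 :: 2 :: b) < T.hl (0 :: 0 :: 2 :: 2 :: b) ∧
    T.hl (0 :: 0 :: 2 :: 2 :: b) < T.hr (0 :: 0 :: 2 :: 2 :: b) ∧
    T.hr (0 :: 0 :: 2 :: 2 :: b) < T.hl (1 :: 0 :: 2 :: 2 :: b) ∧
    T.hl (1 :: 0 :: 2 :: 2 :: b) < T.hr (1 :: 0 :: 2 :: 2 :: b) ∧
    T.hr (1 :: 0 :: 2 :: 2 :: b) < T.hl (2 :: 0 :: 2 :: 2 :: b) ∧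
    T.hl (2 :: 0 :: 2 :: 2 :: b) < T.hr b := by
  refine ⟨T.gap1 _, T.hlt _, ?_, T.hlt _, T.gap1 _, T.hlt _, T.gap2 _, ?_⟩
  · rw [T.hl0 (0 :: 2 :: 2 :: b), T.hl0 (2 :: 2 :: b)]
    exact T.gap2 _
  · have h1 := T.hlt (2 :: 0 :: 2 :: 2 :: b)
    have h2 := T.hr_cons_le (0 :: 2 :: 2 :: b) 2
    have h3 := T.hr_cons_le (2 :: 2 :: b) 0
    have h4 := T.hr_cons_le (2 :: b) 2
    have h5 := T.hr_cons_le b 2
    linarith

theorem gapData {K : Set ℝ} {c0 : ℝ} (hc : T.hr [] < c0) (hK0 : T.K [] ⊆ K)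
    (hK : ∀ x ∈ K, x ∈ T.K [] ∨ c0 ≤ x) (n : ℕ) (h : T.GapIneq (zr n) (T.nextc c0 n)) :
    GapData K (T.hl []) (T.hr (1 :: 2 :: zr n)) (T.hl (0 :: 0 :: 2 :: 2 :: zr n))
      (T.hr (0 :: 0 :: 2 :: 2 :: zr n)) (T.hl (1 :: 0 :: 2 :: 2 :: zr n))
      (T.hr (1 :: 0 :: 2 :: 2 :: zr n)) (T.hl (2 :: 0 :: 2 :: 2 :: zr n)) (T.hr (zr n))
      (T.nextc c0 n) := by
  obtain ⟨o1, o2, o3, o4, o5, o6, o7, o8⟩ := T.order_chain (zr n)
  have hsub : ∀ v : List (Fin 3), T.K (v ++ zr n) ⊆ K := fun v =>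
    (T.K_append_subset v (zr n)).trans ((T.K_zr_subset n).trans hK0)
  refine ⟨?_, ?_, ?_, ?_, o3, o4, o5, o6, o7, o8, T.hr_lt_nextc hc n, h.h3, h.h4, h.h5, ?_⟩
  · intro x hx
    rcases hK x hx with h1 | h1
    · exact (T.mem_hull h1).1
    · have := T.hlt []
      linarith
  · intro x hx
    rcases T.cover_chain hc hK n hx with h1 | h1
    · rcases T.cover_block (zr n) h1 with h2 | h2 | h2 | h2 | h2
      · left; linarith
      · left; exact h2.2
      · right; left; exact h2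
      · right; right; left; exact h2
      · right; right; right; left; exact h2
    · right; right; right; right; exact h1
  · exact hsub [0, 0, 2, 2] (T.hr_mem_K _)
  · exact hsub [1, 0, 2, 2] (T.hr_mem_K _)
  · rw [← T.hl_zr n]; exact h.h6

theorem isoData {K : Set ℝ} {c0 : ℝ} (hc : T.hr [] < c0) (hK0 : T.K [] ⊆ K)
    (hK : ∀ x ∈ K, x ∈ T.K [] ∨ c0 ≤ x) (n : ℕ) (h : T.GapIneq (zr n) (T.nextc c0 n))
    (hi : T.IsoIneq (zr n)) (f1 : T.Full (1 :: 2 :: zr n) (2 :: 2 :: zr n))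
    (f2 : T.Full (0 :: 0 :: 2 :: 2 :: zr n) (1 :: 0 :: 2 :: 2 :: zr n)) :
    IsoData K (T.hl []) (T.hr (0 :: 2 :: zr n)) (T.hl (1 :: 2 :: zr n)) (T.hr (1 :: 2 :: zr n))
      (T.hl (0 :: 0 :: 2 :: 2 :: zr n))
      (T.hr (0 :: 0 :: 2 :: 2 :: zr n)) (T.hl (1 :: 0 :: 2 :: 2 :: zr n))
      (T.hr (1 :: 0 :: 2 :: 2 :: zr n)) (T.hl (2 :: 0 :: 2 :: 2 :: zr n)) (T.hr (zr n))
      (T.nextc c0 n) := by
  obtain ⟨o1, o2, o3, o4, o5, o6, o7, o8⟩ := T.order_chain (zr n)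
  have hG := T.gapData hc hK0 hK n h
  have hsub : ∀ v : List (Fin 3), T.K (v ++ zr n) ⊆ K := fun v =>
    (T.K_append_subset v (zr n)).trans ((T.K_zr_subset n).trans hK0)
  refine ⟨hG.lower, ?_, o1, o2, o3, o4, o5, o6, o7, o8, T.hr_lt_nextc hc n, hi.h1, hi.h2, h.h3,
    h.h4, h.h5, hG.h6, hi.h7, ?_, ?_⟩
  · intro x hx
    rcases T.cover_chain hc hK n hx with h1 | h1
    · rcases T.cover_block (zr n) h1 with h2 | h2 | h2 | h2 | h2
      · left; exact h2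
      · right; left; exact h2
      · right; right; left; exact h2
      · right; right; right; left; exact h2
      · right; right; right; right; left; exact h2
    · right; right; right; right; right; exact h1
  · intro t ht
    have e1 : T.hl (0 :: 0 :: 2 :: 2 :: zr n) = T.hl (2 :: 2 :: zr n) := by
      rw [T.hl0, T.hl0]
    have e2 : T.hr (zr n) = T.hr (2 :: 2 :: zr n) := by rw [T.hr2, T.hr2]
    obtain ⟨x, hx, y, hy, rfl⟩ := f1 t (by rw [← e1]; exact ht.1) (by rw [← e2]; exact ht.2)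
    exact ⟨x, hsub [1, 2] hx, y, hsub [2, 2] hy, rfl⟩
  · intro t ht
    obtain ⟨x, hx, y, hy, rfl⟩ := f2 t ht.1 ht.2
    exact ⟨x, hsub [0, 0, 2, 2] hx, y, hsub [1, 0, 2, 2] hy, rfl⟩

/-- Infinitely many gaps from the inequalities at all scales `n ≥ n0`. -/
theorem infGaps {K : Set ℝ} {c0 : ℝ} (hc : T.hr [] < c0) (hK0 : T.K [] ⊆ K)
    (hK : ∀ x ∈ K, x ∈ T.K [] ∨ c0 ≤ x) (n0 : ℕ)
    (h : ∀ n, n0 ≤ n → T.GapIneq (zr n) (T.nextc c0 n)) : InfGaps (SumSet K) := by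
  refine infGaps_of_gapData (e := T.hl []) (b2 := fun n => T.hr (1 :: 2 :: zr (n0 + n)))
    (a3 := fun n => T.hl (0 :: 0 :: 2 :: 2 :: zr (n0 + n)))
    (b3 := fun n => T.hr (0 :: 0 :: 2 :: 2 :: zr (n0 + n)))
    (a4 := fun n => T.hl (1 :: 0 :: 2 :: 2 :: zr (n0 + n)))
    (b4 := fun n => T.hr (1 :: 0 :: 2 :: 2 :: zr (n0 + n)))
    (a5 := fun n => T.hl (2 :: 0 :: 2 :: 2 :: zr (n0 + n)))
    (b6 := fun n => T.hr (zr (n0 + n))) (c := fun n => T.nextc c0 (n0 + n))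
    (fun n => T.gapData hc hK0 hK (n0 + n) (h (n0 + n) (by omega))) ?_
  intro n
  have e : zr (n0 + (n + 1)) = 0 :: zr (n0 + n) := rfl
  show T.hr (zr (n0 + (n + 1))) ≤ T.hr (1 :: 2 :: zr (n0 + n))
  rw [e]
  have h1 := T.gap1 (zr (n0 + n))
  have h2 := T.hlt (1 :: zr (n0 + n))
  have h3 := T.gap2 (zr (n0 + n))
  have h4 := T.hl_le_cons (2 :: zr (n0 + n)) 1
  have h5 := T.hlt (1 :: 2 :: zr (n0 + n))
  linarith

/-- One isolated component from the inequalities at one scale. -/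
theorem oneIso {K : Set ℝ} {c0 : ℝ} (hc : T.hr [] < c0) (hK0 : T.K [] ⊆ K)
    (hK : ∀ x ∈ K, x ∈ T.K [] ∨ c0 ≤ x) (n : ℕ) (h : T.GapIneq (zr n) (T.nextc c0 n))
    (hi : T.IsoIneq (zr n)) (f1 : T.Full (1 :: 2 :: zr n) (2 :: 2 :: zr n))
    (f2 : T.Full (0 :: 0 :: 2 :: 2 :: zr n) (1 :: 0 :: 2 :: 2 :: zr n)) : OneIso (SumSet K) :=
  (T.isoData hc hK0 hK n h hi f1 f2).oneIso

end HTree

/-- The assembly: what has to be shown for every coupling of a small interval. -/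
theorem not_trichotomy_of_trees {a b : ℝ} (ha : 0 < a) (hab : a < b)
    (hspec : ∀ lam, spec2 lam = SumSet (Sig lam))
    (h : ∀ lam, a < lam → lam < b → ∃ (T : HTree) (c0 : ℝ) (n0 n1 : ℕ), T.hr [] < c0 ∧
      T.K [] ⊆ Sig lam ∧ (∀ x ∈ Sig lam, x ∈ T.K [] ∨ c0 ≤ x) ∧
      (∀ n, n0 ≤ n → T.GapIneq (HTree.zr n) (T.nextc c0 n)) ∧
      T.GapIneq (HTree.zr n1) (T.nextc c0 n1) ∧ T.IsoIneq (HTree.zr n1) ∧
      T.Full (1 :: 2 :: HTree.zr n1) (2 :: 2 :: HTree.zr n1) ∧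
      T.Full (0 :: 0 :: 2 :: 2 :: HTree.zr n1) (1 :: 0 :: 2 :: 2 :: HTree.zr n1)) :
    ¬ Trichotomy := by
  refine not_trichotomy_of_bad_interval ha hab ?_ ?_
  · intro lam h1 h2
    obtain ⟨T, c0, n0, n1, hc, hK0, hK, hG, -, -, -, -⟩ := h lam h1 h2
    rw [hspec]
    exact T.infGaps hc hK0 hK n0 hG
  · intro lam h1 h2
    obtain ⟨T, c0, n0, n1, hc, hK0, hK, -, hG, hI, f1, f2⟩ := h lam h1 h2
    rw [hspec]
    exact T.oneIso hc hK0 hK n1 hG hI f1 f2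

end Pool.Agent.H98.Fib
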