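import Pool.Agent.H98.Fib.Iso

/-!
# Coverage principle (problem MP_9069b3_mp), abstract form

`B` is a type of blocks with hulls `[lo b, hi b]`, each hull contains a point of the compact set
`K`.  If every point `t` of the hull sum of a pair of blocks having the property `P` lies again in
the hull sum of a smaller pair with the property `P` then `t ∈ K + K`.
-/

namespace Pool.Agent.H98.Fib

open scoped Pointwise

theorem isClosed_sumSet {K : Set ℝ} (hK : IsCompact K) : IsClosed (SumSet K) := by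
  have h : SumSet K = K + K := by
    ext z
    constructor
    · rintro ⟨x, hx, y, hy, rfl⟩
      exact Set.add_mem_add hx hy
    · rintro ⟨x, hx, y, hy, rfl⟩
      exact ⟨x, hx, y, hy, rfl⟩
  rw [h]
  exact (hK.add hK).isClosed

/-- The greatest fixpoint principle. -/
theorem cov_of_step {K : Set ℝ} (hK : IsCompact K) {B : Type*} {lo hi : B → ℝ}
    (hne : ∀ b, ∃ x ∈ K, lo b ≤ x ∧ x ≤ hi b) {θ : ℝ} (hθ0 : 0 ≤ θ) (hθ : θ < 1)
    (P : B → B → ℝ → Prop)
    (hP : ∀ I J t, P I J t → lo I + lo J ≤ t ∧ t ≤ hi I + hi J)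
    (step : ∀ I J t, P I J t → ∃ I' J', P I' J' t ∧
      (hi I' - lo I') + (hi J' - lo J') ≤ θ * ((hi I - lo I) + (hi J - lo J))) :
    ∀ I J t, P I J t → t ∈ SumSet K := by
  -- iterate
  have iter : ∀ n : ℕ, ∀ I J t, P I J t → ∃ I' J', P I' J' t ∧
      (hi I' - lo I') + (hi J' - lo J') ≤ θ ^ n * ((hi I - lo I) + (hi J - lo J)) := by
    intro n
    induction n with
    | zero => intro I J t h; exact ⟨I, J, h, by simp⟩
    | succ n ih =>
      intro I J t h
      obtain ⟨I1, J1, h1, hw1⟩ := ih I J t h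
      obtain ⟨I2, J2, h2, hw2⟩ := step I1 J1 t h1
      refine ⟨I2, J2, h2, hw2.trans ?_⟩
      rw [pow_succ, mul_comm (θ ^ n) θ, mul_assoc]
      exact mul_le_mul_of_nonneg_left hw1 hθ0
  intro I J t h
  rw [← (isClosed_sumSet hK).closure_eq, Metric.mem_closure_iff]
  intro ε hε
  have hlim : Filter.Tendsto (fun n : ℕ => θ ^ n * ((hi I - lo I) + (hi J - lo J)))
      Filter.atTop (nhds (0 * ((hi I - lo I) + (hi J - lo J)))) :=
    (tendsto_pow_atTop_nhds_zero_of_lt_one hθ0 hθ).mul_const _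
  rw [zero_mul] at hlim
  obtain ⟨n, hn⟩ := ((tendsto_order.1 hlim).2 ε hε).exists
  obtain ⟨I', J', h', hw⟩ := iter n I J t h
  obtain ⟨x, hx, hx1, hx2⟩ := hne I'
  obtain ⟨y, hy, hy1, hy2⟩ := hne J'
  obtain ⟨ht1, ht2⟩ := hP _ _ _ h'
  refine ⟨x + y, ⟨x, hx, y, hy, rfl⟩, ?_⟩
  rw [Real.dist_eq, abs_lt]
  constructor <;> linarith

end Pool.Agent.H98.Fib
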