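import Pool.Agent.H98.Fib.Bridge
import Pool.Agent.H98.Fib.Cov

/-!
# The coverage principle on hull trees (problem MP_9069b3_mp), format independent

`T.K u` is compact; a property `P u w t` of pairs of words and points which is inherited by smaller
and smaller pairs of descendants implies `t ∈ T.K u + T.K w`.
-/

namespace Pool.Agent.H98.Fib

open scoped Pointwise

theorem wordAt_congr {s s' : ℕ → Fin 3} (w : List (Fin 3)) (n : ℕ)
    (h : ∀ k, k < n → s k = s' k) : wordAt s w n = wordAt s' w n := by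
  induction n with
  | zero => rfl
  | succ n ih =>
    show s n :: wordAt s w n = s' n :: wordAt s' w n
    rw [h n (Nat.lt_succ_self n), ih (fun k hk => h k (hk.trans (Nat.lt_succ_self n)))]

/-- Any function of `wordAt s w n` is continuous in `s`. -/
theorem continuous_wordAt (f : List (Fin 3) → ℝ) (w : List (Fin 3)) (n : ℕ) :
    Continuous fun s : ℕ → Fin 3 => f (wordAt s w n) := by
  have h : (fun s : ℕ → Fin 3 => f (wordAt s w n)) =
      (fun r : Fin n → Fin 3 => f (wordAt (fun k => if hk : k < n then r ⟨k, hk⟩ else 0) w n)) ∘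
        (fun (s : ℕ → Fin 3) (i : Fin n) => s i) := by
    funext s
    show f (wordAt s w n) = f (wordAt _ w n)
    congr 1
    refine wordAt_congr w n (fun k hk => ?_)
    simp [hk]
  rw [h]
  refine Continuous.comp continuous_of_discreteTopology ?_
  exact continuous_pi fun i => continuous_apply _

namespace HTree

variable (T : HTree)

theorem isCompact_K (w : List (Fin 3)) : IsCompact (T.K w) := by
  let C : Set (ℝ × (ℕ → Fin 3)) :=
    {p | ∀ n, T.hl (wordAt p.2 w n) ≤ p.1 ∧ p.1 ≤ T.hr (wordAt p.2 w n)}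
  have hC : IsClosed C := by
    have e : C = ⋂ n, ({p : ℝ × (ℕ → Fin 3) | T.hl (wordAt p.2 w n) ≤ p.1} ∩
        {p | p.1 ≤ T.hr (wordAt p.2 w n)}) := by
      ext p
      simp only [C, Set.mem_ofPred_eq, Set.mem_iInter, Set.mem_inter_iff]
    rw [e]
    refine isClosed_iInter fun n => IsClosed.inter ?_ ?_
    · exact isClosed_le ((continuous_wordAt T.hl w n).comp continuous_snd) continuous_fst
    · exact isClosed_le continuous_fst ((continuous_wordAt T.hr w n).comp continuous_snd)
  have hsub : C ⊆ Set.Icc (T.hl w) (T.hr w) ×ˢ (Set.univ : Set (ℕ → Fin 3)) := by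
    rintro ⟨x, s⟩ h
    exact ⟨h 0, trivial⟩
  have hCc : IsCompact C := (isCompact_Icc.prod isCompact_univ).of_isClosed_subset hC hsub
  have e : T.K w = Prod.fst '' C := by
    ext x
    constructor
    · rintro ⟨s, hs⟩
      exact ⟨(x, s), hs, rfl⟩
    · rintro ⟨⟨y, s⟩, hs, rfl⟩
      exact ⟨s, hs⟩
  rw [e]
  exact hCc.image continuous_fst

theorem len_pos (w : List (Fin 3)) : 0 < T.len w := by
  have := T.hlt w
  unfold len
  linarith

theorem len_append_le {θ : ℝ} (hθ0 : 0 ≤ θ) (h : ∀ w i, T.len (i :: w) ≤ θ * T.len w)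
    (v w : List (Fin 3)) : T.len (v ++ w) ≤ θ ^ v.length * T.len w := by
  induction v with
  | nil => simp
  | cons i v ih =>
    have h1 := h (v ++ w) i
    have h2 := mul_le_mul_of_nonneg_left ih hθ0
    calc T.len (i :: (v ++ w)) ≤ θ * T.len (v ++ w) := h1
      _ ≤ θ * (θ ^ v.length * T.len w) := h2
      _ = θ ^ (i :: v).length * T.len w := by rw [List.length_cons, pow_succ]; ring

theorem len_cons_le_self (w : List (Fin 3)) (i : Fin 3) : T.len (i :: w) ≤ T.len w := by
  have h1 := T.hl_le_cons w i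
  have h2 := T.hr_cons_le w i
  unfold len
  linarith

theorem len_append_le_self (v w : List (Fin 3)) : T.len (v ++ w) ≤ T.len w := by
  induction v with
  | nil => simp
  | cons i v ih => exact (T.len_cons_le_self (v ++ w) i).trans ih

/-- Greatest fixpoint principle for pairs of words. -/
theorem cov_of_step {θ : ℝ} (hθ0 : 0 ≤ θ) (hθ : θ < 1)
    (P : List (Fin 3) → List (Fin 3) → ℝ → Prop)
    (hP : ∀ u w t, P u w t → T.hl u + T.hl w ≤ t ∧ t ≤ T.hr u + T.hr w)
    (step : ∀ u w t, P u w t → ∃ v v', P (v ++ u) (v' ++ w) t ∧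
      T.len (v ++ u) + T.len (v' ++ w) ≤ θ * (T.len u + T.len w))
    (u w : List (Fin 3)) (t : ℝ) (h : P u w t) : ∃ x ∈ T.K u, ∃ y ∈ T.K w, t = x + y := by
  have iter : ∀ n : ℕ, ∃ v v', P (v ++ u) (v' ++ w) t ∧
      T.len (v ++ u) + T.len (v' ++ w) ≤ θ ^ n * (T.len u + T.len w) := by
    intro n
    induction n with
    | zero => exact ⟨[], [], h, by simp⟩
    | succ n ih =>
      obtain ⟨v, v', h1, hw1⟩ := ih
      obtain ⟨v1, v1', h2, hw2⟩ := step _ _ t h1
      refine ⟨v1 ++ v, v1' ++ v', by rwa [List.append_assoc, List.append_assoc], ?_⟩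
      rw [List.append_assoc, List.append_assoc, pow_succ, mul_comm (θ ^ n) θ, mul_assoc]
      exact hw2.trans (mul_le_mul_of_nonneg_left hw1 hθ0)
  have hcl : IsClosed (T.K u + T.K w) := ((T.isCompact_K u).add (T.isCompact_K w)).isClosed
  have hmem : t ∈ T.K u + T.K w := by
    rw [← hcl.closure_eq, Metric.mem_closure_iff]
    intro ε hε
    have hlim : Filter.Tendsto (fun n : ℕ => θ ^ n * (T.len u + T.len w))
        Filter.atTop (nhds (0 * (T.len u + T.len w))) :=
      (tendsto_pow_atTop_nhds_zero_of_lt_one hθ0 hθ).mul_const _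
    rw [zero_mul] at hlim
    obtain ⟨n, hn⟩ := ((tendsto_order.1 hlim).2 ε hε).exists
    obtain ⟨v, v', h', hw⟩ := iter n
    obtain ⟨ht1, ht2⟩ := hP _ _ _ h'
    refine ⟨T.hl (v ++ u) + T.hl (v' ++ w),
      Set.add_mem_add (T.K_append_subset v u (T.hl_mem_K _))
        (T.K_append_subset v' w (T.hl_mem_K _)), ?_⟩
    unfold len at hw hn
    rw [Real.dist_eq, abs_lt]
    constructor <;> linarith
  obtain ⟨x, hx, y, hy, hxy⟩ := hmem
  exact ⟨x, hx, y, hy, hxy.symm⟩

/-- The same with bounded ratios: at each step at least one of the two words is refined. -/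
theorem cov_of_step' {θ R : ℝ} (hθ0 : 0 ≤ θ) (hθ : θ < 1) (hR : 0 ≤ R)
    (hlen : ∀ w i, T.len (i :: w) ≤ θ * T.len w)
    (P : List (Fin 3) → List (Fin 3) → ℝ → Prop)
    (hP : ∀ u w t, P u w t → T.hl u + T.hl w ≤ t ∧ t ≤ T.hr u + T.hr w)
    (hPR : ∀ u w t, P u w t → T.len w ≤ R * T.len u ∧ T.len u ≤ R * T.len w)
    (step : ∀ u w t, P u w t → ∃ v v', (v ≠ [] ∨ v' ≠ []) ∧ P (v ++ u) (v' ++ w) t)
    (u w : List (Fin 3)) (t : ℝ) (h : P u w t) : ∃ x ∈ T.K u, ∃ y ∈ T.K w, t = x + y := by
  have hR1 : 0 < 1 + R := by linarith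
  set η : ℝ := 1 - (1 - θ) / (1 + R) with hη
  have hq : 0 ≤ (1 - θ) / (1 + R) := div_nonneg (by linarith) hR1.le
  have hq1 : (1 - θ) / (1 + R) ≤ 1 := by
    rw [div_le_one hR1]; linarith
  have hq2 : 0 < (1 - θ) / (1 + R) := div_pos (by linarith) hR1
  have key : ∀ A B A' B' : ℝ, 0 < A → 0 < B → B ≤ R * A → A' ≤ θ * A → B' ≤ B →
      A' + B' ≤ η * (A + B) := by
    intro A B A' B' hA hB hBR hA' hB'
    have h1 : (1 - θ) / (1 + R) * (A + B) ≤ (1 - θ) * A := by
      rw [div_mul_eq_mul_div, div_le_iff₀ hR1, mul_assoc]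
      exact mul_le_mul_of_nonneg_left (by linarith) (by linarith)
    have h2 : η * (A + B) = (A + B) - (1 - θ) / (1 + R) * (A + B) := by rw [hη]; ring
    rw [h2]
    nlinarith
  have hpow : ∀ v : List (Fin 3), v ≠ [] → ∀ w, T.len (v ++ w) ≤ θ * T.len w := by
    intro v hv w
    obtain ⟨i, v', rfl⟩ := List.exists_cons_of_ne_nil hv
    have h1 := T.len_append_le hθ0 hlen (i :: v') w
    have h2 : θ ^ (i :: v').length ≤ θ := by
      rw [List.length_cons]
      calc θ ^ (v'.length + 1) ≤ θ ^ 1 := pow_le_pow_of_le_one hθ0 hθ.le (by omega)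
        _ = θ := pow_one θ
    exact h1.trans (mul_le_mul_of_nonneg_right h2 (T.len_pos w).le)
  refine T.cov_of_step (θ := η) (by rw [hη]; linarith) (by rw [hη]; linarith) P hP ?_ u w t h
  intro u w t h
  obtain ⟨v, v', hne, h'⟩ := step u w t h
  obtain ⟨r1, r2⟩ := hPR u w t h
  refine ⟨v, v', h', ?_⟩
  rcases hne with hv | hv
  · exact key _ _ _ _ (T.len_pos u) (T.len_pos w) r1 (hpow v hv u) (T.len_append_le_self v' w)
  · have := key _ _ _ _ (T.len_pos w) (T.len_pos u) r2 (hpow v' hv w) (T.len_append_le_self v u)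
    linarith

/-! ### The mirror image -/

/-- Exchange of the letters `0` and `2`. -/
def mirL : Fin 3 → Fin 3
  | 0 => 2
  | 1 => 1
  | 2 => 0

theorem mirL_mirL (i : Fin 3) : mirL (mirL i) = i := by
  fin_cases i <;> rfl

/-- The mirror image of a tree. -/
def mirror : HTree where
  hl w := - T.hr (w.map mirL)
  hr w := - T.hl (w.map mirL)
  hlt w := by
    have := T.hlt (w.map mirL)
    linarith
  hl0 w := by
    show - T.hr (2 :: w.map mirL) = - T.hr (w.map mirL)
    rw [T.hr2]
  hr2 w := by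
    show - T.hl (0 :: w.map mirL) = - T.hl (w.map mirL)
    rw [T.hl0]
  gap1 w := by
    show - T.hl (2 :: w.map mirL) < - T.hr (1 :: w.map mirL)
    have := T.gap2 (w.map mirL)
    linarith
  gap2 w := by
    show - T.hl (1 :: w.map mirL) < - T.hr (0 :: w.map mirL)
    have := T.gap1 (w.map mirL)
    linarith

theorem map_wordAt (s : ℕ → Fin 3) (w : List (Fin 3)) (n : ℕ) :
    (wordAt s w n).map mirL = wordAt (fun k => mirL (s k)) (w.map mirL) n := by
  induction n with
  | zero => rfl
  | succ n ih =>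
    show (s n :: wordAt s w n).map mirL = mirL (s n) :: wordAt _ _ n
    rw [List.map_cons, ih]

theorem mem_K_mirror {w : List (Fin 3)} {x : ℝ} (hx : x ∈ T.mirror.K w) :
    -x ∈ T.K (w.map mirL) := by
  obtain ⟨s, hs⟩ := hx
  refine ⟨fun k => mirL (s k), fun n => ?_⟩
  rw [← map_wordAt]
  have h := hs n
  have h1 : - T.hr ((wordAt s w n).map mirL) ≤ x := h.1
  have h2 : x ≤ - T.hl ((wordAt s w n).map mirL) := h.2
  exact ⟨by linarith, by linarith⟩

theorem mirror_len (w : List (Fin 3)) : T.mirror.len w = T.len (w.map mirL) := by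
  show - T.hl (w.map mirL) - - T.hr (w.map mirL) = T.hr (w.map mirL) - T.hl (w.map mirL)
  ring

theorem map_mirL_mirL (w : List (Fin 3)) : (w.map mirL).map mirL = w := by
  induction w with
  | nil => rfl
  | cons i w ih => rw [List.map_cons, List.map_cons, mirL_mirL, ih]

theorem full_of_mirror {u w : List (Fin 3)}
    (h : T.mirror.Full (u.map mirL) (w.map mirL)) : T.Full u w := by
  intro t h1 h2
  have e1 : T.mirror.hl (u.map mirL) = - T.hr u := by
    show - T.hr ((u.map mirL).map mirL) = - T.hr u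
    rw [map_mirL_mirL]
  have e2 : T.mirror.hl (w.map mirL) = - T.hr w := by
    show - T.hr ((w.map mirL).map mirL) = - T.hr w
    rw [map_mirL_mirL]
  have e3 : T.mirror.hr (u.map mirL) = - T.hl u := by
    show - T.hl ((u.map mirL).map mirL) = - T.hl u
    rw [map_mirL_mirL]
  have e4 : T.mirror.hr (w.map mirL) = - T.hl w := by
    show - T.hl ((w.map mirL).map mirL) = - T.hl w
    rw [map_mirL_mirL]
  obtain ⟨x, hx, y, hy, hxy⟩ := h (-t) (by rw [e1, e2]; linarith) (by rw [e3, e4]; linarith)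
  refine ⟨-x, ?_, -y, ?_, by linarith⟩
  · have := T.mem_K_mirror hx
    rwa [map_mirL_mirL] at this
  · have := T.mem_K_mirror hy
    rwa [map_mirL_mirL] at this

end HTree

end Pool.Agent.H98.Fib
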