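import Mathlib

/-!
# FA-3. From a finitely supported approximate eigenvector to an exact periodic solution

PROOF.  On the finite dimensional Hilbert space `EuclideanSpace ℂ (ZMod L)` (or `Fin L`) let
`(A f) i = f (i + 1) + f (i - 1) + w(rep i) f i`, `rep i` the representative of `i` in `{1..L}`.
`A` is symmetric (shift and inverse shift are adjoint, the potential is real).  Let
`g i = φ (rep i)`.  For `n` in `1..L` (class `i`): because `φ` vanishes at `n ≤ 1` and `n ≥ L`, we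
have `g (i + 1) = φ (n + 1)` and `g (i - 1) = φ (n - 1)` (for `n = L`: `φ (L+1) = 0 = φ 1`; for
`n = 1`: `φ 0 = 0 = φ L`), so `(A g - E g) i = φ (n+1) + φ (n-1) + (w n - E) φ n`.  So
`‖A g - E g‖ ≤ δ ‖g‖`, `g ≠ 0`.  In an orthonormal eigenbasis of `A`
(`LinearMap.IsSymmetric.eigenvectorBasis`, eigenvalues `e_j` real) we get
`∑ |e_j - E|^2 |g_j|^2 ≤ δ^2 ∑ |g_j|^2`, so some `j` has `|e_j - E| ≤ δ` (otherwise strict
inequality the other way as `g ≠ 0`).  Put `u n = f_j (n mod L)`, `E' = e_j`.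
-/

namespace Pool.Agent.H98.Fib

/-- The representative in `{1..L}` of a residue class. -/
private def cyRep (L : ℕ) (i : ZMod L) : ℤ := ((i - 1).val : ℤ) + 1

private theorem cyRep_mem (L : ℕ) [NeZero L] (i : ZMod L) : 1 ≤ cyRep L i ∧ cyRep L i ≤ L := by
  have h := ZMod.val_lt (i - 1)
  unfold cyRep
  omega

private theorem cyRep_cast (L : ℕ) [NeZero L] (i : ZMod L) : ((cyRep L i : ℤ) : ZMod L) = i := by
  unfold cyRep
  push_cast
  rw [ZMod.natCast_zmod_val]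
  ring

private theorem cyRep_of (L : ℕ) [NeZero L] (n : ℤ) (h1 : 1 ≤ n) (h2 : n ≤ L) :
    cyRep L (n : ZMod L) = n := by
  have h3 := cyRep_mem L (n : ZMod L)
  have h4 := cyRep_cast L (n : ZMod L)
  rw [ZMod.intCast_eq_intCast_iff] at h4
  have h5 : (cyRep L (n : ZMod L) - 1) % L = (n - 1) % L := (Int.ModEq.sub_right 1 h4)
  rw [Int.emod_eq_of_lt (by omega) (by omega), Int.emod_eq_of_lt (by omega) (by omega)] at h5
  omega

private theorem cy_sum (L : ℕ) [NeZero L] (F : ℤ → ℝ) (G : ZMod L → ℝ)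
    (h : ∀ n : ℤ, 1 ≤ n → n ≤ L → G (n : ZMod L) = F n) :
    ∑ i : ZMod L, G i = ∑ n ∈ Finset.Icc (1 : ℤ) L, F n := by
  symm
  refine Finset.sum_bij (fun n _ => (n : ZMod L)) (fun _ _ => Finset.mem_univ _) ?_ ?_ ?_
  · intro n hn m hm he
    rw [Finset.mem_Icc] at hn hm
    have h1 := cyRep_of L n hn.1 hn.2
    have h2 := cyRep_of L m hm.1 hm.2
    have he' : (n : ZMod L) = (m : ZMod L) := he
    rw [← h1, ← h2, he']
  · intro i _
    exact ⟨cyRep L i, Finset.mem_Icc.2 (cyRep_mem L i), cyRep_cast L i⟩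
  · intro n hn
    rw [Finset.mem_Icc] at hn
    exact (h n hn.1 hn.2).symm

/-- The operator on the cyclic lattice. -/
private noncomputable def cyA (L : ℕ) [NeZero L] (w' : ZMod L → ℝ) :
    EuclideanSpace ℂ (ZMod L) →ₗ[ℂ] EuclideanSpace ℂ (ZMod L) where
  toFun f := WithLp.toLp 2 (fun i => f (i + 1) + f (i - 1) + (w' i : ℂ) * f i)
  map_add' f g := by
    ext i
    simp only [PiLp.add_apply]
    ring
  map_smul' c f := by
    ext i
    simp only [PiLp.smul_apply, smul_eq_mul, RingHom.id_apply]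
    ring

private theorem cyA_apply (L : ℕ) [NeZero L] (w' : ZMod L → ℝ) (f : EuclideanSpace ℂ (ZMod L))
    (i : ZMod L) : cyA L w' f i = f (i + 1) + f (i - 1) + (w' i : ℂ) * f i := rfl

private theorem cyA_symm (L : ℕ) [NeZero L] (w' : ZMod L → ℝ) : (cyA L w').IsSymmetric := by
  intro f g
  rw [PiLp.inner_apply, PiLp.inner_apply]
  simp only [cyA_apply, RCLike.inner_apply, map_add, map_mul, Complex.conj_ofReal]
  have h1 : ∑ i : ZMod L, g i * (starRingEnd ℂ) (f (i + 1)) =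
      ∑ i : ZMod L, g (i - 1) * (starRingEnd ℂ) (f i) := by
    rw [← Equiv.sum_comp (Equiv.addRight (1 : ZMod L))
      (fun i : ZMod L => g (i - 1) * (starRingEnd ℂ) (f i))]
    refine Finset.sum_congr rfl fun i _ => ?_
    simp
  have h2 : ∑ i : ZMod L, g i * (starRingEnd ℂ) (f (i - 1)) =
      ∑ i : ZMod L, g (i + 1) * (starRingEnd ℂ) (f i) := by
    rw [← Equiv.sum_comp (Equiv.subRight (1 : ZMod L))
      (fun i : ZMod L => g (i + 1) * (starRingEnd ℂ) (f i))]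
    refine Finset.sum_congr rfl fun i _ => ?_
    simp
  have h3 : ∀ i : ZMod L, g i * ((starRingEnd ℂ) (f (i + 1)) + (starRingEnd ℂ) (f (i - 1)) +
      (w' i : ℂ) * (starRingEnd ℂ) (f i)) = g i * (starRingEnd ℂ) (f (i + 1)) +
      g i * (starRingEnd ℂ) (f (i - 1)) + (w' i : ℂ) * (g i * (starRingEnd ℂ) (f i)) := by
    intro i; ring
  have h4 : ∀ i : ZMod L, (g (i + 1) + g (i - 1) + (w' i : ℂ) * g i) * (starRingEnd ℂ) (f i) =
      g (i + 1) * (starRingEnd ℂ) (f i) + g (i - 1) * (starRingEnd ℂ) (f i) +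
      (w' i : ℂ) * (g i * (starRingEnd ℂ) (f i)) := by
    intro i; ring
  rw [Finset.sum_congr rfl fun i _ => h3 i, Finset.sum_congr rfl fun i _ => h4 i,
    Finset.sum_add_distrib, Finset.sum_add_distrib, Finset.sum_add_distrib,
    Finset.sum_add_distrib, h1, h2]
  ring

/-- An approximate eigenvector of a symmetric operator gives an eigenvalue. -/
private theorem cy_eig {H : Type*} [NormedAddCommGroup H] [InnerProductSpace ℂ H]
    [FiniteDimensional ℂ H] (T : H →ₗ[ℂ] H) (hT : T.IsSymmetric) (E δ : ℝ) (hδ : 0 ≤ δ) (g : H)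
    (hg : g ≠ 0) (h : ‖T g - (E : ℂ) • g‖ ^ 2 ≤ δ ^ 2 * ‖g‖ ^ 2) :
    ∃ (E' : ℝ) (f : H), |E' - E| ≤ δ ∧ f ≠ 0 ∧ T f = (E' : ℂ) • f := by
  obtain ⟨b, hb⟩ : ∃ b, b = hT.eigenvectorBasis (rfl : Module.finrank ℂ H = _) := ⟨_, rfl⟩
  obtain ⟨e, he⟩ : ∃ e, e = hT.eigenvalues (rfl : Module.finrank ℂ H = _) := ⟨_, rfl⟩
  have hrepr : ∀ j, b.repr (T g) j = (e j : ℂ) * b.repr g j := by
    intro j
    rw [hb, he]
    exact hT.eigenvectorBasis_apply_self_apply rfl g j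
  have hex : ∃ j, |e j - E| ≤ δ := by
    by_contra hne
    push Not at hne
    have h1 : ‖T g - (E : ℂ) • g‖ ^ 2 = ∑ j, (e j - E) ^ 2 * ‖b.repr g j‖ ^ 2 := by
      rw [← b.repr.norm_map, EuclideanSpace.norm_sq_eq]
      refine Finset.sum_congr rfl fun j _ => ?_
      rw [map_sub, map_smul, PiLp.sub_apply, PiLp.smul_apply, hrepr, smul_eq_mul, ← sub_mul,
        norm_mul, mul_pow, ← Complex.ofReal_sub, Complex.norm_real, Real.norm_eq_abs, sq_abs]
    have h2 : ‖g‖ ^ 2 = ∑ j, ‖b.repr g j‖ ^ 2 := by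
      rw [← b.repr.norm_map, EuclideanSpace.norm_sq_eq]
    rw [h1, h2, Finset.mul_sum] at h
    obtain ⟨j, hj⟩ : ∃ j, b.repr g j ≠ 0 := by
      by_contra hall
      push Not at hall
      apply hg
      apply b.repr.injective
      rw [map_zero]
      ext j
      exact hall j
    have hsq : ∀ j, δ ^ 2 < (e j - E) ^ 2 := by
      intro j
      rw [← sq_abs (e j - E)]
      exact pow_lt_pow_left₀ (hne j) hδ two_ne_zero
    refine absurd h (not_le.2 (Finset.sum_lt_sum (fun i _ =>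
      mul_le_mul_of_nonneg_right (hsq i).le (by positivity)) ⟨j, Finset.mem_univ j, ?_⟩))
    exact mul_lt_mul_of_pos_right (hsq j) (by positivity)
  obtain ⟨j, hj⟩ := hex
  refine ⟨e j, b j, hj, ?_, ?_⟩
  · intro h0
    have h1 := b.norm_eq_one j
    rw [h0, norm_zero] at h1
    exact zero_ne_one h1
  · rw [hb, he]
    exact hT.apply_eigenvectorBasis rfl j

theorem cyclic_solution (L : ℕ) (hL : 3 ≤ L) (w : ℤ → ℝ) (E δ : ℝ) (hδ : 0 ≤ δ) (φ : ℤ → ℂ)
    (hsupp : ∀ n : ℤ, (n < 2 ∨ (L : ℤ) - 1 < n) → φ n = 0) (hne : ∃ n, φ n ≠ 0)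
    (hφ : ∑ n ∈ Finset.Icc (1 : ℤ) L, ‖φ (n + 1) + φ (n - 1) + ((w n - E : ℝ) : ℂ) * φ n‖ ^ 2
      ≤ δ ^ 2 * ∑ n ∈ Finset.Icc (1 : ℤ) L, ‖φ n‖ ^ 2) :
    ∃ E' : ℝ, |E' - E| ≤ δ ∧ ∃ u : ℤ → ℂ, (∃ n, u n ≠ 0) ∧ (∀ n, u (n + L) = u n) ∧
      ∀ n : ℤ, 1 ≤ n → n ≤ L → u (n + 1) + u (n - 1) + (w n : ℂ) * u n = (E' : ℂ) * u n := by
  have hL0 : NeZero L := ⟨by omega⟩
  obtain ⟨A, hA⟩ : ∃ A, A = cyA L (fun i => w (cyRep L i)) := ⟨_, rfl⟩
  have hAap : ∀ (f : EuclideanSpace ℂ (ZMod L)) (i : ZMod L),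
      A f i = f (i + 1) + f (i - 1) + (w (cyRep L i) : ℂ) * f i := by
    intro f i
    rw [hA]
    rfl
  obtain ⟨g, hg⟩ : ∃ g : EuclideanSpace ℂ (ZMod L), g = WithLp.toLp 2 (fun i => φ (cyRep L i)) :=
    ⟨_, rfl⟩
  have hgap : ∀ i, g i = φ (cyRep L i) := by
    intro i
    rw [hg]
  have hgn : ∀ n : ℤ, 1 ≤ n → n ≤ L → g (n : ZMod L) = φ n := by
    intro n h1 h2
    rw [hgap, cyRep_of L n h1 h2]
  have hg1 : ∀ n : ℤ, 1 ≤ n → n ≤ L → g ((n : ZMod L) + 1) = φ (n + 1) := by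
    intro n h1 h2
    rcases eq_or_lt_of_le h2 with h3 | h3
    · have h4 : (n : ZMod L) + 1 = ((1 : ℤ) : ZMod L) := by
        rw [h3]
        simp
      rw [h4, hgn 1 le_rfl (by omega), hsupp 1 (by omega), hsupp (n + 1) (by omega)]
    · have h4 : (n : ZMod L) + 1 = ((n + 1 : ℤ) : ZMod L) := by push_cast; rfl
      rw [h4, hgn (n + 1) (by omega) (by omega)]
  have hg2 : ∀ n : ℤ, 1 ≤ n → n ≤ L → g ((n : ZMod L) - 1) = φ (n - 1) := by
    intro n h1 h2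
    rcases eq_or_lt_of_le h1 with h3 | h3
    · have h4 : (n : ZMod L) - 1 = ((L : ℤ) : ZMod L) := by
        rw [← h3]
        simp
      rw [h4, hgn L (by omega) le_rfl, hsupp L (by omega), hsupp (n - 1) (by omega)]
    · have h4 : (n : ZMod L) - 1 = ((n - 1 : ℤ) : ZMod L) := by push_cast; rfl
      rw [h4, hgn (n - 1) (by omega) (by omega)]
  have hnormg : ‖g‖ ^ 2 = ∑ n ∈ Finset.Icc (1 : ℤ) L, ‖φ n‖ ^ 2 := by
    rw [EuclideanSpace.norm_sq_eq]
    exact cy_sum L (fun n => ‖φ n‖ ^ 2) (fun i => ‖g i‖ ^ 2) fun n h1 h2 => by rw [hgn n h1 h2]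
  have hnormA : ‖A g - (E : ℂ) • g‖ ^ 2 = ∑ n ∈ Finset.Icc (1 : ℤ) L,
      ‖φ (n + 1) + φ (n - 1) + ((w n - E : ℝ) : ℂ) * φ n‖ ^ 2 := by
    rw [EuclideanSpace.norm_sq_eq]
    refine cy_sum L (fun n => ‖φ (n + 1) + φ (n - 1) + ((w n - E : ℝ) : ℂ) * φ n‖ ^ 2)
      (fun i => ‖(A g - (E : ℂ) • g) i‖ ^ 2) fun n h1 h2 => ?_
    have h3 : (A g - (E : ℂ) • g) (n : ZMod L) =
        φ (n + 1) + φ (n - 1) + ((w n - E : ℝ) : ℂ) * φ n := by
      rw [PiLp.sub_apply, PiLp.smul_apply, hAap, hg1 n h1 h2, hg2 n h1 h2, hgn n h1 h2,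
        cyRep_of L n h1 h2, smul_eq_mul]
      push_cast
      ring
    rw [h3]
  have hg0 : g ≠ 0 := by
    obtain ⟨n, hn⟩ := hne
    intro h0
    apply hn
    by_cases h1 : n < 2 ∨ (L : ℤ) - 1 < n
    · exact hsupp n h1
    · push Not at h1
      have h2 := hgn n (by omega) (by omega)
      rw [h0] at h2
      exact h2.symm
  obtain ⟨E', f, hE, hf, hAf⟩ := cy_eig A (by rw [hA]; exact cyA_symm L _) E δ hδ g hg0
    (by rw [hnormA, hnormg]; exact hφ)
  refine ⟨E', hE, fun n => f (n : ZMod L), ?_, ?_, ?_⟩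
  · by_contra hall
    push Not at hall
    apply hf
    ext i
    have h1 := hall (cyRep L i)
    rw [cyRep_cast] at h1
    exact h1
  · intro n
    have h1 : ((n + L : ℤ) : ZMod L) = (n : ZMod L) := by
      push_cast
      simp
    show f ((n + L : ℤ) : ZMod L) = f (n : ZMod L)
    rw [h1]
  · intro n h1 h2
    have h3 : A f (n : ZMod L) = ((E' : ℂ) • f) (n : ZMod L) := by rw [hAf]
    rw [hAap, PiLp.smul_apply, smul_eq_mul, cyRep_of L n h1 h2] at h3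
    show f ((n + 1 : ℤ) : ZMod L) + f ((n - 1 : ℤ) : ZMod L) + (w n : ℂ) * f (n : ZMod L) = _
    rw [← h3]
    push_cast
    rfl

end Pool.Agent.H98.Fib
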