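import Pool.Agent.H98.Fib.DData
import Pool.Agent.H20.Fib.D.Tab

/-!
# Part (D): kernel checks of the data (problem MP_9069b3_mp)
-/

namespace Pool.Agent.H98.Fib.DD

open Pool.Agent.H20.Fib

set_option maxRecDepth 100000

theorem c_first : trackOK D.dat t0 first tau = true := by decide +kernel
theorem c_tau : stepT D.dat tau 0 tau = true := by decide +kernel

theorem cN_S : scN.chkS D.dat tau = true := by decide +kernel
theorem cN_W : scN.chkW D.kap D.cls D.dat = true := by decide +kernel
theorem cN_A : scN.chkA D.cls = true := by decide +kernel
theorem cN_B : scN.chkB D.cls = true := by decide +kernel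
theorem cN_V : scN.chkV D.kap D.cls D.dat tau = true := by decide +kernel
theorem cN_C : scN.chkC D.cls = true := by decide +kernel

theorem c0_S : sc0.chkS D.dat t0 = true := by decide +kernel
theorem c0_W : sc0.chkW D.kap D.cls D.dat = true := by decide +kernel
theorem c0_A : sc0.chkA D.cls = true := by decide +kernel
theorem c0_B : sc0.chkB D.cls = true := by decide +kernel
theorem c0_V : sc0.chkV D.kap D.cls D.dat t0 = true := by decide +kernel
theorem c0_C : sc0.chkC D.cls = true := by decide +kernel

theorem cX : exN.chk D.kap D.cls D.dat scN tau = true := by decide +kernel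
theorem cX_D : exN.chkD D.cls tau = true := by decide +kernel

theorem cI_1 : ex0.chk1 D.kap D.cls D.dat sc0 t0 = true := by decide +kernel
theorem cI_2 : ex0.chk2 D.kap D.cls D.dat sc0 t0 = true := by decide +kernel
theorem cI_E : ex0.chkE D.cls sc0 = true := by decide +kernel
theorem cI_F : ex0.chkF D.cls sc0 = true := by decide +kernel
theorem cI_G : ex0.chkG D.cls sc0 = true := by decide +kernel

end Pool.Agent.H98.Fib.DD
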