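import Pool.Agent.H98.Fib.DCheck
import Pool.Agent.H98.Fib.RootF
import Pool.Agent.H98.Fib.Assembly

/-!
# Part (D): the inequalities (problem MP_9069b3_mp)
-/

namespace Pool.Agent.H98.Fib.DD

open Pool.Agent.H20.Fib
open Pool.Agent.H20.Fib.TM
open Pool.Agent.H98.Fib.RootJet

theorem kE0 : le (rv (const (-1434093016109))).Z (ex0.z0.d.m - ex0.z0.d.r) = true := by
  decide +kernel

theorem kE3 : ge (rv (const (-1300392402171))).Z (ex0.z3.m + ex0.z3.r) = true := by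
  decide +kernel

theorem kE4 : ge (rv (const (-1299182939381))).Z (ex0.z4.m + ex0.z4.r) = true := by
  decide +kernel

theorem in_t0 : InT (wst D.dat st0 []) t0 := by
  refine ⟨rfl, rfl, ?_, ?_⟩
  · show |(0 : ℝ) * 2 ^ 40 - ((0 : ℤ) : ℝ)| ≤ ((0 : ℕ) : ℝ)
    norm_num
  · show |(0 : ℝ) * 2 ^ 40 - ((0 : ℤ) : ℝ)| ≤ ((0 : ℕ) : ℝ)
    norm_num

theorem in_tau (n : ℕ) (hn : 8 ≤ n) : InT (wst D.dat st0 (HTree.zr n)) tau := by
  have h1 := track_sound (s0 := st0) first t0 tau [] in_t0 c_first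
  rw [rep_eq_zr] at h1
  exact tau_all (n1 := 8) h1 c_tau n hn

section

variable {lam : ℝ} (hl : |lam - 1394 / 1000| ≤ 1 / 1000000000) (hk : KapOK lam D.kap)
  (hT : TabOK D.kap 37 D.cls D.dat) {l r : ℝ} (hR : RootOK lam 37 D.cls st0 l r)

theorem scN_ok (n : ℕ) (hn : 8 ≤ n) : ScOK hk hT hR (HTree.zr n) scN :=
  scOK hk hT hR (in_tau n hn) cN_S cN_W cN_A cN_B cN_V cN_C rfl rfl

theorem sc0_ok : ScOK hk hT hR [] sc0 :=
  scOK hk hT hR in_t0 c0_S c0_W c0_A c0_B c0_V c0_C rfl rfl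

/-- **Part (D), all scales.** -/
theorem gap_ineq (c0 : ℝ) (n : ℕ) (hn : 9 ≤ n) :
    (mkTube hk hT hR).tree.GapIneq (HTree.zr n) ((mkTube hk hT hR).tree.nextc c0 n) := by
  have hD := scN_ok hk hT hR n (by omega)
  obtain ⟨m, rfl⟩ : ∃ m, n = m + 1 := ⟨n - 1, by omega⟩
  have h6 := h6_of hk hT hR (b' := HTree.zr m) (D := scN) (X := exN) (in_tau m (by omega))
    (in_tau (m + 1) (by omega)) hD cX cX_D rfl
  exact ⟨hD.h3.le, hD.h4, hD.h5, h6⟩

include hl in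
/-- **Part (D), the first scale.** -/
theorem gap_ineq_zero (hl0 : l ≤ -(13068 / 10000)) (hr0 : -(11615 / 10000) ≤ r) :
    (mkTube hk hT hR).tree.GapIneq (HTree.zr 0) ((mkTube hk hT hR).tree.nextc (-1058 / 1000) 0) := by
  have hD := sc0_ok hk hT hR
  obtain ⟨p0, p3, p4⟩ := win_of hk hT hR (X := ex0) in_t0 hD cI_2
  have eZ : ∀ E, (mkTube hk hT hR).Z [] E = fb.Z lam E := fun E => one_mul _
  have eL : (mkTube hk hT hR).l [] = l := rfl
  have eR : (mkTube hk hT hR).r [] = r := rfl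
  have a0 := le_at hl kE0
  have a3 := ge_at hl kE3
  have a4 := ge_at hl kE4
  push_cast at a0 a3 a4
  have b0 : ((-1434093016109 : ℤ) : ℝ) / 2 ^ 40 ≤ (mkTube hk hT hR).hl [] := by
    refine (mkTube hk hT hR).le_of_Z_le (w := []) ?_ p0.h1 ?_
    · rw [eR]
      refine le_trans ?_ hr0
      norm_num
    · rw [eZ, eZ]
      have h := (abs_le.1 p0.h3).1
      rw [eZ] at h
      push_cast
      have : (0 : ℝ) < 2 ^ 40 := by norm_num
      nlinarith
  have b3 : (mkTube hk hT hR).hr [0, 0, 2, 2] ≤ ((-1300392402171 : ℤ) : ℝ) / 2 ^ 40 := by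
    refine (mkTube hk hT hR).le_of_Z_le (w := []) p3.h2 ?_ ?_
    · rw [eL]
      refine le_trans hl0 ?_
      norm_num
    · rw [eZ, eZ]
      have h := (abs_le.1 p3.h3).2
      rw [eZ] at h
      push_cast
      have : (0 : ℝ) < 2 ^ 40 := by norm_num
      nlinarith
  have b4 : (mkTube hk hT hR).hr [1, 0, 2, 2] ≤ ((-1299182939381 : ℤ) : ℝ) / 2 ^ 40 := by
    refine (mkTube hk hT hR).le_of_Z_le (w := []) p4.h2 ?_ ?_
    · rw [eL]
      refine le_trans hl0 ?_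
      norm_num
    · rw [eZ, eZ]
      have h := (abs_le.1 p4.h3).2
      rw [eZ] at h
      push_cast
      have : (0 : ℝ) < 2 ^ 40 := by norm_num
      nlinarith
  refine ⟨hD.h3.le, hD.h4, hD.h5, ?_⟩
  show (mkTube hk hT hR).hr [0, 0, 2, 2] + (mkTube hk hT hR).hr [1, 0, 2, 2] <
    (mkTube hk hT hR).hl [] + (-1058 / 1000)
  push_cast at b0 b3 b4
  norm_num at b0 b3 b4 ⊢
  linarith

/-- **Part (D), the isolated component.** -/
theorem iso_ineq_zero : (mkTube hk hT hR).tree.IsoIneq (HTree.zr 0) := by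
  obtain ⟨h1, h2, h7⟩ := iso_of hk hT hR (X := ex0) in_t0 c0_S (sc0_ok hk hT hR) cI_1 cI_E cI_F
    cI_G rfl
  exact ⟨h1, h2, h7.le⟩

end

end Pool.Agent.H98.Fib.DD
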