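import Pool.Agent.H98.Fib.DRun
import Pool.Agent.H98.Fib.Bridge

/-!
# Part (D): the inequalities of one scale from its data (problem MP_9069b3_mp)

`b` is the block of the scale, `R = 2 b`, `RR = 2 2 b`, `w = 0 2 2 b`.  Points: `b6 = hr R`,
`b4 = hr (1 w)`, `a4 = hl (1 w)`, `b3 = hr (0 w)`, `a3 = hl w`, `b2 = hr (1 R)`, `a2 = hl (1 R)`,
`b1 = hr (0 R)`.
-/

namespace Pool.Agent.H98.Fib.DD

open Pool.Agent.H20.Fib
open Pool.Agent.H20.Fib.TM

/-- an edge: window at the block and the chain below -/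
structure EdD where
  d : EndD
  l : List EndD

/-- the window of the edge -/
def EdD.p (e : EdD) : ℤ × ℕ := (e.d.m, e.d.r)

/-- Data of one scale. -/
structure ScD where
  tR : TSt
  tRR : TSt
  tw : TSt
  w0 : EdD
  w1 : EdD
  w2 : EdD
  w3 : EdD
  w4 : EdD
  A : List RJ
  B : List RJ
  u3 : EndD
  u4 : EndD
  v3 : EndD
  v4 : EndD
  r6 : EdD
  r2 : EdD
  C : List RJ

section

variable (kap : TM) (cls : ℕ → Cls) (dat : ℕ → ClsD)

/-- end of the hull of the block itself -/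
def chkE (tp : TSt) (j jj : Fin 3) (e : EdD) : Bool :=
  stepT dat tp j e.d.t && endT kap cls dat jj (e.d :: e.l)

/-- end of the hull of the child `i` of the block -/
def chkI (tp : TSt) (j i jj : Fin 3) (e : EdD) : Bool :=
  stepT dat tp j e.d.t && edgT kap cls dat i jj e.d e.l

/-- transfer from the child `i` of the block -/
def chkU (tp : TSt) (j i : Fin 3) (d : EndD) (p : ℤ × ℕ) : Bool :=
  stepT dat tp j d.t && transU kap cls dat d.t i d.k1 d.s1 d.k2 d.s2 p.1 p.2 d.m d.r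

def EndD.p (d : EndD) : ℤ × ℕ := (d.m, d.r)

/-- the checks for the block `w` -/
def ScD.chkW (D : ScD) : Bool :=
  chkE kap cls dat D.tRR 0 0 D.w0 && chkI kap cls dat D.tRR 0 0 2 D.w1 &&
  chkI kap cls dat D.tRR 0 1 0 D.w2 && chkI kap cls dat D.tRR 0 1 2 D.w3 &&
  chkI kap cls dat D.tRR 0 2 0 D.w4

def ScD.chkA (D : ScD) : Bool :=
  runC cls D.tw D.w1.d.m D.w1.d.r [D.w2.p, D.w3.p] D.A [1] [0, 0]

def ScD.chkB (D : ScD) : Bool :=
  runC cls D.tw D.w0.d.m D.w0.d.r [D.w1.p, D.w3.p, D.w4.p] D.B [0, 1] [2]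

def ScD.chkV (D : ScD) (tb : TSt) : Bool :=
  chkU kap cls dat D.tR 2 0 D.u3 D.w1.p && chkU kap cls dat D.tR 2 0 D.u4 D.w3.p &&
  chkU kap cls dat tb 2 2 D.v3 D.u3.p && chkU kap cls dat tb 2 2 D.v4 D.u4.p &&
  chkE kap cls dat tb 2 2 D.r6 && chkI kap cls dat tb 2 1 2 D.r2

def ScD.chkC (D : ScD) : Bool :=
  runC cls D.tR D.r6.d.m D.r6.d.r [D.v4.p, D.v3.p, D.r2.p] D.C [0, 1] [2]

def ScD.chkS (D : ScD) (tb : TSt) : Bool :=
  stepT dat tb 2 D.tR && stepT dat D.tR 2 D.tRR && stepT dat D.tRR 0 D.tw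

end

section

variable {lam : ℝ} {kap : TM} {N : ℕ} {cls : ℕ → Cls} {dat : ℕ → ClsD} (hk : KapOK lam kap)
  (hT : TabOK kap N cls dat) {s0 : WSt} {l r : ℝ} (hR : RootOK lam N cls s0 l r)

theorem chkE_l {w : List (Fin 3)} {j : Fin 3} {tp : TSt} {e : EdD} (hs : InT (wst dat s0 w) tp)
    (h : chkE kap cls dat tp j 0 e = true) :
    OPt hk hT hR (j :: w) ((mkTube hk hT hR).hl (j :: w)) e.d.m e.d.r := by
  unfold chkE at h
  rw [Bool.and_eq_true] at h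
  exact ⟨(mkTube hk hT hR).l_le_hl _, (mkTube hk hT hR).hl_le_r _,
    endL_sound hk hT hR (stepT_sound h.1 hs) h.2⟩

theorem chkE_r {w : List (Fin 3)} {j : Fin 3} {tp : TSt} {e : EdD} (hs : InT (wst dat s0 w) tp)
    (h : chkE kap cls dat tp j 2 e = true) :
    OPt hk hT hR (j :: w) ((mkTube hk hT hR).hr (j :: w)) e.d.m e.d.r := by
  unfold chkE at h
  rw [Bool.and_eq_true] at h
  exact ⟨(mkTube hk hT hR).l_le_hr _, (mkTube hk hT hR).hr_le_r _,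
    endR_sound hk hT hR (stepT_sound h.1 hs) h.2⟩

theorem l_le_hl_cons (w : List (Fin 3)) (i : Fin 3) :
    (mkTube hk hT hR).l w ≤ (mkTube hk hT hR).hl (i :: w) ∧
    (mkTube hk hT hR).hl (i :: w) ≤ (mkTube hk hT hR).r w :=
  ⟨((mkTube hk hT hR).l_lt w i).le.trans ((mkTube hk hT hR).l_le_hl _),
    ((mkTube hk hT hR).hl_le_r _).trans ((mkTube hk hT hR).r_lt w i).le⟩

theorem l_le_hr_cons (w : List (Fin 3)) (i : Fin 3) :
    (mkTube hk hT hR).l w ≤ (mkTube hk hT hR).hr (i :: w) ∧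
    (mkTube hk hT hR).hr (i :: w) ≤ (mkTube hk hT hR).r w :=
  ⟨((mkTube hk hT hR).l_lt w i).le.trans ((mkTube hk hT hR).l_le_hr _),
    ((mkTube hk hT hR).hr_le_r _).trans ((mkTube hk hT hR).r_lt w i).le⟩

theorem chkI_l {w : List (Fin 3)} {j i : Fin 3} {tp : TSt} {e : EdD}
    (hs : InT (wst dat s0 w) tp) (h : chkI kap cls dat tp j i 0 e = true) :
    OPt hk hT hR (j :: w) ((mkTube hk hT hR).hl (i :: j :: w)) e.d.m e.d.r := by
  unfold chkI at h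
  rw [Bool.and_eq_true] at h
  exact ⟨(l_le_hl_cons hk hT hR _ _).1, (l_le_hl_cons hk hT hR _ _).2,
    edgL_sound hk hT hR (stepT_sound h.1 hs) h.2⟩

theorem chkI_r {w : List (Fin 3)} {j i : Fin 3} {tp : TSt} {e : EdD}
    (hs : InT (wst dat s0 w) tp) (h : chkI kap cls dat tp j i 2 e = true) :
    OPt hk hT hR (j :: w) ((mkTube hk hT hR).hr (i :: j :: w)) e.d.m e.d.r := by
  unfold chkI at h
  rw [Bool.and_eq_true] at h
  exact ⟨(l_le_hr_cons hk hT hR _ _).1, (l_le_hr_cons hk hT hR _ _).2,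
    edgR_sound hk hT hR (stepT_sound h.1 hs) h.2⟩

theorem chkU_up {w : List (Fin 3)} {j i : Fin 3} {tp : TSt} {d : EndD} {p : ℤ × ℕ} {e : ℝ}
    (hs : InT (wst dat s0 w) tp) (h : chkU kap cls dat tp j i d p = true)
    (he : OPt hk hT hR (i :: j :: w) e p.1 p.2) : OPt hk hT hR (j :: w) e d.m d.r := by
  unfold chkU at h
  rw [Bool.and_eq_true] at h
  exact ⟨((mkTube hk hT hR).l_lt _ _).le.trans he.h1, he.h2.trans ((mkTube hk hT hR).r_lt _ _).le,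
    transU_sound hk hT hR (w := j :: w) (stepT_sound h.1 hs) h.2 he.h1 he.h2 he.h3⟩

/-- The facts of one scale that are used later. -/
structure ScOK (b : List (Fin 3)) (D : ScD) : Prop where
  h3 : (mkTube hk hT hR).hr (1 :: 2 :: b) + (mkTube hk hT hR).hr b <
    (mkTube hk hT hR).hr (0 :: 0 :: 2 :: 2 :: b) + (mkTube hk hT hR).hr (1 :: 0 :: 2 :: 2 :: b)
  h4 : (mkTube hk hT hR).hr (0 :: 0 :: 2 :: 2 :: b) + (mkTube hk hT hR).hr (1 :: 0 :: 2 :: 2 :: b) <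
    (mkTube hk hT hR).hl (1 :: 0 :: 2 :: 2 :: b) + (mkTube hk hT hR).hl (1 :: 0 :: 2 :: 2 :: b)
  h5 : (mkTube hk hT hR).hr (0 :: 0 :: 2 :: 2 :: b) + (mkTube hk hT hR).hr (1 :: 0 :: 2 :: 2 :: b) <
    (mkTube hk hT hR).hl (0 :: 0 :: 2 :: 2 :: b) + (mkTube hk hT hR).hl (2 :: 0 :: 2 :: 2 :: b)
  b3 : OPt hk hT hR (2 :: b) ((mkTube hk hT hR).hr (0 :: 0 :: 2 :: 2 :: b)) D.v3.m D.v3.r
  b4 : OPt hk hT hR (2 :: b) ((mkTube hk hT hR).hr (1 :: 0 :: 2 :: 2 :: b)) D.v4.m D.v4.r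
  b6 : OPt hk hT hR (2 :: b) ((mkTube hk hT hR).hr (2 :: b)) D.r6.d.m D.r6.d.r
  b2 : OPt hk hT hR (2 :: b) ((mkTube hk hT hR).hr (1 :: 2 :: b)) D.r2.d.m D.r2.d.r
  a4 : OPt hk hT hR (0 :: 2 :: 2 :: b) ((mkTube hk hT hR).hl (1 :: 0 :: 2 :: 2 :: b)) D.w2.d.m
    D.w2.d.r

theorem scOK {b : List (Fin 3)} {D : ScD} {tb : TSt} (hs : InT (wst dat s0 b) tb)
    (hS : D.chkS dat tb = true) (hW : D.chkW kap cls dat = true) (hA : D.chkA cls = true)
    (hB : D.chkB cls = true) (hV : D.chkV kap cls dat tb = true) (hC : D.chkC cls = true)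
    (oW : D.tw.o = false) (oR : D.tR.o = true) : ScOK hk hT hR b D := by
  unfold ScD.chkS at hS
  rw [Bool.and_eq_true, Bool.and_eq_true] at hS
  have sR : InT (wst dat s0 (2 :: b)) D.tR := stepT_sound hS.1.1 hs
  have sRR : InT (wst dat s0 (2 :: 2 :: b)) D.tRR := stepT_sound hS.1.2 sR
  have sw : InT (wst dat s0 (0 :: 2 :: 2 :: b)) D.tw := stepT_sound hS.2 sRR
  unfold ScD.chkW at hW
  simp only [Bool.and_eq_true] at hW
  obtain ⟨⟨⟨⟨W0, W1⟩, W2⟩, W3⟩, W4⟩ := hW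
  unfold ScD.chkV at hV
  simp only [Bool.and_eq_true] at hV
  obtain ⟨⟨⟨⟨⟨V1, V2⟩, V3⟩, V4⟩, V5⟩, V6⟩ := hV
  have p0 := chkE_l hk hT hR sRR W0
  have p1 := chkI_r hk hT hR sRR W1
  have p2 := chkI_l hk hT hR sRR W2
  have p3 := chkI_r hk hT hR sRR W3
  have p4 := chkI_l hk hT hR sRR W4
  have q3 := chkU_up hk hT hR hs V3 (chkU_up hk hT hR sR V1 p1)
  have q4 := chkU_up hk hT hR hs V4 (chkU_up hk hT hR sR V2 p3)
  have q6 := chkE_r hk hT hR hs V5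
  have q2 := chkI_r hk hT hR hs V6
  have rA := runC_sound hk hT hR sw p1 (.cons p2 (.cons p3 .nil)) hA
  have rB := runC_sound hk hT hR sw p0 (.cons p1 (.cons p3 (.cons p4 .nil))) hB
  have rC := runC_sound hk hT hR sR q6 (.cons q4 (.cons q3 (.cons q2 .nil))) hC
  rw [oW, sgF_false] at rA rB
  rw [oR, sgF_true] at rC
  simp only [List.map_cons, List.map_nil, sumR, List.getD_cons_zero, List.getD_cons_succ] at rA rB rC
  have e6 : (mkTube hk hT hR).hr (2 :: b) = (mkTube hk hT hR).hr b := (mkTube hk hT hR).hr_cons b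
  have e0 : (mkTube hk hT hR).hl (0 :: 0 :: 2 :: 2 :: b) = (mkTube hk hT hR).hl (0 :: 2 :: 2 :: b) :=
    (mkTube hk hT hR).hl_cons _
  rw [e6] at rC
  refine ⟨by linarith, by linarith, ?_, q3, q4, q6, q2, p2⟩
  rw [e0]
  linarith

end

end Pool.Agent.H98.Fib.DD
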