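import Pool.Agent.H98.Fib.DIneq

/-!
# Part (D): the remaining inequalities (problem MP_9069b3_mp)

`ExN`: the inequality `h6` at the scales `n ≥ n0` (in the block `b' = 0^(n-1)`, `b = 0 b'`).
`Ex0`: the inequalities `h1, h2, h7` (in the block `R = 2 b`) and windows of the points `b3, b4`,
`hl b` in the block `b`.
-/

namespace Pool.Agent.H98.Fib.DD

open Pool.Agent.H20.Fib
open Pool.Agent.H20.Fib.TM

structure ExN where
  x3 : EndD
  x4 : EndD
  y3 : EndD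
  y4 : EndD
  g0 : EdD
  g1 : EdD
  D : List RJ

structure Ex0 where
  r1 : EdD
  ra : EdD
  r3 : EdD
  c4 : EndD
  d4 : EndD
  E : List RJ
  F : List RJ
  G : List RJ
  z0 : EdD
  z3 : EndD
  z4 : EndD

/-- transfer from the child `i` of the block -/
def chkT (kap : TM) (cls : ℕ → Cls) (dat : ℕ → ClsD) (t : TSt) (i : Fin 3) (d : EndD) (p : ℤ × ℕ) :
    Bool :=
  widerT t d.t && transU kap cls dat d.t i d.k1 d.s1 d.k2 d.s2 p.1 p.2 d.m d.r

def ExN.chk (kap : TM) (cls : ℕ → Cls) (dat : ℕ → ClsD) (X : ExN) (D : ScD) (tau : TSt) : Bool :=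
  chkT kap cls dat tau 2 X.x3 D.v3.p && chkT kap cls dat tau 2 X.x4 D.v4.p &&
  chkT kap cls dat tau 0 X.y3 X.x3.p && chkT kap cls dat tau 0 X.y4 X.x4.p &&
  (widerT tau X.g0.d.t && endT kap cls dat 0 (X.g0.d :: X.g0.l)) &&
  (widerT tau X.g1.d.t && edgT kap cls dat 1 0 X.g1.d X.g1.l)

def ExN.chkD (cls : ℕ → Cls) (X : ExN) (tau : TSt) : Bool :=
  runC cls tau X.g0.d.m X.g0.d.r [X.y3.p, X.y4.p, X.g1.p] X.D [0, 1] [2]

def Ex0.chk1 (kap : TM) (cls : ℕ → Cls) (dat : ℕ → ClsD) (X : Ex0) (D : ScD) (tb : TSt) : Bool :=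
  chkI kap cls dat tb 2 0 2 X.r1 && chkI kap cls dat tb 2 1 0 X.ra && chkI kap cls dat tb 2 2 0 X.r3 &&
  chkU kap cls dat D.tR 2 0 X.c4 D.w2.p && chkU kap cls dat tb 2 2 X.d4 X.c4.p

def Ex0.chk2 (kap : TM) (cls : ℕ → Cls) (dat : ℕ → ClsD) (X : Ex0) (D : ScD) (tb : TSt) : Bool :=
  (widerT tb X.z0.d.t && endT kap cls dat 0 (X.z0.d :: X.z0.l)) &&
  chkT kap cls dat tb 2 X.z3 D.v3.p && chkT kap cls dat tb 2 X.z4 D.v4.p

def Ex0.chkE (cls : ℕ → Cls) (X : Ex0) (D : ScD) : Bool :=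
  runC cls D.tR D.r6.d.m D.r6.d.r [X.r3.p, X.ra.p, X.r1.p] X.E [0, 1] [2]

def Ex0.chkF (cls : ℕ → Cls) (X : Ex0) (D : ScD) : Bool :=
  runC cls D.tR D.r6.d.m D.r6.d.r [X.r3.p, D.r2.p, X.ra.p] X.F [0, 2] [1, 1]

def Ex0.chkG (cls : ℕ → Cls) (X : Ex0) (D : ScD) : Bool :=
  runC cls D.tR D.r6.d.m D.r6.d.r [X.d4.p, X.r3.p, D.r2.p] X.G [2] [0, 1]

section

variable {lam : ℝ} {kap : TM} {N : ℕ} {cls : ℕ → Cls} {dat : ℕ → ClsD} (hk : KapOK lam kap)
  (hT : TabOK kap N cls dat) {s0 : WSt} {l r : ℝ} (hR : RootOK lam N cls s0 l r)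

theorem chkT_up {w : List (Fin 3)} {i : Fin 3} {t : TSt} {d : EndD} {p : ℤ × ℕ} {e : ℝ}
    (hs : InT (wst dat s0 w) t) (h : chkT kap cls dat t i d p = true)
    (he : OPt hk hT hR (i :: w) e p.1 p.2) : OPt hk hT hR w e d.m d.r := by
  unfold chkT at h
  rw [Bool.and_eq_true] at h
  exact ⟨((mkTube hk hT hR).l_lt _ _).le.trans he.h1, he.h2.trans ((mkTube hk hT hR).r_lt _ _).le,
    transU_sound hk hT hR (widerT_sound h.1 hs) h.2 he.h1 he.h2 he.h3⟩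

/-- `h6` -/
theorem h6_of {b' : List (Fin 3)} {D : ScD} {X : ExN} {tau : TSt} (hs' : InT (wst dat s0 b') tau)
    (hs : InT (wst dat s0 (0 :: b')) tau) (hD : ScOK hk hT hR (0 :: b') D)
    (h1 : X.chk kap cls dat D tau = true) (h2 : X.chkD cls tau = true) (ho : tau.o = false) :
    (mkTube hk hT hR).hr (0 :: 0 :: 2 :: 2 :: 0 :: b') +
      (mkTube hk hT hR).hr (1 :: 0 :: 2 :: 2 :: 0 :: b') <
    (mkTube hk hT hR).hl (0 :: b') + (mkTube hk hT hR).hl (1 :: b') := by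
  unfold ExN.chk at h1
  simp only [Bool.and_eq_true] at h1
  obtain ⟨⟨⟨⟨⟨c1, c2⟩, c3⟩, c4⟩, c5, c6⟩, c7, c8⟩ := h1
  have p3 := chkT_up hk hT hR hs' c3 (chkT_up hk hT hR hs c1 hD.b3)
  have p4 := chkT_up hk hT hR hs' c4 (chkT_up hk hT hR hs c2 hD.b4)
  have p0 : OPt hk hT hR b' ((mkTube hk hT hR).hl b') X.g0.d.m X.g0.d.r :=
    ⟨(mkTube hk hT hR).l_le_hl _, (mkTube hk hT hR).hl_le_r _,
      endL_sound hk hT hR (widerT_sound c5 hs') c6⟩
  have p1 : OPt hk hT hR b' ((mkTube hk hT hR).hl (1 :: b')) X.g1.d.m X.g1.d.r :=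
    ⟨(l_le_hl_cons hk hT hR _ _).1, (l_le_hl_cons hk hT hR _ _).2,
      edgL_sound hk hT hR (widerT_sound c7 hs') c8⟩
  have rD := runC_sound hk hT hR hs' p0 (.cons p3 (.cons p4 (.cons p1 .nil))) h2
  rw [ho, sgF_false] at rD
  simp only [List.map_cons, List.map_nil, sumR, List.getD_cons_zero, List.getD_cons_succ] at rD
  have e0 : (mkTube hk hT hR).hl (0 :: b') = (mkTube hk hT hR).hl b' := (mkTube hk hT hR).hl_cons _
  rw [e0]
  linarith

/-- The inequalities of the isolated component. -/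
theorem iso_of {b : List (Fin 3)} {D : ScD} {X : Ex0} {tb : TSt} (hs : InT (wst dat s0 b) tb)
    (hS : D.chkS dat tb = true) (hD : ScOK hk hT hR b D) (h1 : X.chk1 kap cls dat D tb = true)
    (hE : X.chkE cls D = true) (hF : X.chkF cls D = true) (hG : X.chkG cls D = true)
    (oR : D.tR.o = true) :
    ((mkTube hk hT hR).hr (0 :: 2 :: b) + (mkTube hk hT hR).hr b <
      (mkTube hk hT hR).hl (1 :: 2 :: b) + (mkTube hk hT hR).hl (0 :: 0 :: 2 :: 2 :: b)) ∧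
    ((mkTube hk hT hR).hr (1 :: 2 :: b) + (mkTube hk hT hR).hr (1 :: 2 :: b) <
      (mkTube hk hT hR).hl (1 :: 2 :: b) + (mkTube hk hT hR).hl (0 :: 0 :: 2 :: 2 :: b)) ∧
    ((mkTube hk hT hR).hl (0 :: 0 :: 2 :: 2 :: b) + (mkTube hk hT hR).hl (1 :: 0 :: 2 :: 2 :: b) <
      (mkTube hk hT hR).hr (1 :: 2 :: b) + (mkTube hk hT hR).hr b) := by
  unfold ScD.chkS at hS
  rw [Bool.and_eq_true, Bool.and_eq_true] at hS
  have sR : InT (wst dat s0 (2 :: b)) D.tR := stepT_sound hS.1.1 hs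
  unfold Ex0.chk1 at h1
  simp only [Bool.and_eq_true] at h1
  obtain ⟨⟨⟨⟨c1, c2⟩, c3⟩, c4⟩, c5⟩ := h1
  have p1 := chkI_r hk hT hR hs c1
  have pa := chkI_l hk hT hR hs c2
  have p3 := chkI_l hk hT hR hs c3
  have p4 := chkU_up hk hT hR hs c5 (chkU_up hk hT hR sR c4 hD.a4)
  have rE := runC_sound hk hT hR sR hD.b6 (.cons p3 (.cons pa (.cons p1 .nil))) hE
  have rF := runC_sound hk hT hR sR hD.b6 (.cons p3 (.cons hD.b2 (.cons pa .nil))) hF
  have rG := runC_sound hk hT hR sR hD.b6 (.cons p4 (.cons p3 (.cons hD.b2 .nil))) hG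
  rw [oR, sgF_true] at rE rF rG
  simp only [List.map_cons, List.map_nil, sumR, List.getD_cons_zero, List.getD_cons_succ] at rE rF rG
  have e6 : (mkTube hk hT hR).hr (2 :: b) = (mkTube hk hT hR).hr b := (mkTube hk hT hR).hr_cons b
  have e0 : (mkTube hk hT hR).hl (0 :: 0 :: 2 :: 2 :: b) = (mkTube hk hT hR).hl (2 :: 2 :: b) := by
    rw [(mkTube hk hT hR).hl_cons, (mkTube hk hT hR).hl_cons]
  rw [e6] at rE rF rG
  rw [e0]
  refine ⟨by linarith, by linarith, by linarith⟩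

/-- Windows in the block `b`. -/
theorem win_of {b : List (Fin 3)} {D : ScD} {X : Ex0} {tb : TSt} (hs : InT (wst dat s0 b) tb)
    (hD : ScOK hk hT hR b D) (h2 : X.chk2 kap cls dat D tb = true) :
    OPt hk hT hR b ((mkTube hk hT hR).hl b) X.z0.d.m X.z0.d.r ∧
    OPt hk hT hR b ((mkTube hk hT hR).hr (0 :: 0 :: 2 :: 2 :: b)) X.z3.m X.z3.r ∧
    OPt hk hT hR b ((mkTube hk hT hR).hr (1 :: 0 :: 2 :: 2 :: b)) X.z4.m X.z4.r := by
  unfold Ex0.chk2 at h2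
  simp only [Bool.and_eq_true] at h2
  obtain ⟨⟨⟨c1, c2⟩, c3⟩, c4⟩ := h2
  exact ⟨⟨(mkTube hk hT hR).l_le_hl _, (mkTube hk hT hR).hl_le_r _,
    endL_sound hk hT hR (widerT_sound c1 hs) c2⟩, chkT_up hk hT hR hs c3 hD.b3,
    chkT_up hk hT hR hs c4 hD.b4⟩

/-- tracking of the words `0^n` -/
def trackOK (dat : ℕ → ClsD) : TSt → List TSt → TSt → Bool
  | t, [], tau => widerT t tau
  | t, t' :: ts, tau => stepT dat t 0 t' && trackOK dat t' ts tau

theorem track_sound : ∀ (ts : List TSt) (t tau : TSt) (w : List (Fin 3)),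
    InT (wst dat s0 w) t → trackOK dat t ts tau = true →
    InT (wst dat s0 (Tube.rep 0 ts.length w)) tau := by
  intro ts
  induction ts with
  | nil => intro t tau w hs h; exact widerT_sound h hs
  | cons t' ts ih =>
    intro t tau w hs h
    unfold trackOK at h
    rw [Bool.and_eq_true] at h
    have h2 : InT (wst dat s0 (0 :: w)) t' := stepT_sound h.1 hs
    have := ih t' tau (0 :: w) h2 h.2
    rw [Tube.rep_cons] at this
    exact this

theorem rep_eq_zr (n : ℕ) : Tube.rep 0 n [] = HTree.zr n := by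
  induction n with
  | zero => rfl
  | succ n ih =>
    show 0 :: Tube.rep 0 n [] = HTree.zr (n + 1)
    rw [ih, HTree.zr_succ]

theorem tau_all {tau : TSt} {n1 : ℕ} (h1 : InT (wst dat s0 (HTree.zr n1)) tau)
    (h2 : stepT dat tau 0 tau = true) : ∀ n, n1 ≤ n → InT (wst dat s0 (HTree.zr n)) tau := by
  intro n hn
  induction n, hn using Nat.le_induction with
  | base => exact h1
  | succ n _ ih => exact stepT_sound h2 ih

end

end Pool.Agent.H98.Fib.DD
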