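import Pool.Agent.H98.Fib.DSeg

/-!
# Part (D), tools: linear inequalities between points of one block (problem MP_9069b3_mp)
-/

namespace Pool.Agent.H98.Fib.DD

open Pool.Agent.H20.Fib
open Pool.Agent.H20.Fib.TM

/-- the windows of the stops of a schedule -/
def stopsOf : List RJ → List (ℤ × ℕ)
  | [] => []
  | RJ.node _ :: t => stopsOf t
  | RJ.stop _ m r :: t => (m, r) :: stopsOf t

theorem stopsOK_of {lam : ℝ} {f : Fr} {a b : ℝ} : ∀ (sch : List RJ) (es : List ℝ),
    List.Forall₂ (fun (p : ℤ × ℕ) (e : ℝ) => a ≤ e ∧ e ≤ b ∧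
      |f.Z lam e * 2 ^ 40 - (p.1 : ℝ)| ≤ (p.2 : ℝ)) (stopsOf sch) es → StopsOK lam f a b sch es := by
  intro sch
  induction sch with
  | nil =>
    intro es h
    cases h
    trivial
  | cons i sch ih =>
    intro es h
    cases i with
    | node k => exact ih es h
    | stop k m r =>
      cases h with
      | cons h1 h2 => exact ⟨h1, ih _ h2⟩

/-- all checks of the recorded states -/
def allOk : List LSt → Bool
  | [] => true
  | s :: l => s.ok && allOk l

/-- sum of the lengths of the states with the given indices -/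
def sumT (l : List LSt) : List ℕ → TM
  | [] => const 0
  | i :: is => add (l.getD i ⟨const 0, const 0, const 0, false⟩).L (sumT l is)

/-- the same sum of the real values -/
noncomputable def sumR (l : List ℝ) : List ℕ → ℝ
  | [] => 0
  | i :: is => l.getD i 0 + sumR l is

/-- `sum over as < sum over bs` -/
def linT (l : List LSt) (as bs : List ℕ) : Bool :=
  allOk l && le (sub (sumT l as) (sumT l bs)) (-1)

theorem getD_rep {ρ : Env} : ∀ (l : List LSt) (xs : List ℝ),
    List.Forall₂ (fun (s' : LSt) (x : ℝ) => RepT ρ s'.L x) l xs → ∀ i : ℕ,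
    RepT ρ (l.getD i ⟨const 0, const 0, const 0, false⟩).L (xs.getD i 0) := by
  intro l xs h
  induction h with
  | nil =>
    intro i
    have e : ([] : List ℝ).getD i 0 = ((0 : ℤ) : ℝ) / 2 ^ 40 := by simp
    rw [e]
    have e2 : (([] : List LSt).getD i ⟨const 0, const 0, const 0, false⟩).L = const 0 := by simp
    rw [e2]
    exact RepT.const 0
  | cons h1 _ ih =>
    intro i
    cases i with
    | zero => exact h1
    | succ i => exact ih i

theorem sumT_rep {ρ : Env} {l : List LSt} {xs : List ℝ}
    (h : List.Forall₂ (fun (s' : LSt) (x : ℝ) => RepT ρ s'.L x) l xs) (is : List ℕ) :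
    RepT ρ (sumT l is) (sumR xs is) := by
  induction is with
  | nil =>
    show RepT ρ (const 0) 0
    have e : (0 : ℝ) = ((0 : ℤ) : ℝ) / 2 ^ 40 := by simp
    rw [e]
    exact RepT.const 0
  | cons i is ih => exact (getD_rep l xs h i).add ih

theorem allOk_forall {P : LSt → ℝ → Prop} {l : List LSt} {es : List ℝ}
    (h : List.Forall₂ (fun (s' : LSt) (e : ℝ) => s'.ok = true → P s' e) l es)
    (ho : allOk l = true) : List.Forall₂ P l es := by
  induction h with
  | nil => exact List.Forall₂.nil
  | cons h1 _ ih =>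
    rw [allOk, Bool.and_eq_true] at ho
    exact List.Forall₂.cons (h1 ho.1) (ih ho.2)

theorem sumR_scale {c : ℝ} {g : ℝ → ℝ} : ∀ (es : List ℝ) (is : List ℕ), (∀ i ∈ is, i < es.length) →
    sumR (es.map fun e => g e * c) is = sumR (es.map g) is * c := by
  intro es is
  induction is with
  | nil =>
    intro _
    simp [sumR]
  | cons i is ih =>
    intro h
    have h1 := h i List.mem_cons_self
    have h2 := ih fun j hj => h j (List.mem_cons_of_mem _ hj)
    have e1 : (es.map fun e => g e * c).getD i 0 = g es[i] * c := by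
      rw [List.getD_eq_getElem _ _ (by simpa using h1)]
      simp
    have e2 : (es.map g).getD i 0 = g es[i] := by
      rw [List.getD_eq_getElem _ _ (by simpa using h1)]
      simp
    show (es.map fun e => g e * c).getD i 0 + _ = ((es.map g).getD i 0 + _) * c
    rw [e1, e2, h2]
    ring

/-- all indices are below the number of stops -/
def idxOk (n : ℕ) (is : List ℕ) : Bool := is.all fun i => Nat.blt i n

section

variable {lam : ℝ} {kap : TM} {N : ℕ} {cls : ℕ → Cls} {dat : ℕ → ClsD} (hk : KapOK lam kap)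
  (hT : TabOK kap N cls dat) {s0 : WSt} {l r : ℝ} (hR : RootOK lam N cls s0 l r)

/-- A point of the block `w` with a window of the oriented coordinate. -/
structure OPt (w : List (Fin 3)) (e : ℝ) (m : ℤ) (q : ℕ) : Prop where
  h1 : (mkTube hk hT hR).l w ≤ e
  h2 : e ≤ (mkTube hk hT hR).r w
  h3 : |(mkTube hk hT hR).Z w e * 2 ^ 40 - (m : ℝ)| ≤ (q : ℝ)

/-- The check of a run in the block of the state `t`: start window `m0 ± q0`, windows `L` of the
stops, the sum of the positions `as` is less than the sum of the positions `bs`. -/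
def runC (cls : ℕ → Cls) (t : TSt) (m0 : ℤ) (q0 : ℕ) (L : List (ℤ × ℕ)) (sch : List RJ)
    (as bs : List ℕ) : Bool :=
  decide (stopsOf sch = L.map fun p => (orZ t.o p.1, p.2)) && idxOk L.length as &&
    idxOk L.length bs &&
    linT (runT (cls t.ci) t.U t.E sch (LSt.start (blow (const (orZ t.o m0)) q0))) as bs

theorem idxOk_spec {n : ℕ} {is : List ℕ} (h : idxOk n is = true) : ∀ i ∈ is, i < n := by
  intro i hi
  unfold idxOk at h
  rw [List.all_eq_true] at h
  exact Nat.le_of_ble_eq_true (h i hi)

include hk hT hR in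
/-- **Linear inequality between points of a block.** -/
theorem runC_sound {w : List (Fin 3)} {t : TSt} (hs : InT (wst dat s0 w) t) {e0 : ℝ} {m0 : ℤ}
    {q0 : ℕ} (h0 : OPt hk hT hR w e0 m0 q0) {L : List (ℤ × ℕ)} {es : List ℝ}
    (hL : List.Forall₂ (fun (p : ℤ × ℕ) (e : ℝ) => OPt hk hT hR w e p.1 p.2) L es)
    {sch : List RJ} {as bs : List ℕ} (h : runC cls t m0 q0 L sch as bs = true) :
    sumR (es.map fun e => sgF t.o * (e - e0)) as < sumR (es.map fun e => sgF t.o * (e - e0)) bs := by
  unfold runC at h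
  rw [Bool.and_eq_true, Bool.and_eq_true, Bool.and_eq_true, decide_eq_true_eq] at h
  obtain ⟨⟨⟨c1, c2⟩, c3⟩, c4⟩ := h
  unfold linT at c4
  rw [Bool.and_eq_true] at c4
  have hlen : L.length = es.length := hL.length_eq
  have hS : StopsOK lam (wst dat s0 w).f ((mkTube hk hT hR).l w) ((mkTube hk hT hR).r w) sch es := by
    refine stopsOK_of sch es ?_
    rw [c1, List.forall₂_map_left_iff]
    exact hL.imp fun p e hp => ⟨hp.h1, hp.h2, can_win hk hT hR hs hp.h3⟩
  obtain ⟨hpos, hF⟩ := run_block hk hT hR hs h0.h1 h0.h2 (can_win hk hT hR hs h0.h3) hS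
  have hF2 := allOk_forall hF c4.1
  rw [hs.o] at hF2
  have hF3 : List.Forall₂ (fun (s' : LSt) (x : ℝ) => RepT env0 s'.L x)
      (runT (cls t.ci) t.U t.E sch (LSt.start (blow (const (orZ t.o m0)) q0)))
      (es.map fun e => sgF t.o * (e - e0) * |(wst dat s0 w).f.Z1 lam e0|) := by
    rw [List.forall₂_map_right_iff]
    exact hF2
  have h5 := rep_le ((sumT_rep hF3 as).sub (sumT_rep hF3 bs)).rep c4.2
  rw [sumR_scale (c := |(wst dat s0 w).f.Z1 lam e0|) (g := fun e => sgF t.o * (e - e0)) es as
    (by rw [← hlen]; exact idxOk_spec c2),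
    sumR_scale (c := |(wst dat s0 w).f.Z1 lam e0|) (g := fun e => sgF t.o * (e - e0)) es bs
    (by rw [← hlen]; exact idxOk_spec c3), ← sub_mul] at h5
  push_cast at h5
  by_contra hc
  push Not at hc
  have := mul_nonneg (sub_nonneg.2 hc) hpos.le
  have : 0 ≤ (sumR (es.map fun e => sgF t.o * (e - e0)) as -
    sumR (es.map fun e => sgF t.o * (e - e0)) bs) * |(wst dat s0 w).f.Z1 lam e0| * 2 ^ 40 :=
    mul_nonneg this (by positivity)
  linarith

end

end Pool.Agent.H98.Fib.DD
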