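import Pool.Agent.H98.Fib.DTrack

/-!
# Part (D), tools: transfers of windows and runs inside one block (problem MP_9069b3_mp)

`transT`: a window of the oriented `Z` of the child `j` gives a window of the oriented `Z` of the
parent.  `runT`: integration of the length from a start point through the stops of a schedule.
-/

namespace Pool.Agent.H98.Fib.DD

open Pool.Agent.H20.Fib
open Pool.Agent.H20.Fib.TM

/-- model of a line -/
def lineM (L : LineD) (U : TM) : TM := qM L.b0 L.b1 L.b2 U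

theorem rep_lineM {ρ : Env} {L : LineD} {U : TM} {u : ℝ} (h : Rep ρ U u) :
    Rep ρ (lineM L U) (L.ev u / 2 ^ 40) := rep_qM h

/-- the strip of the child reaches the points `m ∓ r` -/
def stripT (o : Bool) (lo hi : LineD) (U : TM) (a b : ℤ) : Bool :=
  match o with
  | false => ge (lineM hi U) a && le (lineM lo U) b
  | true => le (lineM lo U) (-a) && ge (lineM hi U) (-b)

theorem stripT_sound {o : Bool} {lo hi : LineD} {U : TM} {u : ℝ} {a b : ℤ}
    (h : stripT o lo hi U a b = true) (hU : Rep env0 U u) :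
    (a : ℝ) / 2 ^ 40 ≤ endR o (lo.ev u) (hi.ev u) ∧ endL o (lo.ev u) (hi.ev u) ≤ (b : ℝ) / 2 ^ 40 := by
  have e40 : ∀ x : ℝ, x / 2 ^ 40 * 2 ^ 40 = x := fun x => by field_simp
  cases o with
  | false =>
    unfold stripT at h
    rw [Bool.and_eq_true] at h
    have h1 := rep_ge (rep_lineM (L := hi) hU) h.1
    have h2 := rep_le (rep_lineM (L := lo) hU) h.2
    rw [e40] at h1 h2
    simp only [endL, endR]
    constructor
    · apply div_le_div_of_nonneg_right h1 (by norm_num)
    · apply div_le_div_of_nonneg_right h2 (by norm_num)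
  | true =>
    unfold stripT at h
    rw [Bool.and_eq_true] at h
    have h1 := rep_le (rep_lineM (L := lo) hU) h.1
    have h2 := rep_ge (rep_lineM (L := hi) hU) h.2
    rw [e40] at h1 h2
    push_cast at h1 h2
    simp only [endL, endR]
    constructor
    · apply div_le_div_of_nonneg_right _ (by norm_num)
      linarith
    · apply div_le_div_of_nonneg_right _ (by norm_num)
      linarith

/-- window transfer from the child `j` (window `m' ± r'`) to the parent (window `m ± r`) -/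
def transU (kap : TM) (cls : ℕ → Cls) (dat : ℕ → ClsD) (t : TSt) (j : Fin 3) (k1 s1 k2 s2 : ℕ)
    (m' : ℤ) (r' : ℕ) (m : ℤ) (r : ℕ) : Bool :=
  zCok cls t k1 (m - r) && zCok cls t k2 (m + r) &&
  le (zC kap cls t j k1 s1 (m - r)) (m' - r') && ge (zC kap cls t j k2 s2 (m + r)) (m' + r') &&
  stripT t.o ((dat t.ci).arc (WSt.cl t.o j)).lo ((dat t.ci).arc (WSt.cl t.o j)).hi t.U
    (m - r) (m + r)

section

variable {lam : ℝ} {kap : TM} {N : ℕ} {cls : ℕ → Cls} {dat : ℕ → ClsD} (hk : KapOK lam kap)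
  (hT : TabOK kap N cls dat) {s0 : WSt} {l r : ℝ} (hR : RootOK lam N cls s0 l r)

include hk hT hR

theorem transU_sound {w : List (Fin 3)} {j : Fin 3} {t : TSt} {k s k2 s2 : ℕ} {m m' : ℤ}
    {q q' : ℕ} (hs : InT (wst dat s0 w) t)
    (h : transU kap cls dat t j k s k2 s2 m' q' m q = true) {e : ℝ}
    (he1 : (mkTube hk hT hR).l (j :: w) ≤ e) (he2 : e ≤ (mkTube hk hT hR).r (j :: w))
    (hw : |(mkTube hk hT hR).Z (j :: w) e * 2 ^ 40 - (m' : ℝ)| ≤ (q' : ℝ)) :
    |(mkTube hk hT hR).Z w e * 2 ^ 40 - (m : ℝ)| ≤ (q : ℝ) := by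
  unfold transU at h
  simp only [Bool.and_eq_true] at h
  obtain ⟨⟨⟨⟨h1, h2⟩, h3⟩, h4⟩, h5⟩ := h
  have hgood := wst_good hT hR.good w
  have hst := stripT_sound h5 (InT.U (ρ := env0) hs).rep
  rw [← hs.ci, ← hs.o] at hst
  rw [abs_le] at hw
  have lo : ((m - q : ℤ) : ℝ) / 2 ^ 40 ≤ (mkTube hk hT hR).Z w e := by
    refine (mkTube hk hT hR).lower_step (i := j) (a' := ((m' - q' : ℤ) : ℝ) / 2 ^ 40) he1 he2
      hst.1 ?_ ?_
    · rw [div_le_iff₀ (by norm_num)]
      push_cast
      linarith [hw.1]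
    · intro E' hP hz
      have hz' : sgF (wst dat s0 w).o * (wst dat s0 w).f.Z lam E' * 2 ^ 40 = ((m - q : ℤ) : ℝ) := by
        have : sgF (wst dat s0 w).o * (wst dat s0 w).f.Z lam E' = ((m - q : ℤ) : ℝ) / 2 ^ 40 := hz
        rw [this]; field_simp
      have h6 := rep_zC (ρ := env0) (dat := dat) hk hgood hs j (sq := s) hP hz' h1
      have h7 := rep_le h6 h3
      show sgF ((wst dat s0 w).ch dat j).o * ((wst dat s0 w).ch dat j).f.Z lam E' ≤ _
      rw [le_div_iff₀ (by norm_num)]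
      exact h7
  have hi : (mkTube hk hT hR).Z w e ≤ ((m + q : ℤ) : ℝ) / 2 ^ 40 := by
    refine (mkTube hk hT hR).upper_step (i := j) (b' := ((m' + q' : ℤ) : ℝ) / 2 ^ 40) he1 he2
      hst.2 ?_ ?_
    · rw [le_div_iff₀ (by norm_num)]
      push_cast
      linarith [hw.2]
    · intro E' hP hz
      have hz' : sgF (wst dat s0 w).o * (wst dat s0 w).f.Z lam E' * 2 ^ 40 = ((m + q : ℤ) : ℝ) := by
        have : sgF (wst dat s0 w).o * (wst dat s0 w).f.Z lam E' = ((m + q : ℤ) : ℝ) / 2 ^ 40 := hz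
        rw [this]; field_simp
      have h6 := rep_zC (ρ := env0) (dat := dat) hk hgood hs j (sq := s2) hP hz' h2
      have h7 := rep_ge h6 h4
      show _ ≤ sgF ((wst dat s0 w).ch dat j).o * ((wst dat s0 w).ch dat j).f.Z lam E'
      rw [div_le_iff₀ (by norm_num)]
      exact h7
  rw [div_le_iff₀ (by norm_num)] at lo
  rw [le_div_iff₀ (by norm_num)] at hi
  push_cast at lo hi
  rw [abs_le]
  constructor <;> linarith

end

/-! ### Ends of the hulls -/

/-- the window covers the range of the class -/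
def baseT (cls : ℕ → Cls) (t : TSt) (m : ℤ) (r : ℕ) : Bool :=
  match t.o with
  | false => decide (m - r ≤ (cls t.ci).p) && decide ((cls t.ci).hi ≤ m + r)
  | true => decide (m - r ≤ -(cls t.ci).hi) && decide (-(cls t.ci).p ≤ m + r)

/-- One level: state of the word, cells and hints of the transfer from the child, window. -/
structure EndD where
  t : TSt
  k1 : ℕ
  s1 : ℕ
  k2 : ℕ
  s2 : ℕ
  m : ℤ
  r : ℕ

/-- The windows of the end of the hull (`j = 0`: left end, `j = 2`: right end). -/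
def endT (kap : TM) (cls : ℕ → Cls) (dat : ℕ → ClsD) (j : Fin 3) : List EndD → Bool
  | [] => false
  | [d] => baseT cls d.t d.m d.r
  | d :: d' :: l => stepT dat d.t j d'.t &&
      transU kap cls dat d.t j d.k1 d.s1 d.k2 d.s2 d'.m d'.r d.m d.r &&
      endT kap cls dat j (d' :: l)

/-- An inner edge: end `jj` (`0`: left, `2`: right) of the hull of the child `j`. -/
def edgT (kap : TM) (cls : ℕ → Cls) (dat : ℕ → ClsD) (j jj : Fin 3) (d : EndD) (l : List EndD) :
    Bool :=
  match l with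
  | [] => false
  | d' :: l => stepT dat d.t j d'.t &&
      transU kap cls dat d.t j d.k1 d.s1 d.k2 d.s2 d'.m d'.r d.m d.r &&
      endT kap cls dat jj (d' :: l)

section

variable {lam : ℝ} {kap : TM} {N : ℕ} {cls : ℕ → Cls} {dat : ℕ → ClsD} (hk : KapOK lam kap)
  (hT : TabOK kap N cls dat) {s0 : WSt} {l r : ℝ} (hR : RootOK lam N cls s0 l r)

theorem baseT_sound {w : List (Fin 3)} {t : TSt} {m : ℤ} {q : ℕ} (hs : InT (wst dat s0 w) t)
    (h : baseT cls t m q = true) {e : ℝ} (h1 : (mkTube hk hT hR).l w ≤ e)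
    (h2 : e ≤ (mkTube hk hT hR).r w) :
    |(mkTube hk hT hR).Z w e * 2 ^ 40 - (m : ℝ)| ≤ (q : ℝ) := by
  have hz := (mkTube hk hT hR).Z_mem h1 h2
  have z1 : endL (wst dat s0 w).o (cls (wst dat s0 w).ci).p (cls (wst dat s0 w).ci).hi ≤
    (mkTube hk hT hR).Z w e := hz.1
  have z2 : (mkTube hk hT hR).Z w e ≤
    endR (wst dat s0 w).o (cls (wst dat s0 w).ci).p (cls (wst dat s0 w).ci).hi := hz.2
  rw [hs.o, hs.ci] at z1 z2
  unfold baseT at h
  cases ho : t.o with
  | false =>
    rw [ho] at h z1 z2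
    simp only [Bool.and_eq_true, decide_eq_true_eq] at h
    simp only [endL, endR] at z1 z2
    rw [div_le_iff₀ (by norm_num)] at z1
    rw [le_div_iff₀ (by norm_num)] at z2
    have a1 : ((m - q : ℤ) : ℝ) ≤ ((cls t.ci).p : ℝ) := by exact_mod_cast h.1
    have a2 : ((cls t.ci).hi : ℝ) ≤ ((m + q : ℤ) : ℝ) := by exact_mod_cast h.2
    push_cast at a1 a2
    rw [abs_le]
    constructor <;> linarith
  | true =>
    rw [ho] at h z1 z2
    simp only [Bool.and_eq_true, decide_eq_true_eq] at h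
    simp only [endL, endR] at z1 z2
    rw [div_le_iff₀ (by norm_num)] at z1
    rw [le_div_iff₀ (by norm_num)] at z2
    have a1 : ((m - q : ℤ) : ℝ) ≤ ((-(cls t.ci).hi : ℤ) : ℝ) := by exact_mod_cast h.1
    have a2 : ((-(cls t.ci).p : ℤ) : ℝ) ≤ ((m + q : ℤ) : ℝ) := by exact_mod_cast h.2
    push_cast at a1 a2
    rw [abs_le]
    constructor <;> linarith

theorem endT_sound {j : Fin 3} : ∀ (ds : List EndD) (d : EndD) (w : List (Fin 3)),
    InT (wst dat s0 w) d.t → endT kap cls dat j (d :: ds) = true → ∀ e : ℝ,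
    (∀ n, (mkTube hk hT hR).l (Tube.rep j n w) ≤ e ∧ e ≤ (mkTube hk hT hR).r (Tube.rep j n w)) →
    |(mkTube hk hT hR).Z w e * 2 ^ 40 - (d.m : ℝ)| ≤ (d.r : ℝ) := by
  intro ds
  induction ds with
  | nil =>
    intro d w hs h e he
    exact baseT_sound hk hT hR hs h (he 0).1 (he 0).2
  | cons d' l ih =>
    intro d w hs h e he
    unfold endT at h
    rw [Bool.and_eq_true, Bool.and_eq_true] at h
    have hs' : InT (wst dat s0 (j :: w)) d'.t := stepT_sound h.1.1 hs
    have he' : ∀ n, (mkTube hk hT hR).l (Tube.rep j n (j :: w)) ≤ e ∧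
        e ≤ (mkTube hk hT hR).r (Tube.rep j n (j :: w)) := fun n => by
      rw [Tube.rep_cons]
      exact he (n + 1)
    have h3 := ih d' (j :: w) hs' h.2 e he'
    exact transU_sound hk hT hR hs h.1.2 (he' 0).1 (he' 0).2 h3

theorem endL_sound {ds : List EndD} {d : EndD} {w : List (Fin 3)} (hs : InT (wst dat s0 w) d.t)
    (h : endT kap cls dat 0 (d :: ds) = true) :
    |(mkTube hk hT hR).Z w ((mkTube hk hT hR).hl w) * 2 ^ 40 - (d.m : ℝ)| ≤ (d.r : ℝ) :=
  endT_sound hk hT hR ds d w hs h _ fun n => (mkTube hk hT hR).hl_mem w n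

theorem endR_sound {ds : List EndD} {d : EndD} {w : List (Fin 3)} (hs : InT (wst dat s0 w) d.t)
    (h : endT kap cls dat 2 (d :: ds) = true) :
    |(mkTube hk hT hR).Z w ((mkTube hk hT hR).hr w) * 2 ^ 40 - (d.m : ℝ)| ≤ (d.r : ℝ) :=
  endT_sound hk hT hR ds d w hs h _ fun n => (mkTube hk hT hR).hr_mem w n

theorem edgL_sound {ds : List EndD} {d : EndD} {w : List (Fin 3)} {j : Fin 3}
    (hs : InT (wst dat s0 w) d.t) (h : edgT kap cls dat j 0 d ds = true) :
    |(mkTube hk hT hR).Z w ((mkTube hk hT hR).hl (j :: w)) * 2 ^ 40 - (d.m : ℝ)| ≤ (d.r : ℝ) := by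
  cases ds with
  | nil => exact (Bool.false_ne_true h).elim
  | cons d' ds =>
    unfold edgT at h
    rw [Bool.and_eq_true, Bool.and_eq_true] at h
    exact transU_sound hk hT hR hs h.1.2 ((mkTube hk hT hR).l_le_hl _)
      ((mkTube hk hT hR).hl_le_r _) (endL_sound hk hT hR (stepT_sound h.1.1 hs) h.2)

theorem edgR_sound {ds : List EndD} {d : EndD} {w : List (Fin 3)} {j : Fin 3}
    (hs : InT (wst dat s0 w) d.t) (h : edgT kap cls dat j 2 d ds = true) :
    |(mkTube hk hT hR).Z w ((mkTube hk hT hR).hr (j :: w)) * 2 ^ 40 - (d.m : ℝ)| ≤ (d.r : ℝ) := by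
  cases ds with
  | nil => exact (Bool.false_ne_true h).elim
  | cons d' ds =>
    unfold edgT at h
    rw [Bool.and_eq_true, Bool.and_eq_true] at h
    exact transU_sound hk hT hR hs h.1.2 ((mkTube hk hT hR).l_le_hr _)
      ((mkTube hk hT hR).hr_le_r _) (endR_sound hk hT hR (stepT_sound h.1.1 hs) h.2)

/-- the window in the canonical variable -/
theorem can_win {w : List (Fin 3)} {t : TSt} {m : ℤ} {q : ℕ} (hs : InT (wst dat s0 w) t) {e : ℝ}
    (h : |(mkTube hk hT hR).Z w e * 2 ^ 40 - (m : ℝ)| ≤ (q : ℝ)) :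
    |(wst dat s0 w).f.Z lam e * 2 ^ 40 - ((orZ t.o m : ℤ) : ℝ)| ≤ (q : ℝ) := by
  have h' : |sgF (wst dat s0 w).o * (wst dat s0 w).f.Z lam e * 2 ^ 40 - (m : ℝ)| ≤ (q : ℝ) := h
  rw [hs.o] at h'
  cases ho : t.o with
  | false =>
    rw [ho, sgF_false, one_mul] at h'
    exact h'
  | true =>
    rw [ho, sgF_true] at h'
    show |(wst dat s0 w).f.Z lam e * 2 ^ 40 - ((-m : ℤ) : ℝ)| ≤ (q : ℝ)
    rw [abs_le] at h' ⊢
    push_cast
    constructor <;> linarith [h'.1, h'.2]

end

/-! ### Runs -/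

/-- Instructions: `node k` goes to the upper end of the cell `k`, `stop k m r` goes through the cell
`k` to a point with window `m ± r` (canonical variable). -/
inductive RJ where
  | node (k : ℕ)
  | stop (k : ℕ) (m : ℤ) (r : ℕ)

def runT (c : Cls) (U E : TM) : List RJ → LSt → List LSt
  | [], _ => []
  | RJ.node k :: t, s =>
    runT c U E t (stepL c U E s (k, const (c.p + 34359738368 * ((k : ℤ) + 1))))
  | RJ.stop k m r :: t, s =>
    stepL c U E s (k, blow (const m) r) :: runT c U E t s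

/-- The stops are in the block and in their windows. -/
def StopsOK (lam : ℝ) (f : Fr) (a b : ℝ) : List RJ → List ℝ → Prop
  | [], [] => True
  | [], _ :: _ => False
  | RJ.node _ :: t, es => StopsOK lam f a b t es
  | RJ.stop _ _ _ :: _, [] => False
  | RJ.stop _ m r :: t, e :: es => (a ≤ e ∧ e ≤ b ∧ |f.Z lam e * 2 ^ 40 - (m : ℝ)| ≤ (r : ℝ)) ∧
      StopsOK lam f a b t es

theorem runT_ok {ρ : Env} {lam : ℝ} {c : Cls} {u eta : ℝ} {f : Fr} {sg E0 : ℝ}
    {U E : TM} {a b : ℝ} (hsg : sg = 1 ∨ sg = -1)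
    (hT : ∀ x, a ≤ x → x ≤ b → PT lam c u eta f x)
    (hmono : ∀ x, a ≤ x → x ≤ b → 0 < sg * f.Z1 lam x)
    (hU : RepT ρ U u) (hE : RepT ρ E eta)
    (hnode : ∀ k : ℕ, k < c.len → ∃ x, a ≤ x ∧ x ≤ b ∧
      f.Z lam x * 2 ^ 40 = ((c.p + 34359738368 * ((k : ℤ) + 1) : ℤ) : ℝ)) :
    ∀ (sch : List RJ) (es : List ℝ) (s : LSt),
      (s.ok = true → ∃ x, a ≤ x ∧ x ≤ b ∧ s.Ok ρ lam f sg E0 x) → StopsOK lam f a b sch es →
      List.Forall₂ (fun (s' : LSt) (e : ℝ) => s'.ok = true → s'.Ok ρ lam f sg E0 e)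
        (runT c U E sch s) es := by
  intro sch
  induction sch with
  | nil =>
    intro es s _ hS
    cases es with
    | nil => exact List.Forall₂.nil
    | cons e es => exact hS.elim
  | cons i sch ih =>
    intro es s hs hS
    cases i with
    | node k =>
      refine ih es _ ?_ hS
      intro hok
      have hok' : (s.ok && pieceOK c k s.A (const (c.p + 34359738368 * ((k : ℤ) + 1)))) = true := hok
      rw [Bool.and_eq_true] at hok'
      have hkl : k < c.len := by
        have h := hok'.2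
        unfold pieceOK at h
        rw [Bool.and_eq_true, Bool.and_eq_true] at h
        have : Nat.ble (k + 1) c.len = true := h.1.1
        exact Nat.le_of_ble_eq_true this
      obtain ⟨x, x1, x2, x3⟩ := hs hok'.1
      obtain ⟨y, y1, y2, y3⟩ := hnode k hkl
      have hB : RepT ρ (const (c.p + 34359738368 * ((k : ℤ) + 1))) (f.Z lam y) := by
        have e : f.Z lam y = ((c.p + 34359738368 * ((k : ℤ) + 1) : ℤ) : ℝ) / 2 ^ 40 := by
          rw [← y3]; field_simp
        rw [e]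
        exact RepT.const _
      exact ⟨y, y1, y2, (stepL_ok hsg hT hmono x3 x1 x2 y1 y2 hB hU hE hok).2⟩
    | stop k m r =>
      cases es with
      | nil => exact hS.elim
      | cons e es =>
        obtain ⟨⟨e1, e2, e3⟩, hS'⟩ := hS
        refine List.Forall₂.cons ?_ (ih es s hs hS')
        intro hok
        have hok' : (s.ok && pieceOK c k s.A (blow (const m) r)) = true := hok
        rw [Bool.and_eq_true] at hok'
        obtain ⟨x, x1, x2, x3⟩ := hs hok'.1
        have hB : RepT ρ (blow (const m) r) (f.Z lam e) := fun _ _ => rep_cb e3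
        exact (stepL_ok hsg hT hmono x3 x1 x2 e1 e2 hB hU hE hok).2

section

variable {lam : ℝ} {kap : TM} {N : ℕ} {cls : ℕ → Cls} {dat : ℕ → ClsD} (hk : KapOK lam kap)
  (hT : TabOK kap N cls dat) {s0 : WSt} {l r : ℝ} (hR : RootOK lam N cls s0 l r)

include hk hT hR

/-- the whole run in the block `w` from the point `e0` -/
theorem run_block {w : List (Fin 3)} {t : TSt} (hs : InT (wst dat s0 w) t) {m0 : ℤ} {q0 : ℕ}
    {e0 : ℝ} (h1 : (mkTube hk hT hR).l w ≤ e0) (h2 : e0 ≤ (mkTube hk hT hR).r w)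
    (h3 : |(wst dat s0 w).f.Z lam e0 * 2 ^ 40 - (m0 : ℝ)| ≤ (q0 : ℝ)) {sch : List RJ} {es : List ℝ}
    (hS : StopsOK lam (wst dat s0 w).f ((mkTube hk hT hR).l w) ((mkTube hk hT hR).r w) sch es) :
    0 < |(wst dat s0 w).f.Z1 lam e0| ∧
    List.Forall₂ (fun (s' : LSt) (e : ℝ) => s'.ok = true →
        RepT env0 s'.L (sgF (wst dat s0 w).o * (e - e0) * |(wst dat s0 w).f.Z1 lam e0|))
      (runT (cls t.ci) t.U t.E sch (LSt.start (blow (const m0) q0))) es := by
  have hgood := wst_good hT hR.good w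
  have hP : ∀ x, (mkTube hk hT hR).l w ≤ x → x ≤ (mkTube hk hT hR).r w →
      (wst dat s0 w).Pt lam cls x := fun x a b => (mkTube hk hT hR).P_of_mem w a b
  have hne : (wst dat s0 w).f.Z1 lam e0 ≠ 0 := mono_ne (hP e0 h1 h2)
  refine ⟨abs_pos.2 hne, ?_⟩
  have hsg : sgF (wst dat s0 w).o = 1 ∨ sgF (wst dat s0 w).o = -1 := by
    cases (wst dat s0 w).o with
    | false => left; rfl
    | true => right; rfl
  have hst : (LSt.start (blow (const m0) q0)).Ok env0 lam (wst dat s0 w).f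
      (sgF (wst dat s0 w).o) e0 e0 := start_ok hne (fun _ _ => rep_cb h3)
  have key := runT_ok (ρ := env0) (lam := lam) (c := cls t.ci) (u := (wst dat s0 w).u)
    (eta := (wst dat s0 w).eta) (f := (wst dat s0 w).f) (sg := sgF (wst dat s0 w).o) (E0 := e0)
    (U := t.U) (E := t.E) (a := (mkTube hk hT hR).l w) (b := (mkTube hk hT hR).r w) hsg
    (fun x a b => by rw [← hs.ci]; exact (hP x a b).tube) (fun x a b => (hP x a b).mono)
    (InT.U hs) (InT.E hs) ?_ sch es (LSt.start (blow (const m0) q0))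
    (fun _ => ⟨e0, h1, h2, hst⟩) hS
  · exact key.imp fun s' e h hok => (h hok).L
  · intro k hkl
    -- the canonical value is between the ends of the class
    rw [← hs.ci] at hkl ⊢
    have c1 : ((cls (wst dat s0 w).ci).p : ℝ) ≤
        (((cls (wst dat s0 w).ci).p + 34359738368 * ((k : ℤ) + 1) : ℤ) : ℝ) := by
      push_cast
      nlinarith [(Nat.cast_nonneg k : (0 : ℝ) ≤ (k : ℝ))]
    have c2 : (((cls (wst dat s0 w).ci).p + 34359738368 * ((k : ℤ) + 1) : ℤ) : ℝ) ≤
        ((cls (wst dat s0 w).ci).hi : ℝ) := by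
      have : ((k : ℝ) + 1) ≤ ((cls (wst dat s0 w).ci).len : ℝ) := by exact_mod_cast hkl
      unfold Cls.hi
      push_cast
      nlinarith
    set v : ℝ := (((cls (wst dat s0 w).ci).p + 34359738368 * ((k : ℤ) + 1) : ℤ) : ℝ) with hv
    have e40 : v / 2 ^ 40 * 2 ^ 40 = v := by field_simp
    have hz := le_endL (o := (wst dat s0 w).o) (z := v / 2 ^ 40)
      (a := ((cls (wst dat s0 w).ci).p : ℝ)) (b := ((cls (wst dat s0 w).ci).hi : ℝ))
      (by rw [e40]; exact c1) (by rw [e40]; exact c2)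
    obtain ⟨x, x1, x2, x3⟩ := (mkTube hk hT hR).exists_Z_eq w (z := sgF (wst dat s0 w).o *
      (v / 2 ^ 40)) hz.1 hz.2
    refine ⟨x, x1, x2, ?_⟩
    have x4 : sgF (wst dat s0 w).o * (wst dat s0 w).f.Z lam x = sgF (wst dat s0 w).o *
      (v / 2 ^ 40) := x3
    have x5 : (wst dat s0 w).f.Z lam x = v / 2 ^ 40 := by
      have := sgF_mul_self (wst dat s0 w).o
      have h := congrArg (fun y => sgF (wst dat s0 w).o * y) x4
      simp only [← mul_assoc] at h
      rw [this, one_mul, one_mul] at h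
      exact h
    rw [x5, e40]

end

end Pool.Agent.H98.Fib.DD
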