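import Pool.Agent.H20.Fib.SysT
import Pool.Agent.H98.Fib.Piece
import Pool.Agent.H98.Fib.Edges

/-!
# Part (D), tools: states of single words with narrow parameters (problem MP_9069b3_mp)

`TSt`: class, orientation, parameters `u`, `eta` as centre and radius (units `2^-40`).
`stepT` checks that the child of a state `t` is described by `t'`.  `zC` is the model of the
oriented `Z` of the child `j` at the point where the oriented `Z` of the parent is `a / 2^40`.
-/

namespace Pool.Agent.H98.Fib.DD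

open Pool.Agent.H20.Fib
open Pool.Agent.H20.Fib.TM

/-- A state with narrow parameters. -/
structure TSt where
  ci : ℕ
  o : Bool
  m : ℤ
  r : ℕ
  me : ℤ
  re : ℕ

/-- model of `u` -/
def TSt.U (t : TSt) : TM := blow (const t.m) t.r

/-- model of `eta` -/
def TSt.E (t : TSt) : TM := blow (const t.me) t.re

structure InT (s : WSt) (t : TSt) : Prop where
  ci : s.ci = t.ci
  o : s.o = t.o
  u : |s.u * 2 ^ 40 - (t.m : ℝ)| ≤ (t.r : ℝ)
  e : |s.eta * 2 ^ 40 - (t.me : ℝ)| ≤ (t.re : ℝ)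

theorem rep_cb {ρ : Env} {m : ℤ} {r : ℕ} {v : ℝ} (h : |v * 2 ^ 40 - (m : ℝ)| ≤ (r : ℝ)) :
    Rep ρ (blow (const m) r) v := by
  refine rep_blow rep_const ?_
  have e : (v - (m : ℝ) / 2 ^ 40) = (v * 2 ^ 40 - m) / 2 ^ 40 := by field_simp
  rw [e, abs_div, abs_of_pos (show (0 : ℝ) < 2 ^ 40 by positivity), div_mul_cancel₀ _ (by positivity)]
  exact h

theorem InT.U {ρ : Env} {s : WSt} {t : TSt} (h : InT s t) : RepT ρ t.U s.u :=
  fun _ _ => rep_cb h.u

theorem InT.E {ρ : Env} {s : WSt} {t : TSt} (h : InT s t) : RepT ρ t.E s.eta :=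
  fun _ _ => rep_cb h.e

theorem cb_of_magLe {ρ : Env} {x : TM} {v : ℝ} {m : ℤ} {r : ℕ} (hx : Rep ρ x v)
    (h : magLe (sub x (const m)) r = true) : |v * 2 ^ 40 - (m : ℝ)| ≤ (r : ℝ) := by
  have h1 := rep_magLe (rep_sub hx rep_const) h
  have e : (v - (m : ℝ) / 2 ^ 40) = (v * 2 ^ 40 - m) / 2 ^ 40 := by field_simp
  rwa [e, abs_div, abs_of_pos (show (0 : ℝ) < 2 ^ 40 by positivity),
    div_mul_cancel₀ _ (by positivity)] at h1

/-- quadratic polynomial with integer coefficients at a model -/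
def qM (a b g : ℤ) (U : TM) : TM := add (const a) (add (sc b U) (sc g (mul U U)))

theorem rep_qM {ρ : Env} {a b g : ℤ} {U : TM} {u : ℝ} (h : Rep ρ U u) :
    Rep ρ (qM a b g U) ((a + b * u + g * u ^ 2) / 2 ^ 40) := by
  refine ImgRep_cast (rep_add rep_const (rep_add (rep_sc h) (rep_sc (rep_mul h h)))) ?_
  ring

/-- new parameters -/
def upU (p : Upd) (U : TM) : TM := qM p.a0 p.a1 p.a2 U

def upE (p : Upd) (U E : TM) : TM :=
  add (qM p.e0 p.e1 p.e2 U) (mul (add (const p.f0) (sc p.f1 U)) E)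

theorem rep_upU {ρ : Env} {p : Upd} {U : TM} {u : ℝ} (h : Rep ρ U u) :
    Rep ρ (upU p U) (p.uR u) := rep_qM h

theorem rep_upE {ρ : Env} {p : Upd} {U E : TM} {u e : ℝ} (h : Rep ρ U u) (he : Rep ρ E e) :
    Rep ρ (upE p U E) (p.etaR u e) := by
  refine ImgRep_cast (rep_add (rep_qM h) (rep_mul (rep_add rep_const (rep_sc h)) he)) ?_
  unfold Upd.etaR
  ring

/-- the child `j` of the state `t` is described by `t'` -/
def stepT (dat : ℕ → ClsD) (t : TSt) (j : Fin 3) (t' : TSt) : Bool :=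
  decide (((dat t.ci).arc (WSt.cl t.o j)).nx = t'.ci) &&
  decide ((t.o ^^ ((dat t.ci).arc (WSt.cl t.o j)).fl) = t'.o) &&
  magLe (sub (upU ((dat t.ci).arc (WSt.cl t.o j)).up t.U) (const t'.m)) t'.r &&
  magLe (sub (upE ((dat t.ci).arc (WSt.cl t.o j)).up t.U t.E) (const t'.me)) t'.re

/-- an environment -/
def env0 : Env := ⟨0, 0, 0, 0, 0, by norm_num, by norm_num, by norm_num, by norm_num, by norm_num⟩

theorem stepT_sound {dat : ℕ → ClsD} {s : WSt} {t t' : TSt} {j : Fin 3}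
    (h : stepT dat t j t' = true) (hs : InT s t) : InT (s.ch dat j) t' := by
  unfold stepT at h
  simp only [Bool.and_eq_true, decide_eq_true_eq] at h
  obtain ⟨⟨⟨h1, h2⟩, h3⟩, h4⟩ := h
  rw [← hs.ci, ← hs.o] at h1 h2 h3 h4
  refine ⟨h1, h2, ?_, ?_⟩
  · exact cb_of_magLe (ρ := env0) (rep_upU (InT.U hs).rep) h3
  · exact cb_of_magLe (ρ := env0) (rep_upE (InT.U hs).rep (InT.E hs).rep) h4

/-- the state `t'` is wider than `t` -/
def widerT (t t' : TSt) : Bool :=
  decide (t.ci = t'.ci) && decide (t.o = t'.o) && Nat.ble ((t.m - t'.m).natAbs + t.r) t'.r &&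
    Nat.ble ((t.me - t'.me).natAbs + t.re) t'.re

theorem widerT_sound {s : WSt} {t t' : TSt} (h : widerT t t' = true) (hs : InT s t) :
    InT s t' := by
  unfold widerT at h
  simp only [Bool.and_eq_true, decide_eq_true_eq, Nat.ble_eq] at h
  obtain ⟨⟨⟨h1, h2⟩, h3⟩, h4⟩ := h
  have key : ∀ {v : ℝ} {m m' : ℤ} {r r' : ℕ}, (m - m').natAbs + r ≤ r' →
      |v - (m : ℝ)| ≤ (r : ℝ) → |v - (m' : ℝ)| ≤ (r' : ℝ) := by
    intro v m m' r r' h h'
    have e1 : (((m - m').natAbs : ℕ) : ℝ) = |((m : ℝ) - m')| := by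
      rw [Nat.cast_natAbs, Int.cast_abs]
      push_cast
      rfl
    have e2 : (((m - m').natAbs : ℕ) : ℝ) + r ≤ r' := by exact_mod_cast h
    rw [e1] at e2
    have := abs_sub_le v (m : ℝ) m'
    linarith
  exact ⟨hs.ci.trans h1, hs.o.trans h2, key h3 hs.u, key h4 hs.e⟩

/-! ### The child's `Z` at a point -/

/-- canonical value of an oriented value -/
def orZ (o : Bool) (a : ℤ) : ℤ :=
  match o with
  | false => a
  | true => -a

/-- model of the tube's `X` at `Z`, in the cell `k` -/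
def tX (c : CellD) (x1 U : TM) : TM :=
  blow (ev6 c.fX x1 U (mul x1 x1) (mul x1 U) (mul U U)) c.rX

def flO (o : Bool) (x : TM) : TM :=
  match o with
  | false => x
  | true => neg x

/-- oriented `Z` of the child `j` where the oriented `Z` is `a / 2^40` -/
def zC (kap : TM) (cls : ℕ → Cls) (t : TSt) (j : Fin 3) (k s : ℕ) (a : ℤ) : TM :=
  flO t.o (posZ (WSt.cl t.o j) kap s (const (orZ t.o a))
    (tX ((cls t.ci).cell k) (tauOf (const (orZ t.o a)) ((cls t.ci).mid k)) t.U))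

def zCok (cls : ℕ → Cls) (t : TSt) (k : ℕ) (a : ℤ) : Bool :=
  Nat.blt k (cls t.ci).len && magLe (tauOf (const (orZ t.o a)) ((cls t.ci).mid k)) 1786706395136

theorem rep_flO {ρ : Env} {o : Bool} {x : TM} {v : ℝ} (h : Rep ρ x v) :
    Rep ρ (flO o x) (sgF o * v) := by
  cases o with
  | false => exact ImgRep_cast h (by simp [sgF])
  | true => exact ImgRep_cast (rep_neg h) (by simp [sgF])

theorem orZ_eq {o : Bool} {a : ℤ} {z : ℝ} (h : sgF o * z * 2 ^ 40 = a) :
    z = (orZ o a : ℝ) / 2 ^ 40 := by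
  cases o with
  | false =>
    simp only [sgF, one_mul] at h
    simp only [orZ]
    rw [← h]; field_simp
  | true =>
    simp only [sgF] at h
    simp only [orZ]
    push_cast
    rw [← h]; field_simp

theorem rep_zC {ρ : Env} {lam : ℝ} {kap : TM} (hk : KapOK lam kap) {cls : ℕ → Cls}
    {dat : ℕ → ClsD} {N : ℕ} {s : WSt} (hg : s.Good N) {t : TSt} (hs : InT s t) (j : Fin 3)
    {k sq : ℕ} {a : ℤ} {E : ℝ} (hP : s.Pt lam cls E) (hz : sgF s.o * s.f.Z lam E * 2 ^ 40 = a)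
    (hok : zCok cls t k a = true) :
    Rep ρ (zC kap cls t j k sq a) (sgF (s.ch dat j).o * (s.ch dat j).f.Z lam E) := by
  unfold zCok at hok
  rw [Bool.and_eq_true] at hok
  have hkl : k < (cls t.ci).len := by
    have : Nat.ble (k + 1) (cls t.ci).len = true := hok.1
    exact Nat.le_of_ble_eq_true this
  have hZ : s.f.Z lam E = (orZ t.o a : ℝ) / 2 ^ 40 := by
    rw [← hs.o]; exact orZ_eq hz
  have rZ : Rep ρ (const (orZ t.o a)) (s.f.Z lam E) := ImgRep_cast rep_const hZ.symm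
  have r1 := rep_tauOf (mid := (cls t.ci).mid k) rZ
  have r2 := rep_magLe r1 hok.2
  have h3 : |(s.f.Z lam E * 2 ^ 40 - (cls t.ci).mid k) / 2 ^ 34| ≤ 13 / 8 := by
    have h2' := r2.trans (le_of_eq (by norm_num : ((1786706395136 : ℕ) : ℝ) = 13 / 8 * 2 ^ 40))
    exact le_of_mul_le_mul_right h2' (by positivity)
  have hT := hP.tube
  rw [hs.ci] at hT
  have h4 := hT k hkl _ h3 (by field_simp; ring)
  have rU := (InT.U (ρ := ρ) hs).rep
  have rX : Rep ρ (tX ((cls t.ci).cell k) (tauOf (const (orZ t.o a)) ((cls t.ci).mid k)) t.U)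
      (s.f.X lam E) := by
    refine rep_blow (rep_ev6 r1 rU (ImgRep_cast (rep_mul r1 r1) (by ring)) (rep_mul r1 rU)
      (ImgRep_cast (rep_mul rU rU) (by ring))) ?_
    exact h4.X
  have r5 := rep_posZ (WSt.cl t.o j) sq (hk ρ) rZ rX 0 0
  rw [posZ_eq hg.f hP.pos] at r5
  refine ImgRep_cast (rep_flO (o := t.o) r5) ?_
  show _ = sgF (s.o ^^ ((dat s.ci).arc (WSt.cl s.o j)).fl) *
    (s.f.chF (WSt.cl s.o j) ((dat s.ci).arc (WSt.cl s.o j)).fl).Z lam E
  rw [Fr.chF_Z, sgF_xor, ← hs.o]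
  have := sgF_mul_self ((dat s.ci).arc (WSt.cl s.o j)).fl
  linear_combination (-(sgF s.o * (s.f.ch (WSt.cl s.o j)).Z lam E)) * this

end Pool.Agent.H98.Fib.DD
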