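import Mathlib

/-!
# The Fibonacci Hamiltonian and its square: definitions (problem MP_9069b3_mp)
-/

namespace Pool.Agent.H98.Fib

open scoped ENNReal

/-- `alpha = (sqrt 5 - 1) / 2`. -/
noncomputable def alpha : ℝ := (Real.sqrt 5 - 1) / 2

/-- The Fibonacci potential `v n = 1` if `n * alpha mod 1` lies in `[1 - alpha, 1)`, else `0`. -/
noncomputable def v (n : ℤ) : ℝ := if 1 - alpha ≤ Int.fract ((n : ℝ) * alpha) then 1 else 0

/-- The Hilbert space `ell^2(ι)` of square summable complex families. -/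
abbrev L2 (ι : Type) : Type := lp (fun _ : ι => ℂ) 2

theorem two_toReal : (2 : ℝ≥0∞).toReal = 2 := by simp

/-- Composition with a bijection `e` of the index set: `(shiftOp e ψ) i = ψ (e i)`. -/
noncomputable def shiftOp {ι : Type} (e : ι ≃ ι) : L2 ι →L[ℂ] L2 ι :=
  LinearMap.mkContinuous
    { toFun := fun ψ => ⟨fun i => ψ (e i), by
        refine memℓp_gen ?_
        have h := (lp.memℓp ψ).summable (by simp)
        exact (e.summable_iff (f := fun i => ‖ψ i‖ ^ (2 : ℝ≥0∞).toReal)).2 h⟩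
      map_add' := fun a b => by ext i; rfl
      map_smul' := fun c a => by ext i; rfl }
    1 (fun ψ => by
      rw [one_mul]
      refine lp.norm_le_of_tsum_le (by simp) (norm_nonneg _) ?_
      have h1 : ∑' i, ‖ψ (e i)‖ ^ (2 : ℝ≥0∞).toReal = ∑' i, ‖ψ i‖ ^ (2 : ℝ≥0∞).toReal :=
        e.tsum_eq (fun i => ‖ψ i‖ ^ (2 : ℝ≥0∞).toReal)
      have h2 := lp.norm_rpow_eq_tsum (p := 2) (by simp) ψ
      rw [h2]
      exact le_of_eq h1)

theorem shiftOp_apply {ι : Type} (e : ι ≃ ι) (ψ : L2 ι) (i : ι) :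
    (shiftOp e ψ : ι → ℂ) i = ψ (e i) := rfl

/-- Multiplication by a bounded real function `w`. -/
noncomputable def mulOp {ι : Type} (w : ι → ℝ) (C : ℝ) (hw : ∀ i, |w i| ≤ C) :
    L2 ι →L[ℂ] L2 ι :=
  LinearMap.mkContinuous
    { toFun := fun ψ => ⟨fun i => (w i : ℂ) * ψ i, by
        have h0 : Memℓp (fun i => (C : ℂ) * ψ i) 2 := (lp.memℓp ψ).const_mul (C : ℂ)
        refine h0.mono' (fun i => ?_)
        rw [norm_mul, norm_mul, Complex.norm_real, Complex.norm_real]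
        refine mul_le_mul_of_nonneg_right ?_ (norm_nonneg _)
        exact (hw i).trans (le_abs_self C)⟩
      map_add' := fun a b => by
        ext i
        exact mul_add _ _ _
      map_smul' := fun c a => by
        ext i
        simp [mul_left_comm] }
    |C| (fun ψ => by
      have h1 : ‖(C : ℂ) • ψ‖ = |C| * ‖ψ‖ := by
        rw [norm_smul, Complex.norm_real, Real.norm_eq_abs]
      rw [← h1]
      refine lp.norm_mono (by simp) (fun i => ?_)
      show ‖(w i : ℂ) * ψ i‖ ≤ ‖(C : ℂ) • ψ i‖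
      rw [norm_mul, norm_smul, Complex.norm_real, Complex.norm_real]
      refine mul_le_mul_of_nonneg_right ?_ (norm_nonneg _)
      exact (hw i).trans (le_abs_self C))

theorem mulOp_apply {ι : Type} (w : ι → ℝ) (C : ℝ) (hw : ∀ i, |w i| ≤ C) (ψ : L2 ι) (i : ι) :
    (mulOp w C hw ψ : ι → ℂ) i = (w i : ℂ) * ψ i := rfl

theorem v_nonneg (n : ℤ) : 0 ≤ v n := by
  unfold v; split <;> norm_num

theorem v_le_one (n : ℤ) : v n ≤ 1 := by
  unfold v; split <;> norm_num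

theorem pot1_bound (lam : ℝ) (n : ℤ) : |lam * v n| ≤ |lam| := by
  rw [abs_mul, abs_of_nonneg (v_nonneg n)]
  exact mul_le_of_le_one_right (abs_nonneg _) (v_le_one n)

theorem pot2_bound (lam : ℝ) (p : ℤ × ℤ) : |lam * (v p.1 + v p.2)| ≤ 2 * |lam| := by
  rw [abs_mul, abs_of_nonneg (add_nonneg (v_nonneg _) (v_nonneg _)), mul_comm]
  exact mul_le_mul_of_nonneg_right (by linarith [v_le_one p.1, v_le_one p.2]) (abs_nonneg _)

/-- The Fibonacci Hamiltonian
`(H1 lam ψ)(n) = ψ(n+1) + ψ(n-1) + lam * v(n) * ψ(n)` on `ell^2(ℤ)`. -/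
noncomputable def H1 (lam : ℝ) : L2 ℤ →L[ℂ] L2 ℤ :=
  shiftOp (Equiv.addRight 1) + shiftOp (Equiv.subRight 1)
    + mulOp (fun n => lam * v n) |lam| (pot1_bound lam)

theorem H1_apply (lam : ℝ) (ψ : L2 ℤ) (n : ℤ) :
    (H1 lam ψ : ℤ → ℂ) n = ψ (n + 1) + ψ (n - 1) + ((lam * v n : ℝ) : ℂ) * ψ n := rfl

/-- The square Fibonacci Hamiltonian on `ell^2(ℤ × ℤ)`:
`(H2 lam ψ)(m,n)` is the sum of `ψ` over the four neighbours plus
`lam * (v m + v n) * ψ(m,n)`. -/
noncomputable def H2 (lam : ℝ) : L2 (ℤ × ℤ) →L[ℂ] L2 (ℤ × ℤ) :=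
  shiftOp ((Equiv.addRight (1 : ℤ)).prodCongr (Equiv.refl ℤ))
    + shiftOp ((Equiv.subRight (1 : ℤ)).prodCongr (Equiv.refl ℤ))
    + shiftOp ((Equiv.refl ℤ).prodCongr (Equiv.addRight (1 : ℤ)))
    + shiftOp ((Equiv.refl ℤ).prodCongr (Equiv.subRight (1 : ℤ)))
    + mulOp (fun p => lam * (v p.1 + v p.2)) (2 * |lam|) (pot2_bound lam)

theorem H2_apply (lam : ℝ) (ψ : L2 (ℤ × ℤ)) (m n : ℤ) :
    (H2 lam ψ : ℤ × ℤ → ℂ) (m, n) = ψ (m + 1, n) + ψ (m - 1, n) + ψ (m, n + 1) + ψ (m, n - 1)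
      + ((lam * (v m + v n) : ℝ) : ℂ) * ψ (m, n) := rfl

/-- The spectrum of the Fibonacci Hamiltonian, as a set of real numbers. -/
noncomputable def spec1 (lam : ℝ) : Set ℝ := {E : ℝ | (E : ℂ) ∈ spectrum ℂ (H1 lam)}

/-- The spectrum of the square Fibonacci Hamiltonian, as a set of real numbers. -/
noncomputable def spec2 (lam : ℝ) : Set ℝ := {E : ℝ | (E : ℂ) ∈ spectrum ℂ (H2 lam)}

/-- The trace sequence, shifted by one: `xs 0 = x_{-1} = 1`, `xs 1 = x_0 = E/2`,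
`xs 2 = x_1 = (E - lam)/2`, `xs (n+3) = 2 * xs (n+2) * xs (n+1) - xs n`. -/
noncomputable def xs (lam E : ℝ) : ℕ → ℝ
  | 0 => 1
  | 1 => E / 2
  | 2 => (E - lam) / 2
  | (n + 3) => 2 * xs lam E (n + 2) * xs lam E (n + 1) - xs lam E n

/-- The dynamically defined spectrum: no two consecutive half traces are larger than one. -/
def Sig (lam : ℝ) : Set ℝ := {E : ℝ | ∀ n : ℕ, |xs lam E n| ≤ 1 ∨ |xs lam E (n + 1)| ≤ 1}

/-- The periods: `F 0 = 1`, `F 1 = 1`, `F 2 = 2`, `F 3 = 3`, `F 4 = 5`, ... -/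
def F (k : ℕ) : ℕ := Nat.fib (k + 1)

end Pool.Agent.H98.Fib
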