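import Mathlib

/-!
# Sequences near a saddle point (problem MP_9069b3_mp)

* `decay`: a bounded sequence with `d (n+1) ≤ α d (n+2) + β d n` decays geometrically.
* `contr`: contraction with a geometrically decaying perturbation.
* `exists_edge_const`: the limit of `μ^n / D n` if `D (n+1) / D n → μ` geometrically fast.
-/

namespace Pool.Agent.H98.Fib

/-- The discrete maximum principle. -/
theorem decay_zero {e : ℕ → ℝ} {α β M : ℝ} (hα : 0 ≤ α) (hβ : 0 ≤ β) (hαβ : α + β < 1)
    (hM : ∀ n, e n ≤ M) (h0 : e 0 ≤ 0) (he : ∀ n, 0 ≤ e n)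
    (h : ∀ n, e (n + 1) ≤ α * e (n + 2) + β * e n) (n : ℕ) : e n = 0 := by
  have hM0 : 0 ≤ M := (he 0).trans (hM 0)
  have key : ∀ j : ℕ, ∀ n, e n ≤ M * (α + β) ^ j := by
    intro j
    induction j with
    | zero => intro n; simpa using hM n
    | succ j ih =>
      intro n
      have hp : 0 ≤ M * (α + β) ^ (j + 1) := mul_nonneg hM0 (pow_nonneg (by linarith) _)
      cases n with
      | zero => exact h0.trans hp
      | succ n =>
        refine (h n).trans ?_
        have h1 := mul_le_mul_of_nonneg_left (ih (n + 2)) hα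
        have h2 := mul_le_mul_of_nonneg_left (ih n) hβ
        calc α * e (n + 2) + β * e n ≤ α * (M * (α + β) ^ j) + β * (M * (α + β) ^ j) := by
              linarith
          _ = M * (α + β) ^ (j + 1) := by ring
  have hlim : Filter.Tendsto (fun j : ℕ => M * (α + β) ^ j) Filter.atTop (nhds (M * 0)) :=
    (tendsto_pow_atTop_nhds_zero_of_lt_one (by linarith) hαβ).const_mul M
  rw [mul_zero] at hlim
  exact le_antisymm (ge_of_tendsto' hlim fun j => key j n) (he n)

/-- A bounded sequence with `d (n+1) ≤ α d (n+2) + β d n` decays geometrically. -/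
theorem decay {d : ℕ → ℝ} {α β θ M : ℝ} (hα : 0 ≤ α) (hβ : 0 ≤ β) (hαβ : α + β < 1)
    (hθ : 0 ≤ θ) (hθ1 : θ ≤ 1) (hθ2 : α * θ ^ 2 + β ≤ θ) (hM : ∀ n, d n ≤ M)
    (hd : ∀ n, 0 ≤ d n) (h : ∀ n, d (n + 1) ≤ α * d (n + 2) + β * d n) (n : ℕ) :
    d n ≤ d 0 * θ ^ n := by
  have hs : ∀ n, 0 ≤ d 0 * θ ^ n := fun n => mul_nonneg (hd 0) (pow_nonneg hθ _)
  have key := decay_zero (e := fun n => max (d n - d 0 * θ ^ n) 0) (M := M) hα hβ hαβ
    (fun n => max_le (by linarith [hM n, hs n]) ((hd 0).trans (hM 0)))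
    (by simp) (fun n => le_max_right _ _)
    (fun n => by
      have a1 := le_max_left (d (n + 2) - d 0 * θ ^ (n + 2)) 0
      have a2 := le_max_right (d (n + 2) - d 0 * θ ^ (n + 2)) 0
      have b1 := le_max_left (d n - d 0 * θ ^ n) 0
      have b2 := le_max_right (d n - d 0 * θ ^ n) 0
      refine max_le ?_ (by positivity)
      have h1 := h n
      have h2 : α * (d 0 * θ ^ (n + 2)) + β * (d 0 * θ ^ n) ≤ d 0 * θ ^ (n + 1) := by
        have := mul_le_mul_of_nonneg_left hθ2 (hs n)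
        calc α * (d 0 * θ ^ (n + 2)) + β * (d 0 * θ ^ n)
            = d 0 * θ ^ n * (α * θ ^ 2 + β) := by ring
          _ ≤ d 0 * θ ^ n * θ := this
          _ = d 0 * θ ^ (n + 1) := by ring
      have h3 := mul_le_mul_of_nonneg_left a1 hα
      have h4 := mul_le_mul_of_nonneg_left b1 hβ
      have h5 : α * (d (n + 2) - d 0 * θ ^ (n + 2)) + β * (d n - d 0 * θ ^ n) ≤
        α * max (d (n + 2) - d 0 * θ ^ (n + 2)) 0 + β * max (d n - d 0 * θ ^ n) 0 := by linarith
      have h6 : α * (d (n + 2) - d 0 * θ ^ (n + 2)) + β * (d n - d 0 * θ ^ n) =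
        α * d (n + 2) + β * d n - (α * (d 0 * θ ^ (n + 2)) + β * (d 0 * θ ^ n)) := by ring
      linarith) n
  have := le_max_left (d n - d 0 * θ ^ n) 0
  change max (d n - d 0 * θ ^ n) 0 = 0 at key
  rw [key] at this
  linarith

/-- Contraction with a geometrically decaying perturbation. -/
theorem contr {d : ℕ → ℝ} {A c θ : ℝ} (hc : 0 ≤ c) (hcθ : c < θ)
    (h : ∀ n, d (n + 1) ≤ A * θ ^ n + c * d n) (n : ℕ) :
    d n ≤ max (d 0) (A / (θ - c)) * θ ^ n := by
  have hθ : 0 < θ := lt_of_le_of_lt hc hcθ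
  induction n with
  | zero => simp
  | succ n ih =>
    refine (h n).trans ?_
    have h1 := mul_le_mul_of_nonneg_left ih hc
    have h2 : A ≤ max (d 0) (A / (θ - c)) * (θ - c) := by
      have := le_max_right (d 0) (A / (θ - c))
      have h3 := mul_le_mul_of_nonneg_right this (sub_pos.2 hcθ).le
      rwa [div_mul_cancel₀ _ (sub_pos.2 hcθ).ne'] at h3
    have h4 := mul_le_mul_of_nonneg_right h2 (pow_pos hθ n).le
    calc A * θ ^ n + c * d n
        ≤ max (d 0) (A / (θ - c)) * (θ - c) * θ ^ n + c * (max (d 0) (A / (θ - c)) * θ ^ n) := by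
          linarith
      _ = max (d 0) (A / (θ - c)) * θ ^ (n + 1) := by ring

/-- `|log x| ≤ 2 |x - 1|` for `|x - 1| ≤ 1/2`. -/
theorem abs_log_le {x : ℝ} (h : |x - 1| ≤ 1 / 2) : |Real.log x| ≤ 2 * |x - 1| := by
  have hx := abs_le.1 h
  have hx0 : 0 < x := by linarith [hx.1]
  rw [abs_le]
  constructor
  · have h1 := Real.one_sub_inv_le_log_of_pos hx0
    refine le_trans ?_ h1
    have h2 : 1 - x⁻¹ = (x - 1) / x := by field_simp
    rw [h2, le_div_iff₀ hx0]
    have h3 := neg_abs_le (x - 1)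
    have h4 : |x - 1| * (2 * x) ≥ |x - 1| := by
      have := mul_le_mul_of_nonneg_left (show (1:ℝ) ≤ 2 * x by linarith [hx.1]) (abs_nonneg (x - 1))
      linarith
    nlinarith
  · have h1 := Real.log_le_sub_one_of_pos hx0
    have h2 := le_abs_self (x - 1)
    have h3 := abs_nonneg (x - 1)
    linarith

/-- The edge constant. -/
theorem exists_edge_const {D : ℕ → ℝ} {μ C θ : ℝ} (hμ : 0 < μ) (hD : ∀ n, 0 < D n)
    (hθ : θ < 1) (h : ∀ n, |Real.log (μ * D n / D (n + 1))| ≤ C * θ ^ n) :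
    ∃ A : ℝ, 0 < A ∧ Filter.Tendsto (fun n => μ ^ n / D n) Filter.atTop (nhds A) ∧
      ∀ n, |Real.log (A * D n / μ ^ n)| ≤ C * θ ^ n / (1 - θ) := by
  have hpos : ∀ n, 0 < μ ^ n / D n := fun n => div_pos (pow_pos hμ n) (hD n)
  have hu : ∀ n, dist (Real.log (μ ^ n / D n)) (Real.log (μ ^ (n + 1) / D (n + 1))) ≤ C * θ ^ n := by
    intro n
    rw [dist_comm, Real.dist_eq, ← Real.log_div (hpos _).ne' (hpos _).ne']
    have e : μ ^ (n + 1) / D (n + 1) / (μ ^ n / D n) = μ * D n / D (n + 1) := by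
      have := hD n
      have := hD (n + 1)
      have := pow_pos hμ n
      field_simp
      ring
    rw [e]
    exact h n
  obtain ⟨a, ha⟩ := cauchySeq_tendsto_of_complete (cauchySeq_of_le_geometric θ C hθ hu)
  refine ⟨Real.exp a, Real.exp_pos a, ?_, fun n => ?_⟩
  · have := (Real.continuous_exp.tendsto a).comp ha
    refine this.congr fun n => ?_
    show Real.exp (Real.log (μ ^ n / D n)) = _
    exact Real.exp_log (hpos n)
  · have h1 := dist_le_of_le_geometric_of_tendsto θ C hθ hu ha n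
    rw [dist_comm, Real.dist_eq] at h1
    have e : Real.log (Real.exp a * D n / μ ^ n) = a - Real.log (μ ^ n / D n) := by
      have e1 : Real.exp a * D n / μ ^ n = Real.exp a / (μ ^ n / D n) := by
        have := hD n
        have := pow_pos hμ n
        field_simp
      rw [e1, Real.log_div (Real.exp_pos a).ne' (hpos n).ne', Real.log_exp]
    rw [e]
    exact h1

end Pool.Agent.H98.Fib
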