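import Pool.Agent.H98.Fib.Final

/-!
# The square Fibonacci Hamiltonian in elementary terms (problem MP_9069b3_mp)

The operator acts on square summable functions on `ℤ × ℤ`; its real spectrum is the set of the real `E` for which
`H - E` is not a bijection of `ℓ²(ℤ × ℤ)` onto itself. `specSq_eq` says that this is the spectrum of the bounded
operator `H2 lam` in Mathlib's sense (the inverse is bounded by the open mapping theorem).
-/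

namespace Pool.Agent.H98.Fib.Elem

open Pool.Agent.H98.Fib
open scoped ENNReal

/-- `ψ` belongs to `ℓ²(ℤ × ℤ)`. -/
def SquareSummable (ψ : ℤ × ℤ → ℂ) : Prop := Summable fun p : ℤ × ℤ => ‖ψ p‖ ^ 2

/-- The square Fibonacci Hamiltonian: `(Hψ)(m,n)` is the sum of `ψ` over the four neighbours of `(m,n)` plus
`lam * (v m + v n) * ψ(m,n)`. -/
noncomputable def ham (lam : ℝ) (ψ : ℤ × ℤ → ℂ) (p : ℤ × ℤ) : ℂ :=
  ψ (p.1 + 1, p.2) + ψ (p.1 - 1, p.2) + ψ (p.1, p.2 + 1) + ψ (p.1, p.2 - 1)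
    + (lam : ℂ) * ((v p.1 : ℂ) + (v p.2 : ℂ)) * ψ p

/-- The spectrum of the square Fibonacci Hamiltonian on `ℓ²(ℤ × ℤ)`, as a set of real numbers: the real `E` for which
`H - E` is not a bijection of `ℓ²(ℤ × ℤ)` onto itself. -/
def specSq (lam : ℝ) : Set ℝ :=
  {E : ℝ | ¬ ∀ φ : ℤ × ℤ → ℂ, SquareSummable φ →
    ∃! ψ : ℤ × ℤ → ℂ, SquareSummable ψ ∧ ∀ p, ham lam ψ p - (E : ℂ) * ψ p = φ p}

/-- The statement of Q1 of the problem. -/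
def Trichotomy : Prop :=
  ∃ lam' lam'' : ℝ, 0 < lam' ∧ lam' < lam'' ∧
    (∀ lam, 0 < lam → lam < lam' → IsFiniteUnionOfIntervals (specSq lam)) ∧
    (∀ lam, lam' < lam → lam < lam'' → IsCantorval (specSq lam)) ∧
    (∀ lam, lam'' < lam → IsCantorSet (specSq lam))

theorem memℓp_iff (ψ : ℤ × ℤ → ℂ) : Memℓp ψ 2 ↔ SquareSummable ψ := by
  rw [memℓp_gen_iff (by simp)]
  unfold SquareSummable
  have : (fun p : ℤ × ℤ => ‖ψ p‖ ^ (2 : ℝ≥0∞).toReal) = fun p : ℤ × ℤ => ‖ψ p‖ ^ 2 := by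
    funext p
    rw [two_toReal]
    exact Real.rpow_two _
  rw [this]

theorem H2_apply_eq (lam : ℝ) (ψ : L2 (ℤ × ℤ)) (p : ℤ × ℤ) :
    (H2 lam ψ : ℤ × ℤ → ℂ) p = ham lam (ψ : ℤ × ℤ → ℂ) p := by
  obtain ⟨m, n⟩ := p
  rw [H2_apply]
  unfold ham
  push_cast
  ring

/-- The elementary spectrum is the spectrum of the bounded operator `H2 lam`. -/
theorem specSq_eq (lam : ℝ) : specSq lam = spec2 lam := by
  ext E
  show (¬ _) ↔ (E : ℂ) ∈ spectrum ℂ (H2 lam)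
  rw [spectrum.mem_iff, ContinuousLinearMap.isUnit_iff_bijective, not_iff_not]
  have key : ∀ (ψ : L2 (ℤ × ℤ)) (p : ℤ × ℤ),
      (((algebraMap ℂ (L2 (ℤ × ℤ) →L[ℂ] L2 (ℤ × ℤ)) (E : ℂ) - H2 lam) ψ : L2 (ℤ × ℤ)) :
        ℤ × ℤ → ℂ) p = -(ham lam (ψ : ℤ × ℤ → ℂ) p - (E : ℂ) * ψ p) := by
    intro ψ p
    have h1 : ((algebraMap ℂ (L2 (ℤ × ℤ) →L[ℂ] L2 (ℤ × ℤ)) (E : ℂ) - H2 lam) ψ : L2 (ℤ × ℤ))
        = (E : ℂ) • ψ - H2 lam ψ := by
      rw [_root_.sub_apply, Algebra.algebraMap_eq_smul_one,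
        _root_.smul_apply, _root_.one_apply_eq_self]
    rw [h1, lp.coeFn_sub, Pi.sub_apply, lp.coeFn_smul, Pi.smul_apply, H2_apply_eq, smul_eq_mul]
    ring
  rw [Function.bijective_iff_existsUnique]
  constructor
  · intro h φ
    have hφ : SquareSummable (fun p => -((φ : ℤ × ℤ → ℂ) p)) := by
      rw [← memℓp_iff]
      exact (lp.memℓp φ).neg
    obtain ⟨ψ, ⟨h1, h2⟩, h3⟩ := h _ hφ
    refine ⟨⟨ψ, (memℓp_iff ψ).2 h1⟩, ?_, ?_⟩
    · ext p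
      rw [key]
      have := h2 p
      show -(ham lam ψ p - (E : ℂ) * ψ p) = _
      rw [this, neg_neg]
    · intro χ hχ
      ext p
      have h4 := h3 (χ : ℤ × ℤ → ℂ) ⟨(memℓp_iff _).1 (lp.memℓp χ), fun q => by
        have h5 := key χ q
        have h6 : (((algebraMap ℂ (L2 (ℤ × ℤ) →L[ℂ] L2 (ℤ × ℤ)) (E : ℂ) - H2 lam) χ :
          L2 (ℤ × ℤ)) : ℤ × ℤ → ℂ) q = (φ : ℤ × ℤ → ℂ) q := by rw [hχ]
        rw [h6] at h5
        rw [h5, neg_neg]⟩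
      show (χ : ℤ × ℤ → ℂ) p = ψ p
      rw [h4]
  · intro h φ hφ
    have hφ' : Memℓp (fun p => -(φ p)) 2 := ((memℓp_iff φ).2 hφ).neg
    obtain ⟨ψ, h1, h2⟩ := h ⟨fun p => -(φ p), hφ'⟩
    refine ⟨(ψ : ℤ × ℤ → ℂ), ⟨(memℓp_iff _).1 (lp.memℓp ψ), fun p => ?_⟩, ?_⟩
    · have h3 := key ψ p
      have h4 : (((algebraMap ℂ (L2 (ℤ × ℤ) →L[ℂ] L2 (ℤ × ℤ)) (E : ℂ) - H2 lam) ψ :
          L2 (ℤ × ℤ)) : ℤ × ℤ → ℂ) p = -(φ p) := by
        have h5 : (algebraMap ℂ (L2 (ℤ × ℤ) →L[ℂ] L2 (ℤ × ℤ)) (E : ℂ) - H2 lam) ψ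
          = ⟨fun p => -(φ p), hφ'⟩ := h1
        rw [h5]
      rw [h4] at h3
      exact (neg_injective h3).symm
    · intro χ hχ
      obtain ⟨h3, h4⟩ := hχ
      have h5 := h2 ⟨χ, (memℓp_iff χ).2 h3⟩ (by
        ext p
        rw [key]
        show -(ham lam χ p - (E : ℂ) * χ p) = -(φ p)
        rw [h4 p])
      rw [← h5]

theorem trichotomy_iff : Trichotomy ↔ Pool.Agent.H98.Fib.Trichotomy := by
  unfold Trichotomy Pool.Agent.H98.Fib.Trichotomy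
  simp only [specSq_eq]

end Pool.Agent.H98.Fib.Elem
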