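import Pool.Agent.H98.Fib.Defs

/-!
# Final assembly (problem MP_9069b3_mp)

Definitions of finite unions of intervals, Cantor sets and Cantorvals exactly as in the problem,
the topological lemma (an isolated nondegenerate component repeated at infinitely many places
excludes all three), and the logical assembly.
-/

namespace Pool.Agent.H98.Fib

/-- A finite union of intervals (of any kind: an interval is an order connected set). -/
def IsFiniteUnionOfIntervals (K : Set ℝ) : Prop :=
  ∃ S : Set (Set ℝ), S.Finite ∧ (∀ s ∈ S, s.OrdConnected) ∧ K = ⋃₀ S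

/-- A Cantor set: nonempty, compact, perfect and nowhere dense. -/
def IsCantorSet (K : Set ℝ) : Prop :=
  K.Nonempty ∧ IsCompact K ∧ Perfect K ∧ IsNowhereDense K

/-- The connected component of `x` in `K` is isolated: it is open in `K`. -/
def IsIsolatedComponent (K : Set ℝ) (x : ℝ) : Prop :=
  ∃ U : Set ℝ, IsOpen U ∧ U ∩ K = connectedComponentIn K x

/-- A Cantorval: a compact set which is the closure of its interior, has continuum many connected
components and has no isolated connected component. -/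
def IsCantorval (K : Set ℝ) : Prop :=
  IsCompact K ∧ closure (interior K) = K ∧
    Cardinal.mk (ConnectedComponents K) = Cardinal.continuum ∧
    ∀ x ∈ K, ¬ IsIsolatedComponent K x

/-- The statement of Q1 of the problem. -/
def Trichotomy : Prop :=
  ∃ lam' lam'' : ℝ, 0 < lam' ∧ lam' < lam'' ∧
    (∀ lam, 0 < lam → lam < lam' → IsFiniteUnionOfIntervals (spec2 lam)) ∧
    (∀ lam, lam' < lam → lam < lam'' → IsCantorval (spec2 lam)) ∧
    (∀ lam, lam'' < lam → IsCantorSet (spec2 lam))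

/-- `K` contains infinitely many isolated nondegenerate components `[p n, q n]`, `q (n+1) < p n`. -/
def IsoSeq (K : Set ℝ) : Prop :=
  ∃ g p q r : ℕ → ℝ, ∀ n, g n < p n ∧ p n < q n ∧ q n < r n ∧ Set.Icc (p n) (q n) ⊆ K ∧
    (∀ t, g n < t → t < p n → t ∉ K) ∧ (∀ t, q n < t → t < r n → t ∉ K) ∧ q (n + 1) < p n

/-- an order connected subset of `K` meeting the component `[p,q]` lies in it -/
theorem ordConnected_subset_comp {K : Set ℝ} {g p q r : ℝ} (hg : g < p) (hr : q < r)
    (h1 : ∀ t, g < t → t < p → t ∉ K) (h2 : ∀ t, q < t → t < r → t ∉ K)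
    {s : Set ℝ} (hs : s.OrdConnected) (hsK : s ⊆ K) {x : ℝ} (hx : x ∈ s) (hx1 : p ≤ x)
    (hx2 : x ≤ q) : s ⊆ Set.Icc p q := by
  intro y hy
  constructor
  · by_contra hlt
    push Not at hlt
    -- a point strictly between `max y g` and `p`
    obtain ⟨t, ht1, ht2⟩ := exists_between (max_lt hlt hg)
    have hty : y ≤ t := (le_max_left y g).trans ht1.le
    have htg : g < t := (le_max_right y g).trans_lt ht1
    exact h1 t htg ht2 (hsK (hs.out hy hx ⟨hty, ht2.le.trans hx1⟩))
  · by_contra hlt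
    push Not at hlt
    obtain ⟨t, ht1, ht2⟩ := exists_between (lt_min hlt hr)
    have hty : t ≤ y := ht2.le.trans (min_le_left y r)
    have htr : t < r := ht2.trans_le (min_le_right y r)
    exact h2 t ht1 htr (hsK (hs.out hx hy ⟨hx2.trans ht1.le, hty⟩))

theorem comp_eq {K : Set ℝ} {g p q r : ℝ} (hg : g < p) (hpq : p ≤ q) (hr : q < r)
    (h1 : ∀ t, g < t → t < p → t ∉ K) (h2 : ∀ t, q < t → t < r → t ∉ K)
    (hI : Set.Icc p q ⊆ K) : connectedComponentIn K p = Set.Icc p q := by
  apply Set.Subset.antisymm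
  · have hpK : p ∈ K := hI ⟨le_rfl, hpq⟩
    refine ordConnected_subset_comp hg hr h1 h2 ?_ (connectedComponentIn_subset K p)
      (mem_connectedComponentIn hpK) le_rfl hpq
    exact isPreconnected_iff_ordConnected.1 isPreconnected_connectedComponentIn
  · exact isPreconnected_Icc.subset_connectedComponentIn ⟨le_rfl, hpq⟩ hI

theorem iso_comp {K : Set ℝ} {g p q r : ℝ} (hg : g < p) (hpq : p ≤ q) (hr : q < r)
    (h1 : ∀ t, g < t → t < p → t ∉ K) (h2 : ∀ t, q < t → t < r → t ∉ K)
    (hI : Set.Icc p q ⊆ K) : IsIsolatedComponent K p := by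
  refine ⟨Set.Ioo g r, isOpen_Ioo, ?_⟩
  rw [comp_eq hg hpq hr h1 h2 hI]
  ext t
  constructor
  · rintro ⟨⟨ht1, ht2⟩, htK⟩
    constructor
    · by_contra hlt
      push Not at hlt
      exact h1 t ht1 hlt htK
    · by_contra hlt
      push Not at hlt
      exact h2 t hlt ht2 htK
  · rintro ⟨ht1, ht2⟩
    exact ⟨⟨hg.trans_le ht1, ht2.trans_lt hr⟩, hI ⟨ht1, ht2⟩⟩

theorem IsoSeq.not_finiteUnion {K : Set ℝ} (h : IsoSeq K) : ¬ IsFiniteUnionOfIntervals K := by
  rintro ⟨S, hfin, hord, hK⟩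
  obtain ⟨g, p, q, r, hseq⟩ := h
  have hpq : ∀ n, p (n + 1) < p n := fun n => by
    have h1 := (hseq n).2.2.2.2.2.2
    have h2 := (hseq (n + 1)).2.1
    linarith
  have hanti : StrictAnti p := strictAnti_nat_of_succ_lt hpq
  have hqp : ∀ m n, m < n → q n < p m := by
    intro m n hmn
    obtain ⟨k, rfl⟩ : ∃ k, n = k + 1 := ⟨n - 1, by omega⟩
    have h1 := (hseq k).2.2.2.2.2.2
    have h2 : p k ≤ p m := hanti.antitone (by omega)
    linarith
  have hmem : ∀ n, ∃ s ∈ S, p n ∈ s := by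
    intro n
    have h1 := (hseq n).2.2.2.1 ⟨le_rfl, (hseq n).2.1.le⟩
    rw [hK] at h1
    obtain ⟨s, hs, hps⟩ := h1
    exact ⟨s, hs, hps⟩
  choose f hfS hfp using hmem
  have hinj : Function.Injective f := by
    intro m n hmn
    by_contra hne
    wlog hlt : m < n generalizing m n with H
    · exact H hmn.symm (Ne.symm hne) (lt_of_le_of_ne (not_lt.1 hlt) (Ne.symm hne))
    have hsub : f m ⊆ K := by
      rw [hK]; exact Set.subset_sUnion_of_mem (hfS m)
    have h1 := ordConnected_subset_comp (hseq m).1 (hseq m).2.2.1 (hseq m).2.2.2.2.1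
      (hseq m).2.2.2.2.2.1 (hord _ (hfS m)) hsub (hfp m) le_rfl (hseq m).2.1.le
    have h2 : p n ∈ f m := by rw [hmn]; exact hfp n
    have h3 := (h1 h2).1
    exact absurd h3 (not_le.2 (hanti hlt))
  have : Set.Infinite S := (Set.infinite_range_of_injective hinj).mono (by
    rintro _ ⟨n, rfl⟩; exact hfS n)
  exact this hfin

theorem IsoSeq.not_cantorval {K : Set ℝ} (h : IsoSeq K) : ¬ IsCantorval K := by
  rintro ⟨-, -, -, hno⟩
  obtain ⟨g, p, q, r, hseq⟩ := h
  obtain ⟨h1, h2, h3, h4, h5, h6, -⟩ := hseq 0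
  exact hno (p 0) (h4 ⟨le_rfl, h2.le⟩) (iso_comp h1 h2.le h3 h5 h6 h4)

theorem IsoSeq.not_cantorSet {K : Set ℝ} (h : IsoSeq K) : ¬ IsCantorSet K := by
  rintro ⟨-, -, -, hnd⟩
  obtain ⟨g, p, q, r, hseq⟩ := h
  obtain ⟨h1, h2, h3, h4, h5, h6, -⟩ := hseq 0
  have hsub : Set.Ioo (p 0) (q 0) ⊆ interior (closure K) :=
    interior_maximal ((Set.Ioo_subset_Icc_self.trans h4).trans subset_closure) isOpen_Ioo
  have hne : (Set.Ioo (p 0) (q 0)).Nonempty := Set.nonempty_Ioo.2 h2
  rw [hnd] at hsub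
  exact Set.not_nonempty_empty (hne.mono hsub)

/-- A set with infinitely many components has infinitely many isolated components here:
consecutive components `[p n, q n]` are distinct connected components of `K`. -/
theorem IsoSeq.infinite_components {K : Set ℝ} (h : IsoSeq K) :
    {C : Set ℝ | ∃ x ∈ K, C = connectedComponentIn K x ∧ IsIsolatedComponent K x ∧
      (interior C).Nonempty}.Infinite := by
  obtain ⟨g, p, q, r, hseq⟩ := h
  have hpq : ∀ n, p (n + 1) < p n := fun n => by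
    have h1 := (hseq n).2.2.2.2.2.2
    have h2 := (hseq (n + 1)).2.1
    linarith
  have hanti : StrictAnti p := strictAnti_nat_of_succ_lt hpq
  have hinj : Function.Injective (fun n => connectedComponentIn K (p n)) := by
    intro m n hmn
    obtain ⟨a1, a2, a3, a4, a5, a6, -⟩ := hseq m
    obtain ⟨b1, b2, b3, b4, b5, b6, -⟩ := hseq n
    have hmn' : connectedComponentIn K (p m) = connectedComponentIn K (p n) := hmn
    rw [comp_eq a1 a2.le a3 a5 a6 a4, comp_eq b1 b2.le b3 b5 b6 b4] at hmn'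
    have c1 : p m ∈ Set.Icc (p n) (q n) := by rw [← hmn']; exact ⟨le_rfl, a2.le⟩
    have c2 : p n ∈ Set.Icc (p m) (q m) := by rw [hmn']; exact ⟨le_rfl, b2.le⟩
    exact hanti.injective (le_antisymm c2.1 c1.1)
  refine (Set.infinite_range_of_injective hinj).mono ?_
  rintro _ ⟨n, rfl⟩
  obtain ⟨a1, a2, a3, a4, a5, a6, -⟩ := hseq n
  refine ⟨p n, a4 ⟨le_rfl, a2.le⟩, rfl, iso_comp a1 a2.le a3 a5 a6 a4, ?_⟩
  show (interior (connectedComponentIn K (p n))).Nonempty
  rw [comp_eq a1 a2.le a3 a5 a6 a4, interior_Icc]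
  exact Set.nonempty_Ioo.2 a2

/-- Logical assembly: if all couplings of a nonempty open interval are bad then Q1 is false. -/
theorem not_trichotomy_of_isoSeq {a b : ℝ} (ha : 0 < a) (hab : a < b)
    (h : ∀ lam, a < lam → lam < b → IsoSeq (spec2 lam)) : ¬ Trichotomy := by
  rintro ⟨l1, l2, hl1, hl12, hA, hB, hC⟩
  -- choose a coupling in `(a,b)` different from `l1` and `l2`
  obtain ⟨x, hxa, hxb, hx1, hx2⟩ : ∃ x, a < x ∧ x < b ∧ x ≠ l1 ∧ x ≠ l2 := by
    have hinf : (Set.Ioo a b \ {l1, l2}).Infinite :=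
      (Set.Ioo_infinite hab).sdiff (Set.toFinite _)
    obtain ⟨x, ⟨h1, h2⟩, h3⟩ := hinf.nonempty
    simp only [Set.mem_insert_iff, Set.mem_singleton_iff, not_or] at h3
    exact ⟨x, h1, h2, h3.1, h3.2⟩
  have hx := h x hxa hxb
  rcases lt_or_gt_of_ne hx1 with hlt | hgt
  · exact hx.not_finiteUnion (hA x (ha.trans hxa) hlt)
  · rcases lt_or_gt_of_ne hx2 with hlt2 | hgt2
    · exact hx.not_cantorval (hB x hgt hlt2)
    · exact hx.not_cantorSet (hC x hgt2)

end Pool.Agent.H98.Fib
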