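import Pool.Agent.H98.Fib.Iso

/-!
# Final assembly, second form (helper73's reduction), problem MP_9069b3_mp

To refute the statement of Q1 at a coupling it is enough that the spectrum has
(i) infinitely many gaps separated by points of the spectrum (`InfGaps`), and
(ii) ONE isolated nondegenerate component (`OneIso`).
`GapData` is the list of inequalities needed at every scale of the chain for (i),
`IsoData` (file Iso) is needed once, for (ii).
-/

namespace Pool.Agent.H98.Fib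

/-- `K` has an isolated nondegenerate component `[p, q]`. -/
def OneIso (K : Set ℝ) : Prop :=
  ∃ g p q r : ℝ, g < p ∧ p < q ∧ q < r ∧ Set.Icc p q ⊆ K ∧
    (∀ t, g < t → t < p → t ∉ K) ∧ (∀ t, q < t → t < r → t ∉ K)

/-- `K` has infinitely many gaps `(x n, y n)`, with points `z n` of `K` between them. -/
def InfGaps (K : Set ℝ) : Prop :=
  ∃ x y z : ℕ → ℝ, ∀ n, x n < y n ∧ (∀ t, x n < t → t < y n → t ∉ K) ∧ z n ∈ K ∧ z n ≤ x n ∧
    y (n + 1) ≤ z n

theorem InfGaps.not_finiteUnion {K : Set ℝ} (h : InfGaps K) : ¬ IsFiniteUnionOfIntervals K := by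
  rintro ⟨S, hfin, hord, hK⟩
  obtain ⟨x, y, z, h⟩ := h
  have hz : ∀ n, z (n + 1) < z n := fun n => by
    have h1 := (h n).2.2.2.2
    have h2 := (h (n + 1)).2.2.2.1
    have h3 := (h (n + 1)).1
    linarith
  have hanti : StrictAnti z := strictAnti_nat_of_succ_lt hz
  have hmem : ∀ n, ∃ s ∈ S, z n ∈ s := by
    intro n
    have h1 := (h n).2.2.1
    rw [hK] at h1
    obtain ⟨s, hs, hps⟩ := h1
    exact ⟨s, hs, hps⟩
  choose f hfS hfp using hmem
  have hinj : Function.Injective f := by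
    intro m n hmn
    by_contra hne
    wlog hlt : m < n generalizing m n with H
    · exact H hmn.symm (Ne.symm hne) (lt_of_le_of_ne (not_lt.1 hlt) (Ne.symm hne))
    obtain ⟨k, rfl⟩ : ∃ k, n = k + 1 := ⟨n - 1, by omega⟩
    obtain ⟨hxy, hgap, -, hzx, -⟩ := h (k + 1)
    have hyk := (h k).2.2.2.2
    have hkm : z k ≤ z m := hanti.antitone (by omega)
    obtain ⟨t, ht1, ht2⟩ := exists_between hxy
    have h2 : z (k + 1) ∈ f m := by rw [hmn]; exact hfp (k + 1)
    have htf : t ∈ f m := (hord _ (hfS m)).out h2 (hfp m)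
      ⟨hzx.trans ht1.le, ht2.le.trans (hyk.trans hkm)⟩
    refine hgap t ht1 ht2 ?_
    rw [hK]
    exact ⟨f m, hfS m, htf⟩
  have : Set.Infinite S := (Set.infinite_range_of_injective hinj).mono (by
    rintro _ ⟨n, rfl⟩; exact hfS n)
  exact this hfin

theorem OneIso.not_cantorval {K : Set ℝ} (h : OneIso K) : ¬ IsCantorval K := by
  rintro ⟨-, -, -, hno⟩
  obtain ⟨g, p, q, r, h1, h2, h3, h4, h5, h6⟩ := h
  exact hno p (h4 ⟨le_rfl, h2.le⟩) (iso_comp h1 h2.le h3 h5 h6 h4)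

theorem OneIso.not_cantorSet {K : Set ℝ} (h : OneIso K) : ¬ IsCantorSet K := by
  rintro ⟨-, -, -, hnd⟩
  obtain ⟨g, p, q, r, h1, h2, h3, h4, h5, h6⟩ := h
  have hsub : Set.Ioo p q ⊆ interior (closure K) :=
    interior_maximal ((Set.Ioo_subset_Icc_self.trans h4).trans subset_closure) isOpen_Ioo
  rw [hnd] at hsub
  exact Set.not_nonempty_empty ((Set.nonempty_Ioo.2 h2).mono hsub)

theorem not_trichotomy_of_bad {x1 x2 x3 : ℝ} (h1 : 0 < x1) (h12 : x1 < x2) (h23 : x2 < x3)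
    (hg : ∀ x, x = x1 ∨ x = x2 ∨ x = x3 → InfGaps (spec2 x))
    (hi : ∀ x, x = x1 ∨ x = x2 ∨ x = x3 → OneIso (spec2 x)) : ¬ Trichotomy := by
  rintro ⟨l1, l2, hl1, hl12, hA, hB, hC⟩
  obtain ⟨x, hx, hx0, hxl1, hxl2⟩ : ∃ x, (x = x1 ∨ x = x2 ∨ x = x3) ∧ 0 < x ∧ x ≠ l1 ∧ x ≠ l2 := by
    by_contra hcon
    push Not at hcon
    have e1 := hcon x1 (Or.inl rfl) h1
    have e2 := hcon x2 (Or.inr (Or.inl rfl)) (h1.trans h12)
    have e3 := hcon x3 (Or.inr (Or.inr rfl)) (h1.trans (h12.trans h23))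
    by_cases a1 : x1 = l1
    · have b2 : x2 = l2 := e2 (by rintro rfl; linarith)
      have b3 : x3 = l2 := e3 (by rintro rfl; linarith)
      linarith
    · have b1 : x1 = l2 := e1 a1
      have b2 : x2 = l1 := by
        by_contra c
        have := e2 c
        linarith
      have b3 : x3 = l1 := by
        by_contra c
        have := e3 c
        linarith
      linarith
  rcases lt_or_gt_of_ne hxl1 with hlt | hgt
  · exact (hg x hx).not_finiteUnion (hA x hx0 hlt)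
  · rcases lt_or_gt_of_ne hxl2 with hlt2 | hgt2
    · exact (hi x hx).not_cantorval (hB x hgt hlt2)
    · exact (hi x hx).not_cantorSet (hC x hgt2)

/-- Interval form. -/
theorem not_trichotomy_of_bad_interval {a b : ℝ} (ha : 0 < a) (hab : a < b)
    (hg : ∀ lam, a < lam → lam < b → InfGaps (spec2 lam))
    (hi : ∀ lam, a < lam → lam < b → OneIso (spec2 lam)) : ¬ Trichotomy := by
  have hd : 0 < b - a := by linarith
  refine not_trichotomy_of_bad (x1 := a + (b - a) / 4) (x2 := a + (b - a) / 2)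
    (x3 := a + 3 * (b - a) / 4) (by linarith) (by linarith) (by linarith) ?_ ?_
  · rintro x (rfl | rfl | rfl)
    · exact hg _ (by linarith) (by linarith)
    · exact hg _ (by linarith) (by linarith)
    · exact hg _ (by linarith) (by linarith)
  · rintro x (rfl | rfl | rfl)
    · exact hi _ (by linarith) (by linarith)
    · exact hi _ (by linarith) (by linarith)
    · exact hi _ (by linarith) (by linarith)

/-- One scale gives one isolated component. -/
theorem IsoData.oneIso {K : Set ℝ} {e b1 a2 b2 a3 b3 a4 b4 a5 b6 c : ℝ}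
    (h : IsoData K e b1 a2 b2 a3 b3 a4 b4 a5 b6 c) : OneIso (SumSet K) := by
  refine ⟨max (b1 + b6) (b2 + b2), a2 + a3, b3 + b4, min (a4 + a4) (min (a3 + a5) (e + c)),
    max_lt h.h1 h.h2, ?_, lt_min h.h4 (lt_min h.h5 h.h6), h.full, h.gap1, h.gap2⟩
  linarith [h.o22, h.o23, h.o33, h.o34, h.o44]

/-- The inequalities needed at every scale for the gap
`(hi RRLL + hi RRLM, min (2 lo RRLM) (lo RRLL + lo RRLR))`; `b2 = hi RM`, `[a3,b3] = hull RRLL`,
`[a4,b4] = hull RRLM`, `a5 = lo RRLR`, `b6 = hi` of the block, `c = lo` of the next block. -/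
structure GapData (K : Set ℝ) (e b2 a3 b3 a4 b4 a5 b6 c : ℝ) : Prop where
  lower : ∀ x ∈ K, e ≤ x
  cover : ∀ x ∈ K, x ≤ b2 ∨ (a3 ≤ x ∧ x ≤ b3) ∨ (a4 ≤ x ∧ x ≤ b4) ∨ (a5 ≤ x ∧ x ≤ b6) ∨ c ≤ x
  mem3 : b3 ∈ K
  mem4 : b4 ∈ K
  o23 : b2 < a3
  o33 : a3 < b3
  o34 : b3 < a4
  o44 : a4 < b4
  o45 : b4 < a5
  o56 : a5 < b6
  o6c : b6 < c
  /-- `RM + RR` ends before the gap -/
  h3 : b2 + b6 ≤ b3 + b4
  /-- `|RRLM| < g1(RRL)` -/
  h4 : b3 + b4 < a4 + a4
  /-- `|RRLL| < g2(RRL)` -/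
  h5 : b3 + b4 < a3 + a5
  /-- the next block is far -/
  h6 : b3 + b4 < e + c

theorem GapData.gap {K : Set ℝ} {e b2 a3 b3 a4 b4 a5 b6 c : ℝ}
    (h : GapData K e b2 a3 b3 a4 b4 a5 b6 c) (t : ℝ)
    (ht1 : b3 + b4 < t) (ht2 : t < min (a4 + a4) (min (a3 + a5) (e + c))) : t ∉ SumSet K := by
  obtain ⟨hlow, hcov, -, -, o23, o33, o34, o44, o45, o56, o6c, h3, h4, h5, h6⟩ := h
  have ht3 := ht2.trans_le (min_le_left _ _)
  have ht4 := ht2.trans_le ((min_le_right _ _).trans (min_le_left _ _))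
  have ht5 := ht2.trans_le ((min_le_right _ _).trans (min_le_right _ _))
  rintro ⟨x, hx, y, hy, rfl⟩
  have lx := hlow x hx
  have ly := hlow y hy
  rcases hcov x hx with cx | ⟨cx, cx'⟩ | ⟨cx, cx'⟩ | ⟨cx, cx'⟩ | cx <;>
  rcases hcov y hy with cy | ⟨cy, cy'⟩ | ⟨cy, cy'⟩ | ⟨cy, cy'⟩ | cy <;>
  linarith

/-- `GapData` at all scales gives infinitely many gaps. -/
theorem infGaps_of_gapData {K : Set ℝ} {e : ℝ} {b2 a3 b3 a4 b4 a5 b6 c : ℕ → ℝ}
    (h : ∀ n, GapData K e (b2 n) (a3 n) (b3 n) (a4 n) (b4 n) (a5 n) (b6 n) (c n))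
    (hs : ∀ n, b6 (n + 1) ≤ b2 n) : InfGaps (SumSet K) := by
  refine ⟨fun n => b3 n + b4 n, fun n => min (a4 n + a4 n) (min (a3 n + a5 n) (e + c n)),
    fun n => b3 n + b4 n, fun n => ?_⟩
  have hn := h n
  have hn1 := h (n + 1)
  refine ⟨lt_min hn.h4 (lt_min hn.h5 hn.h6), hn.gap, ⟨_, hn.mem3, _, hn.mem4, rfl⟩, le_rfl, ?_⟩
  refine (min_le_left _ _).trans ?_
  have := hs n
  linarith [hn1.o44, hn1.o45, hn1.o56, hn.o23, hn.o33, hn.o34, hn.o44]

end Pool.Agent.H98.Fib
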