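import Pool.Agent.H98.Fib.Assembly3

/-!
# The final statement (problem MP_9069b3_mp)
-/

namespace Pool.Agent.H98.Fib

theorem OneIso.exists_isolated {K : Set ℝ} (h : OneIso K) :
    ∃ x ∈ K, IsIsolatedComponent K x ∧ (interior (connectedComponentIn K x)).Nonempty := by
  obtain ⟨g, p, q, r, h1, h2, h3, h4, h5, h6⟩ := h
  refine ⟨p, h4 ⟨le_rfl, h2.le⟩, iso_comp h1 h2.le h3 h5 h6 h4, ?_⟩
  rw [comp_eq h1 h2.le h3 h5 h6 h4, interior_Icc]
  exact Set.nonempty_Ioo.2 h2

/-- All couplings near `1.394` are bad: the answer to Q1 and what happens at these couplings. -/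
theorem final_of_bad (h : ∀ lam : ℝ, |lam - 1394 / 1000| ≤ 1 / 1000000000 → BadCoupling lam) :
    ¬ Trichotomy ∧ ∀ lam : ℝ, |lam - 1394 / 1000| ≤ 1 / 1000000000 →
      ¬ IsFiniteUnionOfIntervals (spec2 lam) ∧ ¬ IsCantorval (spec2 lam) ∧
      ¬ IsCantorSet (spec2 lam) ∧ ∃ x ∈ spec2 lam, IsIsolatedComponent (spec2 lam) x ∧
        (interior (connectedComponentIn (spec2 lam) x)).Nonempty := by
  constructor
  · exact not_trichotomy_of_badCoupling (a := 1394 / 1000 - 1 / 1000000000)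
      (b := 1394 / 1000 + 1 / 1000000000) (by norm_num) (by norm_num) fun lam ha hb =>
        h lam (by rw [abs_le]; constructor <;> linarith)
  · intro lam hl
    obtain ⟨hg, hi⟩ := (h lam hl).spec
    exact ⟨hg.not_finiteUnion, hi.not_cantorval, hi.not_cantorSet, hi.exists_isolated⟩

end Pool.Agent.H98.Fib
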