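import Pool.Agent.H98.Fib.Final

/-!
# The isolated component at one scale (problem MP_9069b3_mp), abstract form

Near its minimum `e` the set `K` (one block `B` of the scale in question and what lies above it)
is contained in

`[e, b1] ∪ [a2, b2] ∪ [a3, b3] ∪ [a4, b4] ∪ [a5, b6] ∪ [c, ∞)`

where, with `L, M, R` the children, `b1 = hi(RL)`, `[a2,b2] = hull RM`, `[a3,b3] = hull RRLL`,
`[a4,b4] = hull RRLM`, `a5 = lo(RRLR)`, `b6 = hi(B)`, `c = lo` of the next block.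
The isolated component of `K + K` is `[a2 + a3, b3 + b4]`.
-/

namespace Pool.Agent.H98.Fib

/-- The sum set. -/
def SumSet (K : Set ℝ) : Set ℝ := {z : ℝ | ∃ x ∈ K, ∃ y ∈ K, z = x + y}

/-- Data of one scale. -/
structure IsoData (K : Set ℝ) (e b1 a2 b2 a3 b3 a4 b4 a5 b6 c : ℝ) : Prop where
  lower : ∀ x ∈ K, e ≤ x
  cover : ∀ x ∈ K, x ≤ b1 ∨ (a2 ≤ x ∧ x ≤ b2) ∨ (a3 ≤ x ∧ x ≤ b3) ∨ (a4 ≤ x ∧ x ≤ b4) ∨
    (a5 ≤ x ∧ x ≤ b6) ∨ c ≤ x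
  o12 : b1 < a2
  o22 : a2 < b2
  o23 : b2 < a3
  o33 : a3 < b3
  o34 : b3 < a4
  o44 : a4 < b4
  o45 : b4 < a5
  o56 : a5 < b6
  o6c : b6 < c
  /-- `|RR| < g1(R)` -/
  h1 : b1 + b6 < a2 + a3
  /-- `|RM| < g2(R)` -/
  h2 : b2 + b2 < a2 + a3
  /-- `RM + RR` ends before the component ends -/
  h3 : b2 + b6 ≤ b3 + b4
  /-- `|RRLM| < g1(RRL)` -/
  h4 : b3 + b4 < a4 + a4
  /-- `|RRLL| < g2(RRL)` -/
  h5 : b3 + b4 < a3 + a5
  /-- the next block is far -/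
  h6 : b3 + b4 < e + c
  /-- the two full sums overlap -/
  h7 : a3 + a4 ≤ b2 + b6
  /-- coverage of `RM + RR` -/
  full1 : Set.Icc (a2 + a3) (b2 + b6) ⊆ SumSet K
  /-- coverage of `RRLL + RRLM` -/
  full2 : Set.Icc (a3 + a4) (b3 + b4) ⊆ SumSet K

theorem IsoData.gap1 {K : Set ℝ} {e b1 a2 b2 a3 b3 a4 b4 a5 b6 c : ℝ}
    (h : IsoData K e b1 a2 b2 a3 b3 a4 b4 a5 b6 c) (t : ℝ)
    (ht1 : max (b1 + b6) (b2 + b2) < t) (ht2 : t < a2 + a3) : t ∉ SumSet K := by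
  obtain ⟨hlow, hcov, o12, o22, o23, o33, o34, o44, o45, o56, o6c, h1, h2, h3, h4, h5, h6, h7, -, -⟩
    := h
  have ht3 := (le_max_left _ _).trans_lt ht1
  have ht4 := (le_max_right _ _).trans_lt ht1
  rintro ⟨x, hx, y, hy, rfl⟩
  have lx := hlow x hx
  have ly := hlow y hy
  rcases hcov x hx with cx | ⟨cx, cx'⟩ | ⟨cx, cx'⟩ | ⟨cx, cx'⟩ | ⟨cx, cx'⟩ | cx <;>
  rcases hcov y hy with cy | ⟨cy, cy'⟩ | ⟨cy, cy'⟩ | ⟨cy, cy'⟩ | ⟨cy, cy'⟩ | cy <;>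
  linarith

theorem IsoData.gap2 {K : Set ℝ} {e b1 a2 b2 a3 b3 a4 b4 a5 b6 c : ℝ}
    (h : IsoData K e b1 a2 b2 a3 b3 a4 b4 a5 b6 c) (t : ℝ)
    (ht1 : b3 + b4 < t) (ht2 : t < min (a4 + a4) (min (a3 + a5) (e + c))) : t ∉ SumSet K := by
  obtain ⟨hlow, hcov, o12, o22, o23, o33, o34, o44, o45, o56, o6c, h1, h2, h3, h4, h5, h6, h7, -, -⟩
    := h
  have ht3 := ht2.trans_le (min_le_left _ _)
  have ht4 := ht2.trans_le ((min_le_right _ _).trans (min_le_left _ _))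
  have ht5 := ht2.trans_le ((min_le_right _ _).trans (min_le_right _ _))
  rintro ⟨x, hx, y, hy, rfl⟩
  have lx := hlow x hx
  have ly := hlow y hy
  rcases hcov x hx with cx | ⟨cx, cx'⟩ | ⟨cx, cx'⟩ | ⟨cx, cx'⟩ | ⟨cx, cx'⟩ | cx <;>
  rcases hcov y hy with cy | ⟨cy, cy'⟩ | ⟨cy, cy'⟩ | ⟨cy, cy'⟩ | ⟨cy, cy'⟩ | cy <;>
  linarith

theorem IsoData.full {K : Set ℝ} {e b1 a2 b2 a3 b3 a4 b4 a5 b6 c : ℝ}
    (h : IsoData K e b1 a2 b2 a3 b3 a4 b4 a5 b6 c) :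
    Set.Icc (a2 + a3) (b3 + b4) ⊆ SumSet K := by
  intro t ht
  rcases le_total t (b2 + b6) with h1 | h1
  · exact h.full1 ⟨ht.1, h1⟩
  · exact h.full2 ⟨h.h7.trans h1, ht.2⟩

/-- If `K` has the structure of `IsoData` at infinitely many scales then `K + K` has infinitely many
isolated nondegenerate components. -/
theorem isoSeq_of_isoData {K : Set ℝ} {e : ℝ} {b1 a2 b2 a3 b3 a4 b4 a5 b6 c : ℕ → ℝ}
    (h : ∀ n, IsoData K e (b1 n) (a2 n) (b2 n) (a3 n) (b3 n) (a4 n) (b4 n) (a5 n) (b6 n) (c n))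
    (hs : ∀ n, b6 (n + 1) < a2 n) : IsoSeq (SumSet K) := by
  refine ⟨fun n => max (b1 n + b6 n) (b2 n + b2 n), fun n => a2 n + a3 n, fun n => b3 n + b4 n,
    fun n => min (a4 n + a4 n) (min (a3 n + a5 n) (e + c n)), fun n => ?_⟩
  have hn := h n
  have hn1 := h (n + 1)
  refine ⟨max_lt hn.h1 hn.h2, ?_, lt_min hn.h4 (lt_min hn.h5 hn.h6), hn.full, hn.gap1, hn.gap2, ?_⟩
  · show a2 n + a3 n < b3 n + b4 n
    linarith [hn.o22, hn.o23, hn.o33, hn.o34, hn.o44]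
  · show b3 (n + 1) + b4 (n + 1) < a2 n + a3 n
    have := hs n
    linarith [hn1.o34, hn1.o44, hn1.o45, hn1.o56, hn.o22, hn.o23]

end Pool.Agent.H98.Fib
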