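import Mathlib

/-!
# Real interval arithmetic with explicit numeral ends
-/

namespace Pool.Agent.H98.Fib.IvR

variable {a b la ua lb ub : ℝ}

theorem add (c d : ℝ) (ha : la ≤ a ∧ a ≤ ua) (hb : lb ≤ b ∧ b ≤ ub) (h1 : c ≤ la + lb)
    (h2 : ua + ub ≤ d) : c ≤ a + b ∧ a + b ≤ d :=
  ⟨h1.trans (add_le_add ha.1 hb.1), (add_le_add ha.2 hb.2).trans h2⟩

theorem sub (c d : ℝ) (ha : la ≤ a ∧ a ≤ ua) (hb : lb ≤ b ∧ b ≤ ub) (h1 : c ≤ la - ub)
    (h2 : ua - lb ≤ d) : c ≤ a - b ∧ a - b ≤ d :=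
  ⟨h1.trans (sub_le_sub ha.1 hb.2), (sub_le_sub ha.2 hb.1).trans h2⟩

theorem mul (c d : ℝ) (ha : la ≤ a ∧ a ≤ ua) (hb : lb ≤ b ∧ b ≤ ub)
    (h1 : c ≤ la * lb) (h2 : c ≤ la * ub) (h3 : c ≤ ua * lb) (h4 : c ≤ ua * ub)
    (g1 : la * lb ≤ d) (g2 : la * ub ≤ d) (g3 : ua * lb ≤ d) (g4 : ua * ub ≤ d) :
    c ≤ a * b ∧ a * b ≤ d := by
  obtain ⟨a1, a2⟩ := ha
  obtain ⟨b1, b2⟩ := hb
  constructor
  · rcases le_total 0 a with h | h
    · have e : a * lb ≤ a * b := mul_le_mul_of_nonneg_left b1 h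
      rcases le_total 0 lb with g | g
      · have : la * lb ≤ a * lb := mul_le_mul_of_nonneg_right a1 g
        linarith
      · have : ua * lb ≤ a * lb := mul_le_mul_of_nonpos_right a2 g
        linarith
    · have e : a * ub ≤ a * b := mul_le_mul_of_nonpos_left b2 h
      rcases le_total 0 ub with g | g
      · have : la * ub ≤ a * ub := mul_le_mul_of_nonneg_right a1 g
        linarith
      · have : ua * ub ≤ a * ub := mul_le_mul_of_nonpos_right a2 g
        linarith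
  · rcases le_total 0 a with h | h
    · have e : a * b ≤ a * ub := mul_le_mul_of_nonneg_left b2 h
      rcases le_total 0 ub with g | g
      · have : a * ub ≤ ua * ub := mul_le_mul_of_nonneg_right a2 g
        linarith
      · have : a * ub ≤ la * ub := mul_le_mul_of_nonpos_right a1 g
        linarith
    · have e : a * b ≤ a * lb := mul_le_mul_of_nonpos_left b1 h
      rcases le_total 0 lb with g | g
      · have : a * lb ≤ ua * lb := mul_le_mul_of_nonneg_right a2 g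
        linarith
      · have : a * lb ≤ la * lb := mul_le_mul_of_nonpos_right a1 g
        linarith

theorem inv (c d : ℝ) (hb : lb ≤ b ∧ b ≤ ub) (hpos : 0 < lb) (h1 : c * ub ≤ 1)
    (h2 : 1 ≤ d * lb) (hc : 0 ≤ c) : c ≤ b⁻¹ ∧ b⁻¹ ≤ d := by
  have hb0 : 0 < b := hpos.trans_le hb.1
  constructor
  · rw [← one_div, le_div_iff₀ hb0]
    exact (mul_le_mul_of_nonneg_left hb.2 hc).trans h1
  · rw [← one_div, div_le_iff₀ hb0]
    have hd : 0 ≤ d := by
      by_contra hd
      push Not at hd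
      have : d * lb < 0 := mul_neg_of_neg_of_pos hd hpos
      linarith
    exact h2.trans (mul_le_mul_of_nonneg_left hb.1 hd)

/-- The product of numbers of bounded absolute value. -/
theorem abs_mul_le {c : ℝ} (ha : la ≤ a ∧ a ≤ ua) (h1 : -c ≤ la) (h2 : ua ≤ c) (b : ℝ) :
    |a * b| ≤ c * |b| := by
  rw [abs_mul]
  exact mul_le_mul_of_nonneg_right (abs_le.2 ⟨h1.trans ha.1, ha.2.trans h2⟩) (abs_nonneg b)

end Pool.Agent.H98.Fib.IvR
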