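import Mathlib

/-!
# Lengths from bounds of `ν = -Z''/Z'^2` (problem MP_9069b3_mp)

`Z` is a function of the energy `E` with derivatives `Z1 > 0`, `Z2` on `[a, b]`; `g > 0` is a model
of `1/Z1` as a function of `z = Z E`: `|ν g - g'| ≤ ε g`.  Then `c E = 1/(Z1 E * g (Z E))` is
almost constant (`logc_lip`) and the length of an energy interval is `(G (Z e2) - G (Z e1)) * c ξ`
(`len_mvt`), where `G' = g`.
-/

namespace Pool.Agent.H98.Fib.Len

/-- The hypotheses on the energy interval `[a, b]`. -/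
structure Dat (Z Z1 Z2 g g' : ℝ → ℝ) (ε a b : ℝ) : Prop where
  hZ : ∀ E, a ≤ E → E ≤ b → HasDerivAt Z (Z1 E) E
  hZ1 : ∀ E, a ≤ E → E ≤ b → HasDerivAt Z1 (Z2 E) E
  pos : ∀ E, a ≤ E → E ≤ b → 0 < Z1 E
  hg : ∀ E, a ≤ E → E ≤ b → HasDerivAt g (g' (Z E)) (Z E)
  gpos : ∀ E, a ≤ E → E ≤ b → 0 < g (Z E)
  hν : ∀ E, a ≤ E → E ≤ b → |(-Z2 E / Z1 E ^ 2) * g (Z E) - g' (Z E)| ≤ ε * g (Z E)

variable {Z Z1 Z2 g g' : ℝ → ℝ} {ε a b : ℝ}

/-- `1/(Z' g(Z))`. -/
noncomputable def c (Z Z1 g : ℝ → ℝ) (E : ℝ) : ℝ := (Z1 E * g (Z E))⁻¹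

theorem Dat.c_pos (H : Dat Z Z1 Z2 g g' ε a b) {E : ℝ} (h1 : a ≤ E) (h2 : E ≤ b) :
    0 < c Z Z1 g E := inv_pos.2 (mul_pos (H.pos E h1 h2) (H.gpos E h1 h2))

theorem Dat.deriv_logc (H : Dat Z Z1 Z2 g g' ε a b) {E : ℝ} (h1 : a ≤ E) (h2 : E ≤ b) :
    HasDerivAt (fun E => Real.log (c Z Z1 g E))
      (-(Z2 E / Z1 E) - g' (Z E) * Z1 E / g (Z E)) E := by
  have p1 := (H.pos E h1 h2).ne'
  have p2 := (H.gpos E h1 h2).ne'
  have d1 := (H.hZ1 E h1 h2).log p1
  have d2 := ((H.hg E h1 h2).comp E (H.hZ E h1 h2)).log p2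
  have d3 := (d1.add d2).neg
  have e : (fun E => Real.log (c Z Z1 g E)) =ᶠ[nhds E]
      fun E => -(Real.log (Z1 E) + Real.log ((g ∘ Z) E)) := by
    have c1 : ∀ᶠ x in nhds E, Z1 x ≠ 0 := (H.hZ1 E h1 h2).continuousAt.eventually_ne p1
    have c2 : ∀ᶠ x in nhds E, (g ∘ Z) x ≠ 0 :=
      ((H.hg E h1 h2).comp E (H.hZ E h1 h2)).continuousAt.eventually_ne p2
    filter_upwards [c1, c2] with x x1 x2
    show Real.log ((Z1 x * g (Z x))⁻¹) = _
    have x2' : g (Z x) ≠ 0 := x2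
    rw [Real.log_inv, Real.log_mul x1 x2']
    rfl
  refine (d3.congr_of_eventuallyEq e).congr_deriv ?_
  show -(Z2 E / Z1 E + g' (Z E) * Z1 E / g (Z E)) = _
  ring

theorem Dat.mono (H : Dat Z Z1 Z2 g g' ε a b) {a' b' : ℝ} (h1 : a ≤ a') (h2 : b' ≤ b) :
    Dat Z Z1 Z2 g g' ε a' b' where
  hZ := fun E h3 h4 => H.hZ E (h1.trans h3) (h4.trans h2)
  hZ1 := fun E h3 h4 => H.hZ1 E (h1.trans h3) (h4.trans h2)
  pos := fun E h3 h4 => H.pos E (h1.trans h3) (h4.trans h2)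
  hg := fun E h3 h4 => H.hg E (h1.trans h3) (h4.trans h2)
  gpos := fun E h3 h4 => H.gpos E (h1.trans h3) (h4.trans h2)
  hν := fun E h3 h4 => H.hν E (h1.trans h3) (h4.trans h2)

/-- `Z` is increasing on `[a, b]`. -/
theorem Dat.Z_mono (H : Dat Z Z1 Z2 g g' ε a b) {E E' : ℝ} (h1 : a ≤ E) (h2 : E ≤ E')
    (h3 : E' ≤ b) : Z E ≤ Z E' := by
  have : MonotoneOn Z (Set.Icc a b) := by
    refine monotoneOn_of_deriv_nonneg (convex_Icc a b) ?_ ?_ ?_
    · exact fun x hx => (H.hZ x hx.1 hx.2).continuousAt.continuousWithinAt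
    · intro x hx
      have := interior_subset hx
      exact (H.hZ x this.1 this.2).differentiableAt.differentiableWithinAt
    · intro x hx
      have := interior_subset hx
      rw [(H.hZ x this.1 this.2).deriv]
      exact (H.pos x this.1 this.2).le
  exact this ⟨h1, h2.trans h3⟩ ⟨h1.trans h2, h3⟩ h2

/-- `log c` is Lipschitz in `Z` with constant `ε`. -/
theorem Dat.logc_lip (H : Dat Z Z1 Z2 g g' ε a b) {E E' : ℝ} (h1 : a ≤ E) (h2 : E ≤ E')
    (h3 : E' ≤ b) :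
    |Real.log (c Z Z1 g E') - Real.log (c Z Z1 g E)| ≤ ε * (Z E' - Z E) := by
  have key : ∀ s : ℝ, |s| = 1 →
      s * (Real.log (c Z Z1 g E') - Real.log (c Z Z1 g E)) ≤ ε * (Z E' - Z E) := by
    intro s hs
    have hm : MonotoneOn (fun x => ε * Z x - s * Real.log (c Z Z1 g x)) (Set.Icc a b) := by
      have hd : ∀ x ∈ Set.Icc a b, HasDerivAt (fun x => ε * Z x - s * Real.log (c Z Z1 g x))
          (ε * Z1 x - s * (-(Z2 x / Z1 x) - g' (Z x) * Z1 x / g (Z x))) x := fun x hx =>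
        ((H.hZ x hx.1 hx.2).const_mul ε).sub ((H.deriv_logc hx.1 hx.2).const_mul s)
      refine monotoneOn_of_deriv_nonneg (convex_Icc a b) ?_ ?_ ?_
      · exact fun x hx => (hd x hx).continuousAt.continuousWithinAt
      · exact fun x hx => (hd x (interior_subset hx)).differentiableAt.differentiableWithinAt
      · intro x hx
        have hx' := interior_subset hx
        rw [(hd x hx').deriv]
        have p1 := H.pos x hx'.1 hx'.2
        have p2 := H.gpos x hx'.1 hx'.2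
        have hn := H.hν x hx'.1 hx'.2
        have e : -(Z2 x / Z1 x) - g' (Z x) * Z1 x / g (Z x) =
            ((-Z2 x / Z1 x ^ 2) * g (Z x) - g' (Z x)) * (Z1 x / g (Z x)) := by
          field_simp
        rw [e]
        have h5 : s * (((-Z2 x / Z1 x ^ 2) * g (Z x) - g' (Z x)) * (Z1 x / g (Z x))) ≤
            ε * Z1 x := by
          have q := le_abs_self
            (s * (((-Z2 x / Z1 x ^ 2) * g (Z x) - g' (Z x)) * (Z1 x / g (Z x))))
          rw [abs_mul, hs, one_mul, abs_mul, abs_of_pos (div_pos p1 p2)] at q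
          refine q.trans ?_
          have q2 := mul_le_mul_of_nonneg_right hn (div_pos p1 p2).le
          refine q2.trans (le_of_eq ?_)
          field_simp
        linarith
    have := hm ⟨h1, h2.trans h3⟩ ⟨h1.trans h2, h3⟩ h2
    simp only at this
    linarith
  rw [abs_le]
  constructor
  · have := key (-1) (by simp)
    linarith
  · have := key 1 (by simp)
    linarith

/-- The same without order of the points. -/
theorem Dat.logc_lip' (H : Dat Z Z1 Z2 g g' ε a b) {E E' : ℝ} (h1 : a ≤ E) (h2 : E ≤ b)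
    (h3 : a ≤ E') (h4 : E' ≤ b) :
    |Real.log (c Z Z1 g E') - Real.log (c Z Z1 g E)| ≤ ε * |Z E' - Z E| := by
  rcases le_total E E' with h | h
  · rw [abs_of_nonneg (sub_nonneg.2 (H.Z_mono h1 h h4))]
    exact H.logc_lip h1 h h4
  · rw [abs_sub_comm, abs_sub_comm (Z E'), abs_of_nonneg (sub_nonneg.2 (H.Z_mono h3 h h2))]
    exact H.logc_lip h3 h h2

/-- The length of an energy interval. -/
theorem Dat.len_mvt (H : Dat Z Z1 Z2 g g' ε a b) {G : ℝ → ℝ}
    (hG : ∀ E, a ≤ E → E ≤ b → HasDerivAt G (g (Z E)) (Z E)) (hab : a < b) :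
    ∃ ξ, a < ξ ∧ ξ < b ∧ b - a = (G (Z b) - G (Z a)) * c Z Z1 g ξ := by
  obtain ⟨ξ, hξ, h⟩ := exists_hasDerivAt_eq_slope (fun E => G (Z E))
    (fun E => g (Z E) * Z1 E) hab
    (fun x hx => ((hG x hx.1 hx.2).comp x (H.hZ x hx.1 hx.2)).continuousAt.continuousWithinAt)
    (fun x hx => (hG x hx.1.le hx.2.le).comp x (H.hZ x hx.1.le hx.2.le))
  refine ⟨ξ, hξ.1, hξ.2, ?_⟩
  have p1 := H.pos ξ hξ.1.le hξ.2.le
  have p2 := H.gpos ξ hξ.1.le hξ.2.le
  have hba : 0 < b - a := sub_pos.2 hab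
  unfold c
  rw [eq_div_iff hba.ne'] at h
  have p3 : Z1 ξ * g (Z ξ) ≠ 0 := (mul_pos p1 p2).ne'
  rw [← h]
  field_simp

/-- Two-sided bounds of the length of an energy interval. -/
theorem Dat.len_bounds (H : Dat Z Z1 Z2 g g' ε a b) {G : ℝ → ℝ}
    (hG : ∀ E, a ≤ E → E ≤ b → HasDerivAt G (g (Z E)) (Z E)) (hab : a < b) {c0 η : ℝ}
    (hc0 : 0 < c0) {E0 : ℝ} (h1 : a ≤ E0) (h2 : E0 ≤ b)
    (hη : |Real.log (c Z Z1 g E0) - Real.log c0| ≤ η) (hε : 0 ≤ ε) :
    (G (Z b) - G (Z a)) * c0 * Real.exp (-(η + ε * (Z b - Z a))) ≤ b - a ∧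
      b - a ≤ (G (Z b) - G (Z a)) * c0 * Real.exp (η + ε * (Z b - Z a)) := by
  obtain ⟨ξ, x1, x2, h⟩ := H.len_mvt hG hab
  have hcξ := H.c_pos x1.le x2.le
  have l1 := H.logc_lip' h1 h2 x1.le x2.le
  have l2 : |Z ξ - Z E0| ≤ Z b - Z a := by
    rw [abs_le]
    have m1 := H.Z_mono (le_refl a) x1.le x2.le
    have m2 := H.Z_mono x1.le x2.le (le_refl b)
    have m3 := H.Z_mono (le_refl a) h1 h2
    have m4 := H.Z_mono h1 h2 (le_refl b)
    constructor <;> linarith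
  have l3 : |Real.log (c Z Z1 g ξ) - Real.log c0| ≤ η + ε * (Z b - Z a) := by
    have e : Real.log (c Z Z1 g ξ) - Real.log c0 = (Real.log (c Z Z1 g E0) - Real.log c0) +
        (Real.log (c Z Z1 g ξ) - Real.log (c Z Z1 g E0)) := by ring
    rw [e]
    refine (abs_add_le _ _).trans (add_le_add hη (l1.trans ?_))
    exact mul_le_mul_of_nonneg_left l2 hε
  have l4 := abs_le.1 l3
  have hGpos : 0 ≤ G (Z b) - G (Z a) := by
    by_contra hc
    push Not at hc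
    have : b - a < 0 := by
      rw [h]
      exact mul_neg_of_neg_of_pos hc hcξ
    linarith
  have e1 : c Z Z1 g ξ = c0 * Real.exp (Real.log (c Z Z1 g ξ) - Real.log c0) := by
    rw [Real.exp_sub, Real.exp_log hcξ, Real.exp_log hc0]
    field_simp
  rw [h]
  constructor
  · rw [mul_assoc]
    refine mul_le_mul_of_nonneg_left ?_ hGpos
    rw [e1]
    exact mul_le_mul_of_nonneg_left (Real.exp_le_exp.2 (by linarith)) hc0.le
  · rw [mul_assoc]
    refine mul_le_mul_of_nonneg_left ?_ hGpos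
    rw [e1]
    exact mul_le_mul_of_nonneg_left (Real.exp_le_exp.2 (by linarith)) hc0.le

end Pool.Agent.H98.Fib.Len
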