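import Pool.Agent.H98.Fib.RootJet
import Pool.Agent.H20.Fib.Blk

/-!
# The root block lies in the tube of its class (problem MP_9069b3_mp)

The energies of the root block `b = aL` (frame `fb = (3; -1, -1, 1)`) are cut into pieces
`[a, a + 2h] / 2^40`; on every piece the Taylor models `rv` of `X, sig, tau, nu` are compared with
the polynomials of the cell `k` of the class `c` (parameters `u = 0`, `eta = 0`).  The pieces of the
cell `k` cover the energies with `|τ| ≤ 13/8`.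
-/

namespace Pool.Agent.H98.Fib.RootJet

open Pool.Agent.H98.Fib (xs)
open Pool.Agent.H20.Fib
open TM

/-- the position of the values `r` in the cell `k` -/
def rpos (c : Cls) (k : ℕ) (r : RV) : TM := tauOf r.Z (c.mid k)

def rcell2 (d : CellD) (x1 x3 : TM) (r : RV) : Bool :=
  magLe (sub r.X (ev6 d.fX x1 (const 0) x3 (const 0) (const 0))) d.rX &&
  magLe (sub r.S (ev6 d.fS x1 (const 0) x3 (const 0) (const 0))) d.rS &&
  magLe (sub r.T (ev6 d.fT x1 (const 0) x3 (const 0) (const 0))) d.rT &&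
  magLe (sub r.N (ev6 d.fN x1 (const 0) x3 (const 0) (const 0))) d.rN

def rcell1 (d : CellD) (x1 : TM) (r : RV) : Bool := rcell2 d x1 (mul x1 x1) r

/-- comparison with the cell `k` -/
def rcell (c : Cls) (k : ℕ) (r : RV) : Bool := rcell1 (c.cell k) (rpos c k r) r

/-- the pieces `[a, a + 2h]`, ... of the cell `k` -/
def rchain (c : Cls) (k : ℕ) (EL ER : ℤ) : ℤ → List ℕ → Bool
  | a, [] => decide (ER < a) || (decide (EL ≤ a) && ge (rv (const a)).Z (c.mid k + 27917287425))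
  | a, h :: t => rcell c k (rv (lin (a + h) h 0)) && rchain c k EL ER (a + 2 * h) t

def rleft (c : Cls) (k : ℕ) (EL ER a : ℤ) : Bool :=
  decide (a ≤ EL) || (decide (a ≤ ER) && le (rv (const a)).Z (c.mid k - 27917287424))

/-- all cells from `k` on -/
def rall (c : Cls) (EL ER : ℤ) : ℕ → List (ℤ × List ℕ) → Bool
  | k, [] => Nat.ble c.len k
  | k, (a, hs) :: t => rleft c k EL ER a && rchain c k EL ER a hs && rall c EL ER (k + 1) t

/-- positivity on the pieces -/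
def rpos1 (r : RV) : Bool := ge r.g 1099511627776 && ge (sub r.Y (mul r.X r.Z)) 1

def pchain (ER : ℤ) : ℤ → List ℕ → Bool
  | a, [] => decide (ER ≤ a)
  | a, h :: t => rpos1 (rv (lin (a + h) h 0)) && pchain ER (a + 2 * h) t

/-- the complete check -/
def rootCheck (c : Cls) (EL A B ER : ℤ) (ps : List ℕ) (cs : List (ℤ × List ℕ)) : Bool :=
  decide (EL ≤ A) && decide (A < B) && decide (B ≤ ER) &&
  le (rv (const EL)).Z c.p && ge (rv (const A)).Z c.p &&
  le (rv (const B)).Z c.hi && ge (rv (const ER)).Z c.hi &&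
  pchain ER EL ps && rall c EL ER 0 cs

/-- the environment with `T = t`, other symbols zero -/
def envT (t : ℝ) (ht : |t| ≤ 1) : Env :=
  ⟨t, 0, 0, 0, 0, ht, by norm_num, by norm_num, by norm_num, by norm_num⟩

theorem exists_env {a : ℤ} {h : ℕ} {E : ℝ} (h1 : (a : ℝ) ≤ E * 2 ^ 40)
    (h2 : E * 2 ^ 40 ≤ ((a + 2 * h : ℤ) : ℝ)) : ∃ ρ : Env, Rep ρ (lin (a + h) h 0) E := by
  push_cast at h2
  rcases Nat.eq_zero_or_pos h with h0 | h0
  · subst h0
    refine ⟨envT 0 (by norm_num), ImgRep_cast rep_lin ?_⟩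
    push_cast
    push_cast at h2
    simp only [envT]
    have : E * 2 ^ 40 = a := le_antisymm (by linarith) h1
    rw [div_eq_iff (by norm_num)]
    linarith
  · have hp : (0 : ℝ) < h := by exact_mod_cast h0
    have ht : |(E * 2 ^ 40 - (a + h)) / h| ≤ 1 := by
      rw [abs_div, abs_of_pos hp, div_le_one hp, abs_le]
      constructor <;> linarith
    refine ⟨envT _ ht, ImgRep_cast rep_lin ?_⟩
    push_cast
    simp only [envT]
    rw [div_eq_iff (by norm_num), mul_div_cancel₀ _ hp.ne']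
    ring

theorem rcell_spec {ρ : Env} {c : Cls} {k : ℕ} {r : RV} {lam E τ : ℝ} (hr : RepV ρ r lam E)
    (h : rcell c k r = true) (hz : fb.Z lam E * 2 ^ 40 = c.mid k + 2 ^ 34 * τ) :
    InCls lam c 0 0 fb E k τ := by
  unfold rcell rcell1 rcell2 at h
  simp only [Bool.and_eq_true] at h
  obtain ⟨⟨⟨hX, hS⟩, hT⟩, hN⟩ := h
  have h1 : Rep ρ (rpos c k r) τ := by
    refine ImgRep_cast (rep_tauOf hr.Z) ?_
    rw [hz]
    field_simp
    ring
  have h3 : Rep ρ (mul (rpos c k r) (rpos c k r)) (τ ^ 2) := ImgRep_cast (rep_mul h1 h1) (by ring)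
  have e0 : Rep ρ (const 0) (0 : ℝ) := rep_c0
  have e4 : Rep ρ (const 0) (τ * 0) := ImgRep_cast e0 (by ring)
  have e5 : Rep ρ (const 0) ((0 : ℝ) ^ 2) := ImgRep_cast e0 (by ring)
  refine ⟨?_, ?_, ?_, ?_⟩
  · exact rep_magLe (rep_sub hr.X (rep_ev6 h1 e0 h3 e4 e5)) hX
  · exact rep_magLe (rep_sub hr.S (rep_ev6 h1 e0 h3 e4 e5)) hS
  · exact rep_magLe (rep_sub hr.T (rep_ev6 h1 e0 h3 e4 e5)) hT
  · have := rep_magLe (rep_sub hr.N (rep_ev6 h1 e0 h3 e4 e5)) hN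
    rw [zero_mul, add_zero]
    exact this

theorem rep_at (a : ℤ) : Rep (envT 0 (by norm_num)) (const a) ((a : ℝ) / 2 ^ 40) := rep_const

theorem le_at {lam : ℝ} (hl : |lam - 1394 / 1000| ≤ 1 / 1000000000) {a b : ℤ}
    (h : le (rv (const a)).Z b = true) : fb.Z lam ((a : ℝ) / 2 ^ 40) * 2 ^ 40 ≤ b :=
  rep_le (rep_rv hl (rep_at a)).Z h

theorem ge_at {lam : ℝ} (hl : |lam - 1394 / 1000| ≤ 1 / 1000000000) {a b : ℤ}
    (h : ge (rv (const a)).Z b = true) : (b : ℝ) ≤ fb.Z lam ((a : ℝ) / 2 ^ 40) * 2 ^ 40 :=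
  rep_ge (rep_rv hl (rep_at a)).Z h

theorem pchain_spec {lam : ℝ} (hl : |lam - 1394 / 1000| ≤ 1 / 1000000000) {ER : ℤ} :
    ∀ (t : List ℕ) (a : ℤ), pchain ER a t = true → ∀ E : ℝ, (a : ℝ) ≤ E * 2 ^ 40 →
      E * 2 ^ 40 ≤ ER → a < ER →
      1 ≤ fb.Z1 lam E ∧ 0 < fb.Y lam E - fb.X lam E * fb.Z lam E := by
  intro t
  induction t with
  | nil =>
    intro a h E _ _ h3
    unfold pchain at h
    rw [decide_eq_true_eq] at h
    omega
  | cons h' t ih =>
    intro a h E h1 h2 h3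
    unfold pchain at h
    rw [Bool.and_eq_true] at h
    rcases le_or_gt (E * 2 ^ 40) ((a + 2 * h' : ℤ) : ℝ) with h4 | h4
    · obtain ⟨ρ, hρ⟩ := exists_env h1 h4
      have hr := rep_rv hl hρ
      have hp := h.1
      unfold rpos1 at hp
      rw [Bool.and_eq_true] at hp
      have g1 := rep_ge hr.g hp.1
      have g2 := rep_ge (rep_sub hr.Y (rep_mul hr.X hr.Z)) hp.2
      push_cast at g1 g2
      constructor
      · linarith
      · linarith
    · refine ih (a + 2 * h') h.2 E h4.le h2 ?_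
      have : ((a + 2 * h' : ℤ) : ℝ) < ER := h4.trans_le h2
      exact_mod_cast this

section

variable {lam : ℝ} {c : Cls} {EL A B ER : ℤ} {ps : List ℕ} {cs : List (ℤ × List ℕ)}

theorem mono_of {EL ER : ℤ} (hp : ∀ E : ℝ, (EL : ℝ) ≤ E * 2 ^ 40 → E * 2 ^ 40 ≤ ER →
    1 ≤ fb.Z1 lam E ∧ 0 < fb.Y lam E - fb.X lam E * fb.Z lam E) {E E' : ℝ}
    (h1 : (EL : ℝ) ≤ E * 2 ^ 40) (h2 : E' * 2 ^ 40 ≤ ER) (h : E < E') :
    fb.Z lam E < fb.Z lam E' := by
  have hm : StrictMonoOn (fun x => fb.Z lam x) (Set.Icc E E') := by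
    refine strictMonoOn_of_deriv_pos (convex_Icc _ _) ?_ ?_
    · exact (continuous_iff_continuousAt.2 fun x =>
        (Fr.hasDerivAt_Z fb lam x).continuousAt).continuousOn
    · intro x hx
      rw [(Fr.hasDerivAt_Z fb lam x).deriv]
      have hx' := interior_subset hx
      have := (hp x (by nlinarith [hx'.1]) (by nlinarith [hx'.2])).1
      linarith
  exact hm ⟨le_refl _, h.le⟩ ⟨h.le, le_refl _⟩ h

theorem rchain_spec (hl : |lam - 1394 / 1000| ≤ 1 / 1000000000)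
    (hp : ∀ E : ℝ, (EL : ℝ) ≤ E * 2 ^ 40 → E * 2 ^ 40 ≤ ER →
      1 ≤ fb.Z1 lam E ∧ 0 < fb.Y lam E - fb.X lam E * fb.Z lam E) {k : ℕ} {E τ : ℝ}
    (h2 : E * 2 ^ 40 ≤ ER) (hτ : |τ| ≤ 13 / 8)
    (hz : fb.Z lam E * 2 ^ 40 = c.mid k + 2 ^ 34 * τ) :
    ∀ (t : List ℕ) (a : ℤ), rchain c k EL ER a t = true → (a : ℝ) ≤ E * 2 ^ 40 →
      InCls lam c 0 0 fb E k τ := by
  intro t
  induction t with
  | nil =>
    intro a h h1
    exfalso
    unfold rchain at h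
    rw [Bool.or_eq_true, Bool.and_eq_true, decide_eq_true_eq, decide_eq_true_eq] at h
    rcases h with h | ⟨h3, h4⟩
    · have : (ER : ℝ) < a := by exact_mod_cast h
      linarith
    · have g := ge_at hl h4
      have h5 : (EL : ℝ) ≤ a := by exact_mod_cast h3
      have e : (a : ℝ) / 2 ^ 40 * 2 ^ 40 = a := by field_simp
      have h6 : fb.Z lam ((a : ℝ) / 2 ^ 40) ≤ fb.Z lam E := by
        rcases eq_or_lt_of_le (show (a : ℝ) / 2 ^ 40 ≤ E by
          rw [div_le_iff₀ (by norm_num)]; exact h1) with h7 | h7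
        · rw [h7]
        · exact (mono_of hp (by rw [e]; exact h5) h2 h7).le
      have h8 := (abs_le.1 hτ).2
      push_cast at g
      nlinarith
  | cons h' t ih =>
    intro a h h1
    unfold rchain at h
    rw [Bool.and_eq_true] at h
    rcases le_or_gt (E * 2 ^ 40) ((a + 2 * h' : ℤ) : ℝ) with h4 | h4
    · obtain ⟨ρ, hρ⟩ := exists_env h1 h4
      exact rcell_spec (rep_rv hl hρ) h.1 hz
    · exact ih (a + 2 * h') h.2 h4.le

theorem rall_spec (hl : |lam - 1394 / 1000| ≤ 1 / 1000000000)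
    (hp : ∀ E : ℝ, (EL : ℝ) ≤ E * 2 ^ 40 → E * 2 ^ 40 ≤ ER →
      1 ≤ fb.Z1 lam E ∧ 0 < fb.Y lam E - fb.X lam E * fb.Z lam E) {E : ℝ}
    (h1 : (EL : ℝ) ≤ E * 2 ^ 40) (h2 : E * 2 ^ 40 ≤ ER) :
    ∀ (cs : List (ℤ × List ℕ)) (k0 : ℕ), rall c EL ER k0 cs = true →
      ∀ k, k0 ≤ k → k < c.len → ∀ τ : ℝ, |τ| ≤ 13 / 8 →
      fb.Z lam E * 2 ^ 40 = c.mid k + 2 ^ 34 * τ → InCls lam c 0 0 fb E k τ := by
  intro cs
  induction cs with
  | nil =>
    intro k0 h k hk hk2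
    unfold rall at h
    rw [Nat.ble_eq] at h
    omega
  | cons x cs ih =>
    obtain ⟨a, hs⟩ := x
    intro k0 h k hk hk2 τ hτ hz
    unfold rall at h
    rw [Bool.and_eq_true, Bool.and_eq_true] at h
    rcases Nat.eq_or_lt_of_le hk with h3 | h3
    · subst h3
      refine rchain_spec hl hp h2 hτ hz hs a h.1.2 ?_
      have h4 := h.1.1
      unfold rleft at h4
      rw [Bool.or_eq_true, Bool.and_eq_true, decide_eq_true_eq, decide_eq_true_eq] at h4
      rcases h4 with h4 | ⟨h4, h5⟩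
      · have : (a : ℝ) ≤ EL := by exact_mod_cast h4
        linarith
      · by_contra hc
        push Not at hc
        have g := le_at hl h5
        have h6 : (a : ℝ) ≤ ER := by exact_mod_cast h4
        have e : (a : ℝ) / 2 ^ 40 * 2 ^ 40 = a := by field_simp
        have h7 := mono_of hp h1 (by rw [e]; exact h6) (show E < (a : ℝ) / 2 ^ 40 by
          rw [lt_div_iff₀ (by norm_num)]; exact hc)
        have h8 := (abs_le.1 hτ).1
        push_cast at g
        nlinarith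
    · exact ih (k0 + 1) h.2 k h3 hk2 τ hτ hz

/-- **The root block.** -/
theorem root_sound (h : rootCheck c EL A B ER ps cs = true)
    (hl : |lam - 1394 / 1000| ≤ 1 / 1000000000) :
    ∃ l r : ℝ, l < r ∧ (EL : ℝ) ≤ l * 2 ^ 40 ∧ l * 2 ^ 40 ≤ A ∧ (B : ℝ) ≤ r * 2 ^ 40 ∧
      r * 2 ^ 40 ≤ ER ∧ fb.Z lam l * 2 ^ 40 = c.p ∧ fb.Z lam r * 2 ^ 40 = c.hi ∧
      ∀ E, l ≤ E → E ≤ r → PT lam c 0 0 fb E ∧ 1 ≤ fb.Z1 lam E ∧
        0 < fb.Y lam E - fb.X lam E * fb.Z lam E := by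
  unfold rootCheck at h
  simp only [Bool.and_eq_true, decide_eq_true_eq] at h
  obtain ⟨⟨⟨⟨⟨⟨⟨⟨hEA, hAB⟩, hBE⟩, c1⟩, c2⟩, c3⟩, c4⟩, hps⟩, hcs⟩ := h
  have hlt : EL < ER := by omega
  have hEA' : (EL : ℝ) ≤ A := by exact_mod_cast hEA
  have hAB' : (A : ℝ) < B := by exact_mod_cast hAB
  have hBE' : (B : ℝ) ≤ ER := by exact_mod_cast hBE
  have hp : ∀ E : ℝ, (EL : ℝ) ≤ E * 2 ^ 40 → E * 2 ^ 40 ≤ ER →
      1 ≤ fb.Z1 lam E ∧ 0 < fb.Y lam E - fb.X lam E * fb.Z lam E :=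
    fun E h1 h2 => pchain_spec hl ps EL hps E h1 h2 hlt
  have d1 := le_at hl c1
  have d2 := ge_at hl c2
  have d3 := le_at hl c3
  have d4 := ge_at hl c4
  have hcont : Continuous (fun x => fb.Z lam x * 2 ^ 40) :=
    (continuous_iff_continuousAt.2 fun x => (Fr.hasDerivAt_Z fb lam x).continuousAt).mul
      continuous_const
  have k1 : (EL : ℝ) / 2 ^ 40 ≤ (A : ℝ) / 2 ^ 40 := by gcongr
  have k2 : (A : ℝ) / 2 ^ 40 < (B : ℝ) / 2 ^ 40 := by gcongr
  have k3 : (B : ℝ) / 2 ^ 40 ≤ (ER : ℝ) / 2 ^ 40 := by gcongr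
  obtain ⟨l, hl1, hl2⟩ := intermediate_value_Icc k1 hcont.continuousOn ⟨d1, d2⟩
  obtain ⟨r, hr1, hr2⟩ := intermediate_value_Icc k3 hcont.continuousOn ⟨d3, d4⟩
  have m1 : (EL : ℝ) ≤ l * 2 ^ 40 := by
    have := hl1.1
    rwa [div_le_iff₀ (by norm_num)] at this
  have m2 : l * 2 ^ 40 ≤ A := by
    have := hl1.2
    rwa [le_div_iff₀ (by norm_num)] at this
  have m3 : (B : ℝ) ≤ r * 2 ^ 40 := by
    have := hr1.1
    rwa [div_le_iff₀ (by norm_num)] at this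
  have m4 : r * 2 ^ 40 ≤ ER := by
    have := hr1.2
    rwa [le_div_iff₀ (by norm_num)] at this
  refine ⟨l, r, (hl1.2.trans_lt k2).trans_le hr1.1, m1, m2, m3, m4, hl2, hr2, ?_⟩
  intro E h1 h2
  have n1 : (EL : ℝ) ≤ E * 2 ^ 40 := m1.trans (by gcongr)
  have n2 : E * 2 ^ 40 ≤ ER := le_trans (by gcongr) m4
  refine ⟨?_, hp E n1 n2⟩
  intro k hk τ hτ hz
  exact rall_spec hl hp n1 n2 cs 0 hcs k (Nat.zero_le k) hk τ hτ hz

end

end Pool.Agent.H98.Fib.RootJet
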