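import Pool.Agent.H20.Fib.ImgRep
import Pool.Agent.H20.Fib.Jet

/-!
# Jets of the root block `b = aL` in Taylor models (problem MP_9069b3_mp)

`jt l E n` contains Taylor models of `xs n, xs1 n, xs2 n`, `xs (n+1), ...`, `xs (n+2), ...` for the
coupling `l` and the energy `E`.  The root block is the frame `fb = (3; -1, -1, 1)`:
`X = -xs 3, Y = -xs 4, Z = xs 5`.
-/

namespace Pool.Agent.H98.Fib.RootJet

open Pool.Agent.H98.Fib (xs)
open Pool.Agent.H20.Fib

/-- jets of three consecutive members of the trace sequence -/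
structure J3 where
  a : TM
  a1 : TM
  a2 : TM
  b : TM
  b1 : TM
  b2 : TM
  c : TM
  c1 : TM
  c2 : TM

open TM

def half (x : TM) : TM := sc 549755813888 x

def jstep (j : J3) : J3 :=
  match j with
  | ⟨a, a1, a2, b, b1, b2, c, c1, c2⟩ =>
    ⟨b, b1, b2, c, c1, c2, sub (dbl (mul c b)) a, sub (dbl (add (mul c1 b) (mul c b1))) a1,
      sub (dbl (add (add (mul c2 b) (dbl (mul c1 b1))) (mul c b2))) a2⟩

def jt (l E : TM) : ℕ → J3
  | 0 => ⟨one, const 0, const 0, half E, const 549755813888, const 0, half (sub E l),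
      const 549755813888, const 0⟩
  | n + 1 => jstep (jt l E n)

/-- the models represent the jets -/
structure RepJ (ρ : Env) (j : J3) (lam E : ℝ) (n : ℕ) : Prop where
  a : Rep ρ j.a (xs lam E n)
  a1 : Rep ρ j.a1 (xs1 lam E n)
  a2 : Rep ρ j.a2 (xs2 lam E n)
  b : Rep ρ j.b (xs lam E (n + 1))
  b1 : Rep ρ j.b1 (xs1 lam E (n + 1))
  b2 : Rep ρ j.b2 (xs2 lam E (n + 1))
  c : Rep ρ j.c (xs lam E (n + 2))
  c1 : Rep ρ j.c1 (xs1 lam E (n + 2))
  c2 : Rep ρ j.c2 (xs2 lam E (n + 2))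

variable {ρ : Env}

attribute [local irreducible] TM.Rep TM.mul TM.add TM.sub TM.neg TM.inv TM.sqrt TM.one TM.nsm TM.sc
  TM.const TM.blow TM.dbl

theorem rep_dbl' {x : TM} {v : ℝ} (hx : Rep ρ x v) : Rep ρ (dbl x) (2 * v) := by
  unfold dbl
  exact rep_dbl hx

theorem rep_half {x : TM} {v : ℝ} (hx : Rep ρ x v) : Rep ρ (half x) (v / 2) := by
  refine ImgRep_cast (rep_sc hx) ?_
  push_cast
  ring

theorem rep_c0 : Rep ρ (const 0) 0 := ImgRep_cast rep_const (by norm_num)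

theorem rep_chalf : Rep ρ (const 549755813888) (1 / 2) := ImgRep_cast rep_const (by norm_num)

theorem rep_jt {l Et : TM} {lam E : ℝ} (hl : Rep ρ l lam) (hE : Rep ρ Et E) (n : ℕ) :
    RepJ ρ (jt l Et n) lam E n := by
  induction n with
  | zero =>
    refine ⟨?_, ?_, ?_, ?_, ?_, ?_, ?_, ?_, ?_⟩
    · have e : xs lam E 0 = 1 := rfl
      exact ImgRep_cast rep_one e.symm
    · have e : xs1 lam E 0 = 0 := rfl
      exact ImgRep_cast rep_c0 e.symm
    · have e : xs2 lam E 0 = 0 := rfl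
      exact ImgRep_cast rep_c0 e.symm
    · have e : xs lam E (0 + 1) = E / 2 := rfl
      exact ImgRep_cast (rep_half hE) e.symm
    · have e : xs1 lam E (0 + 1) = 1 / 2 := rfl
      exact ImgRep_cast rep_chalf e.symm
    · have e : xs2 lam E (0 + 1) = 0 := rfl
      exact ImgRep_cast rep_c0 e.symm
    · have e : xs lam E (0 + 2) = (E - lam) / 2 := rfl
      exact ImgRep_cast (rep_half (rep_sub hE hl)) e.symm
    · have e : xs1 lam E (0 + 2) = 1 / 2 := rfl
      exact ImgRep_cast rep_chalf e.symm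
    · have e : xs2 lam E (0 + 2) = 0 := rfl
      exact ImgRep_cast rep_c0 e.symm
  | succ n ih =>
    obtain ⟨ha, ha1, ha2, hb, hb1, hb2, hc, hc1, hc2⟩ := ih
    refine ⟨hb, hb1, hb2, hc, hc1, hc2, ?_, ?_, ?_⟩
    · have e : xs lam E (n + 1 + 2) = 2 * xs lam E (n + 2) * xs lam E (n + 1) - xs lam E n := rfl
      exact ImgRep_cast (rep_sub (rep_dbl' (rep_mul hc hb)) ha) (by rw [e]; ring)
    · have e : xs1 lam E (n + 1 + 2) = 2 * (xs1 lam E (n + 2) * xs lam E (n + 1) +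
          xs lam E (n + 2) * xs1 lam E (n + 1)) - xs1 lam E n := rfl
      exact ImgRep_cast (rep_sub (rep_dbl' (rep_add (rep_mul hc1 hb) (rep_mul hc hb1))) ha1)
        (by rw [e])
    · have e : xs2 lam E (n + 1 + 2) = 2 * (xs2 lam E (n + 2) * xs lam E (n + 1)
        + 2 * (xs1 lam E (n + 2) * xs1 lam E (n + 1)) + xs lam E (n + 2) * xs2 lam E (n + 1))
        - xs2 lam E n := rfl
      exact ImgRep_cast (rep_sub (rep_dbl' (rep_add (rep_add (rep_mul hc2 hb)
        (rep_dbl' (rep_mul hc1 hb1))) (rep_mul hc hb2))) ha2) (by rw [e])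

/-- the coupling `1.394 +- 10^-9` -/
def lamT : TM := blow (const 1532719209120) 1101

theorem rep_lamT {lam : ℝ} (h : |lam - 1394 / 1000| ≤ 1 / 1000000000) : Rep ρ lamT lam := by
  refine rep_blow rep_const ?_
  rw [abs_le] at h
  have h3 : |lam - ((1532719209120 : ℤ) : ℝ) / 2 ^ 40| ≤ 1101 / 2 ^ 40 := by
    rw [abs_le]
    push_cast
    constructor <;> norm_num at h ⊢ <;> linarith [h.1, h.2]
  calc _ ≤ 1101 / 2 ^ 40 * (2 : ℝ) ^ 40 := by gcongr
    _ = ((1101 : ℕ) : ℝ) := by norm_num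

/-- the frame of the root block -/
noncomputable def fb : Fr := ⟨3, -1, -1, 1⟩

theorem fb_ok : fb.ok := by
  refine ⟨Or.inr rfl, Or.inr rfl, Or.inl rfl, ?_⟩
  change (-1 : ℝ) * (-1) * 1 = 1
  norm_num

/-- values at the root block: `X, Y, Z, Z', sig, tau, nu` -/
structure RV where
  X : TM
  Y : TM
  Z : TM
  g : TM
  S : TM
  T : TM
  N : TM

def rvOf (a a1 a2 b c c1 c2 q qq : TM) : RV :=
  let S := mul (neg a1) q
  ⟨neg a, neg b, c, c1, S, sub (mul (neg a2) qq) (mul S (mul c2 qq)), neg (mul c2 qq)⟩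

def rv (Et : TM) : RV :=
  match jt lamT Et 3 with
  | ⟨a, a1, a2, b, _, _, c, c1, c2⟩ =>
    let q := inv c1
    rvOf a a1 a2 b c c1 c2 q (mul q q)

/-- the models represent the values of the root block -/
structure RepV (ρ : Env) (r : RV) (lam E : ℝ) : Prop where
  X : Rep ρ r.X (fb.X lam E)
  Y : Rep ρ r.Y (fb.Y lam E)
  Z : Rep ρ r.Z (fb.Z lam E)
  g : Rep ρ r.g (fb.Z1 lam E)
  S : Rep ρ r.S (fb.sig lam E)
  T : Rep ρ r.T (fb.tau lam E)
  N : Rep ρ r.N (fb.nu lam E)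

theorem rep_rv {Et : TM} {lam E : ℝ} (hl : |lam - 1394 / 1000| ≤ 1 / 1000000000)
    (hE : Rep ρ Et E) : RepV ρ (rv Et) lam E := by
  have h := rep_jt (rep_lamT hl) hE 3
  unfold rv
  revert h
  rcases jt lamT Et 3 with ⟨a, a1, a2, b, b1, b2, c, c1, c2⟩
  intro h
  obtain ⟨ha, ha1, ha2, hb, hb1, hb2, hc, hc1, hc2⟩ := h
  dsimp only at ha ha1 ha2 hb hb1 hb2 hc hc1 hc2
  have hq := rep_inv hc1
  have hqq := rep_mul hq hq
  have hS := rep_mul (rep_neg ha1) hq
  set s := xs1 lam E (3 + 2) with hs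
  have hZ1 : fb.Z1 lam E = s := by
    change 1 * xs1 lam E (3 + 2) = s
    rw [one_mul]
  have hX1 : fb.X1 lam E = -xs1 lam E 3 := by
    change (-1) * xs1 lam E 3 = _
    ring
  have hX2 : fb.X2 lam E = -xs2 lam E 3 := by
    change (-1) * xs2 lam E 3 = _
    ring
  have hZ2 : fb.Z2 lam E = xs2 lam E (3 + 2) := by
    change 1 * xs2 lam E (3 + 2) = _
    rw [one_mul]
  have hX : fb.X lam E = (-1) * xs lam E 3 := rfl
  have hY : fb.Y lam E = (-1) * xs lam E (3 + 1) := rfl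
  have hZ : fb.Z lam E = 1 * xs lam E (3 + 2) := rfl
  refine ⟨?_, ?_, ?_, ?_, ?_, ?_, ?_⟩
  · exact ImgRep_cast (rep_neg ha) (by rw [hX]; ring)
  · exact ImgRep_cast (rep_neg hb) (by rw [hY]; ring)
  · exact ImgRep_cast hc (by rw [hZ, one_mul])
  · exact ImgRep_cast hc1 hZ1.symm
  · refine ImgRep_cast hS ?_
    rw [Fr.sig, hX1, hZ1, div_eq_mul_inv]
  · refine ImgRep_cast (rep_sub (rep_mul (rep_neg ha2) hqq) (rep_mul hS (rep_mul hc2 hqq))) ?_
    rw [Fr.tau, hX1, hX2, hZ1, hZ2]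
    by_cases h0 : s = 0
    · rw [h0]; simp
    · field_simp
  · refine ImgRep_cast (rep_neg (rep_mul hc2 hqq)) ?_
    rw [Fr.nu, hZ1, hZ2]
    by_cases h0 : s = 0
    · rw [h0]; simp
    · field_simp

end Pool.Agent.H98.Fib.RootJet
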