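import Pool.Agent.H98.Fib.IvR
import Pool.Agent.H98.Fib.EdgeLim

/-!
# The saddle point of the trace map (problem MP_9069b3_mp): local estimates

`(x, y, x)` with `y (1 + 2 x) = x` is the fixed point of `(X, Y, Z) ↦ (Z, -W, -V)`,
`W = 2 Z Y - X`, `V = 2 W Z - Y`.  Near it, on the invariant surface, with `u = X - x`, `v = Z - x`:
`-V - x = FU u + FV v`, `|FU| ≤ 1.09`, `FV ≥ 7.62`, and Lipschitz bounds of the two partial
derivatives.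
-/

namespace Pool.Agent.H98.Fib

set_option linter.unusedVariables false

theorem saddleA {x y u v t : ℝ} (hx : -(77627 / 100000) ≤ x ∧ x ≤ -(77626 / 100000))
    (hy : 140492 / 100000 ≤ y ∧ y ≤ 140493 / 100000)
    (hu : -(1 / 100) ≤ u ∧ u ≤ 1 / 100) (hv : -(1 / 100) ≤ v ∧ v ≤ 1 / 100)
    (hR : t * (t + 2 * (y - (x + u) * (x + v))) =
      (2 * (y * (x + v)) - (x + u) - x) * u + (2 * (x * y) - (x + v) - x) * v)
    (hq : 0 < t + (y - (x + u) * (x + v))) :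
    (-(88 / 10000) ≤ t ∧ t ≤ 88 / 10000) ∧ ∃ c1 c2 : ℝ, (359 / 1000 ≤ c1 ∧ c1 ≤ 427 / 1000) ∧
      (376 / 1000 ≤ c2 ∧ c2 ≤ 409 / 1000) ∧ t = -(c1 * u + c2 * v) := by
  obtain ⟨a1, ea1⟩ : ∃ z : ℝ, z = x + u := ⟨_, rfl⟩
  have ha1 : (-(78627 / 100000)) ≤ a1 ∧ a1 ≤ (-(38313 / 50000)) := by
    rw [ea1]
    exact IvR.add _ _ hx hu (by norm_num) (by norm_num)
  obtain ⟨a2, ea2⟩ : ∃ z : ℝ, z = x + v := ⟨_, rfl⟩
  have ha2 : (-(78627 / 100000)) ≤ a2 ∧ a2 ≤ (-(38313 / 50000)) := by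
    rw [ea2]
    exact IvR.add _ _ hx hv (by norm_num) (by norm_num)
  obtain ⟨a3, ea3⟩ : ∃ z : ℝ, z = a1 * a2 := ⟨_, rfl⟩
  have ha3 : (293577 / 500000) ≤ a3 ∧ a3 ≤ (618221 / 1000000) := by
    rw [ea3]
    exact IvR.mul _ _ ha1 ha2 (by norm_num) (by norm_num) (by norm_num)
      (by norm_num) (by norm_num) (by norm_num) (by norm_num) (by norm_num)
  obtain ⟨a4, ea4⟩ : ∃ z : ℝ, z = y - a3 := ⟨_, rfl⟩
  have ha4 : (786699 / 1000000) ≤ a4 ∧ a4 ≤ (51111 / 62500) := by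
    rw [ea4]
    exact IvR.sub _ _ hy ha3 (by norm_num) (by norm_num)
  obtain ⟨a5, ea5⟩ : ∃ z : ℝ, z = y * a2 := ⟨_, rfl⟩
  have ha5 : (-(220931 / 200000)) ≤ a5 ∧ a5 ≤ (-(1076533 / 1000000)) := by
    rw [ea5]
    exact IvR.mul _ _ hy ha2 (by norm_num) (by norm_num) (by norm_num)
      (by norm_num) (by norm_num) (by norm_num) (by norm_num) (by norm_num)
  obtain ⟨a6, ea6⟩ : ∃ z : ℝ, z = 2 * a5 := ⟨_, rfl⟩
  have ha6 : (-(220931 / 100000)) ≤ a6 ∧ a6 ≤ (-(1076533 / 500000)) := by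
    rw [ea6]
    exact IvR.mul _ _ (show (2:ℝ) ≤ 2 ∧ (2:ℝ) ≤ 2 from ⟨le_refl _, le_refl _⟩) ha5 (by norm_num) (by norm_num) (by norm_num)
      (by norm_num) (by norm_num) (by norm_num) (by norm_num) (by norm_num)
  obtain ⟨a7, ea7⟩ : ∃ z : ℝ, z = a6 - a1 := ⟨_, rfl⟩
  have ha7 : (-(28861 / 20000)) ≤ a7 ∧ a7 ≤ (-(341699 / 250000)) := by
    rw [ea7]
    exact IvR.sub _ _ ha6 ha1 (by norm_num) (by norm_num)
  obtain ⟨a8, ea8⟩ : ∃ z : ℝ, z = a7 - x := ⟨_, rfl⟩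
  have ha8 : (-(66679 / 100000)) ≤ a8 ∧ a8 ≤ (-(295263 / 500000)) := by
    rw [ea8]
    exact IvR.sub _ _ ha7 hx (by norm_num) (by norm_num)
  obtain ⟨a9, ea9⟩ : ∃ z : ℝ, z = x * y := ⟨_, rfl⟩
  have ha9 : (-(545303 / 500000)) ≤ a9 ∧ a9 ≤ (-(1090583 / 1000000)) := by
    rw [ea9]
    exact IvR.mul _ _ hx hy (by norm_num) (by norm_num) (by norm_num)
      (by norm_num) (by norm_num) (by norm_num) (by norm_num) (by norm_num)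
  obtain ⟨a10, ea10⟩ : ∃ z : ℝ, z = 2 * a9 := ⟨_, rfl⟩
  have ha10 : (-(545303 / 250000)) ≤ a10 ∧ a10 ≤ (-(1090583 / 500000)) := by
    rw [ea10]
    exact IvR.mul _ _ (show (2:ℝ) ≤ 2 ∧ (2:ℝ) ≤ 2 from ⟨le_refl _, le_refl _⟩) ha9 (by norm_num) (by norm_num) (by norm_num)
      (by norm_num) (by norm_num) (by norm_num) (by norm_num) (by norm_num)
  obtain ⟨a11, ea11⟩ : ∃ z : ℝ, z = a10 - a2 := ⟨_, rfl⟩
  have ha11 : (-(176869 / 125000)) ≤ a11 ∧ a11 ≤ (-(87181 / 62500)) := by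
    rw [ea11]
    exact IvR.sub _ _ ha10 ha2 (by norm_num) (by norm_num)
  obtain ⟨a12, ea12⟩ : ∃ z : ℝ, z = a11 - x := ⟨_, rfl⟩
  have ha12 : (-(159673 / 250000)) ≤ a12 ∧ a12 ≤ (-(309313 / 500000)) := by
    rw [ea12]
    exact IvR.sub _ _ ha11 hx (by norm_num) (by norm_num)
  obtain ⟨a13, ea13⟩ : ∃ z : ℝ, z = a8 * u := ⟨_, rfl⟩
  have ha13 : (-(1667 / 250000)) ≤ a13 ∧ a13 ≤ (1667 / 250000) := by
    rw [ea13]
    exact IvR.mul _ _ ha8 hu (by norm_num) (by norm_num) (by norm_num)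
      (by norm_num) (by norm_num) (by norm_num) (by norm_num) (by norm_num)
  obtain ⟨a14, ea14⟩ : ∃ z : ℝ, z = a12 * v := ⟨_, rfl⟩
  have ha14 : (-(6387 / 1000000)) ≤ a14 ∧ a14 ≤ (6387 / 1000000) := by
    rw [ea14]
    exact IvR.mul _ _ ha12 hv (by norm_num) (by norm_num) (by norm_num)
      (by norm_num) (by norm_num) (by norm_num) (by norm_num) (by norm_num)
  obtain ⟨a15, ea15⟩ : ∃ z : ℝ, z = a13 + a14 := ⟨_, rfl⟩
  have ha15 : (-(2611 / 200000)) ≤ a15 ∧ a15 ≤ (2611 / 200000) := by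
    rw [ea15]
    exact IvR.add _ _ ha13 ha14 (by norm_num) (by norm_num)
  have hR' : t * (t + 2 * a4) = a15 := by
    simp only [ea1, ea2, ea3, ea4, ea5, ea6, ea7, ea8, ea9, ea10, ea11, ea12, ea13, ea14, ea15]
    linear_combination hR
  have hq' : 0 < t + a4 := by
    simp only [ea1, ea2, ea3, ea4]
    exact hq
  clear hR hq
  have ht : (-(88 / 10000)) ≤ t ∧ t ≤ (88 / 10000) := by
    have r1 := ha15.1
    have r2 := ha15.2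
    have q1 := ha4.1
    have q2 := ha4.2
    constructor
    · by_contra hc
      push Not at hc
      nlinarith [mul_nonneg (show (0:ℝ) ≤ -t - 88 / 10000 by linarith)
        (show (0:ℝ) ≤ 2 * a4 + t - 88 / 10000 by linarith)]
    · by_contra hc
      push Not at hc
      nlinarith [mul_nonneg (show (0:ℝ) ≤ t - 88 / 10000 by linarith)
        (show (0:ℝ) ≤ 2 * a4 + t + 88 / 10000 by linarith)]
  refine ⟨ht, ?_⟩
  obtain ⟨a16, ea16⟩ : ∃ z : ℝ, z = 2 * a4 := ⟨_, rfl⟩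
  have ha16 : (786699 / 500000) ≤ a16 ∧ a16 ≤ (51111 / 31250) := by
    rw [ea16]
    exact IvR.mul _ _ (show (2:ℝ) ≤ 2 ∧ (2:ℝ) ≤ 2 from ⟨le_refl _, le_refl _⟩) ha4 (by norm_num) (by norm_num) (by norm_num)
      (by norm_num) (by norm_num) (by norm_num) (by norm_num) (by norm_num)
  obtain ⟨a17, ea17⟩ : ∃ z : ℝ, z = t + a16 := ⟨_, rfl⟩
  have ha17 : (782299 / 500000) ≤ a17 ∧ a17 ≤ (25693 / 15625) := by
    rw [ea17]
    exact IvR.add _ _ ht ha16 (by norm_num) (by norm_num)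
  obtain ⟨a18, ea18⟩ : ∃ z : ℝ, z = a17⁻¹ := ⟨_, rfl⟩
  have ha18 : (304071 / 500000) ≤ a18 ∧ a18 ≤ (319571 / 500000) := by
    rw [ea18]
    exact IvR.inv _ _ ha17 (by norm_num) (by norm_num) (by norm_num) (by norm_num)
  obtain ⟨a19, ea19⟩ : ∃ z : ℝ, z = a8 * a18 := ⟨_, rfl⟩
  have ha19 : (-(213087 / 500000)) ≤ a19 ∧ a19 ≤ (-(359123 / 1000000)) := by
    rw [ea19]
    exact IvR.mul _ _ ha8 ha18 (by norm_num) (by norm_num) (by norm_num)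
      (by norm_num) (by norm_num) (by norm_num) (by norm_num) (by norm_num)
  obtain ⟨a20, ea20⟩ : ∃ z : ℝ, z = a12 * a18 := ⟨_, rfl⟩
  have ha20 : (-(81643 / 200000)) ≤ a20 ∧ a20 ≤ (-(94053 / 250000)) := by
    rw [ea20]
    exact IvR.mul _ _ ha12 ha18 (by norm_num) (by norm_num) (by norm_num)
      (by norm_num) (by norm_num) (by norm_num) (by norm_num) (by norm_num)
  refine ⟨-a19, -a20, ⟨by linarith [ha19.2], by linarith [ha19.1]⟩,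
    ⟨by linarith [ha20.2], by linarith [ha20.1]⟩, ?_⟩
  have hden : a17 ≠ 0 := by
    have := ha17.1
    intro h0
    rw [h0] at this
    norm_num at this
  have e1 : t * a17 = a15 := by
    rw [ea17, ea16]
    exact hR'
  have e2 : t = a15 * a18 := by
    rw [← e1, ea18, mul_assoc, mul_inv_cancel₀ hden, mul_one]
  rw [e2, ea15, ea19, ea20, ea13, ea14]
  ring

theorem saddleF {x y u v t c1 c2 : ℝ} (hx : -(77627 / 100000) ≤ x ∧ x ≤ -(77626 / 100000))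
    (hy : 140492 / 100000 ≤ y ∧ y ≤ 140493 / 100000)
    (hu : -(1 / 100) ≤ u ∧ u ≤ 1 / 100) (hv : -(1 / 100) ≤ v ∧ v ≤ 1 / 100)
    (ht : -(88 / 10000) ≤ t ∧ t ≤ 88 / 10000) (hc1 : 359 / 1000 ≤ c1 ∧ c1 ≤ 427 / 1000)
    (hc2 : 376 / 1000 ≤ c2 ∧ c2 ≤ 409 / 1000) :
    (-(109 / 100) ≤ 2 * (x + v) + (4 * ((x + v) * (x + v)) - 1) * c1 ∧
      2 * (x + v) + (4 * ((x + v) * (x + v)) - 1) * c1 ≤ 109 / 100) ∧
    (761 / 100 ≤ 2 * x - 4 * (y * (x + v + x)) + (4 * ((x + v) * (x + v)) - 1) * c2) := by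
  obtain ⟨b1, eb1⟩ : ∃ z : ℝ, z = x + u := ⟨_, rfl⟩
  have hb1 : (-(78627 / 100000)) ≤ b1 ∧ b1 ≤ (-(38313 / 50000)) := by
    rw [eb1]
    exact IvR.add _ _ hx hu (by norm_num) (by norm_num)
  obtain ⟨b2, eb2⟩ : ∃ z : ℝ, z = x + v := ⟨_, rfl⟩
  have hb2 : (-(78627 / 100000)) ≤ b2 ∧ b2 ≤ (-(38313 / 50000)) := by
    rw [eb2]
    exact IvR.add _ _ hx hv (by norm_num) (by norm_num)
  obtain ⟨b3, eb3⟩ : ∃ z : ℝ, z = b2 * b2 := ⟨_, rfl⟩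
  have hb3 : (293577 / 500000) ≤ b3 ∧ b3 ≤ (618221 / 1000000) := by
    rw [eb3]
    exact IvR.mul _ _ hb2 hb2 (by norm_num) (by norm_num) (by norm_num)
      (by norm_num) (by norm_num) (by norm_num) (by norm_num) (by norm_num)
  obtain ⟨b4, eb4⟩ : ∃ z : ℝ, z = 4 * b3 := ⟨_, rfl⟩
  have hb4 : (293577 / 125000) ≤ b4 ∧ b4 ≤ (618221 / 250000) := by
    rw [eb4]
    exact IvR.mul _ _ (show (4:ℝ) ≤ 4 ∧ (4:ℝ) ≤ 4 from ⟨le_refl _, le_refl _⟩) hb3 (by norm_num) (by norm_num) (by norm_num)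
      (by norm_num) (by norm_num) (by norm_num) (by norm_num) (by norm_num)
  obtain ⟨b5, eb5⟩ : ∃ z : ℝ, z = b4 - 1 := ⟨_, rfl⟩
  have hb5 : (168577 / 125000) ≤ b5 ∧ b5 ≤ (368221 / 250000) := by
    rw [eb5]
    exact IvR.sub _ _ hb4 (show (1:ℝ) ≤ 1 ∧ (1:ℝ) ≤ 1 from ⟨le_refl _, le_refl _⟩) (by norm_num) (by norm_num)
  obtain ⟨b6, eb6⟩ : ∃ z : ℝ, z = b2 + x := ⟨_, rfl⟩
  have hb6 : (-(78127 / 50000)) ≤ b6 ∧ b6 ≤ (-(38563 / 25000)) := by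
    rw [eb6]
    exact IvR.add _ _ hb2 hx (by norm_num) (by norm_num)
  obtain ⟨b7, eb7⟩ : ∃ z : ℝ, z = b5 * c1 := ⟨_, rfl⟩
  have hb7 : (484153 / 1000000) ≤ b7 ∧ b7 ≤ (314461 / 500000) := by
    rw [eb7]
    exact IvR.mul _ _ hb5 hc1 (by norm_num) (by norm_num) (by norm_num)
      (by norm_num) (by norm_num) (by norm_num) (by norm_num) (by norm_num)
  obtain ⟨b8, eb8⟩ : ∃ z : ℝ, z = b5 * c2 := ⟨_, rfl⟩
  have hb8 : (507079 / 1000000) ≤ b8 ∧ b8 ≤ (60241 / 100000) := by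
    rw [eb8]
    exact IvR.mul _ _ hb5 hc2 (by norm_num) (by norm_num) (by norm_num)
      (by norm_num) (by norm_num) (by norm_num) (by norm_num) (by norm_num)
  obtain ⟨b9, eb9⟩ : ∃ z : ℝ, z = 2 * b2 := ⟨_, rfl⟩
  have hb9 : (-(78627 / 50000)) ≤ b9 ∧ b9 ≤ (-(38313 / 25000)) := by
    rw [eb9]
    exact IvR.mul _ _ (show (2:ℝ) ≤ 2 ∧ (2:ℝ) ≤ 2 from ⟨le_refl _, le_refl _⟩) hb2 (by norm_num) (by norm_num) (by norm_num)
      (by norm_num) (by norm_num) (by norm_num) (by norm_num) (by norm_num)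
  obtain ⟨b10, eb10⟩ : ∃ z : ℝ, z = b9 + b7 := ⟨_, rfl⟩
  have hb10 : (-(1088387 / 1000000)) ≤ b10 ∧ b10 ≤ (-(451799 / 500000)) := by
    rw [eb10]
    exact IvR.add _ _ hb9 hb7 (by norm_num) (by norm_num)
  obtain ⟨b11, eb11⟩ : ∃ z : ℝ, z = 2 * x := ⟨_, rfl⟩
  have hb11 : (-(77627 / 50000)) ≤ b11 ∧ b11 ≤ (-(38813 / 25000)) := by
    rw [eb11]
    exact IvR.mul _ _ (show (2:ℝ) ≤ 2 ∧ (2:ℝ) ≤ 2 from ⟨le_refl _, le_refl _⟩) hx (by norm_num) (by norm_num) (by norm_num)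
      (by norm_num) (by norm_num) (by norm_num) (by norm_num) (by norm_num)
  obtain ⟨b12, eb12⟩ : ∃ z : ℝ, z = y * b6 := ⟨_, rfl⟩
  have hb12 : (-(109763 / 50000)) ≤ b12 ∧ b12 ≤ (-(2167117 / 1000000)) := by
    rw [eb12]
    exact IvR.mul _ _ hy hb6 (by norm_num) (by norm_num) (by norm_num)
      (by norm_num) (by norm_num) (by norm_num) (by norm_num) (by norm_num)
  obtain ⟨b13, eb13⟩ : ∃ z : ℝ, z = 4 * b12 := ⟨_, rfl⟩
  have hb13 : (-(109763 / 12500)) ≤ b13 ∧ b13 ≤ (-(2167117 / 250000)) := by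
    rw [eb13]
    exact IvR.mul _ _ (show (4:ℝ) ≤ 4 ∧ (4:ℝ) ≤ 4 from ⟨le_refl _, le_refl _⟩) hb12 (by norm_num) (by norm_num) (by norm_num)
      (by norm_num) (by norm_num) (by norm_num) (by norm_num) (by norm_num)
  obtain ⟨b14, eb14⟩ : ∃ z : ℝ, z = b11 - b13 := ⟨_, rfl⟩
  have hb14 : (889491 / 125000) ≤ b14 ∧ b14 ≤ (180713 / 25000) := by
    rw [eb14]
    exact IvR.sub _ _ hb11 hb13 (by norm_num) (by norm_num)
  obtain ⟨b15, eb15⟩ : ∃ z : ℝ, z = b14 + b8 := ⟨_, rfl⟩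
  have hb15 : (7623007 / 1000000) ≤ b15 ∧ b15 ≤ (783093 / 100000) := by
    rw [eb15]
    exact IvR.add _ _ hb14 hb8 (by norm_num) (by norm_num)
  simp only [eb1, eb2, eb3, eb4, eb5, eb6, eb7, eb8, eb9, eb10, eb11, eb12, eb13, eb14, eb15] at hb10 hb15
  exact ⟨⟨by linarith [hb10.1], by linarith [hb10.2]⟩, by linarith [hb15.1]⟩

theorem saddleG {x y u v t c1 c2 : ℝ} (hx : -(77627 / 100000) ≤ x ∧ x ≤ -(77626 / 100000))
    (hy : 140492 / 100000 ≤ y ∧ y ≤ 140493 / 100000)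
    (hu : -(1 / 100) ≤ u ∧ u ≤ 1 / 100) (hv : -(1 / 100) ≤ v ∧ v ≤ 1 / 100)
    (ht : -(88 / 10000) ≤ t ∧ t ≤ 88 / 10000) (hc1 : 359 / 1000 ≤ c1 ∧ c1 ≤ 427 / 1000)
    (hc2 : 376 / 1000 ≤ c2 ∧ c2 ≤ 409 / 1000) :
    |2 + 8 * (x * c1) + (1 - 4 * ((x + v) * (x + v))) * (y + t - (x + u) * (x + v))⁻¹ *
      (y + t - (1 - 2 * x)⁻¹ * x - (x + (1 - 2 * x)⁻¹) * c1)| ≤ 422 / 100 ∧
    |8 * (x * c2) - 8 * (y + t) + (1 - 4 * ((x + v) * (x + v))) *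
      (y + t - (x + u) * (x + v))⁻¹ *
      ((-1) * ((1 - 2 * x)⁻¹ * (x + u) + 1) - (x + (1 - 2 * x)⁻¹) * c2) +
      4 * ((1 - 2 * x)⁻¹ * (x + v + x))| ≤ 1543 / 100 ∧
    |(1 - 4 * ((x + v) * (x + v))) * (y + t - (x + u) * (x + v))⁻¹ *
      ((-1) * (1 + (1 - 2 * x)⁻¹ * x) - (x + (1 - 2 * x)⁻¹) * c1)| ≤ 106 / 100 ∧
    |2 + 4 * ((1 - 2 * x)⁻¹ * (x + v + x)) + (1 - 4 * ((x + v) * (x + v))) *
      (y + t - (x + u) * (x + v))⁻¹ *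
      (y + t - (1 - 2 * x)⁻¹ * (x + u) - (x + (1 - 2 * x)⁻¹) * c2)| ≤ 401 / 100 := by
  obtain ⟨d1, ed1⟩ : ∃ z : ℝ, z = x + u := ⟨_, rfl⟩
  have hd1 : (-(78627 / 100000)) ≤ d1 ∧ d1 ≤ (-(38313 / 50000)) := by
    rw [ed1]
    exact IvR.add _ _ hx hu (by norm_num) (by norm_num)
  obtain ⟨d2, ed2⟩ : ∃ z : ℝ, z = x + v := ⟨_, rfl⟩
  have hd2 : (-(78627 / 100000)) ≤ d2 ∧ d2 ≤ (-(38313 / 50000)) := by
    rw [ed2]
    exact IvR.add _ _ hx hv (by norm_num) (by norm_num)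
  obtain ⟨d3, ed3⟩ : ∃ z : ℝ, z = y + t := ⟨_, rfl⟩
  have hd3 : (34903 / 25000) ≤ d3 ∧ d3 ≤ (141373 / 100000) := by
    rw [ed3]
    exact IvR.add _ _ hy ht (by norm_num) (by norm_num)
  obtain ⟨d4, ed4⟩ : ∃ z : ℝ, z = d2 * d2 := ⟨_, rfl⟩
  have hd4 : (293577 / 500000) ≤ d4 ∧ d4 ≤ (618221 / 1000000) := by
    rw [ed4]
    exact IvR.mul _ _ hd2 hd2 (by norm_num) (by norm_num) (by norm_num)
      (by norm_num) (by norm_num) (by norm_num) (by norm_num) (by norm_num)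
  obtain ⟨d5, ed5⟩ : ∃ z : ℝ, z = 4 * d4 := ⟨_, rfl⟩
  have hd5 : (293577 / 125000) ≤ d5 ∧ d5 ≤ (618221 / 250000) := by
    rw [ed5]
    exact IvR.mul _ _ (show (4:ℝ) ≤ 4 ∧ (4:ℝ) ≤ 4 from ⟨le_refl _, le_refl _⟩) hd4 (by norm_num) (by norm_num) (by norm_num)
      (by norm_num) (by norm_num) (by norm_num) (by norm_num) (by norm_num)
  obtain ⟨d6, ed6⟩ : ∃ z : ℝ, z = 1 - d5 := ⟨_, rfl⟩
  have hd6 : (-(368221 / 250000)) ≤ d6 ∧ d6 ≤ (-(168577 / 125000)) := by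
    rw [ed6]
    exact IvR.sub _ _ (show (1:ℝ) ≤ 1 ∧ (1:ℝ) ≤ 1 from ⟨le_refl _, le_refl _⟩) hd5 (by norm_num) (by norm_num)
  obtain ⟨d7, ed7⟩ : ∃ z : ℝ, z = d1 * d2 := ⟨_, rfl⟩
  have hd7 : (293577 / 500000) ≤ d7 ∧ d7 ≤ (618221 / 1000000) := by
    rw [ed7]
    exact IvR.mul _ _ hd1 hd2 (by norm_num) (by norm_num) (by norm_num)
      (by norm_num) (by norm_num) (by norm_num) (by norm_num) (by norm_num)
  obtain ⟨d8, ed8⟩ : ∃ z : ℝ, z = d3 - d7 := ⟨_, rfl⟩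
  have hd8 : (777899 / 1000000) ≤ d8 ∧ d8 ≤ (51661 / 62500) := by
    rw [ed8]
    exact IvR.sub _ _ hd3 hd7 (by norm_num) (by norm_num)
  obtain ⟨d9, ed9⟩ : ∃ z : ℝ, z = d8⁻¹ := ⟨_, rfl⟩
  have hd9 : (120981 / 100000) ≤ d9 ∧ d9 ≤ (642757 / 500000) := by
    rw [ed9]
    exact IvR.inv _ _ hd8 (by norm_num) (by norm_num) (by norm_num) (by norm_num)
  obtain ⟨d10, ed10⟩ : ∃ z : ℝ, z = d6 * d9 := ⟨_, rfl⟩
  have hd10 : (-(946707 / 500000)) ≤ d10 ∧ d10 ≤ (-(1631569 / 1000000)) := by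
    rw [ed10]
    exact IvR.mul _ _ hd6 hd9 (by norm_num) (by norm_num) (by norm_num)
      (by norm_num) (by norm_num) (by norm_num) (by norm_num) (by norm_num)
  obtain ⟨d11, ed11⟩ : ∃ z : ℝ, z = 2 * x := ⟨_, rfl⟩
  have hd11 : (-(77627 / 50000)) ≤ d11 ∧ d11 ≤ (-(38813 / 25000)) := by
    rw [ed11]
    exact IvR.mul _ _ (show (2:ℝ) ≤ 2 ∧ (2:ℝ) ≤ 2 from ⟨le_refl _, le_refl _⟩) hx (by norm_num) (by norm_num) (by norm_num)
      (by norm_num) (by norm_num) (by norm_num) (by norm_num) (by norm_num)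
  obtain ⟨d12, ed12⟩ : ∃ z : ℝ, z = 1 - d11 := ⟨_, rfl⟩
  have hd12 : (63813 / 25000) ≤ d12 ∧ d12 ≤ (127627 / 50000) := by
    rw [ed12]
    exact IvR.sub _ _ (show (1:ℝ) ≤ 1 ∧ (1:ℝ) ≤ 1 from ⟨le_refl _, le_refl _⟩) hd11 (by norm_num) (by norm_num)
  obtain ⟨d13, ed13⟩ : ∃ z : ℝ, z = d12⁻¹ := ⟨_, rfl⟩
  have hd13 : (195883 / 500000) ≤ d13 ∧ d13 ≤ (39177 / 100000) := by
    rw [ed13]
    exact IvR.inv _ _ hd12 (by norm_num) (by norm_num) (by norm_num) (by norm_num)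
  obtain ⟨d14, ed14⟩ : ∃ z : ℝ, z = d13 * x := ⟨_, rfl⟩
  have hd14 : (-(7603 / 25000)) ≤ d14 ∧ d14 ≤ (-(19007 / 62500)) := by
    rw [ed14]
    exact IvR.mul _ _ hd13 hx (by norm_num) (by norm_num) (by norm_num)
      (by norm_num) (by norm_num) (by norm_num) (by norm_num) (by norm_num)
  obtain ⟨d15, ed15⟩ : ∃ z : ℝ, z = x + d13 := ⟨_, rfl⟩
  have hd15 : (-(48063 / 125000)) ≤ d15 ∧ d15 ≤ (-(38449 / 100000)) := by
    rw [ed15]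
    exact IvR.add _ _ hx hd13 (by norm_num) (by norm_num)
  obtain ⟨d16, ed16⟩ : ∃ z : ℝ, z = x * c1 := ⟨_, rfl⟩
  have hd16 : (-(82867 / 250000)) ≤ d16 ∧ d16 ≤ (-(278677 / 1000000)) := by
    rw [ed16]
    exact IvR.mul _ _ hx hc1 (by norm_num) (by norm_num) (by norm_num)
      (by norm_num) (by norm_num) (by norm_num) (by norm_num) (by norm_num)
  obtain ⟨d17, ed17⟩ : ∃ z : ℝ, z = x * c2 := ⟨_, rfl⟩
  have hd17 : (-(63499 / 200000)) ≤ d17 ∧ d17 ≤ (-(291873 / 1000000)) := by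
    rw [ed17]
    exact IvR.mul _ _ hx hc2 (by norm_num) (by norm_num) (by norm_num)
      (by norm_num) (by norm_num) (by norm_num) (by norm_num) (by norm_num)
  obtain ⟨d18, ed18⟩ : ∃ z : ℝ, z = 8 * d16 := ⟨_, rfl⟩
  have hd18 : (-(82867 / 31250)) ≤ d18 ∧ d18 ≤ (-(278677 / 125000)) := by
    rw [ed18]
    exact IvR.mul _ _ (show (8:ℝ) ≤ 8 ∧ (8:ℝ) ≤ 8 from ⟨le_refl _, le_refl _⟩) hd16 (by norm_num) (by norm_num) (by norm_num)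
      (by norm_num) (by norm_num) (by norm_num) (by norm_num) (by norm_num)
  obtain ⟨d19, ed19⟩ : ∃ z : ℝ, z = 2 + d18 := ⟨_, rfl⟩
  have hd19 : (-(20367 / 31250)) ≤ d19 ∧ d19 ≤ (-(28677 / 125000)) := by
    rw [ed19]
    exact IvR.add _ _ (show (2:ℝ) ≤ 2 ∧ (2:ℝ) ≤ 2 from ⟨le_refl _, le_refl _⟩) hd18 (by norm_num) (by norm_num)
  obtain ⟨d20, ed20⟩ : ∃ z : ℝ, z = d3 - d14 := ⟨_, rfl⟩
  have hd20 : (212529 / 125000) ≤ d20 ∧ d20 ≤ (34357 / 20000) := by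
    rw [ed20]
    exact IvR.sub _ _ hd3 hd14 (by norm_num) (by norm_num)
  obtain ⟨d21, ed21⟩ : ∃ z : ℝ, z = d15 * c1 := ⟨_, rfl⟩
  have hd21 : (-(20523 / 125000)) ≤ d21 ∧ d21 ≤ (-(138031 / 1000000)) := by
    rw [ed21]
    exact IvR.mul _ _ hd15 hc1 (by norm_num) (by norm_num) (by norm_num)
      (by norm_num) (by norm_num) (by norm_num) (by norm_num) (by norm_num)
  obtain ⟨d22, ed22⟩ : ∃ z : ℝ, z = d20 - d21 := ⟨_, rfl⟩
  have hd22 : (1838263 / 1000000) ≤ d22 ∧ d22 ≤ (941017 / 500000) := by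
    rw [ed22]
    exact IvR.sub _ _ hd20 hd21 (by norm_num) (by norm_num)
  obtain ⟨d23, ed23⟩ : ∃ z : ℝ, z = d10 * d22 := ⟨_, rfl⟩
  have hd23 : (-(356347 / 100000)) ≤ d23 ∧ d23 ≤ (-(749813 / 250000)) := by
    rw [ed23]
    exact IvR.mul _ _ hd10 hd22 (by norm_num) (by norm_num) (by norm_num)
      (by norm_num) (by norm_num) (by norm_num) (by norm_num) (by norm_num)
  obtain ⟨d24, ed24⟩ : ∃ z : ℝ, z = d19 + d23 := ⟨_, rfl⟩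
  have hd24 : (-(2107607 / 500000)) ≤ d24 ∧ d24 ≤ (-(807167 / 250000)) := by
    rw [ed24]
    exact IvR.add _ _ hd19 hd23 (by norm_num) (by norm_num)
  obtain ⟨d25, ed25⟩ : ∃ z : ℝ, z = 8 * d17 := ⟨_, rfl⟩
  have hd25 : (-(63499 / 25000)) ≤ d25 ∧ d25 ≤ (-(291873 / 125000)) := by
    rw [ed25]
    exact IvR.mul _ _ (show (8:ℝ) ≤ 8 ∧ (8:ℝ) ≤ 8 from ⟨le_refl _, le_refl _⟩) hd17 (by norm_num) (by norm_num) (by norm_num)
      (by norm_num) (by norm_num) (by norm_num) (by norm_num) (by norm_num)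
  obtain ⟨d26, ed26⟩ : ∃ z : ℝ, z = 8 * d3 := ⟨_, rfl⟩
  have hd26 : (34903 / 3125) ≤ d26 ∧ d26 ≤ (141373 / 12500) := by
    rw [ed26]
    exact IvR.mul _ _ (show (8:ℝ) ≤ 8 ∧ (8:ℝ) ≤ 8 from ⟨le_refl _, le_refl _⟩) hd3 (by norm_num) (by norm_num) (by norm_num)
      (by norm_num) (by norm_num) (by norm_num) (by norm_num) (by norm_num)
  obtain ⟨d27, ed27⟩ : ∃ z : ℝ, z = d25 - d26 := ⟨_, rfl⟩
  have hd27 : (-(69249 / 5000)) ≤ d27 ∧ d27 ≤ (-(1687993 / 125000)) := by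
    rw [ed27]
    exact IvR.sub _ _ hd25 hd26 (by norm_num) (by norm_num)
  obtain ⟨d28, ed28⟩ : ∃ z : ℝ, z = d13 * d1 := ⟨_, rfl⟩
  have hd28 : (-(308037 / 1000000)) ≤ d28 ∧ d28 ≤ (-(150097 / 500000)) := by
    rw [ed28]
    exact IvR.mul _ _ hd13 hd1 (by norm_num) (by norm_num) (by norm_num)
      (by norm_num) (by norm_num) (by norm_num) (by norm_num) (by norm_num)
  obtain ⟨d29, ed29⟩ : ∃ z : ℝ, z = d28 + 1 := ⟨_, rfl⟩
  have hd29 : (691963 / 1000000) ≤ d29 ∧ d29 ≤ (349903 / 500000) := by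
    rw [ed29]
    exact IvR.add _ _ hd28 (show (1:ℝ) ≤ 1 ∧ (1:ℝ) ≤ 1 from ⟨le_refl _, le_refl _⟩) (by norm_num) (by norm_num)
  obtain ⟨d30, ed30⟩ : ∃ z : ℝ, z = (-1) * d29 := ⟨_, rfl⟩
  have hd30 : (-(349903 / 500000)) ≤ d30 ∧ d30 ≤ (-(691963 / 1000000)) := by
    rw [ed30]
    exact IvR.mul _ _ (show ((-1):ℝ) ≤ (-1) ∧ ((-1):ℝ) ≤ (-1) from ⟨le_refl _, le_refl _⟩) hd29 (by norm_num) (by norm_num) (by norm_num)
      (by norm_num) (by norm_num) (by norm_num) (by norm_num) (by norm_num)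
  obtain ⟨d31, ed31⟩ : ∃ z : ℝ, z = d15 * c2 := ⟨_, rfl⟩
  have hd31 : (-(157263 / 1000000)) ≤ d31 ∧ d31 ≤ (-(18071 / 125000)) := by
    rw [ed31]
    exact IvR.mul _ _ hd15 hc2 (by norm_num) (by norm_num) (by norm_num)
      (by norm_num) (by norm_num) (by norm_num) (by norm_num) (by norm_num)
  obtain ⟨d32, ed32⟩ : ∃ z : ℝ, z = d30 - d31 := ⟨_, rfl⟩
  have hd32 : (-(277619 / 500000)) ≤ d32 ∧ d32 ≤ (-(5347 / 10000)) := by
    rw [ed32]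
    exact IvR.sub _ _ hd30 hd31 (by norm_num) (by norm_num)
  obtain ⟨d33, ed33⟩ : ∃ z : ℝ, z = d10 * d32 := ⟨_, rfl⟩
  have hd33 : (872399 / 1000000) ≤ d33 ∧ d33 ≤ (32853 / 31250) := by
    rw [ed33]
    exact IvR.mul _ _ hd10 hd32 (by norm_num) (by norm_num) (by norm_num)
      (by norm_num) (by norm_num) (by norm_num) (by norm_num) (by norm_num)
  obtain ⟨d34, ed34⟩ : ∃ z : ℝ, z = d27 + d33 := ⟨_, rfl⟩
  have hd34 : (-(12977401 / 1000000)) ≤ d34 ∧ d34 ≤ (-(1556581 / 125000)) := by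
    rw [ed34]
    exact IvR.add _ _ hd27 hd33 (by norm_num) (by norm_num)
  obtain ⟨d35, ed35⟩ : ∃ z : ℝ, z = d2 + x := ⟨_, rfl⟩
  have hd35 : (-(78127 / 50000)) ≤ d35 ∧ d35 ≤ (-(38563 / 25000)) := by
    rw [ed35]
    exact IvR.add _ _ hd2 hx (by norm_num) (by norm_num)
  obtain ⟨d36, ed36⟩ : ∃ z : ℝ, z = d13 * d35 := ⟨_, rfl⟩
  have hd36 : (-(612157 / 1000000)) ≤ d36 ∧ d36 ≤ (-(302153 / 500000)) := by
    rw [ed36]
    exact IvR.mul _ _ hd13 hd35 (by norm_num) (by norm_num) (by norm_num)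
      (by norm_num) (by norm_num) (by norm_num) (by norm_num) (by norm_num)
  obtain ⟨d37, ed37⟩ : ∃ z : ℝ, z = 4 * d36 := ⟨_, rfl⟩
  have hd37 : (-(612157 / 250000)) ≤ d37 ∧ d37 ≤ (-(302153 / 125000)) := by
    rw [ed37]
    exact IvR.mul _ _ (show (4:ℝ) ≤ 4 ∧ (4:ℝ) ≤ 4 from ⟨le_refl _, le_refl _⟩) hd36 (by norm_num) (by norm_num) (by norm_num)
      (by norm_num) (by norm_num) (by norm_num) (by norm_num) (by norm_num)
  obtain ⟨d38, ed38⟩ : ∃ z : ℝ, z = d34 + d37 := ⟨_, rfl⟩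
  have hd38 : (-(15426029 / 1000000)) ≤ d38 ∧ d38 ≤ (-(929367 / 62500)) := by
    rw [ed38]
    exact IvR.add _ _ hd34 hd37 (by norm_num) (by norm_num)
  obtain ⟨d39, ed39⟩ : ∃ z : ℝ, z = 1 + d14 := ⟨_, rfl⟩
  have hd39 : (17397 / 25000) ≤ d39 ∧ d39 ≤ (43493 / 62500) := by
    rw [ed39]
    exact IvR.add _ _ (show (1:ℝ) ≤ 1 ∧ (1:ℝ) ≤ 1 from ⟨le_refl _, le_refl _⟩) hd14 (by norm_num) (by norm_num)
  obtain ⟨d40, ed40⟩ : ∃ z : ℝ, z = (-1) * d39 := ⟨_, rfl⟩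
  have hd40 : (-(43493 / 62500)) ≤ d40 ∧ d40 ≤ (-(17397 / 25000)) := by
    rw [ed40]
    exact IvR.mul _ _ (show ((-1):ℝ) ≤ (-1) ∧ ((-1):ℝ) ≤ (-1) from ⟨le_refl _, le_refl _⟩) hd39 (by norm_num) (by norm_num) (by norm_num)
      (by norm_num) (by norm_num) (by norm_num) (by norm_num) (by norm_num)
  obtain ⟨d41, ed41⟩ : ∃ z : ℝ, z = d15 * c1 := ⟨_, rfl⟩
  have hd41 : (-(20523 / 125000)) ≤ d41 ∧ d41 ≤ (-(138031 / 1000000)) := by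
    rw [ed41]
    exact IvR.mul _ _ hd15 hc1 (by norm_num) (by norm_num) (by norm_num)
      (by norm_num) (by norm_num) (by norm_num) (by norm_num) (by norm_num)
  obtain ⟨d42, ed42⟩ : ∃ z : ℝ, z = d40 - d41 := ⟨_, rfl⟩
  have hd42 : (-(557857 / 1000000)) ≤ d42 ∧ d42 ≤ (-(33231 / 62500)) := by
    rw [ed42]
    exact IvR.sub _ _ hd40 hd41 (by norm_num) (by norm_num)
  obtain ⟨d43, ed43⟩ : ∃ z : ℝ, z = d10 * d42 := ⟨_, rfl⟩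
  have hd43 : (433749 / 500000) ≤ d43 ∧ d43 ≤ (211251 / 200000) := by
    rw [ed43]
    exact IvR.mul _ _ hd10 hd42 (by norm_num) (by norm_num) (by norm_num)
      (by norm_num) (by norm_num) (by norm_num) (by norm_num) (by norm_num)
  obtain ⟨d44, ed44⟩ : ∃ z : ℝ, z = d2 + x := ⟨_, rfl⟩
  have hd44 : (-(78127 / 50000)) ≤ d44 ∧ d44 ≤ (-(38563 / 25000)) := by
    rw [ed44]
    exact IvR.add _ _ hd2 hx (by norm_num) (by norm_num)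
  obtain ⟨d45, ed45⟩ : ∃ z : ℝ, z = d13 * d44 := ⟨_, rfl⟩
  have hd45 : (-(612157 / 1000000)) ≤ d45 ∧ d45 ≤ (-(302153 / 500000)) := by
    rw [ed45]
    exact IvR.mul _ _ hd13 hd44 (by norm_num) (by norm_num) (by norm_num)
      (by norm_num) (by norm_num) (by norm_num) (by norm_num) (by norm_num)
  obtain ⟨d46, ed46⟩ : ∃ z : ℝ, z = 4 * d45 := ⟨_, rfl⟩
  have hd46 : (-(612157 / 250000)) ≤ d46 ∧ d46 ≤ (-(302153 / 125000)) := by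
    rw [ed46]
    exact IvR.mul _ _ (show (4:ℝ) ≤ 4 ∧ (4:ℝ) ≤ 4 from ⟨le_refl _, le_refl _⟩) hd45 (by norm_num) (by norm_num) (by norm_num)
      (by norm_num) (by norm_num) (by norm_num) (by norm_num) (by norm_num)
  obtain ⟨d47, ed47⟩ : ∃ z : ℝ, z = 2 + d46 := ⟨_, rfl⟩
  have hd47 : (-(112157 / 250000)) ≤ d47 ∧ d47 ≤ (-(52153 / 125000)) := by
    rw [ed47]
    exact IvR.add _ _ (show (2:ℝ) ≤ 2 ∧ (2:ℝ) ≤ 2 from ⟨le_refl _, le_refl _⟩) hd46 (by norm_num) (by norm_num)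
  obtain ⟨d48, ed48⟩ : ∃ z : ℝ, z = d13 * d1 := ⟨_, rfl⟩
  have hd48 : (-(308037 / 1000000)) ≤ d48 ∧ d48 ≤ (-(150097 / 500000)) := by
    rw [ed48]
    exact IvR.mul _ _ hd13 hd1 (by norm_num) (by norm_num) (by norm_num)
      (by norm_num) (by norm_num) (by norm_num) (by norm_num) (by norm_num)
  obtain ⟨d49, ed49⟩ : ∃ z : ℝ, z = d3 - d48 := ⟨_, rfl⟩
  have hd49 : (848157 / 500000) ≤ d49 ∧ d49 ≤ (1721767 / 1000000) := by
    rw [ed49]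
    exact IvR.sub _ _ hd3 hd48 (by norm_num) (by norm_num)
  obtain ⟨d50, ed50⟩ : ∃ z : ℝ, z = d15 * c2 := ⟨_, rfl⟩
  have hd50 : (-(157263 / 1000000)) ≤ d50 ∧ d50 ≤ (-(18071 / 125000)) := by
    rw [ed50]
    exact IvR.mul _ _ hd15 hc2 (by norm_num) (by norm_num) (by norm_num)
      (by norm_num) (by norm_num) (by norm_num) (by norm_num) (by norm_num)
  obtain ⟨d51, ed51⟩ : ∃ z : ℝ, z = d49 - d50 := ⟨_, rfl⟩
  have hd51 : (920441 / 500000) ≤ d51 ∧ d51 ≤ (187903 / 100000) := by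
    rw [ed51]
    exact IvR.sub _ _ hd49 hd50 (by norm_num) (by norm_num)
  obtain ⟨d52, ed52⟩ : ∃ z : ℝ, z = d10 * d51 := ⟨_, rfl⟩
  have hd52 : (-(1778891 / 500000)) ≤ d52 ∧ d52 ≤ (-(1501763 / 500000)) := by
    rw [ed52]
    exact IvR.mul _ _ hd10 hd51 (by norm_num) (by norm_num) (by norm_num)
      (by norm_num) (by norm_num) (by norm_num) (by norm_num) (by norm_num)
  obtain ⟨d53, ed53⟩ : ∃ z : ℝ, z = d47 + d52 := ⟨_, rfl⟩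
  have hd53 : (-(400641 / 100000)) ≤ d53 ∧ d53 ≤ (-(13683 / 4000)) := by
    rw [ed53]
    exact IvR.add _ _ hd47 hd52 (by norm_num) (by norm_num)
  simp only [ed1, ed2, ed3, ed4, ed5, ed6, ed7, ed8, ed9, ed10, ed11, ed12, ed13, ed14, ed15, ed16, ed17, ed18, ed19, ed20, ed21, ed22, ed23, ed24, ed25, ed26, ed27, ed28, ed29, ed30, ed31, ed32, ed33, ed34, ed35, ed36, ed37, ed38, ed39, ed40, ed41, ed42, ed43, ed44, ed45, ed46, ed47, ed48, ed49, ed50, ed51, ed52, ed53] at hd24 hd38 hd43 hd53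
  refine ⟨abs_le.2 ⟨?_, ?_⟩, abs_le.2 ⟨?_, ?_⟩, abs_le.2 ⟨?_, ?_⟩, abs_le.2 ⟨?_, ?_⟩⟩
  · linarith [hd24.1]
  · linarith [hd24.2]
  · linarith [hd38.1]
  · linarith [hd38.2]
  · linarith [hd43.1]
  · linarith [hd43.2]
  · linarith [hd53.1]
  · linarith [hd53.2]
end Pool.Agent.H98.Fib
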