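import Pool.Agent.H98.Fib.Transfer
import Pool.Agent.H98.Fib.Cyclic
import Pool.Agent.H98.Fib.Weyl

/-!
# FA-5. Points of the spectrum are limits of energies with `x_k = 1`

PROOF.  Let `E ∈ spec1 lam`, `δ > 0`.  By `mem_spectrum_iff_weyl_finite` (with `H1` self-adjoint)
there is a finitely supported `ψ ≠ 0` with `‖(H1 - E) ψ‖ ≤ δ ‖ψ‖`, supported in `[-N, N]`.
`v_translate (N + 1) K0` (any `K0` with `F K0 ≥ N + 3`) gives `j` with `v (n + F j) = v n` for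
`|n| ≤ N + 1` and `F j ≥ N + 3`.  Put `φ n = ψ (n - F j)`: supported in `[F j - N, F j + N]`, a subset
of `[2, F k - 1]` for all `k ≥ K` (`K` such that `F K ≥ F j + N + 2`), and for `k ≥ K`, `k ≥ 2`
apply `cyclic_solution` with `L = F k`, `w n = lam * v n`: for each `n ∈ [1, F k]`
`φ (n+1) + φ (n-1) + (lam v n - E) φ n = ((H1 - E) ψ) (n - F j)` (if `φ n ≠ 0` then
`|n - F j| ≤ N` and `v n = v (n - F j)`), so the sum over `Icc 1 (F k)` is at most
`‖(H1 - E) ψ‖^2 ≤ δ^2 ‖ψ‖^2 = δ^2 ∑ ‖φ n‖^2` (`lp.norm_rpow_eq_tsum`).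
We get `E'` and a nonzero `F k`-periodic `u` solving the equation on `1..F k`.
By `M_transfer` (with `w = v`), `M k (u 1, u 0) = (u (F k + 1), u (F k)) = (u 1, u 0)`.
`(u 1, u 0) ≠ 0`: otherwise the recursion gives `u n = 0` for `0 ≤ n ≤ F k + 1`, so `u = 0`
by periodicity.  So `xs lam E' (k+1) = 1` by `xs_eq_one_of_fixed`.
-/

namespace Pool.Agent.H98.Fib

theorem su_norm_sq {ι : Type} (f : L2 ι) : ‖f‖ ^ 2 = ∑' i, ‖f i‖ ^ 2 := by
  have h := lp.norm_rpow_eq_tsum (p := 2) (by simp) f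
  simpa using h

theorem su_summable {ι : Type} (f : L2 ι) : Summable fun i => ‖f i‖ ^ 2 := by
  have h := (lp.memℓp f).summable (by simp)
  simpa using h

theorem su_le_F {m k : ℕ} (h : m ≤ k + 1) (h5 : 5 ≤ k + 1) : m ≤ F k := by
  unfold F
  exact h.trans (Nat.le_fib_self h5)

theorem su_periodic_zero {L : ℕ} (hL : 0 < L) {u : ℤ → ℂ} (hper : ∀ n, u (n + L) = u n)
    (h : ∀ n : ℕ, n ≤ L → u n = 0) (n : ℤ) : u n = 0 := by
  have hper' : Function.Periodic u (L : ℤ) := hper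
  have h1 := hper'.sub_zsmul_eq (x := n) (n / L)
  have hLz : (0 : ℤ) < L := by exact_mod_cast hL
  have h2 : n - (n / (L : ℤ)) • (L : ℤ) = n % L := by
    rw [smul_eq_mul, mul_comm]
    have := Int.emod_def n L
    linarith
  rw [h2] at h1
  rw [← h1]
  have h3 : 0 ≤ n % (L : ℤ) := Int.emod_nonneg n hLz.ne'
  have h4 : n % (L : ℤ) < L := Int.emod_lt_of_pos n hLz
  obtain ⟨m, hm⟩ := Int.eq_ofNat_of_zero_le h3
  rw [hm] at h4 ⊢
  exact h m (by omega)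

theorem spec1_approx (lam E : ℝ) (hE : E ∈ spec1 lam) (δ : ℝ) (hδ : 0 < δ) :
    ∃ K : ℕ, ∀ k ≥ K, ∃ E' : ℝ, |E' - E| ≤ δ ∧ xs lam E' (k + 1) = 1 := by
  have hE' : (E : ℂ) ∈ spectrum ℂ (H1 lam) := hE
  obtain ⟨ψ, hfin, hne, hψ⟩ :=
    (mem_spectrum_iff_weyl_finite (H1 lam) (isSelfAdjoint_H1 lam) E).1 hE' δ hδ
  obtain ⟨N, hN⟩ : ∃ N : ℕ, ∀ n : ℤ, ψ n ≠ 0 → |n| ≤ N := by
    refine ⟨∑ n ∈ hfin.toFinset, n.natAbs, fun n hn => ?_⟩
    have h1 : n ∈ hfin.toFinset := by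
      rw [Set.Finite.mem_toFinset]
      exact hn
    have h2 : n.natAbs ≤ ∑ n ∈ hfin.toFinset, n.natAbs :=
      Finset.single_le_sum (f := fun n : ℤ => n.natAbs) (fun _ _ => Nat.zero_le _) h1
    rw [Int.abs_eq_natAbs]
    exact_mod_cast h2
  obtain ⟨j, hj, htr⟩ := v_translate (N + 1) (N + 5)
  have hFj : N + 6 ≤ F j := su_le_F (by omega) (by omega)
  refine ⟨F j + N + 5, fun k hk => ?_⟩
  have hFk : F j + N + 6 ≤ F k := su_le_F (by omega) (by omega)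
  have hFjz : (N : ℤ) + 6 ≤ F j := by exact_mod_cast hFj
  have hFkz : (F j : ℤ) + N + 6 ≤ F k := by exact_mod_cast hFk
  obtain ⟨φ, hφd⟩ : ∃ φ : ℤ → ℂ, φ = fun n => ψ (n - F j) := ⟨_, rfl⟩
  have hφ0 : ∀ n, φ n ≠ 0 → |n - F j| ≤ N := by
    intro n hn
    rw [hφd] at hn
    exact hN _ hn
  have hsupp : ∀ n : ℤ, (n < 2 ∨ (F k : ℤ) - 1 < n) → φ n = 0 := by
    intro n hn
    by_contra hc
    have h1 := abs_le.1 (hφ0 n hc)
    rcases hn with hn | hn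
    · linarith [h1.1]
    · linarith [h1.2]
  obtain ⟨m0, hm0⟩ : ∃ m, ψ m ≠ 0 := by
    by_contra hc
    push Not at hc
    apply hne
    ext m
    rw [hc m]
    rfl
  have hne' : ∃ n, φ n ≠ 0 := by
    refine ⟨m0 + F j, ?_⟩
    rw [hφd]
    simpa using hm0
  obtain ⟨χ, hχ⟩ : ∃ χ : L2 ℤ, χ = H1 lam ψ - (E : ℂ) • ψ := ⟨_, rfl⟩
  have hχa : ∀ m : ℤ, χ m = ψ (m + 1) + ψ (m - 1) + ((lam * v m : ℝ) : ℂ) * ψ m - (E : ℂ) * ψ m := by
    intro m
    rw [hχ]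
    rfl
  have heq : ∀ n : ℤ, φ (n + 1) + φ (n - 1) + ((lam * v n - E : ℝ) : ℂ) * φ n = χ (n - F j) := by
    intro n
    rw [hχa]
    by_cases h0 : φ n = 0
    · have h1 : ψ (n - F j) = 0 := by rw [hφd] at h0; exact h0
      rw [h0, h1, hφd]
      have e1 : n + 1 - (F j : ℤ) = n - F j + 1 := by ring
      have e2 : n - 1 - (F j : ℤ) = n - F j - 1 := by ring
      simp only [e1, e2]
      ring
    · have h1 := hφ0 n h0
      have h2 : |n - (F j : ℤ)| ≤ ((N + 1 : ℕ) : ℤ) := by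
        push_cast
        linarith
      have h3 := htr (n - F j) h2
      rw [sub_add_cancel] at h3
      rw [← h3, hφd]
      have e1 : n + 1 - (F j : ℤ) = n - F j + 1 := by ring
      have e2 : n - 1 - (F j : ℤ) = n - F j - 1 := by ring
      simp only [e1, e2]
      push_cast
      ring
  have hψn : ‖ψ‖ ^ 2 = ∑ n ∈ Finset.Icc (1 : ℤ) (F k), ‖φ n‖ ^ 2 := by
    rw [su_norm_sq ψ, ← (Equiv.subRight (F j : ℤ)).tsum_eq (fun m => ‖ψ m‖ ^ 2)]
    rw [tsum_eq_sum (s := Finset.Icc (1 : ℤ) (F k))]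
    · refine Finset.sum_congr rfl fun n _ => ?_
      rw [hφd]
      rfl
    · intro n hn
      have h1 : φ n = 0 := by
        by_contra hc
        apply hn
        have h2 := abs_le.1 (hφ0 n hc)
        rw [Finset.mem_Icc]
        constructor
        · linarith [h2.1]
        · linarith [h2.2]
      rw [hφd] at h1
      show ‖ψ (n - F j)‖ ^ 2 = 0
      have h2 : ψ (n - F j) = 0 := h1
      rw [h2]
      simp
  have hχn : ∑ n ∈ Finset.Icc (1 : ℤ) (F k), ‖χ (n - F j)‖ ^ 2 ≤ ‖χ‖ ^ 2 := by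
    rw [su_norm_sq χ, ← (Equiv.subRight (F j : ℤ)).tsum_eq (fun m => ‖χ m‖ ^ 2)]
    have hs : Summable fun n : ℤ => ‖χ ((Equiv.subRight (F j : ℤ)) n)‖ ^ 2 :=
      ((Equiv.subRight (F j : ℤ)).summable_iff (f := fun m => ‖χ m‖ ^ 2)).2 (su_summable χ)
    exact hs.sum_le_tsum _ fun n _ => by positivity
  have hsum : ∑ n ∈ Finset.Icc (1 : ℤ) (F k),
      ‖φ (n + 1) + φ (n - 1) + (((fun n => lam * v n) n - E : ℝ) : ℂ) * φ n‖ ^ 2
      ≤ δ ^ 2 * ∑ n ∈ Finset.Icc (1 : ℤ) (F k), ‖φ n‖ ^ 2 := by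
    rw [← hψn]
    have h1 : ‖χ‖ ≤ δ * ‖ψ‖ := by rw [hχ]; exact hψ
    calc _ = ∑ n ∈ Finset.Icc (1 : ℤ) (F k), ‖χ (n - F j)‖ ^ 2 := by
          refine Finset.sum_congr rfl fun n _ => ?_
          rw [← heq n]
      _ ≤ ‖χ‖ ^ 2 := hχn
      _ ≤ (δ * ‖ψ‖) ^ 2 := by gcongr
      _ = δ ^ 2 * ‖ψ‖ ^ 2 := by ring
  obtain ⟨E1, hE1, u, hu0, hper, hu⟩ := cyclic_solution (F k) (by omega) (fun n => lam * v n) E δ
    hδ.le φ hsupp hne' hsum
  refine ⟨E1, hE1, ?_⟩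
  have hM := M_transfer lam E1 k (by omega) v (fun _ _ _ => rfl) u hu
  have hp1 : u (F k + 1) = u 1 := by rw [add_comm]; exact hper 1
  have hp0 : u (F k) = u 0 := by
    have := hper 0
    rwa [zero_add] at this
  rw [hp1, hp0] at hM
  refine xs_eq_one_of_fixed lam E1 k ![u 1, u 0] ?_ hM
  intro hy
  have h1 : u 1 = 0 := by
    have := congrFun hy 0
    simpa using this
  have h0 : u 0 = 0 := by
    have := congrFun hy 1
    simpa using this
  have hall : ∀ n : ℕ, n ≤ F k → u n = 0 ∧ u ((n : ℤ) + 1) = 0 := by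
    intro n
    induction n with
    | zero => intro _; exact ⟨by simpa using h0, by simpa using h1⟩
    | succ n ih =>
      intro hn
      obtain ⟨i1, i2⟩ := ih (by omega)
      have h2 := hu ((n : ℤ) + 1) (by omega) (by omega)
      have e1 : (n : ℤ) + 1 - 1 = n := by ring
      rw [e1, i1, i2] at h2
      have i3 : u ((n : ℤ) + 1 + 1) = 0 := by simpa using h2
      constructor
      · push_cast
        exact i2
      · push_cast
        exact i3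
  obtain ⟨n, hn⟩ := hu0
  exact hn (su_periodic_zero (L := F k) (by omega) hper (fun n hn => (hall n hn).1) n)

end Pool.Agent.H98.Fib
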