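import Pool.Agent.H98.Fib.VPot

/-!
# FA-2. Transfer matrices and the trace sequence

PROOF.  `M (k+2) = M k * M (k+1)`, all determinants are `1`.
(1) `trace_M`: `k = 0, 1` by definition, `k = 2` by computation (`xs 3 = 2 xs 2 xs 1 - 1`).
    For `k+3`: `M (k+3) = M (k+1) * M (k+2) = M (k+1) * (M k * M (k+1))`, so by cyclicity
    `tr M (k+3) = tr (M k * M (k+1) * M (k+1))`, and Cayley-Hamilton for a 2x2 matrix `B` of
    determinant one, `B * B = (tr B) B - 1`, gives
    `tr M (k+3) = tr (M (k+1)) * tr (M (k+2)) - tr (M k)`.  With `tr M j = 2 xs (j+1)` this is the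
    recursion of `xs`.
(2) `M_transfer`: two-step induction on `k` for ALL `u` at once; take as induction
    statement exactly the one below.  Base cases: `k = 1` (`F 1 = 1`, `w 1 = v 1 = 1`) and `k = 2`
    (`F 2 = 2`, `w 2 = v 2 = 0`).  Step `k ≥ 1`: `F (k+2) = F (k+1) + F k`.  Apply the statement for
    `k+1` to `u` (sites `1..F (k+1)`), then the statement for `k` to the shifted function
    `u' n = u (n + F (k+1))` and potential `w' n = w (n + F (k+1))`; the hypothesis
    `w' n = v n` for `1 ≤ n ≤ F k` holds as `w (n + F (k+1)) = v (n + F (k+1)) = v n` by `v_add_F`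
    (`n + 2 ≤ F k + 2 ≤ F (k+2) = F k + F (k+1)` since `F (k+1) ≥ 2` for `k ≥ 1`).
-/

namespace Pool.Agent.H98.Fib

open Matrix

/-- The transfer matrices over one period. -/
noncomputable def M (lam E : ℝ) : ℕ → Matrix (Fin 2) (Fin 2) ℂ
  | 0 => !![(E : ℂ), -1; 1, 0]
  | 1 => !![(E : ℂ) - (lam : ℂ), -1; 1, 0]
  | (k + 2) => M lam E k * M lam E (k + 1)

theorem det_M (lam E : ℝ) (k : ℕ) : (M lam E k).det = 1 := by
  induction k using Nat.twoStepInduction with
  | zero => simp [M, Matrix.det_fin_two]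
  | one => simp [M, Matrix.det_fin_two]
  | more k h1 h2 => rw [M, Matrix.det_mul, h1, h2, one_mul]

theorem M_zero (lam E : ℝ) : M lam E 0 = !![(E : ℂ), -1; 1, 0] := rfl

theorem M_one (lam E : ℝ) : M lam E 1 = !![(E : ℂ) - (lam : ℂ), -1; 1, 0] := rfl

theorem M_add_two (lam E : ℝ) (k : ℕ) :
    M lam E (k + 2) = M lam E k * M lam E (k + 1) := rfl

theorem xs_add_three (lam E : ℝ) (k : ℕ) :
    xs lam E (k + 3) = 2 * xs lam E (k + 2) * xs lam E (k + 1) - xs lam E k := rfl

theorem cayley_two (B : Matrix (Fin 2) (Fin 2) ℂ) (h : B.det = 1) :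
    B * B = B.trace • B - 1 := by
  rw [Matrix.det_fin_two] at h
  ext i j
  fin_cases i <;> fin_cases j <;>
    simp [Matrix.mul_apply, Matrix.trace, Fin.sum_univ_two] <;>
    first | linear_combination (-1 : ℂ) * h | ring

theorem trace_M_add_three (lam E : ℝ) (k : ℕ) :
    (M lam E (k + 3)).trace
      = (M lam E (k + 1)).trace * (M lam E (k + 2)).trace - (M lam E k).trace := by
  rw [show k + 3 = (k + 1) + 2 from rfl, M_add_two lam E (k + 1),
    show k + 1 + 1 = k + 2 from rfl, M_add_two lam E k, Matrix.trace_mul_comm,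
    Matrix.mul_assoc, cayley_two _ (det_M lam E (k + 1)), Matrix.mul_sub, Matrix.mul_smul,
    Matrix.trace_sub, Matrix.trace_smul, Matrix.mul_one, smul_eq_mul]

theorem trace_M (lam E : ℝ) (k : ℕ) : (M lam E k).trace = 2 * (xs lam E (k + 1) : ℂ) := by
  induction k using Nat.strong_induction_on with
  | _ k ih =>
    match k, ih with
    | 0, _ =>
      rw [M_zero]
      simp only [Matrix.trace, Fin.sum_univ_two, xs]
      simp
      ring
    | 1, _ =>
      rw [M_one]
      simp only [Matrix.trace, Fin.sum_univ_two, xs]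
      simp
      ring
    | 2, _ =>
      show (M lam E 0 * M lam E 1).trace = _
      rw [M_zero, M_one]
      simp only [Matrix.trace, Fin.sum_univ_two, xs]
      simp [Matrix.mul_apply, Fin.sum_univ_two]
      ring
    | (k + 3), ih =>
      rw [trace_M_add_three, ih (k + 1) (by omega), ih (k + 2) (by omega), ih k (by omega),
        show k + 3 + 1 = (k + 1) + 3 from rfl, xs_add_three lam E (k + 1),
        show k + 1 + 2 = k + 2 + 1 from rfl]
      push_cast
      ring

theorem F_add_two (k : ℕ) : F (k + 2) = F k + F (k + 1) := by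
  unfold F
  exact Nat.fib_add_two

theorem F_succ_ge_two (k : ℕ) (hk : 1 ≤ k) : 2 ≤ F (k + 1) := by
  unfold F
  have : Nat.fib 3 ≤ Nat.fib (k + 1 + 1) := Nat.fib_mono (by omega)
  simpa [show Nat.fib 3 = 2 from rfl] using this

theorem M_transfer_aux (lam E : ℝ) (k : ℕ) : 1 ≤ k → ∀ (w : ℤ → ℝ)
    (_ : ∀ n : ℤ, 1 ≤ n → n ≤ F k → w n = v n) (u : ℤ → ℂ)
    (_ : ∀ n : ℤ, 1 ≤ n → n ≤ F k →
      u (n + 1) + u (n - 1) + ((lam * w n : ℝ) : ℂ) * u n = (E : ℂ) * u n),
    M lam E k *ᵥ ![u 1, u 0] = ![u (F k + 1), u (F k)] := by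
  induction k using Nat.strong_induction_on with
  | _ k ih =>
    match k, ih with
    | 0, _ => intro h; omega
    | 1, _ =>
      intro _ w hw u hu
      have hF : F 1 = 1 := rfl
      have h1 := hu 1 le_rfl (by rw [hF]; norm_num)
      rw [hw 1 le_rfl (by rw [hF]; norm_num), v_one] at h1
      norm_num at h1
      rw [hF, M_one]
      ext i
      fin_cases i
      · simp [Matrix.mulVec, dotProduct, Fin.sum_univ_two]
        linear_combination -h1
      · simp [Matrix.mulVec, dotProduct, Fin.sum_univ_two]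
    | 2, _ =>
      intro _ w hw u hu
      have hF : F 2 = 2 := rfl
      have h1 := hu 1 le_rfl (by rw [hF]; norm_num)
      have h2 := hu 2 (by norm_num) (by rw [hF]; norm_num)
      rw [hw 1 le_rfl (by rw [hF]; norm_num), v_one] at h1
      rw [hw 2 (by norm_num) (by rw [hF]; norm_num), v_two] at h2
      norm_num at h1 h2
      rw [hF, show M lam E 2 = M lam E 0 * M lam E 1 from rfl, M_zero, M_one]
      ext i
      fin_cases i
      · simp [Matrix.mulVec, dotProduct, Fin.sum_univ_two, Matrix.mul_apply]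
        linear_combination -h2 - (E : ℂ) * h1
      · simp [Matrix.mulVec, dotProduct, Fin.sum_univ_two, Matrix.mul_apply]
        linear_combination -h1
    | (k + 3), ih =>
      intro _ w hw u hu
      have hF : F (k + 3) = F (k + 1) + F (k + 2) := F_add_two (k + 1)
      have hF2 : 2 ≤ F (k + 2) := F_succ_ge_two (k + 1) (by omega)
      have hFz : (F (k + 3) : ℤ) = F (k + 1) + F (k + 2) := by rw [hF]; push_cast; ring
      have hF2z : (2 : ℤ) ≤ F (k + 2) := by exact_mod_cast hF2
      have hF1z : (0 : ℤ) ≤ F (k + 1) := by positivity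
      have e1 := ih (k + 2) (by omega) (by omega) w
        (fun n h1 h2 => hw n h1 (by rw [hFz]; linarith)) u
        (fun n h1 h2 => hu n h1 (by rw [hFz]; linarith))
      have e2 := ih (k + 1) (by omega) (by omega) (fun n => w (n + F (k + 2)))
        (fun n h1 h2 => by
          show w (n + F (k + 2)) = v n
          rw [hw (n + F (k + 2)) (by linarith) (by rw [hFz]; linarith)]
          exact v_add_F (k + 2) n h1 (by
            rw [show k + 2 + 1 = k + 3 from rfl, hFz]; linarith))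
        (fun n => u (n + F (k + 2)))
        (fun n h1 h2 => by
          have h := hu (n + F (k + 2)) (by linarith) (by rw [hFz]; linarith)
          show u (n + 1 + F (k + 2)) + u (n - 1 + F (k + 2)) + _ = _
          rw [show n + 1 + (F (k + 2) : ℤ) = n + F (k + 2) + 1 by ring,
            show n - 1 + (F (k + 2) : ℤ) = n + F (k + 2) - 1 by ring]
          exact h)
      rw [show k + 3 = (k + 1) + 2 from rfl, M_add_two, ← Matrix.mulVec_mulVec,
        show k + 1 + 1 = k + 2 from rfl, e1]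
      simp only [zero_add] at e2
      rw [show (F (k + 2) : ℤ) + 1 = 1 + F (k + 2) by ring, e2,
        show k + 1 + 2 = k + 3 from rfl, hFz]
      congr 2
      ring_nf

theorem M_transfer (lam E : ℝ) (k : ℕ) (hk : 1 ≤ k) (w : ℤ → ℝ)
    (hw : ∀ n : ℤ, 1 ≤ n → n ≤ F k → w n = v n) (u : ℤ → ℂ)
    (hu : ∀ n : ℤ, 1 ≤ n → n ≤ F k →
      u (n + 1) + u (n - 1) + ((lam * w n : ℝ) : ℂ) * u n = (E : ℂ) * u n) :
    M lam E k *ᵥ ![u 1, u 0] = ![u (F k + 1), u (F k)] :=
  M_transfer_aux lam E k hk w hw u hu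

theorem det_sub_smul (B : Matrix (Fin 2) (Fin 2) ℂ) (h : B.det = 1) (z : ℂ) :
    (B - z • (1 : Matrix (Fin 2) (Fin 2) ℂ)).det = z ^ 2 - B.trace * z + 1 := by
  rw [Matrix.det_fin_two] at h
  rw [Matrix.det_fin_two]
  simp [Matrix.trace, Fin.sum_univ_two]
  linear_combination h

/-- A nonzero solution that is multiplied by `1` over the period forces `x_k = 1`. -/
theorem xs_eq_one_of_fixed (lam E : ℝ) (k : ℕ) (y : Fin 2 → ℂ) (hy : y ≠ 0)
    (h : M lam E k *ᵥ y = y) : xs lam E (k + 1) = 1 := by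
  have h1 : (M lam E k - (1 : ℂ) • (1 : Matrix (Fin 2) (Fin 2) ℂ)) *ᵥ y = 0 := by
    rw [Matrix.sub_mulVec, one_smul, Matrix.one_mulVec, h, sub_self]
  have h2 : (M lam E k - (1 : ℂ) • (1 : Matrix (Fin 2) (Fin 2) ℂ)).det = 0 :=
    Matrix.exists_mulVec_eq_zero_iff.1 ⟨y, hy, h1⟩
  rw [det_sub_smul _ (det_M lam E k), trace_M] at h2
  have h3 : (xs lam E (k + 1) : ℂ) = 1 := by linear_combination (-1 / 2 : ℂ) * h2
  exact_mod_cast h3

/-- If `|x_k| ≤ 1` there is a vector multiplied by a number of modulus one. -/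
theorem exists_unimodular (lam E : ℝ) (k : ℕ) (h : |xs lam E (k + 1)| ≤ 1) :
    ∃ (z : ℂ) (y : Fin 2 → ℂ), ‖z‖ = 1 ∧ y ≠ 0 ∧ M lam E k *ᵥ y = z • y := by
  set x := xs lam E (k + 1) with hx
  have hx1 : 0 ≤ 1 - x ^ 2 := by
    have := sq_le_one_iff_abs_le_one x |>.2 h
    linarith
  set r := Real.sqrt (1 - x ^ 2) with hr
  have hr2 : r ^ 2 = 1 - x ^ 2 := Real.sq_sqrt hx1
  set z : ℂ := ⟨x, r⟩ with hz
  have hzn : ‖z‖ = 1 := by
    rw [← sq_eq_sq₀ (norm_nonneg _) zero_le_one, ← Complex.normSq_eq_norm_sq,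
      Complex.normSq_apply]
    simp only [hz]
    nlinarith
  have hz2 : z ^ 2 - 2 * (x : ℂ) * z + 1 = 0 := by
    apply Complex.ext
    · simp [hz, pow_two]
      nlinarith
    · simp [hz, pow_two]
      ring
  have h2 : (M lam E k - z • (1 : Matrix (Fin 2) (Fin 2) ℂ)).det = 0 := by
    rw [det_sub_smul _ (det_M lam E k), trace_M]
    exact hz2
  obtain ⟨y, hy, h3⟩ := Matrix.exists_mulVec_eq_zero_iff.2 h2
  refine ⟨z, y, hzn, hy, ?_⟩
  rw [Matrix.sub_mulVec, Matrix.smul_mulVec, Matrix.one_mulVec] at h3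
  exact sub_eq_zero.1 h3

end Pool.Agent.H98.Fib
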