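import Pool.Agent.H98.Fib.Defs

/-!
# FA-1. The Fibonacci potential: floors, translation by Fibonacci numbers

PROOF.  Write `a = alpha`, `a ^ 2 = 1 - a`, `0 < a < 1`, `a` irrational
(`irrational_sqrt` for 5).  `F k = fib (k+1)`.

(0) `v_eq_floor`: `⌊(n+1) a⌋ = ⌊n a + a⌋`; with `y = fract (n a)`, `⌊n a + a⌋ = ⌊n a⌋ + ⌊y + a⌋`
    and `⌊y + a⌋ = 1` iff `1 - a ≤ y`, else `0`.
(1) `F_alpha`: induction (two-step) on `k`:  `k = 0`: `1 * a - 0 = a`; `k = 1`: `a - 1 = - a^2`;
    step: `F (k+2) = F (k+1) + F k`, `a^(k+1) - a^(k+2) = a^(k+3)`.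
(2) best approximation (`dist_ge`): if `1 ≤ m < F (k+1)` and `p` is an integer then
    `a^(k+1) ≤ |m a - p|`.  Proof: the integer matrix with columns `(F k, fib k)` and
    `(F (k+1), fib (k+1))` has determinant `F k * fib (k+1) - F (k+1) * fib k = (-1)^k`
    (Cassini; or prove it by induction), so `(m, p) = x (F k, fib k) + y (F (k+1), fib (k+1))` with
    integers `x, y` (explicit: `x = (-1)^k (m fib (k+1) - p F (k+1))`,
    `y = (-1)^k (p F k - m fib k)`).  Then by (1)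
    `m a - p = x (-1)^k a^(k+1) + y (-1)^(k+1) a^(k+2)`, i.e. `|m a - p| = |x a^(k+1) - y a^(k+2)|`.
    If `y = 0` then `m = x F k > 0`, so `x ≥ 1`.  If `y ≥ 1` then `x ≤ -1` (otherwise
    `m ≥ F (k+1)`), so the absolute value is `|x| a^(k+1) + |y| a^(k+2)`.
    If `y ≤ -1` then `x ≥ 1` (otherwise `m ≤ 0`), same conclusion.
(3) hence for `1 ≤ m < F (k+1)`: `⌊(m + F k) a⌋ = fib k + ⌊m a⌋`: indeed
    `(m + F k) a = fib k + m a + e` with `e = (-1)^k a^(k+1)`.  If `e < 0`: `m a - ⌊m a⌋ ≥ -e` by (2)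
    and `m a + e < ⌊m a⌋ + 1`.  If `e > 0`: by (2) `⌊m a⌋ + 1 - m a ≥ e`, and equality is impossible
    since otherwise `(m + F k) a` would be an integer, but `a` is irrational.
(4) `v_add_F`: from (0) and (3) for `m = n` and `m = n + 1` (both in `[1, F (k+1) - 1]`).
(5) `v_translate`: the finitely many numbers `fract (m a)`, `|m| ≤ N + 1`, are `< 1`: choose
    `d > 0` with `fract (m a) + d < 1` for all of them and an even `j ≥ K` with `a^(j+1) < d`;
    then `⌊(m + F j) a⌋ = fib j + ⌊m a⌋` for `|m| ≤ N + 1` because `0 < e = a^(j+1) < d`.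
-/

namespace Pool.Agent.H98.Fib

theorem vp_bounds : (618 : ℝ) / 1000 < alpha ∧ alpha < 6181 / 10000 := by
  have h1 : (2236 : ℝ) / 1000 < Real.sqrt 5 := by
    rw [Real.lt_sqrt (by norm_num)]
    norm_num
  have h2 : Real.sqrt 5 < 22362 / 10000 := by
    rw [Real.sqrt_lt' (by norm_num)]
    norm_num
  unfold alpha
  constructor <;> linarith

theorem alpha_pos : 0 < alpha := by
  have := vp_bounds.1
  linarith

theorem alpha_lt_one : alpha < 1 := by
  have := vp_bounds.2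
  linarith

theorem alpha_sq : alpha ^ 2 = 1 - alpha := by
  have h : Real.sqrt 5 ^ 2 = 5 := Real.sq_sqrt (by norm_num)
  unfold alpha
  linear_combination h / 4

theorem v_eq_floor (n : ℤ) :
    v n = (⌊((n : ℝ) + 1) * alpha⌋ : ℝ) - (⌊(n : ℝ) * alpha⌋ : ℝ) := by
  have h0 := alpha_pos
  have h1 := alpha_lt_one
  have h2 := Int.floor_le ((n : ℝ) * alpha)
  have h3 := Int.lt_floor_add_one ((n : ℝ) * alpha)
  have h4 : Int.fract ((n : ℝ) * alpha) = (n : ℝ) * alpha - ⌊(n : ℝ) * alpha⌋ := rfl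
  unfold v
  split_ifs with h
  · have h5 : ⌊((n : ℝ) + 1) * alpha⌋ = ⌊(n : ℝ) * alpha⌋ + 1 := by
      rw [Int.floor_eq_iff]
      rw [h4] at h
      push_cast
      constructor <;> linarith
    rw [h5]
    push_cast
    ring
  · have h5 : ⌊((n : ℝ) + 1) * alpha⌋ = ⌊(n : ℝ) * alpha⌋ := by
      rw [Int.floor_eq_iff]
      rw [h4] at h
      constructor <;> linarith
    rw [h5]
    ring

theorem F_alpha (k : ℕ) : (F k : ℝ) * alpha - (Nat.fib k : ℝ) = (-1) ^ k * alpha ^ (k + 1) := by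
  induction k using Nat.twoStepInduction with
  | zero => simp [F]
  | one =>
    have := alpha_sq
    simp only [F, Nat.reduceAdd, Nat.fib_two, Nat.fib_one, Nat.cast_one]
    linarith
  | more k h1 h2 =>
    have e1 : (F (k + 2) : ℝ) = F k + F (k + 1) := by
      unfold F
      rw [show k + 2 + 1 = (k + 1) + 2 by ring, Nat.fib_add_two]
      push_cast
      ring
    have e2 : (Nat.fib (k + 2) : ℝ) = Nat.fib k + Nat.fib (k + 1) := by
      rw [Nat.fib_add_two]
      push_cast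
      ring
    rw [e1, e2]
    linear_combination h1 + h2 - (-1) ^ k * alpha ^ (k + 1) * alpha_sq

theorem vp_cassini (k : ℕ) :
    (F k : ℤ) * Nat.fib (k + 1) - (F (k + 1) : ℤ) * Nat.fib k = (-1) ^ k := by
  induction k with
  | zero => simp [F]
  | succ k ih =>
    have e1 : (Nat.fib (k + 1 + 1 + 1) : ℤ) = Nat.fib (k + 1) + Nat.fib (k + 1 + 1) := by
      rw [Nat.fib_add_two]
      push_cast
      ring
    have e2 : (Nat.fib (k + 1 + 1) : ℤ) = Nat.fib k + Nat.fib (k + 1) := by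
      rw [Nat.fib_add_two]
      push_cast
      ring
    unfold F at ih ⊢
    rw [e1]
    rw [e2] at ih ⊢
    linear_combination -ih

theorem vp_F_pos (k : ℕ) : 0 < F k := Nat.fib_pos.2 (Nat.succ_pos k)

/-- best approximation -/
theorem vp_dist_ge (k : ℕ) (m p : ℤ) (h1 : 1 ≤ m) (h2 : m < F (k + 1)) :
    alpha ^ (k + 1) ≤ |(m : ℝ) * alpha - p| := by
  have ha := alpha_pos
  have hF : (0 : ℤ) < F k := by exact_mod_cast vp_F_pos k
  have hs : ((-1 : ℤ) ^ k) * (-1) ^ k = 1 := by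
    rw [← mul_pow]; norm_num
  obtain ⟨x, hx⟩ : ∃ x : ℤ, x = (-1) ^ k * (m * Nat.fib (k + 1) - p * F (k + 1)) := ⟨_, rfl⟩
  obtain ⟨y, hy⟩ : ∃ y : ℤ, y = (-1) ^ k * (p * F k - m * Nat.fib k) := ⟨_, rfl⟩
  have hc := vp_cassini k
  have em : m = x * F k + y * F (k + 1) := by
    rw [hx, hy]
    linear_combination (-m) * hs - (-1) ^ k * m * hc
  have ep : p = x * Nat.fib k + y * Nat.fib (k + 1) := by
    rw [hx, hy]
    linear_combination (-p) * hs - (-1) ^ k * p * hc
  have emr : (m : ℝ) = x * F k + y * F (k + 1) := by exact_mod_cast congrArg (Int.cast : ℤ → ℝ) em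
  have epr : (p : ℝ) = x * Nat.fib k + y * Nat.fib (k + 1) := by
    exact_mod_cast congrArg (Int.cast : ℤ → ℝ) ep
  have e1 := F_alpha k
  have e2 := F_alpha (k + 1)
  have key : (m : ℝ) * alpha - p = (-1) ^ k * alpha ^ (k + 1) * (x - y * alpha) := by
    rw [emr, epr]
    linear_combination (x : ℝ) * e1 + (y : ℝ) * e2
  have habs : |((-1 : ℝ)) ^ k| = 1 := by rw [abs_pow, abs_neg, abs_one, one_pow]
  have hge : 1 ≤ |(x : ℝ) - y * alpha| := by
    rcases lt_trichotomy y 0 with h | h | h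
    · have hx1 : 1 ≤ x := by
        by_contra hcon
        have h5 : x ≤ 0 := by omega
        have h6 : x * F k ≤ 0 := mul_nonpos_of_nonpos_of_nonneg h5 hF.le
        have h7 : y * F (k + 1) ≤ 0 := mul_nonpos_of_nonpos_of_nonneg h.le (by positivity)
        omega
      have h8 : (1 : ℝ) ≤ x := by exact_mod_cast hx1
      have h9 : (y : ℝ) ≤ -1 := by exact_mod_cast (show y ≤ -1 by omega)
      refine le_trans ?_ (le_abs_self _)
      nlinarith
    · have hx1 : 1 ≤ x := by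
        by_contra hcon
        have h5 : x ≤ 0 := by omega
        have h6 : x * F k ≤ 0 := mul_nonpos_of_nonpos_of_nonneg h5 hF.le
        rw [h] at em
        omega
      have h8 : (1 : ℝ) ≤ x := by exact_mod_cast hx1
      rw [h, Int.cast_zero, zero_mul, sub_zero]
      exact h8.trans (le_abs_self _)
    · have hx1 : x ≤ -1 := by
        by_contra hcon
        have h5 : 0 ≤ x := by omega
        have h6 : 0 ≤ x * F k := mul_nonneg h5 hF.le
        have h7 : (F (k + 1) : ℤ) ≤ y * F (k + 1) :=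
          le_mul_of_one_le_left (by positivity) h
        omega
      have h8 : (x : ℝ) ≤ -1 := by exact_mod_cast hx1
      have h9 : (1 : ℝ) ≤ y := by exact_mod_cast h
      refine le_trans ?_ (neg_le_abs _)
      nlinarith
  rw [key, abs_mul, abs_mul, habs, one_mul, abs_of_pos (pow_pos ha _)]
  exact le_mul_of_one_le_right (pow_pos ha _).le hge

theorem vp_irr (a b : ℤ) (ha : a ≠ 0) : (a : ℝ) * alpha ≠ b := by
  intro h
  have hirr : Irrational (Real.sqrt 5) := by
    have := Nat.Prime.irrational_sqrt (p := 5) (by norm_num)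
    exact_mod_cast this
  apply hirr
  refine ⟨2 * (b : ℚ) / a + 1, ?_⟩
  have ha' : (a : ℝ) ≠ 0 := by exact_mod_cast ha
  unfold alpha at h
  push_cast
  field_simp
  linarith

theorem vp_floor (k : ℕ) (m : ℤ) (h1 : 1 ≤ m) (h2 : m < F (k + 1)) :
    ⌊((m : ℝ) + F k) * alpha⌋ = Nat.fib k + ⌊(m : ℝ) * alpha⌋ := by
  have ha := alpha_pos
  have hp : 0 < alpha ^ (k + 1) := pow_pos ha _
  have e1 := F_alpha k
  have g1 := vp_dist_ge k m ⌊(m : ℝ) * alpha⌋ h1 h2
  have g2 := vp_dist_ge k m (⌊(m : ℝ) * alpha⌋ + 1) h1 h2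
  have h3 := Int.floor_le ((m : ℝ) * alpha)
  have h4 := Int.lt_floor_add_one ((m : ℝ) * alpha)
  rw [abs_of_nonneg (by linarith)] at g1
  push_cast at g2
  rw [abs_of_neg (by linarith)] at g2
  rw [Int.floor_eq_iff]
  push_cast
  rcases neg_one_pow_eq_or ℝ k with hk | hk
  · rw [hk, one_mul] at e1
    refine ⟨by linarith, lt_of_le_of_ne (by linarith) fun h => ?_⟩
    refine vp_irr (m + F k) (Nat.fib k + ⌊(m : ℝ) * alpha⌋ + 1) ?_ ?_
    · have : (0 : ℤ) < F k := by exact_mod_cast vp_F_pos k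
      omega
    · push_cast
      exact h
  · rw [hk] at e1
    constructor <;> linarith

theorem v_add_F (k : ℕ) (n : ℤ) (h1 : 1 ≤ n) (h2 : n + 2 ≤ F (k + 1)) :
    v (n + F k) = v n := by
  rw [v_eq_floor, v_eq_floor]
  have e1 := vp_floor k n h1 (by omega)
  have e2 := vp_floor k (n + 1) (by omega) (by omega)
  push_cast at e2 ⊢
  rw [show ((n : ℝ) + F k + 1) * alpha = ((n : ℝ) + 1 + F k) * alpha by ring, e1, e2]
  push_cast
  ring

theorem v_translate (N K : ℕ) :
    ∃ j : ℕ, K ≤ j ∧ ∀ n : ℤ, |n| ≤ N → v (n + F j) = v n := by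
  have ha := alpha_pos
  have ht : Filter.Tendsto (fun i : ℕ => alpha ^ (2 * i + 1)) Filter.atTop (nhds 0) := by
    have h1 := tendsto_pow_atTop_nhds_zero_of_lt_one ha.le alpha_lt_one
    have h2 : Filter.Tendsto (fun i : ℕ => 2 * i + 1) Filter.atTop Filter.atTop :=
      Filter.tendsto_atTop_mono (fun i => by omega : ∀ i : ℕ, i ≤ 2 * i + 1) Filter.tendsto_id
    exact h1.comp h2
  have hev : ∀ᶠ i : ℕ in Filter.atTop, ∀ m ∈ Finset.Icc (-((N : ℤ) + 1)) ((N : ℤ) + 1),
      alpha ^ (2 * i + 1) < 1 - Int.fract ((m : ℝ) * alpha) := by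
    rw [Filter.eventually_all_finset]
    intro m _
    have h1 := Int.fract_lt_one ((m : ℝ) * alpha)
    exact ht.eventually_lt_const (by linarith)
  obtain ⟨i, hi, hK⟩ := (hev.and (Filter.eventually_ge_atTop K)).exists
  refine ⟨2 * i, by omega, fun n hn => ?_⟩
  have key : ∀ m : ℤ, |m| ≤ N + 1 →
      ⌊((m : ℝ) + F (2 * i)) * alpha⌋ = Nat.fib (2 * i) + ⌊(m : ℝ) * alpha⌋ := by
    intro m hm
    rw [abs_le] at hm
    have h1 := hi m (Finset.mem_Icc.2 ⟨by omega, by omega⟩)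
    have e1 := F_alpha (2 * i)
    rw [pow_mul, neg_one_sq, one_pow, one_mul] at e1
    have hp : 0 < alpha ^ (2 * i + 1) := pow_pos ha _
    have h2 : Int.fract ((m : ℝ) * alpha) = (m : ℝ) * alpha - ⌊(m : ℝ) * alpha⌋ := rfl
    have h3 := Int.floor_le ((m : ℝ) * alpha)
    rw [Int.floor_eq_iff]
    push_cast
    constructor <;> linarith
  have hn' := abs_le.1 hn
  have e1 := key n (by rw [abs_le]; omega)
  have e2 := key (n + 1) (by rw [abs_le]; omega)
  rw [v_eq_floor, v_eq_floor]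
  push_cast at e2 ⊢
  rw [show ((n : ℝ) + F (2 * i) + 1) * alpha = ((n : ℝ) + 1 + F (2 * i)) * alpha by ring, e1, e2]
  push_cast
  ring

theorem v_one : v 1 = 1 := by
  obtain ⟨h1, h2⟩ := vp_bounds
  have e1 : ⌊(((1 : ℤ) : ℝ) + 1) * alpha⌋ = 1 := by
    rw [Int.floor_eq_iff]
    push_cast
    constructor <;> linarith
  have e2 : ⌊((1 : ℤ) : ℝ) * alpha⌋ = 0 := by
    rw [Int.floor_eq_iff]
    push_cast
    constructor <;> linarith
  rw [v_eq_floor, e1, e2]
  norm_num

theorem v_two : v 2 = 0 := by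
  obtain ⟨h1, h2⟩ := vp_bounds
  have e1 : ⌊(((2 : ℤ) : ℝ) + 1) * alpha⌋ = 1 := by
    rw [Int.floor_eq_iff]
    push_cast
    constructor <;> linarith
  have e2 : ⌊((2 : ℤ) : ℝ) * alpha⌋ = 1 := by
    rw [Int.floor_eq_iff]
    push_cast
    constructor <;> linarith
  rw [v_eq_floor, e1, e2]
  norm_num

end Pool.Agent.H98.Fib
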